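import Pool.Agent.LibBE36K.K02
import Pool.Agent.LibBE88.V12

/-! BE36: families of metrics with holomorphic extensions. Definitions (architect helper88). -/

open MeasureTheory Set Filter Topology
open scoped ContDiff

namespace BE36

open BGS BR BE

variable {Γ : Type} [Group Γ] [MulAction Γ Pl] {D : Set Pl} {ι : Type}

/-- A uniform family of metrics conformal to `m` (structure `CF`) such that the conformal factors have
holomorphic extensions to balls of radius `(hc A (lQ i))⁻¹`: `exp (lQ i)` is the inverse of the scale of the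
mollification. -/
structure CH (Γ : Type) [Group Γ] [MulAction Γ Pl] (D : Set Pl) (m : Pl → Co) (a b : ℝ)
    (s : ι → ℝ × Pl → ℝ) (lQ : ι → ℝ) : Prop where
  cf : CF Γ D m a b s
  nonneg : ∀ i, 0 ≤ lQ i
  /-- the base metric -/
  hm : ∀ K : Set Pl, IsCompact K → HB (fun _ : K => (0 : ℝ)) (fun _ => m) (fun z => (z : Pl))
  /-- the deck transformations -/
  hG : ∀ (γ : Γ) (K : Set Pl), IsCompact K →
    HB (fun _ : K => (0 : ℝ)) (fun _ (z : Pl) => γ • z) (fun z => (z : Pl))
  /-- the conformal factors -/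
  hs : ∀ K : Set Pl, IsCompact K →
    HB (fun q : Lx ι ℝ K => lQ q.i) (fun q => s q.i) (fun q => (q.p, q.z))

/-- The scale of the local families. -/
def lx {K : Set Pl} (lQ : ι → ℝ) (q : Lx ι ℝ K) : ℝ := lQ q.i

/-- The scale of the global families: `exp (lh q) = Q (2 + d)`. -/
noncomputable def lh (m : Pl → Co) (s : ι → ℝ × Pl → ℝ) (lQ : ι → ℝ) (q : Ix ι ℝ Γ D) : ℝ :=
  lQ q.i + ll m s q

/-- The class `Adm` with one constant. -/
def HAd (Γ : Type) [Group Γ] [MulAction Γ Pl] (D : Set Pl) (m : Pl → Co) (s : ι → ℝ × Pl → ℝ)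
    (lQ : ι → ℝ) {F FC : Type} [NormedAddCommGroup F] [NormedSpace ℝ F] [NormedAddCommGroup FC]
    [NormedSpace ℂ FC] [CX F FC] (Q : ι → ℝ × Pl × Pl → F) : Prop :=
  HB (fun q : Ix ι ℝ Γ D => lh m s lQ q) (fun q (e : ℝ × Pl × Pl) => Q q.i (e.1, e.2.1, q.g • e.2.2))
    Ix.b

/-- The norm of the complexified tangent space: `√(|re w|² + |im w|²)` for the form `c`. -/
noncomputable def cn (c : Co) (w : ℂ × ℂ) : ℝ :=
  √(qf c (CX.re w : Pl) + qf c (CX.im w : Pl))

/-- The nested domains around the index `q`: `κ'` for the parameter, `κ` for the points, in the norms of the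
metric at `x` and at `y`. -/
def Om (m : Pl → Co) (s : ι → ℝ × Pl → ℝ) (q : Ix ι ℝ Γ D) (κ' κ : ℝ) :
    Set (ℂ × (ℂ × ℂ) × (ℂ × ℂ)) :=
  {z | ‖z.1 - (q.p : ℂ)‖ < κ' ∧ cn (mm m (s q.i) q.p q.x) (z.2.1 - CX.of q.x) < κ ∧
    cn (mm m (s q.i) q.p q.y) (z.2.2 - CX.of q.y) < κ}

end BE36
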