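import Pool.Agent.LibBE36.Defs
import Pool.Agent.LibBE36K.K05
import Pool.Agent.LibBE88.A3

/-! Row BE36 G01 (cites K02, K04, K05; `LibBE88/A1`, `A2`): the metrics of the family. MEDIUM, 45 min.
Plan. `HB_pt`, `HB_idx`: `HB_id`, the points are bounded (`q.hp`, `K` compact; `hc A t ≥ A`). `HB_mm`:
`mm m s p z = exp (s (p, z)) • m z`: `HB_exp` for `h.hs K hK` (the values are bounded: `s_bdd h.cf`), `m` composed with
`e ↦ e.2`: `h.hm K hK` pulled back along `q ↦ ⟨q.z, q.hz⟩` (`HB_pull`, `HB_mono` from the scale `0` to `lQ`), `HB_comp`,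
`HB_smul`. `mm_inv`: from `BE.mm_low h.cf hK`. `HB_E`, `HB_F`, `HB_G`, `HB_dt`: `HB_clm`, `HB_mul`, `HB_sub`.
`HB_act`: `h.hG γ K hK` for the finitely many `γ ∈ S` (`HB_finite`, `HB_pull`, `HB_mono`), at the points `q.w`. -/

open MeasureTheory Set Filter Topology
open scoped ContDiff

namespace BE36

open BGS BR BE

variable {Γ : Type} [Group Γ] [MulAction Γ Pl] {D : Set Pl} {ι : Type} {m : Pl → Co} {a b : ℝ}
  {s : ι → ℝ × Pl → ℝ} {lQ : ι → ℝ} {K : Set Pl}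

theorem lx_nonneg (h : CH Γ D m a b s lQ) (q : Lx ι ℝ K) : 0 ≤ lx lQ q := h.nonneg q.i

theorem lh_nonneg (h : CH Γ D m a b s lQ) (q : Ix ι ℝ Γ D) : 0 ≤ lh m s lQ q :=
  add_nonneg (h.nonneg q.i) (ll_nonneg m s q)

theorem G01_le {A t : ℝ} (hA : 1 ≤ A) (ht : 0 ≤ t) : A ≤ hc A t := by
  have h1 : 1 ≤ Real.exp (A * t) := Real.one_le_exp (mul_nonneg (by linarith) ht)
  have h2 : A * 1 ≤ A * Real.exp (A * t) := mul_le_mul_of_nonneg_left h1 (by linarith)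
  rw [mul_one] at h2
  exact h2

theorem HB_pt (h : CH Γ D m a b s lQ) (hK : IsCompact K) :
    HB (fun q : Lx ι ℝ K => lx lQ q) (fun _ (e : ℝ × Pl) => e) (fun q => (q.p, q.z)) := by
  obtain ⟨R, hR⟩ := hK.isBounded.exists_norm_le
  refine HB_id (fun q => lx_nonneg h q) (le_max_left 1 R) fun q => ?_
  refine le_trans ?_ (G01_le (le_max_left 1 R) (lx_nonneg h q))
  rw [Prod.norm_def]
  exact max_le_max q.hp (hR q.z q.hz)

theorem HB_idx (h : CH Γ D m a b s lQ) (hK : IsCompact K) :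
    HB (fun q : Lx ι ℝ K => lx lQ q) (fun _ (e : ℝ × Pl × Pl) => e) Lx.b := by
  obtain ⟨R, hR⟩ := hK.isBounded.exists_norm_le
  refine HB_id (fun q => lx_nonneg h q) (le_max_left 1 R) fun q => ?_
  refine le_trans ?_ (G01_le (le_max_left 1 R) (lx_nonneg h q))
  rw [Lx.b, Prod.norm_def]
  refine max_le_max q.hp ?_
  rw [Prod.norm_def]
  exact max_le (hR q.z q.hz) (hR q.w q.hw)

theorem HB_mm (h : CH Γ D m a b s lQ) (hK : IsCompact K) :
    HB (fun q : Lx ι ℝ K => lx lQ q) (fun q (e : ℝ × Pl) => mm m (s q.i) e.1 e.2)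
      (fun q => (q.p, q.z)) := by
  obtain ⟨C, hC0, hC⟩ := s_bdd h.cf
  have h1 : HB (fun q : Lx ι ℝ K => lx lQ q) (fun q => s q.i) (fun q => (q.p, q.z)) := h.hs K hK
  have h2 := HB_exp (fun q => lx_nonneg h q) h1 (le_max_left 1 (Real.exp C)) (fun q => by
    refine le_trans ?_ (G01_le (le_max_left 1 (Real.exp C)) (lx_nonneg h q))
    refine le_trans ?_ (le_max_right _ _)
    exact Real.exp_le_exp.2 (abs_le.1 (hC q.i q.p q.hp q.z)).2)
  have h3 : HB (fun q : Lx ι ℝ K => lx lQ q) (fun _ => m) (fun q => q.z) :=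
    HB_mono (fun _ => le_refl (0 : ℝ)) (fun q => lx_nonneg h q)
      (HB_pull (h.hm K hK) (fun q : Lx ι ℝ K => (⟨q.z, q.hz⟩ : K)))
  have h4 := HB_clm (fun q => lx_nonneg h q) (HB_pt h hK) (ContinuousLinearMap.snd ℝ ℝ Pl)
  have h5 := HB_comp (fun q => lx_nonneg h q) (g := fun _ : Lx ι ℝ K => m)
    (f := fun (_ : Lx ι ℝ K) (e : ℝ × Pl) => (ContinuousLinearMap.snd ℝ ℝ Pl) e)
    (x := fun q => (q.p, q.z)) h3 h4
  exact HB_smul (fun q => lx_nonneg h q) h2 h5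

theorem mm_inv (h : CH Γ D m a b s lQ) (hK : IsCompact K) : ∃ A : ℝ, 1 ≤ A ∧ ∀ q : Lx ι ℝ K,
    |(mm m (s q.i) q.p q.z).1|⁻¹ ≤ hc A (lx lQ q) ∧
      |dt (mm m (s q.i) q.p q.z)|⁻¹ ≤ hc A (lx lQ q) := by
  obtain ⟨c, hc0, hc1⟩ := mm_low h.cf hK
  have hA : ∀ (q : Lx ι ℝ K) (x : ℝ), c ≤ x → |x|⁻¹ ≤ hc (max 1 c⁻¹) (lx lQ q) := by
    intro q x hx
    refine le_trans ?_ (G01_le (le_max_left 1 c⁻¹) (lx_nonneg h q))
    refine le_trans ?_ (le_max_right _ _)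
    rw [abs_of_pos (lt_of_lt_of_le hc0 hx)]
    exact inv_anti₀ hc0 hx
  exact ⟨max 1 c⁻¹, le_max_left _ _, fun q => ⟨hA q _ (hc1 q).1, hA q _ (hc1 q).2⟩⟩

theorem HB_E (h : CH Γ D m a b s lQ) (hK : IsCompact K) :
    HB (fun q : Lx ι ℝ K => lx lQ q) (fun q (e : ℝ × Pl) => (mm m (s q.i) e.1 e.2).1)
      (fun q => (q.p, q.z)) := by
  exact HB_clm (fun q => lx_nonneg h q) (HB_mm h hK) (ContinuousLinearMap.fst ℝ ℝ (ℝ × ℝ))

theorem HB_F (h : CH Γ D m a b s lQ) (hK : IsCompact K) :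
    HB (fun q : Lx ι ℝ K => lx lQ q) (fun q (e : ℝ × Pl) => (mm m (s q.i) e.1 e.2).2.1)
      (fun q => (q.p, q.z)) := by
  exact HB_clm (fun q => lx_nonneg h q) (HB_mm h hK)
    ((ContinuousLinearMap.fst ℝ ℝ ℝ).comp (ContinuousLinearMap.snd ℝ ℝ (ℝ × ℝ)))

theorem HB_G (h : CH Γ D m a b s lQ) (hK : IsCompact K) :
    HB (fun q : Lx ι ℝ K => lx lQ q) (fun q (e : ℝ × Pl) => (mm m (s q.i) e.1 e.2).2.2)
      (fun q => (q.p, q.z)) := by
  exact HB_clm (fun q => lx_nonneg h q) (HB_mm h hK)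
    ((ContinuousLinearMap.snd ℝ ℝ ℝ).comp (ContinuousLinearMap.snd ℝ ℝ (ℝ × ℝ)))

theorem HB_dt (h : CH Γ D m a b s lQ) (hK : IsCompact K) :
    HB (fun q : Lx ι ℝ K => lx lQ q) (fun q (e : ℝ × Pl) => dt (mm m (s q.i) e.1 e.2))
      (fun q => (q.p, q.z)) := by
  exact HB_sub (fun q => lx_nonneg h q)
    (HB_mul (fun q => lx_nonneg h q) (HB_E h hK) (HB_G h hK))
    (HB_pow (fun q => lx_nonneg h q) (HB_F h hK) 2)

theorem HB_act (h : CH Γ D m a b s lQ) (hK : IsCompact K) {S : Set Γ} (hS : S.Finite) :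
    HB (fun q : Lx ι ℝ K × S => lx lQ q.1) (fun q (z : Pl) => (q.2 : Γ) • z)
      (fun q => q.1.w) := by
  have : Finite S := hS
  have h1 : ∀ γ : S, HB (fun q : Lx ι ℝ K => lx lQ q) (fun _ (z : Pl) => (γ : Γ) • z)
      (fun q => q.w) := fun γ =>
    HB_mono (fun _ => le_refl (0 : ℝ)) (fun q => lx_nonneg h q)
      (HB_pull (h.hG γ K hK) (fun q : Lx ι ℝ K => (⟨q.w, q.hw⟩ : K)))
  have h2 := HB_finite (κ := S) (fun q => lx_nonneg h q) h1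
  exact HB_pull h2 (fun q : Lx ι ℝ K × S => (q.2, q.1))

end BE36
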