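import Pool.Agent.LibBE36.G01

/-! Row BE36 G02 (cites G01, K02, K03, K04, K05): the joint geodesic field. MEDIUM / STRONG, 60 min.
Plan: `LibBE88/A2.lean` word for word, with `HB` in place of `EB0`: `A2_Ep`, `A2_Dp` (real powers `-1/2`, `1/2`, `-1`, ..
occur: write them with `√` and inverses, `HB_sqrt`, `HB_inv`, `mm_inv`; `Real.sqrt_eq_rpow`, `Real.rpow_neg`), `A2_dx`, `A2_dy`
(public: `dx (fun v => f (x, v)) z = fderiv ℝ f (x, z) (0, (1, 0))` for differentiable `f`; the coefficients of the metric are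
smooth, `A2_*` and `hm_mm`), `HB_fderiv` for `A2_EBdx`, `A2_EBdy`, then `A2_fr1`, `A2_fr2`, `A2_cA`, `A2_cB`, and
`jf_EB0`. The functions of `(p, z)` are composed with the linear projection `e ↦ (e.1, e.2.1)` (`HB_comp`, `HB_clm`,
`HB_idx`), the vector `e.2.2` is `HB_clm` of `HB_idx`. -/

open MeasureTheory Set Filter Topology
open scoped ContDiff

namespace BE36

open BGS BR BE

variable {Γ : Type} [Group Γ] [MulAction Γ Pl] {D : Set Pl} {ι : Type} {m : Pl → Co} {a b : ℝ}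
  {s : ι → ℝ × Pl → ℝ} {lQ : ι → ℝ} {K : Set Pl}

theorem G02_le_hc {A t : ℝ} (hA : 1 ≤ A) (ht : 0 ≤ t) : A ≤ hc A t := by
  unfold hc
  have h1 : 1 ≤ Real.exp (A * t) := Real.one_le_exp (mul_nonneg (by linarith) ht)
  nlinarith

theorem G02_sqrt_inv {t B : ℝ} (ht : 0 < t) (hB : 1 ≤ B) (h : |t|⁻¹ ≤ B) : |√t|⁻¹ ≤ B := by
  rw [abs_of_pos ht] at h
  rw [abs_of_nonneg (Real.sqrt_nonneg _), ← Real.sqrt_inv]
  exact Real.sqrt_le_iff.2 ⟨by linarith, by nlinarith⟩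

theorem G02_cst {ι' E F EC FC : Type} [NormedAddCommGroup E] [NormedSpace ℝ E]
    [NormedAddCommGroup F] [NormedSpace ℝ F] [NormedAddCommGroup EC] [NormedSpace ℂ EC]
    [NormedAddCommGroup FC] [NormedSpace ℂ FC] [CX E EC] [CX F FC] {ℓ : ι' → ℝ} {x : ι' → E}
    (hℓ : ∀ i, 0 ≤ ℓ i) (c : F) : HB ℓ (fun _ (_ : E) => c) x :=
  HB_const hℓ (c := fun _ => c) (A := max 1 ‖c‖) (le_max_left _ _)
    (fun i => (le_max_right _ _).trans (G02_le_hc (le_max_left _ _) (hℓ i)))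

/-- The partial derivatives in `z` of functions of `(p, z)`. -/
theorem HB_dxy (h : CH Γ D m a b s lQ) {f : Lx ι ℝ K → ℝ × Pl → ℝ}
    (hd : ∀ q, Differentiable ℝ (f q))
    (hf : HB (fun q : Lx ι ℝ K => lx lQ q) f (fun q => (q.p, q.z))) :
    HB (fun q : Lx ι ℝ K => lx lQ q) (fun q (e : ℝ × Pl) => dx (fun v => f q (e.1, v)) e.2)
        (fun q => (q.p, q.z)) ∧
      HB (fun q : Lx ι ℝ K => lx lQ q) (fun q (e : ℝ × Pl) => dy (fun v => f q (e.1, v)) e.2)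
        (fun q => (q.p, q.z)) := by
  have hn : ∀ q : Lx ι ℝ K, 0 ≤ lx lQ q := fun q => lx_nonneg h q
  exact ⟨HB_congr (HB_fderiv hn hf (0, ((1 : ℝ), (0 : ℝ)))) fun q e => (A2_dx (hd q) e.1 e.2).symm,
    HB_congr (HB_fderiv hn hf (0, ((0 : ℝ), (1 : ℝ)))) fun q e => (A2_dy (hd q) e.1 e.2).symm⟩

section coef

variable (h : CH Γ D m a b s lQ) (hK : IsCompact K)
include h hK

theorem G02_E1 : HB (fun q : Lx ι ℝ K => lx lQ q)
    (fun q (e : ℝ × Pl) => ((mm m (s q.i) e.1 e.2).1)⁻¹) (fun q => (q.p, q.z)) := by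
  obtain ⟨A, hA, hA'⟩ := mm_inv h hK
  exact HB_inv (fun q => lx_nonneg h q) (HB_E h hK)
    (fun q => (((hm_mm h.cf q.i q.p).pos q.z).1).ne') hA (fun q => (hA' q).1)

theorem G02_sE : HB (fun q : Lx ι ℝ K => lx lQ q)
    (fun q (e : ℝ × Pl) => √((mm m (s q.i) e.1 e.2).1)) (fun q => (q.p, q.z)) := by
  obtain ⟨A, hA, hA'⟩ := mm_inv h hK
  refine HB_sqrt (fun q => lx_nonneg h q) (HB_E h hK)
    (fun q => ((hm_mm h.cf q.i q.p).pos q.z).1) hA (fun q => ?_)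
  have h1 := (hA' q).1
  rwa [abs_of_pos ((hm_mm h.cf q.i q.p).pos q.z).1] at h1

theorem G02_iE : HB (fun q : Lx ι ℝ K => lx lQ q)
    (fun q (e : ℝ × Pl) => (√((mm m (s q.i) e.1 e.2).1))⁻¹) (fun q => (q.p, q.z)) := by
  obtain ⟨A, hA, hA'⟩ := mm_inv h hK
  exact HB_inv (fun q => lx_nonneg h q) (G02_sE h hK)
    (fun q => (Real.sqrt_pos.2 ((hm_mm h.cf q.i q.p).pos q.z).1).ne') hA
    (fun q => G02_sqrt_inv ((hm_mm h.cf q.i q.p).pos q.z).1 (hc_one hA (lx_nonneg h q)) (hA' q).1)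

theorem G02_iD : HB (fun q : Lx ι ℝ K => lx lQ q)
    (fun q (e : ℝ × Pl) => (√(dt (mm m (s q.i) e.1 e.2)))⁻¹) (fun q => (q.p, q.z)) := by
  obtain ⟨A, hA, hA'⟩ := mm_inv h hK
  have h1 : HB (fun q : Lx ι ℝ K => lx lQ q)
      (fun q (e : ℝ × Pl) => √(dt (mm m (s q.i) e.1 e.2))) (fun q => (q.p, q.z)) := by
    refine HB_sqrt (fun q => lx_nonneg h q) (HB_dt h hK)
      (fun q => ((hm_mm h.cf q.i q.p).pos q.z).2) hA (fun q => ?_)
    have h1 := (hA' q).2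
    rwa [abs_of_pos ((hm_mm h.cf q.i q.p).pos q.z).2] at h1
  exact HB_inv (fun q => lx_nonneg h q) h1
    (fun q => (Real.sqrt_pos.2 ((hm_mm h.cf q.i q.p).pos q.z).2).ne') hA
    (fun q => G02_sqrt_inv ((hm_mm h.cf q.i q.p).pos q.z).2 (hc_one hA (lx_nonneg h q)) (hA' q).2)

theorem G02_fr1 : HB (fun q : Lx ι ℝ K => lx lQ q)
    (fun q (e : ℝ × Pl) => fr1 (mm m (s q.i) e.1 e.2)) (fun q => (q.p, q.z)) := by
  have hn : ∀ q : Lx ι ℝ K, 0 ≤ lx lQ q := fun q => lx_nonneg h q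
  refine HB_congr (HB_prod hn (G02_iE h hK) (G02_cst hn (0 : ℝ))) fun q e => ?_
  unfold fr1
  rw [one_div]

theorem G02_fr2 : HB (fun q : Lx ι ℝ K => lx lQ q)
    (fun q (e : ℝ × Pl) => fr2 (mm m (s q.i) e.1 e.2)) (fun q => (q.p, q.z)) := by
  have hn : ∀ q : Lx ι ℝ K, 0 ≤ lx lQ q := fun q => lx_nonneg h q
  have h1 := HB_neg hn (HB_mul hn (HB_F h hK) (HB_mul hn (G02_iE h hK) (G02_iD h hK)))
  have h2 := HB_mul hn (G02_sE h hK) (G02_iD h hK)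
  refine HB_congr (HB_prod hn h1 h2) fun q e => ?_
  unfold fr2
  rw [div_eq_mul_inv, div_eq_mul_inv, mul_inv]

theorem G02_cA : HB (fun q : Lx ι ℝ K => lx lQ q)
    (fun q (e : ℝ × Pl) => cA (mm m (s q.i) e.1) e.2) (fun q => (q.p, q.z)) := by
  have hn : ∀ q : Lx ι ℝ K, 0 ≤ lx lQ q := fun q => lx_nonneg h q
  have hE := HB_E h hK
  have hF := HB_F h hK
  have hEx := (HB_dxy h (fun q => ((A2_E h.cf hK).smooth q).differentiable (by simp)) hE).1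
  have hEy := (HB_dxy h (fun q => ((A2_E h.cf hK).smooth q).differentiable (by simp)) hE).2
  have hFx := (HB_dxy h (fun q => ((A2_F h.cf hK).smooth q).differentiable (by simp)) hF).1
  have h1 := HB_mul hn (HB_sub hn (HB_sub hn
    (HB_mul hn (HB_mul hn (G02_cst hn (2 : ℝ)) hE) hFx)
    (HB_mul hn hF hEx)) (HB_mul hn hE hEy))
    (HB_mul hn (G02_cst hn (1 / 2 : ℝ)) (HB_mul hn (G02_E1 h hK) (G02_iD h hK)))
  refine HB_congr h1 fun q e => ?_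
  unfold cA
  simp only
  rw [div_eq_mul_inv (_ - _ - _), mul_inv, mul_inv]
  ring

theorem G02_cB : HB (fun q : Lx ι ℝ K => lx lQ q)
    (fun q (e : ℝ × Pl) => cB (mm m (s q.i) e.1) e.2) (fun q => (q.p, q.z)) := by
  have hn : ∀ q : Lx ι ℝ K, 0 ≤ lx lQ q := fun q => lx_nonneg h q
  have hE := HB_E h hK
  have hF := HB_F h hK
  have hG := HB_G h hK
  have hGx := (HB_dxy h (fun q => ((A2_G h.cf hK).smooth q).differentiable (by simp)) hG).1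
  have hEy := (HB_dxy h (fun q => ((A2_E h.cf hK).smooth q).differentiable (by simp)) hE).2
  have h1 := HB_mul hn (HB_sub hn (HB_mul hn hE hGx) (HB_mul hn hF hEy))
    (HB_mul hn (G02_cst hn (1 / 2 : ℝ)) (HB_mul hn (G02_E1 h hK) (G02_iD h hK)))
  refine HB_congr h1 fun q e => ?_
  unfold cB
  simp only
  rw [div_eq_mul_inv (_ - _), mul_inv, mul_inv]
  ring

theorem G02_pull {F FC : Type} [NormedAddCommGroup F] [NormedSpace ℝ F] [FiniteDimensional ℝ F]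
    [NormedAddCommGroup FC] [NormedSpace ℂ FC] [CX F FC] {f : Lx ι ℝ K → ℝ × Pl → F}
    (hf : HB (fun q : Lx ι ℝ K => lx lQ q) f (fun q => (q.p, q.z))) :
    HB (fun q : Lx ι ℝ K => lx lQ q) (fun q (e : ℝ × Pl × Pl) => f q (e.1, e.2.1)) Lx.b := by
  have hn : ∀ q : Lx ι ℝ K, 0 ≤ lx lQ q := fun q => lx_nonneg h q
  have h1 := HB_clm hn (HB_idx h hK)
    ((ContinuousLinearMap.fst ℝ ℝ (Pl × Pl)).prod
      ((ContinuousLinearMap.fst ℝ Pl Pl).comp (ContinuousLinearMap.snd ℝ ℝ (Pl × Pl))))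
  exact HB_comp hn (g := f) (f := fun (_ : Lx ι ℝ K) (e : ℝ × Pl × Pl) =>
    ((e.1, e.2.1) : ℝ × Pl)) hf h1

end coef

theorem HB_fr (h : CH Γ D m a b s lQ) (hK : IsCompact K) :
    HB (fun q : Lx ι ℝ K => lx lQ q) (fun q (e : ℝ × Pl) => fr1 (mm m (s q.i) e.1 e.2))
        (fun q => (q.p, q.z)) ∧
      HB (fun q : Lx ι ℝ K => lx lQ q) (fun q (e : ℝ × Pl) => fr2 (mm m (s q.i) e.1 e.2))
        (fun q => (q.p, q.z)) :=
  ⟨G02_fr1 h hK, G02_fr2 h hK⟩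

theorem HB_jf (h : CH Γ D m a b s lQ) (hK : IsCompact K) :
    HB (fun q : Lx ι ℝ K => lx lQ q) (fun q => jf m (s q.i)) Lx.b := by
  have hn : ∀ q : Lx ι ℝ K, 0 ≤ lx lQ q := fun q => lx_nonneg h q
  have hid := HB_idx h hK
  have hv1 : HB (fun q : Lx ι ℝ K => lx lQ q)
      (fun (_ : Lx ι ℝ K) (e : ℝ × Pl × Pl) => e.2.2.1) Lx.b :=
    HB_clm hn hid ((ContinuousLinearMap.fst ℝ ℝ ℝ).comp
      ((ContinuousLinearMap.snd ℝ Pl Pl).comp (ContinuousLinearMap.snd ℝ ℝ (Pl × Pl))))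
  have hv2 : HB (fun q : Lx ι ℝ K => lx lQ q)
      (fun (_ : Lx ι ℝ K) (e : ℝ × Pl × Pl) => e.2.2.2) Lx.b :=
    HB_clm hn hid ((ContinuousLinearMap.snd ℝ ℝ ℝ).comp
      ((ContinuousLinearMap.snd ℝ Pl Pl).comp (ContinuousLinearMap.snd ℝ ℝ (Pl × Pl))))
  have hfr : HB (fun q : Lx ι ℝ K => lx lQ q)
      (fun (q : Lx ι ℝ K) (e : ℝ × Pl × Pl) => fr (mm m (s q.i) e.1 e.2.1) e.2.2) Lx.b :=
    HB_add hn (HB_smul hn hv1 (G02_pull h hK (G02_fr1 h hK)))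
      (HB_smul hn hv2 (G02_pull h hK (G02_fr2 h hK)))
  have hf1 := HB_clm hn hfr (ContinuousLinearMap.fst ℝ ℝ ℝ)
  have hf2 := HB_clm hn hfr (ContinuousLinearMap.snd ℝ ℝ ℝ)
  have hom : HB (fun q : Lx ι ℝ K => lx lQ q)
      (fun (q : Lx ι ℝ K) (e : ℝ × Pl × Pl) => om (mm m (s q.i) e.1) e.2.1
        (fr (mm m (s q.i) e.1 e.2.1) e.2.2)) Lx.b :=
    HB_add hn (HB_mul hn (G02_pull h hK (G02_cA h hK)) hf1)
      (HB_mul hn (G02_pull h hK (G02_cB h hK)) hf2)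
  have hneg : HB (fun q : Lx ι ℝ K => lx lQ q)
      (fun (_ : Lx ι ℝ K) (e : ℝ × Pl × Pl) => ((e.2.2.2, -e.2.2.1) : Pl)) Lx.b :=
    HB_prod hn hv2 (HB_neg hn hv1)
  have h1 := HB_prod hn (G02_cst hn (0 : ℝ) : HB (fun q : Lx ι ℝ K => lx lQ q)
    (fun _ (_ : ℝ × Pl × Pl) => (0 : ℝ)) Lx.b) (HB_prod hn hfr (HB_smul hn hom hneg))
  exact h1

end BE36
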