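import Pool.Agent.LibBE36.HC5

open Set Filter Topology Metric
open scoped ContDiff

namespace H36

variable {E F G Ec Fc Gc : Type} [NormedAddCommGroup E] [NormedSpace ℝ E] [NormedAddCommGroup F]
  [NormedSpace ℝ F] [NormedAddCommGroup G] [NormedSpace ℝ G] [NormedAddCommGroup Ec]
  [NormedSpace ℂ Ec] [NormedAddCommGroup Fc] [NormedSpace ℂ Fc] [NormedAddCommGroup Gc]
  [NormedSpace ℂ Gc] [Cxf E Ec] [Cxf F Fc] [Cxf G Gc]

/-- the derivative of the extension at real points -/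
private theorem HC5b_real {f : E → F} (hs : Differentiable ℝ f) {U : Set Ec} (hU : IsOpen U)
    {C : ℝ} {g : Ec → Fc} (he : Ext f U C g) (v y : E) (hy : (j y : Ec) ∈ U) :
    fderiv ℂ g (j y) (j v) = j (fderiv ℝ f y v) := by
  have hc0 : HasDerivAt (fun t : ℝ => y + t • v) v 0 := by
    have h1 : HasDerivAt (fun t : ℝ => t • v) ((1 : ℝ) • v) 0 := (hasDerivAt_id (0 : ℝ)).smul_const v
    rw [one_smul] at h1
    exact h1.const_add y
  have hc : HasDerivAt (fun t : ℝ => (j (y + t • v) : Ec)) (j v) 0 := j_deriv hc0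
  have hg0 : HasFDerivAt g (fderiv ℂ g (j y)) (j y) :=
    (he.diff.differentiableAt (hU.mem_nhds hy)).hasFDerivAt
  have hg1 : HasDerivAt (g ∘ fun t : ℝ => (j (y + t • v) : Ec))
      ((fderiv ℂ g (j y)).restrictScalars ℝ (j v)) 0 :=
    (hg0.restrictScalars ℝ).comp_hasDerivAt_of_eq (0 : ℝ) hc (by simp)
  have hf0 : HasDerivAt (f ∘ fun t : ℝ => y + t • v) (fderiv ℝ f y v) 0 :=
    (hs y).hasFDerivAt.comp_hasDerivAt_of_eq (0 : ℝ) hc0 (by simp)
  have hf1 : HasDerivAt (fun t : ℝ => (j ((f ∘ fun t : ℝ => y + t • v) t) : Fc))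
      (j (fderiv ℝ f y v)) 0 := j_deriv hf0
  have hev : (g ∘ fun t : ℝ => (j (y + t • v) : Ec)) =ᶠ[𝓝 0]
      fun t : ℝ => (j ((f ∘ fun t : ℝ => y + t • v) t) : Fc) := by
    have h2 : ∀ᶠ t : ℝ in 𝓝 0, (j (y + t • v) : Ec) ∈ U := by
      apply hc.continuousAt.eventually_mem
      simp only [zero_smul, add_zero]
      exact hU.mem_nhds hy
    filter_upwards [h2] with t ht
    exact he.ext _ ht
  exact hg1.unique (hf1.congr_of_eventuallyEq hev)

/-- one directional derivative of a map with an extension -/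
private theorem HC5b_step [FiniteDimensional ℂ Ec] [CompleteSpace Fc] {f : E → F}
    (hs : Differentiable ℝ f) {x : E} {r δ C : ℝ} (hδ : 0 < δ) {g : Ec → Fc}
    (he : Ext f (ball (j x) r) C g) (v : E) :
    Ext (fun y => fderiv ℝ f y v) (ball (j x) (r - δ)) (C / δ * ‖v‖)
      (fun z => fderiv ℂ g z (j v)) := by
  have hsub : ball (j x : Ec) (r - δ) ⊆ ball (j x) r := ball_subset_ball (by linarith)
  refine ⟨(hol_dir isOpen_ball he.diff (j v)).mono hsub, ?_, ?_⟩
  · intro z hz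
    have hz2 : ball z δ ⊆ ball (j x : Ec) r := by
      apply ball_subset_ball'
      rw [mem_ball] at hz
      linarith
    have h1 : ‖fderiv ℂ g z‖ ≤ C / δ :=
      hol_fd hδ (he.diff.mono hz2) (fun w hw => he.bound w (hz2 hw))
    have h2 : ‖(j v : Ec)‖ = ‖v‖ := Cxf.j_norm v
    calc ‖fderiv ℂ g z (j v)‖ ≤ ‖fderiv ℂ g z‖ * ‖(j v : Ec)‖ := ContinuousLinearMap.le_opNorm _ _
      _ ≤ C / δ * ‖v‖ := by
        rw [h2]
        exact mul_le_mul_of_nonneg_right h1 (norm_nonneg v)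
  · intro y hy
    exact HC5b_real hs isOpen_ball he v y (hsub hy)

theorem Hol_dir [FiniteDimensional ℂ Ec] [CompleteSpace Fc] {f : E → F} (hs : Differentiable ℝ f)
    {x : E} {B : ℝ} (hB : 2 ≤ B) (hf : Hol f x B) (v : E) (hv : ‖v‖ ≤ B) :
    Hol (fun y => fderiv ℝ f y v) x (B ^ 4) := by
  obtain ⟨g, hg⟩ := hf
  have hB0 : 0 < B := by linarith
  have hδ : 0 < 1 / (2 * B) := by positivity
  have h := HC5b_step hs hδ hg v
  have h1 : 1 / B - 1 / (2 * B) = 1 / (2 * B) := by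
    field_simp
    norm_num
  rw [h1] at h
  have h2 : 1 / B ^ 4 ≤ 1 / (2 * B) := by
    apply one_div_le_one_div_of_le (by positivity)
    have h3 : (2 : ℝ) ^ 3 ≤ B ^ 3 := pow_le_pow_left₀ (by norm_num) hB 3
    nlinarith
  have hsub : ball (j x : Ec) (1 / B ^ 4) ⊆ ball (j x) (1 / (2 * B)) := ball_subset_ball h2
  refine ⟨fun z => fderiv ℂ g z (j v), h.diff.mono hsub, ?_, fun y hy => h.ext y (hsub hy)⟩
  intro z hz
  refine (h.bound z (hsub hz)).trans ?_
  have h3 : B / (1 / (2 * B)) = 2 * B ^ 2 := by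
    field_simp
  rw [h3]
  calc 2 * B ^ 2 * ‖v‖ ≤ 2 * B ^ 2 * B := mul_le_mul_of_nonneg_left hv (by positivity)
    _ ≤ B * B ^ 2 * B := by
      have h4 : 0 ≤ B ^ 2 * B := by positivity
      nlinarith
    _ = B ^ 4 := by ring

private theorem HC5b_iter [FiniteDimensional ℂ Ec] [CompleteSpace Fc] {δ : ℝ} (hδ : 0 < δ) (x : E)
    (n : ℕ) : ∀ (f : E → F) (g : Ec → Fc) (r C : ℝ), ContDiff ℝ ∞ f → (n : ℝ) * δ < r →
      Ext f (ball (j x) r) C g →
      ∀ m : Fin n → E, ‖iteratedFDeriv ℝ n f x m‖ ≤ C * (1 / δ) ^ n * ∏ i, ‖m i‖ := by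
  induction n with
  | zero =>
    intro f g r C _ hr he m
    have hx : (j x : Ec) ∈ ball (j x : Ec) r := by
      apply mem_ball_self
      simpa using hr
    rw [iteratedFDeriv_zero_apply]
    have h1 := he.bound _ hx
    rw [he.ext x hx, Cxf.j_norm] at h1
    simpa using h1
  | succ n ih =>
    intro f g r C hs hr he m
    obtain ⟨v, hv⟩ : ∃ v : E, v = m (Fin.last n) := ⟨_, rfl⟩
    have hs2 := contDiff_infty_iff_fderiv.1 hs
    have hst := HC5b_step hs2.1 hδ he v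
    have hs3 : ContDiff ℝ ∞ (fun y => fderiv ℝ f y v) := hs2.2.clm_apply contDiff_const
    have hr2 : (n : ℝ) * δ < r - δ := by
      push_cast at hr
      linarith
    have key := ih (fun y => fderiv ℝ f y v) _ (r - δ) (C / δ * ‖v‖) hs3 hr2 hst (Fin.init m)
    have e1 : iteratedFDeriv ℝ n (fun y => fderiv ℝ f y) x (Fin.init m) v =
        iteratedFDeriv ℝ n (fun y => fderiv ℝ f y v) x (Fin.init m) := by
      have h := (ContinuousLinearMap.apply ℝ F v).iteratedFDeriv_comp_left (f := fderiv ℝ f) (x := x)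
        (hs2.2.contDiffAt (x := x)) (i := n) (by exact_mod_cast le_top)
      have h' : (⇑(ContinuousLinearMap.apply ℝ F v) ∘ fderiv ℝ f) = fun y => fderiv ℝ f y v := rfl
      rw [← h', h]
      rfl
    rw [iteratedFDeriv_succ_apply_right, ← hv, e1]
    refine key.trans (le_of_eq ?_)
    rw [Fin.prod_univ_castSucc, ← hv, pow_succ]
    have e2 : ∏ i, ‖Fin.init m i‖ = ∏ i : Fin n, ‖m i.castSucc‖ := rfl
    rw [e2]
    field_simp

theorem Hol_iter [FiniteDimensional ℂ Ec] [CompleteSpace Fc] {f : E → F} (hs : ContDiff ℝ ∞ f)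
    (k : ℕ) {x : E} {B : ℝ} (hB : 2 ≤ B) (hf : Hol f x B) :
    ‖iteratedFDeriv ℝ k f x‖ ≤ (k + 1 : ℝ) ^ k * B ^ (k + 1) := by
  obtain ⟨g, hg⟩ := hf
  have hB0 : 0 < B := by linarith
  have hk0 : (0 : ℝ) < k + 1 := by positivity
  have hδ : 0 < 1 / ((k + 1 : ℝ) * B) := by positivity
  have hr : (k : ℝ) * (1 / ((k + 1 : ℝ) * B)) < 1 / B := by
    have h1 : 1 / B = (k + 1 : ℝ) * (1 / ((k + 1 : ℝ) * B)) := by
      field_simp
    rw [h1]
    apply mul_lt_mul_of_pos_right _ hδ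
    linarith
  apply ContinuousMultilinearMap.opNorm_le_bound (by positivity)
  intro m
  have h := HC5b_iter hδ x k f g (1 / B) B hs hr hg m
  have e : B * (1 / (1 / ((k + 1 : ℝ) * B))) ^ k = (k + 1 : ℝ) ^ k * B ^ (k + 1) := by
    rw [one_div_one_div, mul_pow]
    ring
  rw [e] at h
  exact h

end H36
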