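import Pool.Agent.LibBE36.HC3

open Set Filter Topology Metric
open scoped ContDiff

namespace H36

variable {E F G Ec Fc Gc : Type} [NormedAddCommGroup E] [NormedSpace ℝ E] [NormedAddCommGroup F]
  [NormedSpace ℝ F] [NormedAddCommGroup G] [NormedSpace ℝ G] [NormedAddCommGroup Ec]
  [NormedSpace ℂ Ec] [NormedAddCommGroup Fc] [NormedSpace ℂ Fc] [NormedAddCommGroup Gc]
  [NormedSpace ℂ Gc] [Cxf E Ec] [Cxf F Fc] [Cxf G Gc]

theorem HC6_re_sub (z w : Ec) : (Cxf.re (z - w) : E) = Cxf.re z - Cxf.re w := by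
  have h1 : z - w = z + ((-1 : ℝ) : ℂ) • w := by
    rw [Complex.ofReal_neg, Complex.ofReal_one, neg_smul, one_smul, sub_eq_add_neg]
  rw [h1, Cxf.re_add, Cxf.re_smul, neg_smul, one_smul, ← sub_eq_add_neg]

theorem HC6_j_sub (x y : E) : (j (x - y) : Ec) = j x - j y := by
  have h1 : x - y = x + (-1 : ℝ) • y := by
    rw [neg_smul, one_smul, sub_eq_add_neg]
  rw [h1, Cxf.j_add, Cxf.j_smul, Complex.ofReal_neg, Complex.ofReal_one, neg_smul, one_smul,
    ← sub_eq_add_neg]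

theorem HC6_mem {x : E} {r : ℝ} {z : Ec} (hz : z ∈ ball (j x : Ec) r) :
    (j (Cxf.re z : E) : Ec) ∈ ball (j x : Ec) r := by
  rw [mem_ball, dist_eq_norm] at hz ⊢
  have h1 : (Cxf.re (j x : Ec) : E) = x := Cxf.re_j x
  have h2 : (j (Cxf.re z : E) : Ec) - j x = j (Cxf.re (z - j x) : E) := by
    rw [HC6_re_sub, h1, HC6_j_sub]
  rw [h2, Cxf.j_norm]
  exact (Cxf.re_le _).trans_lt hz

theorem Ext_uniq {f : E → F} {x y : E} {r s B C : ℝ} {g h : Ec → Fc}
    (hg : Ext f (ball (j x) r) B g) (hh : Ext f (ball (j y) s) C h) :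
    ∀ z ∈ ball (j x) r ∩ ball (j y) s, g z = h z := by
  intro z hz
  set a : E := Cxf.re z with ha
  set b : E := Cxf.im z with hb
  have hza : (j a : Ec) + Complex.I • (j b : Ec) = z := Cxf.split z
  set φ : ℂ → Ec := fun ζ => (j a : Ec) + ζ • (j b : Ec) with hφ
  have hφd : Differentiable ℂ φ := by
    intro ζ
    exact (differentiableAt_id.smul_const _).const_add _
  set U : Set Ec := ball (j x) r ∩ ball (j y) s with hU
  have hUo : IsOpen U := isOpen_ball.inter isOpen_ball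
  have hUc : Convex ℝ U := (convex_ball _ _).inter (convex_ball _ _)
  set V : Set ℂ := φ ⁻¹' U with hV
  have hVo : IsOpen V := hUo.preimage hφd.continuous
  have hVc : Convex ℝ V := by
    intro u hu v hv p q hp hq hpq
    have h1 := hUc hu hv hp hq hpq
    have h2 : φ (p • u + q • v) = p • φ u + q • φ v := by
      rw [hφ]
      simp only []
      rw [smul_add, smul_add, add_smul, smul_assoc, smul_assoc]
      have h3 : (j a : Ec) = p • (j a : Ec) + q • (j a : Ec) := by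
        rw [← add_smul, hpq, one_smul]
      nth_rewrite 1 [h3]
      abel
    show φ (p • u + q • v) ∈ U
    rw [h2]
    exact h1
  have h0 : (0 : ℂ) ∈ V := by
    show φ 0 ∈ U
    rw [hφ]
    simp only []
    rw [zero_smul, add_zero]
    exact ⟨HC6_mem hz.1, HC6_mem hz.2⟩
  have hI : Complex.I ∈ V := by
    show φ Complex.I ∈ U
    rw [hφ]
    simp only []
    rw [hza]
    exact hz
  have hreal : ∀ t : ℝ, (t : ℂ) ∈ V → g (φ t) = h (φ t) := by
    intro t ht
    have e : φ t = j (a + t • b) := by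
      rw [hφ]
      simp only []
      rw [Cxf.j_add, Cxf.j_smul]
    have ht' : φ t ∈ U := ht
    rw [e] at ht' ⊢
    rw [hg.ext _ ht'.1, hh.ext _ ht'.2]
  rw [← hza]
  rw [NormedSpace.eq_iff_forall_dual_eq ℂ]
  intro l
  have hA : AnalyticOnNhd ℂ (fun ζ => l (g (φ ζ))) V := by
    refine DifferentiableOn.analyticOnNhd ?_ hVo
    intro ζ hζ
    have h1 : DifferentiableAt ℂ g (φ ζ) :=
      (hg.diff (φ ζ) hζ.1).differentiableAt (isOpen_ball.mem_nhds hζ.1)
    exact (l.differentiableAt.comp ζ (h1.comp ζ (hφd ζ))).differentiableWithinAt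
  have hB : AnalyticOnNhd ℂ (fun ζ => l (h (φ ζ))) V := by
    refine DifferentiableOn.analyticOnNhd ?_ hVo
    intro ζ hζ
    have h1 : DifferentiableAt ℂ h (φ ζ) :=
      (hh.diff (φ ζ) hζ.2).differentiableAt (isOpen_ball.mem_nhds hζ.2)
    exact (l.differentiableAt.comp ζ (h1.comp ζ (hφd ζ))).differentiableWithinAt
  have ht : Tendsto (fun t : ℝ => (t : ℂ)) (𝓝[≠] (0 : ℝ)) (𝓝[≠] (0 : ℂ)) := by
    refine tendsto_nhdsWithin_of_tendsto_nhds_of_eventually_within _ ?_ ?_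
    · have h1 : Tendsto (fun t : ℝ => (t : ℂ)) (𝓝 (0 : ℝ)) (𝓝 ((0 : ℝ) : ℂ)) :=
        Complex.continuous_ofReal.tendsto 0
      rw [Complex.ofReal_zero] at h1
      exact h1.mono_left nhdsWithin_le_nhds
    · filter_upwards [self_mem_nhdsWithin] with t ht
      intro h1
      exact ht (Complex.ofReal_eq_zero.1 h1)
  have hfr : ∃ᶠ ζ in 𝓝[≠] (0 : ℂ), l (g (φ ζ)) = l (h (φ ζ)) := by
    apply ht.frequently
    apply Eventually.frequently
    have h1 : ∀ᶠ ζ in 𝓝[≠] (0 : ℂ), ζ ∈ V :=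
      nhdsWithin_le_nhds (hVo.mem_nhds h0)
    filter_upwards [ht.eventually h1] with t htV
    rw [hreal t htV]
  exact hA.eqOn_of_preconnected_of_frequently_eq hB hVc.isPreconnected h0 hfr hI

theorem glue {f : E → F} {K : Set E} {B : ℝ} (hB : 0 < B) (hf : ∀ x ∈ K, Hol f x B) :
    HolT f K B := by
  classical
  choose! e he using hf
  set G : Ec → Fc := fun z => if h : ∃ x ∈ K, z ∈ ball (j x : Ec) (1 / B) then e h.choose z else 0 with hG
  have hGe : ∀ x ∈ K, ∀ z ∈ ball (j x : Ec) (1 / B), G z = e x z := by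
    intro x hx z hz
    have h : ∃ x ∈ K, z ∈ ball (j x : Ec) (1 / B) := ⟨x, hx, hz⟩
    rw [hG]
    simp only []
    rw [dif_pos h]
    obtain ⟨h1, h2⟩ := h.choose_spec
    exact Ext_uniq (he _ h1) (he x hx) z ⟨h2, hz⟩
  have hT : ∀ z ∈ thickening (1 / B) ((j : E → Ec) '' K), ∃ x ∈ K, z ∈ ball (j x : Ec) (1 / B) := by
    intro z hz
    obtain ⟨w, ⟨x, hx, rfl⟩, hw⟩ := mem_thickening_iff.1 hz
    exact ⟨x, hx, mem_ball.2 hw⟩
  refine ⟨G, ⟨?_, ?_, ?_⟩⟩
  · intro z hz
    obtain ⟨x, hx, hzx⟩ := hT z hz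
    have h1 : DifferentiableAt ℂ (e x) z :=
      ((he x hx).diff z hzx).differentiableAt (isOpen_ball.mem_nhds hzx)
    have h2 : G =ᶠ[𝓝 z] e x := by
      filter_upwards [isOpen_ball.mem_nhds hzx] with w hw
      exact hGe x hx w hw
    exact (h1.congr_of_eventuallyEq h2).differentiableWithinAt
  · intro z hz
    obtain ⟨x, hx, hzx⟩ := hT z hz
    rw [hGe x hx z hzx]
    exact (he x hx).bound z hzx
  · intro y hy
    obtain ⟨x, hx, hzx⟩ := hT _ hy
    rw [hGe x hx _ hzx]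
    exact (he x hx).ext y hzx

end H36
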