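import Pool.Agent.LibBE36.HC9
import Pool.Agent.LibBE36.HC5b
import Pool.Agent.LibBE36.HC6

open Set Filter Topology Metric
open scoped ContDiff

namespace H36

variable {E F G Ec Fc Gc : Type} [NormedAddCommGroup E] [NormedSpace ℝ E] [NormedAddCommGroup F]
  [NormedSpace ℝ F] [NormedAddCommGroup G] [NormedSpace ℝ G] [NormedAddCommGroup Ec]
  [NormedSpace ℂ Ec] [NormedAddCommGroup Fc] [NormedSpace ℂ Fc] [NormedAddCommGroup Gc]
  [NormedSpace ℂ Gc] [Cxf E Ec] [Cxf F Fc] [Cxf G Gc]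

private theorem HC9b_fd {f : E → E} (hs : ContDiff ℝ ∞ f) {x : E} {B r : ℝ} (hr : 0 < r)
    {X : Ec → Ec} (hX : Ext f (ball (j x) r) B X) :
    ‖fderiv ℂ X (j x)‖ ≤ 2 * ‖fderiv ℝ f x‖ := by
  obtain ⟨Lc, -, hL2, hL3⟩ := cx_clm (Ec := Ec) (Fc := Ec) (fderiv ℝ f x)
  have hd : HasFDerivAt X (fderiv ℂ X (j x)) (j x) :=
    (hX.diff.differentiableAt (ball_mem_nhds _ hr)).hasFDerivAt
  have key : ∀ v : E, fderiv ℂ X (j x) (j v) = j (fderiv ℝ f x v) := by
    intro v
    have h1 : HasDerivAt (fun s : ℝ => x + s • v) v 0 := by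
      have h := ((hasDerivAt_id (0 : ℝ)).smul_const v).const_add x
      rw [one_smul] at h
      exact h
    have h2 : HasDerivAt (fun s : ℝ => f (x + s • v)) (fderiv ℝ f x v) 0 := by
      have hf : HasFDerivAt f (fderiv ℝ f x) (x + (0 : ℝ) • v) := by
        rw [zero_smul, add_zero]
        exact (hs.differentiable (by simp) x).hasFDerivAt
      exact hf.comp_hasDerivAt (0 : ℝ) h1
    have h3 : HasDerivAt (fun s : ℝ => (j (f (x + s • v)) : Ec)) (j (fderiv ℝ f x v)) 0 :=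
      j_deriv h2
    have h4 : HasDerivAt (fun s : ℝ => (j (x + s • v) : Ec)) (j v) 0 := j_deriv h1
    have h5 : HasDerivAt (fun s : ℝ => X (j (x + s • v))) (fderiv ℂ X (j x) (j v)) 0 := by
      have hd' : HasFDerivAt X ((fderiv ℂ X (j x)).restrictScalars ℝ) (j (x + (0 : ℝ) • v)) := by
        rw [zero_smul, add_zero]
        exact hd.restrictScalars ℝ
      exact hd'.comp_hasDerivAt (0 : ℝ) h4
    have h6 : (fun s : ℝ => X (j (x + s • v))) =ᶠ[𝓝 0] (fun s : ℝ => (j (f (x + s • v)) : Ec)) := by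
      have h7 : Tendsto (fun s : ℝ => (j (x + s • v) : Ec)) (𝓝 0) (𝓝 (j x)) := by
        have h := h4.continuousAt.tendsto
        rwa [zero_smul, add_zero] at h
      filter_upwards [h7.eventually (ball_mem_nhds (j x : Ec) hr)] with s hs
      exact hX.ext _ hs
    exact h5.unique (h3.congr_of_eventuallyEq h6)
  have he : fderiv ℂ X (j x) = Lc := by
    refine ContinuousLinearMap.ext fun z => ?_
    rw [← Cxf.split (E := E) z, map_add, map_add, map_smul, map_smul, key, key, hL2, hL2]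
  rw [he]
  exact hL3

private theorem HC9b_lip [FiniteDimensional ℂ Ec] {f : E → E} (hs : ContDiff ℝ ∞ f) {x : E}
    {B Λ : ℝ} (hB : 2 ≤ B) (hΛ : 1 ≤ Λ) {X : Ec → Ec} (hX : Ext f (ball (j x) (1 / B)) B X)
    (hd : ‖fderiv ℝ f x‖ ≤ Λ) : ∀ z ∈ ball (j x : Ec) (1 / (12 * B ^ 3)),
    ∀ w ∈ ball (j x : Ec) (1 / (12 * B ^ 3)), ‖X z - X w‖ ≤ 3 * Λ * ‖z - w‖ := by
  have hcs : CompleteSpace Ec := FiniteDimensional.complete ℂ Ec
  have hB0 : 0 < B := by linarith
  have h1 : ∀ z ∈ ball (j x : Ec) (1 / (2 * B)), ‖fderiv ℂ X z‖ ≤ 2 * B ^ 2 := by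
    intro z hz
    have hsub : ball z (1 / (2 * B)) ⊆ ball (j x : Ec) (1 / B) := by
      intro w hw
      rw [mem_ball] at *
      have : 1 / B = 1 / (2 * B) + 1 / (2 * B) := by
        field_simp
        norm_num
      linarith [dist_triangle w z (j x)]
    have h := hol_fd (r := 1 / (2 * B)) (B := B) (by positivity) (hX.diff.mono hsub)
      (fun w hw => hX.bound w (hsub hw))
    refine h.trans (le_of_eq ?_)
    field_simp
  have hle : 1 / (12 * B ^ 3) ≤ 1 / (2 * B) := by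
    refine one_div_le_one_div_of_le (by positivity) ?_
    nlinarith [pow_pos hB0 2, pow_pos hB0 3]
  have hle2 : 1 / (2 * B) ≤ 1 / B := by
    refine one_div_le_one_div_of_le hB0 ?_
    linarith
  have hc : ‖fderiv ℂ X (j x)‖ ≤ 2 * Λ :=
    (HC9b_fd hs (by positivity) hX).trans (by linarith)
  have h2 : ∀ z ∈ ball (j x : Ec) (1 / (12 * B ^ 3)), ‖fderiv ℂ X z‖ ≤ 3 * Λ := by
    intro z hz
    refine ContinuousLinearMap.opNorm_le_bound _ (by linarith) fun v => ?_
    have h3 : ‖fderiv ℂ X z v - fderiv ℂ X (j x) v‖ ≤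
        3 * (2 * B ^ 2 * ‖v‖) / (1 / (2 * B)) * ‖z - j x‖ := by
      refine hol_lip (g := fun z => fderiv ℂ X z v) (r := 1 / (2 * B)) (by positivity)
        ((hol_dir isOpen_ball hX.diff v).mono (ball_subset_ball hle2)) (fun w hw => ?_)
        (ball_subset_ball hle hz)
      exact ((fderiv ℂ X w).le_opNorm v).trans
        (mul_le_mul_of_nonneg_right (h1 w hw) (norm_nonneg v))
    have h4 : 3 * (2 * B ^ 2 * ‖v‖) / (1 / (2 * B)) * ‖z - j x‖ ≤ ‖v‖ := by
      rw [mem_ball, dist_eq_norm, lt_div_iff₀ (by positivity)] at hz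
      have h5 : 3 * (2 * B ^ 2 * ‖v‖) / (1 / (2 * B)) * ‖z - j x‖ =
          (‖z - j x‖ * (12 * B ^ 3)) * ‖v‖ := by
        field_simp
        ring
      rw [h5]
      nlinarith [norm_nonneg v]
    have h6 : ‖fderiv ℂ X (j x) v‖ ≤ 2 * Λ * ‖v‖ :=
      ((fderiv ℂ X (j x)).le_opNorm v).trans (mul_le_mul_of_nonneg_right hc (norm_nonneg v))
    have h7 : ‖fderiv ℂ X z v‖ ≤ ‖fderiv ℂ X z v - fderiv ℂ X (j x) v‖ +
        ‖fderiv ℂ X (j x) v‖ := by
      have h := norm_add_le (fderiv ℂ X z v - fderiv ℂ X (j x) v) (fderiv ℂ X (j x) v)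
      rwa [sub_add_cancel] at h
    nlinarith [norm_nonneg v]
  intro z hz w hw
  refine Convex.norm_image_sub_le_of_norm_fderiv_le (𝕜 := ℂ) (s := ball (j x : Ec)
    (1 / (12 * B ^ 3))) (fun u hu => ?_) h2 (convex_ball _ _) hw hz
  exact hX.diff.differentiableAt (isOpen_ball.mem_nhds
    (ball_subset_ball (hle.trans hle2) hu))

theorem Hol_flow [FiniteDimensional ℂ Ec] {f : E → E} (hs : ContDiff ℝ ∞ f)
    {φ : ℝ → E → E} (h0 : ∀ y, φ 0 y = y) (hφ : ∀ t y, HasDerivAt (fun t => φ t y) (f (φ t y)) t)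
    {x : E} {B Λ : ℝ} (hB : 2 ≤ B) (hΛ : 1 ≤ Λ) (hb : ∀ t ∈ Icc (0 : ℝ) 1, Hol f (φ t x) B)
    (hd : ∀ t ∈ Icc (0 : ℝ) 1, ‖fderiv ℝ f (φ t x)‖ ≤ Λ) (ho : ∀ t ∈ Icc (0 : ℝ) 1, ‖φ t x‖ ≤ B) :
    ∀ t ∈ Icc (0 : ℝ) 1, Hol (φ t) x (Real.exp (4 * Λ) * B ^ 8) := by
  have hcs : CompleteSpace Ec := FiniteDimensional.complete ℂ Ec
  have hB0 : 0 < B := by linarith
  obtain ⟨X, hX⟩ : HolT f ((fun t => φ t x) '' Icc (0 : ℝ) 1) B := by
    refine glue hB0 ?_
    rintro _ ⟨t, ht, rfl⟩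
    exact hb t ht
  obtain ⟨ρ, hρ⟩ : ∃ ρ : ℝ, ρ = 1 / (12 * B ^ 3) := ⟨_, rfl⟩
  have hρ0 : 0 < ρ := by rw [hρ]; positivity
  have hρB : ρ ≤ 1 / B := by
    rw [hρ]
    refine one_div_le_one_div_of_le hB0 ?_
    nlinarith [pow_pos hB0 2, pow_pos hB0 3]
  have hρ1 : ρ ≤ 1 := by
    refine hρB.trans ?_
    rw [div_le_one hB0]
    linarith
  have hsub : ∀ t ∈ Icc (0 : ℝ) 1, ball (j (φ t x) : Ec) (1 / B) ⊆
      thickening (1 / B) (j '' ((fun t => φ t x) '' Icc (0 : ℝ) 1)) := by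
    intro t ht
    have h1 : (j (φ t x) : Ec) ∈ j '' ((fun t => φ t x) '' Icc (0 : ℝ) 1) :=
      ⟨φ t x, ⟨t, ht, rfl⟩, rfl⟩
    exact ball_subset_thickening h1 _
  have hXt : ∀ t ∈ Icc (0 : ℝ) 1, Ext f (ball (j (φ t x)) (1 / B)) B X := fun t ht =>
    ⟨hX.diff.mono (hsub t ht), fun z hz => hX.bound z (hsub t ht hz),
      fun y hy => hX.ext y (hsub t ht hy)⟩
  have hcd : ∀ t : ℝ, ∀ y, HasDerivAt (fun t => (j (φ t y) : Ec)) (j (f (φ t y))) t :=
    fun t y => j_deriv (hφ t y)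
  have hcc : ∀ y, Continuous (fun t => (j (φ t y) : Ec)) := fun y =>
    continuous_iff_continuousAt.2 fun t => (hcd t y).continuousAt
  obtain ⟨ψ, hψ1, hψ2⟩ := hol_flow (X := X) (c := fun t => (j (φ t x) : Ec)) (ρ := ρ)
    (Λ := 3 * Λ) hρ0 (by linarith)
    (fun t ht => by
      have h := (hXt t ht).ext (φ t x) (mem_ball_self (by positivity))
      show HasDerivAt (fun t => (j (φ t x) : Ec)) (X (j (φ t x))) t
      rw [h]
      exact hcd t x)
    (fun t ht => (hXt t ht).diff.mono (ball_subset_ball hρB))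
    (fun t ht => by
      rw [hρ]
      exact HC9b_lip hs hB hΛ (hXt t ht) (hd t ht))
  simp only [h0] at hψ1 hψ2
  have hmem : ∀ z ∈ ball (j x : Ec) (ρ * Real.exp (-(3 * Λ))), ∀ t ∈ Icc (0 : ℝ) 1,
      ψ t z ∈ ball (j (φ t x) : Ec) ρ := by
    intro z hz t ht
    have h1 := (hψ2 z hz).2.2.2 t ht
    rw [mem_ball, dist_eq_norm]
    rw [mem_ball, dist_eq_norm] at hz
    refine h1.trans_lt ?_
    have h2 : ‖z - j x‖ * Real.exp (3 * Λ * t) ≤ ‖z - j x‖ * Real.exp (3 * Λ) := by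
      refine mul_le_mul_of_nonneg_left (Real.exp_le_exp.2 ?_) (norm_nonneg _)
      nlinarith [ht.2]
    have h3 : ‖z - j x‖ * Real.exp (3 * Λ) < ρ * Real.exp (-(3 * Λ)) * Real.exp (3 * Λ) :=
      mul_lt_mul_of_pos_right hz (Real.exp_pos _)
    rw [mul_assoc, ← Real.exp_add, neg_add_cancel, Real.exp_zero, mul_one] at h3
    exact h2.trans_lt h3
  have hC : 1 / (Real.exp (4 * Λ) * B ^ 8) ≤ ρ * Real.exp (-(3 * Λ)) := by
    rw [hρ, Real.exp_neg, ← one_div, div_mul_div_comm, one_mul]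
    refine one_div_le_one_div_of_le (by positivity) ?_
    have h1 : Real.exp (3 * Λ) ≤ Real.exp (4 * Λ) := Real.exp_le_exp.2 (by linarith)
    have h2 : 12 * B ^ 3 ≤ B ^ 8 := by
      have h3 : (12 : ℝ) ≤ B ^ 5 := by
        have h4 : (2 : ℝ) ^ 5 ≤ B ^ 5 := pow_le_pow_left₀ (by norm_num) hB 5
        norm_num at h4
        linarith
      have h5 : B ^ 8 = B ^ 5 * B ^ 3 := by ring
      rw [h5]
      exact mul_le_mul_of_nonneg_right h3 (by positivity)
    rw [mul_comm (12 * B ^ 3)]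
    exact mul_le_mul h1 h2 (by positivity) (by positivity)
  have hreal : ∀ y : E, (j y : Ec) ∈ ball (j x : Ec) (ρ * Real.exp (-(3 * Λ))) →
      ∀ t ∈ Icc (0 : ℝ) 1, ψ t (j y) = j (φ t y) := by
    intro y hy
    obtain ⟨hy0, hyc, hyd, hyb⟩ := hψ2 (j y) hy
    have hclosed : IsClosed ({t : ℝ | ψ t (j y) = j (φ t y)} ∩ Icc (0 : ℝ) 1) := by
      have h1 : IsClosed (Icc (0 : ℝ) 1 ∩ (fun t => ψ t (j y) - j (φ t y)) ⁻¹' {0}) :=
        ContinuousOn.preimage_isClosed_of_isClosed (hyc.sub (hcc y).continuousOn) isClosed_Icc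
          isClosed_singleton
      convert h1 using 1
      ext t
      simp only [mem_inter_iff, mem_ofPred_eq, mem_preimage, mem_singleton_iff, sub_eq_zero]
      exact and_comm
    have hXu : ContinuousOn (fun t => X (ψ t (j y))) (Icc (0 : ℝ) 1) := by
      intro t ht
      have h1 : ContinuousAt X (ψ t (j y)) :=
        ((hXt t ht).diff.differentiableAt (isOpen_ball.mem_nhds
          (ball_subset_ball hρB (hmem _ hy t ht)))).continuousAt
      exact ContinuousAt.comp_continuousWithinAt (f := fun t => ψ t (j y)) (g := X) h1 (hyc t ht)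
    have hright : ∀ t ∈ Ico (0 : ℝ) 1,
        HasDerivWithinAt (fun t => ψ t (j y)) (X (ψ t (j y))) (Ici t) t := by
      intro t ht
      rcases eq_or_lt_of_le ht.1 with h | h
      · subst h
        have hn : Ioo (0 : ℝ) 1 ∈ 𝓝[>] (0 : ℝ) := Ioo_mem_nhdsGT zero_lt_one
        refine hasDerivWithinAt_Ici_of_tendsto_deriv (s := Ioo (0 : ℝ) 1)
          (fun s hs => (hyd s hs).differentiableAt.differentiableWithinAt) ?_ hn ?_
        · exact (hyc 0 ⟨le_refl _, zero_le_one⟩).mono Ioo_subset_Icc_self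
        · have h1 : Tendsto (fun s => X (ψ s (j y))) (𝓝[>] (0 : ℝ)) (𝓝 (X (ψ 0 (j y)))) := by
            have h2 := (hXu 0 ⟨le_refl _, zero_le_one⟩).tendsto
            refine h2.mono_left ?_
            rw [nhdsWithin_Icc_eq_nhdsGE zero_lt_one]
            exact nhdsWithin_mono _ Ioi_subset_Ici_self
          refine h1.congr' ?_
          filter_upwards [hn] with s hs
          exact (hyd s hs).deriv.symm
      · exact (hyd t ⟨h, ht.2⟩).hasDerivWithinAt
    have hsubset : Icc (0 : ℝ) 1 ⊆ {t : ℝ | ψ t (j y) = j (φ t y)} := by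
      refine hclosed.Icc_subset_of_forall_mem_nhdsWithin ?_ ?_
      · show ψ 0 (j y) = j (φ 0 y)
        rw [hy0, h0]
      · rintro t ⟨ht, ht1⟩
        have ht' : ψ t (j y) = j (φ t y) := ht
        have hop : ∀ᶠ s in 𝓝 t, dist (j (φ s y) : Ec) (j (φ s x)) < ρ := by
          have h1 : Continuous fun s => dist (j (φ s y) : Ec) (j (φ s x)) :=
            (hcc y).dist (hcc x)
          refine (h1.tendsto t).eventually_lt_const ?_
          have h2 := hmem _ hy t ⟨ht1.1, ht1.2.le⟩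
          rw [ht', mem_ball] at h2
          exact h2
        obtain ⟨δ, hδ0, hδ⟩ := Metric.eventually_nhds_iff.1 hop
        obtain ⟨b, hb⟩ : ∃ b : ℝ, b = min (t + δ / 2) 1 := ⟨_, rfl⟩
        have htb : t < b := by
          rw [hb]
          exact lt_min (by linarith) ht1.2
        have hb1 : b ≤ 1 := by
          rw [hb]
          exact min_le_right _ _
        have hbd : b ≤ t + δ / 2 := by
          rw [hb]
          exact min_le_left _ _
        have hin : ∀ s ∈ Ico t b, (j (φ s y) : Ec) ∈ ball (j (φ s x) : Ec) ρ := by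
          intro s hs
          refine hδ ?_
          rw [Real.dist_eq, abs_of_nonneg (by linarith [hs.1])]
          linarith [hs.2]
        have hI : ∀ s ∈ Ico t b, s ∈ Icc (0 : ℝ) 1 := fun s hs =>
          ⟨ht1.1.trans hs.1, hs.2.le.trans hb1⟩
        have he : EqOn (fun s => ψ s (j y)) (fun s => j (φ s y)) (Icc t b) := by
          refine ODE_solution_unique_of_mem_Icc_right (v := fun _ z => X z)
            (s := fun s => ball (j (φ s x) : Ec) ρ) (K := Real.toNNReal (3 * Λ)) ?_ ?_ ?_ ?_ ?_ ?_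
            ?_ ht'
          · intro s hs'
            refine LipschitzOnWith.of_dist_le_mul fun z hz w hw => ?_
            rw [dist_eq_norm, dist_eq_norm, Real.coe_toNNReal _ (by linarith)]
            have h := HC9b_lip hs hB hΛ (hXt s (hI s hs')) (hd s (hI s hs'))
            rw [← hρ] at h
            exact h z hz w hw
          · exact hyc.mono (Icc_subset_Icc ht1.1 hb1)
          · intro s hs
            exact hright s ⟨ht1.1.trans hs.1, hs.2.trans_le hb1⟩
          · intro s hs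
            exact hmem _ hy s (hI s hs)
          · exact (hcc y).continuousOn
          · intro s hs
            have h := (hXt s (hI s hs)).ext (φ s y) (ball_subset_ball hρB (hin s hs))
            show HasDerivWithinAt (fun s => (j (φ s y) : Ec)) (X (j (φ s y))) (Ici s) s
            rw [h]
            exact (hcd s y).hasDerivWithinAt
          · exact hin
        filter_upwards [Ioo_mem_nhdsGT htb] with s hs
        exact he (Ioo_subset_Icc_self hs)
    exact fun t ht => hsubset ht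
  intro t ht
  refine ⟨ψ t, (hψ1 t ht).mono (ball_subset_ball hC), fun z hz => ?_, fun y hy => ?_⟩
  · have h1 := hmem z (ball_subset_ball hC hz) t ht
    rw [mem_ball, dist_eq_norm] at h1
    have h2 : ‖(j (φ t x) : Ec)‖ ≤ B := by
      rw [Cxf.j_norm]
      exact ho t ht
    have h3 : ‖ψ t z‖ ≤ ‖ψ t z - j (φ t x)‖ + ‖(j (φ t x) : Ec)‖ := by
      have h := norm_add_le (ψ t z - j (φ t x)) (j (φ t x))
      rwa [sub_add_cancel] at h
    have h4 : B + 1 ≤ B ^ 8 := by
      have h5 : B ^ 2 ≤ B ^ 8 := pow_le_pow_right₀ (by linarith) (by norm_num)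
      nlinarith
    have h6 : B ^ 8 ≤ Real.exp (4 * Λ) * B ^ 8 := by
      have h7 : (1 : ℝ) ≤ Real.exp (4 * Λ) := Real.one_le_exp (by linarith)
      nlinarith [pow_pos hB0 8]
    linarith
  · exact hreal y (ball_subset_ball hC hy) t ht

end H36
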