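import Mathlib

/-! BE36: holomorphic extensions with one constant: definitions (architect helper33). Every real space is
a product of lines; its complexification is the product of the complex lines. -/

open Set Filter Topology Metric
open scoped ContDiff

namespace H36

/-- `Ec` is the complexification of `E`: `z = j (re z) + i j (im z)`. -/
class Cxf (E : Type) (Ec : outParam Type) [NormedAddCommGroup E] [NormedSpace ℝ E]
    [NormedAddCommGroup Ec] [NormedSpace ℂ Ec] where
  j : E → Ec
  re : Ec → E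
  im : Ec → E
  j_add : ∀ x y, j (x + y) = j x + j y
  j_smul : ∀ (r : ℝ) x, j (r • x) = (r : ℂ) • j x
  j_norm : ∀ x, ‖j x‖ = ‖x‖
  re_add : ∀ z w, re (z + w) = re z + re w
  im_add : ∀ z w, im (z + w) = im z + im w
  re_smul : ∀ (r : ℝ) z, re ((r : ℂ) • z) = r • re z
  im_smul : ∀ (r : ℝ) z, im ((r : ℂ) • z) = r • im z
  re_I : ∀ z, re (Complex.I • z) = -im z
  im_I : ∀ z, im (Complex.I • z) = re z
  re_j : ∀ x, re (j x) = x
  im_j : ∀ x, im (j x) = 0
  split : ∀ z, j (re z) + Complex.I • j (im z) = z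
  re_le : ∀ z, ‖re z‖ ≤ ‖z‖
  im_le : ∀ z, ‖im z‖ ≤ ‖z‖

export Cxf (j)

noncomputable instance instReal : Cxf ℝ ℂ where
  j := fun x => (x : ℂ)
  re := Complex.re
  im := Complex.im
  j_add := Complex.ofReal_add
  j_smul := fun r x => by simp
  j_norm := fun x => Complex.norm_real x
  re_add := Complex.add_re
  im_add := Complex.add_im
  re_smul := fun r z => by simp
  im_smul := fun r z => by simp
  re_I := fun z => by simp
  im_I := fun z => by simp
  re_j := Complex.ofReal_re
  im_j := Complex.ofReal_im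
  split := fun z => by
    rw [smul_eq_mul, mul_comm]
    exact Complex.re_add_im z
  re_le := fun z => by
    rw [Real.norm_eq_abs]
    exact Complex.abs_re_le_norm z
  im_le := fun z => by
    rw [Real.norm_eq_abs]
    exact Complex.abs_im_le_norm z

noncomputable instance instProd {E F Ec Fc : Type} [NormedAddCommGroup E] [NormedSpace ℝ E]
    [NormedAddCommGroup F] [NormedSpace ℝ F] [NormedAddCommGroup Ec] [NormedSpace ℂ Ec]
    [NormedAddCommGroup Fc] [NormedSpace ℂ Fc] [Cxf E Ec] [Cxf F Fc] :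
    Cxf (E × F) (Ec × Fc) where
  j := fun x => (j x.1, j x.2)
  re := fun z => (Cxf.re z.1, Cxf.re z.2)
  im := fun z => (Cxf.im z.1, Cxf.im z.2)
  j_add := fun x y => Prod.ext (Cxf.j_add _ _) (Cxf.j_add _ _)
  j_smul := fun r x => Prod.ext (Cxf.j_smul _ _) (Cxf.j_smul _ _)
  j_norm := fun x => by
    rw [Prod.norm_def, Prod.norm_def, Cxf.j_norm, Cxf.j_norm]
  re_add := fun z w => Prod.ext (Cxf.re_add _ _) (Cxf.re_add _ _)
  im_add := fun z w => Prod.ext (Cxf.im_add _ _) (Cxf.im_add _ _)
  re_smul := fun r z => Prod.ext (Cxf.re_smul _ _) (Cxf.re_smul _ _)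
  im_smul := fun r z => Prod.ext (Cxf.im_smul _ _) (Cxf.im_smul _ _)
  re_I := fun z => Prod.ext (Cxf.re_I _) (Cxf.re_I _)
  im_I := fun z => Prod.ext (Cxf.im_I _) (Cxf.im_I _)
  re_j := fun x => Prod.ext (Cxf.re_j _) (Cxf.re_j _)
  im_j := fun x => Prod.ext (Cxf.im_j _) (Cxf.im_j _)
  split := fun z => Prod.ext (Cxf.split _) (Cxf.split _)
  re_le := fun z => by
    rw [Prod.norm_def, Prod.norm_def]
    exact max_le_max (Cxf.re_le _) (Cxf.re_le _)
  im_le := fun z => by
    rw [Prod.norm_def, Prod.norm_def]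
    exact max_le_max (Cxf.im_le _) (Cxf.im_le _)

noncomputable instance instPi {n : ℕ} {E Ec : Type} [NormedAddCommGroup E] [NormedSpace ℝ E]
    [NormedAddCommGroup Ec] [NormedSpace ℂ Ec] [Cxf E Ec] : Cxf (Fin n → E) (Fin n → Ec) where
  j := fun x k => j (x k)
  re := fun z k => Cxf.re (z k)
  im := fun z k => Cxf.im (z k)
  j_add := fun x y => funext fun _ => Cxf.j_add _ _
  j_smul := fun r x => funext fun _ => Cxf.j_smul _ _
  j_norm := fun x => by
    simp only [Pi.norm_def, Cxf.j_norm, ← NNReal.coe_inj, coe_nnnorm]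
    congr 1
    refine Finset.sup_congr rfl fun k _ => ?_
    exact NNReal.coe_injective (by simp [Cxf.j_norm])
  re_add := fun z w => funext fun _ => Cxf.re_add _ _
  im_add := fun z w => funext fun _ => Cxf.im_add _ _
  re_smul := fun r z => funext fun _ => Cxf.re_smul _ _
  im_smul := fun r z => funext fun _ => Cxf.im_smul _ _
  re_I := fun z => funext fun _ => Cxf.re_I _
  im_I := fun z => funext fun _ => Cxf.im_I _
  re_j := fun x => funext fun _ => Cxf.re_j _
  im_j := fun x => funext fun _ => Cxf.im_j _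
  split := fun z => funext fun _ => Cxf.split _
  re_le := fun z => (pi_norm_le_iff_of_nonneg (norm_nonneg z)).2 fun k =>
    (Cxf.re_le _).trans (norm_le_pi_norm z k)
  im_le := fun z => (pi_norm_le_iff_of_nonneg (norm_nonneg z)).2 fun k =>
    (Cxf.im_le _).trans (norm_le_pi_norm z k)

section Hol

variable {E F Ec Fc : Type} [NormedAddCommGroup E] [NormedSpace ℝ E] [NormedAddCommGroup F]
  [NormedSpace ℝ F] [NormedAddCommGroup Ec] [NormedSpace ℂ Ec] [NormedAddCommGroup Fc]
  [NormedSpace ℂ Fc] [Cxf E Ec] [Cxf F Fc]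

/-- `g` is a holomorphic extension of `f` to the set `U`, bounded by `B`. -/
structure Ext (f : E → F) (U : Set Ec) (B : ℝ) (g : Ec → Fc) : Prop where
  diff : DifferentiableOn ℂ g U
  bound : ∀ z ∈ U, ‖g z‖ ≤ B
  ext : ∀ y : E, j y ∈ U → g (j y) = j (f y)

/-- `f` has a holomorphic extension to the ball of radius `1 / B` around `x`, bounded by `B`. -/
def Hol (f : E → F) (x : E) (B : ℝ) : Prop := ∃ g : Ec → Fc, Ext f (ball (j x) (1 / B)) B g

/-- `f` has a holomorphic extension to the neighbourhood of size `1 / B` of `K`, bounded by `B`. -/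
def HolT (f : E → F) (K : Set E) (B : ℝ) : Prop :=
  ∃ g : Ec → Fc, Ext f (thickening (1 / B) (j '' K)) B g

end Hol

section HB

variable {ι E F Ec Fc : Type} [NormedAddCommGroup E] [NormedSpace ℝ E] [NormedAddCommGroup F]
  [NormedSpace ℝ F] [NormedAddCommGroup Ec] [NormedSpace ℂ Ec] [NormedAddCommGroup Fc]
  [NormedSpace ℂ Fc] [Cxf E Ec] [Cxf F Fc]

/-- Smooth functions `f i` with holomorphic extensions near the points `x i`, the radii and the bounds
being powers of `M i`. -/
structure HB (M : ι → ℝ) (f : ι → E → F) (x : ι → E) : Prop where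
  smooth : ∀ i, ContDiff ℝ ∞ (f i)
  hol : ∃ A : ℕ, ∀ i, Hol (f i) (x i) (M i ^ A)

/-- The same near the compact sets `K i`. -/
structure HT (M : ι → ℝ) (f : ι → E → F) (K : ι → Set E) : Prop where
  smooth : ∀ i, ContDiff ℝ ∞ (f i)
  hol : ∃ A : ℕ, ∀ i, HolT (f i) (K i) (M i ^ A)

end HB

end H36
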