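import Pool.Agent.LibBE36.G02
import Pool.Agent.LibBE36K.K13

/-! Row BE36 G03 (cites G02, K13; `LibBE88/A3`, `A4`): the geodesic flow and the exponential map. MEDIUM, 40 min.
Plan: `EB0_gfl` of `LibBE88/A4.lean` with `HB_flow` (row K13) in place of `flow_EB0`: `J = ι`, `S = Lx ι ℝ K`, `jj q = q.i`,
`x0 = Lx.b`, `φ i t q = (q.1, gfl (mm m (s i) q.1) t q.2)`; `ho` from `orb_bdd`; `hΛ`: the bound of order `1` of
`jf_EB0` at the compact set `closedBall 0 B` (`EB.bound 1`, `norm_iteratedFDeriv_one`); `hb`: `HB_jf` for the compact set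
`closedBall 0 B`, pulled back along the index of the orbit point (as in `A4`; `HB_pull`). `JE`: the first component of the flow
at `t = 1` (`HB_clm`, `HB_pull`). -/

open MeasureTheory Set Filter Topology
open scoped ContDiff

namespace BE36

open BGS BR BE

variable {Γ : Type} [Group Γ] [MulAction Γ Pl] {D : Set Pl} {ι : Type} {m : Pl → Co} {a b : ℝ}
  {s : ι → ℝ × Pl → ℝ} {lQ : ι → ℝ} {K : Set Pl}

theorem HB_gfl (h : CH Γ D m a b s lQ) (hK : IsCompact K) :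
    HB (fun q : Lx ι ℝ K × Icc (0 : ℝ) 1 => lx lQ q.1) (fun q (e : ℝ × Pl × Pl) =>
      gfl (mm m (s q.1.i) e.1) q.2 e.2) (fun q => q.1.b) := by
  obtain ⟨B, hB⟩ := orb_bdd h.cf hK
  have ho : ∃ B' : ℝ, ∀ q : Lx ι ℝ K × Icc (0 : ℝ) 1,
      ‖((q.1.b.1, gfl (mm m (s q.1.i) q.1.b.1) q.2 q.1.b.2) : ℝ × Pl × Pl)‖ ≤ B' := by
    refine ⟨max 1 B, fun q => ?_⟩
    rw [Prod.norm_def]
    exact max_le_max q.1.hp (hB q.1 q.2 q.2.2)
  -- the index of the point of the orbit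
  let θ : Lx ι ℝ K × Icc (0 : ℝ) 1 → Lx ι ℝ (Metric.closedBall (0 : Pl) B) := fun q =>
    ⟨q.1.i, q.1.p, (gfl (mm m (s q.1.i) q.1.p) q.2 (q.1.z, q.1.w)).1,
      (gfl (mm m (s q.1.i) q.1.p) q.2 (q.1.z, q.1.w)).2, q.1.hp,
      mem_closedBall_zero_iff.2 ((norm_fst_le _).trans (hB q.1 q.2 q.2.2)),
      mem_closedBall_zero_iff.2 ((norm_snd_le _).trans (hB q.1 q.2 q.2.2))⟩
  have hj := jf_EB0 h.cf (isCompact_closedBall (0 : Pl) B)
  have hΛ : ∃ Λ : ℝ, ∀ q : Lx ι ℝ K × Icc (0 : ℝ) 1,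
      ‖fderiv ℝ (jf m (s q.1.i))
        ((q.1.b.1, gfl (mm m (s q.1.i) q.1.b.1) q.2 q.1.b.2) : ℝ × Pl × Pl)‖ ≤ Λ := by
    obtain ⟨C, hC⟩ := hj.bound 1
    refine ⟨C * Real.exp (C * 0), fun q => ?_⟩
    have h1 := hC (θ q)
    rw [norm_iteratedFDeriv_one] at h1
    exact h1
  have hb : HB (fun q : Lx ι ℝ K × Icc (0 : ℝ) 1 => lx lQ q.1) (fun q => jf m (s q.1.i))
      (fun q => ((q.1.b.1, gfl (mm m (s q.1.i) q.1.b.1) q.2 q.1.b.2) : ℝ × Pl × Pl)) :=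
    HB_pull (HB_jf h (isCompact_closedBall (0 : Pl) B)) θ
  have hf := HB_flow (J := ι) (E := ℝ × Pl × Pl) (S := Lx ι ℝ K) (f := fun i => jf m (s i))
    (jf_smooth h.cf) (φ := fun i t q => (q.1, gfl (mm m (s i) q.1) t q.2)) (jf_flow h.cf)
    (jj := fun q => q.i) (x0 := Lx.b) (ℓ := lx lQ) (fun q => lx_nonneg h q) ho hΛ hb
  have hn : ∀ q : Lx ι ℝ K × Icc (0 : ℝ) 1, 0 ≤ lx lQ q.1 := fun q => lx_nonneg h q.1
  exact HB_clm hn hf (ContinuousLinearMap.snd ℝ ℝ (Pl × Pl))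

theorem HB_JE (h : CH Γ D m a b s lQ) (hK : IsCompact K) :
    HB (fun q : Lx ι ℝ K => lx lQ q) (fun q => JE m (s q.i)) Lx.b := by
  have hn : ∀ q : Lx ι ℝ K × Icc (0 : ℝ) 1, 0 ≤ lx lQ q.1 := fun q => lx_nonneg h q.1
  have h1 := HB_clm hn (HB_gfl h hK) (ContinuousLinearMap.fst ℝ Pl Pl)
  exact HB_pull h1 (fun q : Lx ι ℝ K => (q, (⟨1, by norm_num, le_rfl⟩ : Icc (0 : ℝ) 1)))

end BE36
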