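import Pool.Agent.LibBE36.G03
import Pool.Agent.LibBE36K.K11
import Pool.Agent.LibBE88.A6

/-! Row BE36 G04 (cites G03, K11; `LibBE88/A5`): the inverse of the exponential map, locally. MEDIUM, 45 min.
Plan: `EB0_JV` of `LibBE88/A5.lean` with `HIF` (row K11) in place of `IF`: `κ = Lx ι ℝ K`, `E = Q = ℝ × Pl × Pl`, `F = Pl`,
`π q = id` (`HB_idx`), `ℓ = lx lQ`, `N q = 2`, `w q 1 = JV m (s q.i)`, `w q j = 0` otherwise,
`G q j (e, a, v, c) = JE m (s q.i) (e.1, e.2.1, v) - e.2.2`. `hG`: `HB_JE` for the compact set `K ∪ closedBall 0 C` (`C` from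
`JV_bdd`) composed with the linear map `(e, a, v, c) ↦ (e.1, e.2.1, v)`. `hw`: `JV_smooth`. `heq`, `hb`, `hinv`: verbatim from the
proof of `EB0_JV` (`hinv` may be proved there inline: copy it; the constant is `K * exp (K * ℓ)` with `ℓ ≥ 0`). -/

open MeasureTheory Set Filter Topology
open scoped ContDiff

namespace BE36

open BGS BR BE

variable {Γ : Type} [Group Γ] [MulAction Γ Pl] {D : Set Pl} {ι : Type} {m : Pl → Co} {a b : ℝ}
  {s : ι → ℝ × Pl → ℝ} {lQ : ι → ℝ} {K : Set Pl}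

section aux

variable {P : Type} [NormedAddCommGroup P] [NormedSpace ℝ P] [FiniteDimensional ℝ P]
  {s : ι → P × Pl → ℝ}

private theorem G04_diffE (h : CF Γ D m a b s) (i : ι) (p : P) (z : Pl) :
    Differentiable ℝ (Ex (mm m (s i) p) z) :=
  ((Ex_smooth h.hX (hm_mm h i p)).comp (contDiff_const.prodMk contDiff_id)).differentiable
    (by simp)

private theorem G04_qf_le (c : Co) (v : Pl) : qf c v ≤ 4 * ‖c‖ * ‖v‖ ^ 2 := by
  have h1 : |c.1| ≤ ‖c‖ := norm_fst_le c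
  have h2 : |c.2.1| ≤ ‖c‖ := (norm_fst_le c.2).trans (norm_snd_le c)
  have h3 : |c.2.2| ≤ ‖c‖ := (norm_snd_le c.2).trans (norm_snd_le c)
  have h4 : |v.1| ≤ ‖v‖ := norm_fst_le v
  have h5 : |v.2| ≤ ‖v‖ := norm_snd_le v
  have e1 : |c.1 * v.1 ^ 2| ≤ ‖c‖ * ‖v‖ ^ 2 := by
    rw [abs_mul, abs_pow]
    exact mul_le_mul h1 (pow_le_pow_left₀ (abs_nonneg _) h4 2) (by positivity) (norm_nonneg _)
  have e2 : |c.2.1 * v.1 * v.2| ≤ ‖c‖ * ‖v‖ ^ 2 := by
    rw [abs_mul, abs_mul, mul_assoc, pow_two]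
    exact mul_le_mul h2 (mul_le_mul h4 h5 (abs_nonneg _) (norm_nonneg _)) (by positivity)
      (norm_nonneg _)
  have e3 : |c.2.2 * v.2 ^ 2| ≤ ‖c‖ * ‖v‖ ^ 2 := by
    rw [abs_mul, abs_pow]
    exact mul_le_mul h3 (pow_le_pow_left₀ (abs_nonneg _) h5 2) (by positivity) (norm_nonneg _)
  have f1 := le_abs_self (c.1 * v.1 ^ 2)
  have f2 := le_abs_self (c.2.1 * v.1 * v.2)
  have f3 := le_abs_self (c.2.2 * v.2 ^ 2)
  unfold qf
  have e4 : 2 * c.2.1 * v.1 * v.2 = 2 * (c.2.1 * v.1 * v.2) := by ring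
  rw [e4]
  linarith

/-- On a compact set the metrics are bounded. -/
private theorem G04_qf_bdd (h : CF Γ D m a b s) {K : Set Pl} (hK : IsCompact K) :
    ∃ C : ℝ, 0 ≤ C ∧ ∀ (i : ι) (p : P), ‖p‖ ≤ 1 → ∀ z ∈ K, ∀ v : Pl,
      qf (mm m (s i) p z) v ≤ (C * ‖v‖) ^ 2 := by
  obtain ⟨C1, hC1, h1⟩ := mm_cmp h
  obtain ⟨C2, hC2⟩ := hK.exists_bound_of_continuousOn h.hm.smooth.continuous.continuousOn
  have hC0 : 0 ≤ C1 := by linarith
  refine ⟨C1 * (2 * √(max C2 0)), by positivity, fun i p hp z hz v => ?_⟩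
  refine ((h1 i p hp z v).2).trans ?_
  have e1 : (C1 * (2 * √(max C2 0)) * ‖v‖) ^ 2 = C1 ^ 2 * (4 * (max C2 0) * ‖v‖ ^ 2) := by
    have e2 : √(max C2 0) ^ 2 = max C2 0 := Real.sq_sqrt (le_max_right _ _)
    calc (C1 * (2 * √(max C2 0)) * ‖v‖) ^ 2 = C1 ^ 2 * (4 * √(max C2 0) ^ 2 * ‖v‖ ^ 2) := by ring
      _ = _ := by rw [e2]
  rw [e1]
  refine mul_le_mul_of_nonneg_left ?_ (by positivity)
  refine (G04_qf_le _ _).trans ?_
  refine mul_le_mul_of_nonneg_right ?_ (by positivity)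
  exact mul_le_mul_of_nonneg_left ((hC2 z hz).trans (le_max_left _ _)) (by norm_num)

/-- The inverse of the derivative of the exponential map. -/
private theorem G04_inv_le (h : CF Γ D m a b s) {i : ι} {p : P} {C : ℝ} (hC : 0 ≤ C) {z V : Pl}
    (hq : ∀ v : Pl, qf (mm m (s i) p (Ex (mm m (s i) p) z V)) v ≤ (C * ‖v‖) ^ 2) (c : Pl) :
    ‖c‖ ≤ C * ‖fderiv ℝ (Ex (mm m (s i) p) z) V c‖ := by
  have h1 := Ex_expand h.hX (hm_mm h i p) z V c
  have h2 := h1.trans (hq _)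
  have h3 : 0 ≤ C * ‖fderiv ℝ (Ex (mm m (s i) p) z) V c‖ := by positivity
  have h4 : eu c ≤ C * ‖fderiv ℝ (Ex (mm m (s i) p) z) V c‖ := by
    have h5 : 0 ≤ eu c := Real.sqrt_nonneg _
    nlinarith
  exact (H1e_norm c).trans h4

end aux

theorem HB_JV (h : CH Γ D m a b s lQ) (hK : IsCompact K) :
    HB (fun q : Lx ι ℝ K => lx lQ q) (fun q => JV m (s q.i)) Lx.b := by
  classical
  have hℓ : ∀ q : Lx ι ℝ K, 0 ≤ lx lQ q := fun q => lx_nonneg h q
  obtain ⟨B, hB⟩ := JV_bdd h.cf hK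
  obtain ⟨R, hR⟩ := hK.isBounded.subset_closedBall (0 : Pl)
  obtain ⟨C, hC, hq⟩ := G04_qf_bdd h.cf hK
  have hzR : ∀ q : Lx ι ℝ K, ‖q.z‖ ≤ R := fun q => by simpa using hR q.hz
  have hwR : ∀ q : Lx ι ℝ K, ‖q.w‖ ≤ R := fun q => by simpa using hR q.hw
  have hbR : ∀ q : Lx ι ℝ K, ‖q.b‖ ≤ max 1 R := fun q => by
    show ‖((q.p, q.z, q.w) : ℝ × Pl × Pl)‖ ≤ _
    rw [Prod.norm_def, Prod.norm_def]
    exact max_le_max q.hp (max_le (hzR q) (hwR q))
  have hbb : ∀ q : Lx ι ℝ K, ‖JV m (s q.i) q.b‖ ≤ max B 0 := fun q =>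
    (hB q).trans (le_max_left _ _)
  set K' : Set Pl := K ∪ Metric.closedBall 0 (max B 0) with hK'
  have hK'c : IsCompact K' := hK.union (isCompact_closedBall _ _)
  let N : Lx ι ℝ K → ℕ := fun _ => 2
  let w : Lx ι ℝ K → ℕ → ℝ × Pl × Pl → Pl := fun q j => if j = 1 then JV m (s q.i) else fun _ => 0
  have hw1 : ∀ q, w q 1 = JV m (s q.i) := fun q => if_pos rfl
  have hw0 : ∀ q, w q 0 = fun _ => 0 := fun q => if_neg (by norm_num)
  have hw2 : ∀ q, w q 2 = fun _ => 0 := fun q => if_neg (by norm_num)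
  let π : Lx ι ℝ K → ℝ × Pl × Pl → ℝ × Pl × Pl := fun _ y => y
  let G : Lx ι ℝ K → ℕ → (ℝ × Pl × Pl) × Pl × Pl × Pl → Pl := fun q _ u =>
    JE m (s q.i) (u.1.1, u.1.2.1, u.2.2.1) - u.1.2.2
  have hj : ∀ q : In N, q.1.2 = 1 := fun q => by
    have h1 : 1 ≤ q.1.2 := q.2.1
    have h2 : q.1.2 < 2 := q.2.2
    omega
  have hπ : HB (fun q : Lx ι ℝ K => lx lQ q) π Lx.b := HB_idx h hK
  have hws : ∀ q j, Continuous (w q j) := by
    intro q j
    by_cases hj : j = 1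
    · subst hj
      rw [hw1]
      exact (JV_smooth h.cf q.i).continuous
    · have : w q j = fun _ => 0 := if_neg hj
      rw [this]
      exact continuous_const
  have hwb : ∀ q j, ‖w q j q.b‖ ≤ max B 0 := by
    intro q j
    by_cases hj : j = 1
    · subst hj
      rw [hw1]
      exact hbb q
    · have : w q j = fun _ => 0 := if_neg hj
      rw [this]
      simp
  -- the linear maps
  let L1 : (ℝ × Pl × Pl) × Pl × Pl × Pl →L[ℝ] ℝ × Pl × Pl :=
    ((ContinuousLinearMap.fst ℝ ℝ (Pl × Pl)).comp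
      (ContinuousLinearMap.fst ℝ (ℝ × Pl × Pl) (Pl × Pl × Pl))).prod
    (((ContinuousLinearMap.fst ℝ Pl Pl).comp ((ContinuousLinearMap.snd ℝ ℝ (Pl × Pl)).comp
      (ContinuousLinearMap.fst ℝ (ℝ × Pl × Pl) (Pl × Pl × Pl)))).prod
    ((ContinuousLinearMap.fst ℝ Pl Pl).comp ((ContinuousLinearMap.snd ℝ Pl (Pl × Pl)).comp
      (ContinuousLinearMap.snd ℝ (ℝ × Pl × Pl) (Pl × Pl × Pl)))))
  have hL1 : ∀ u, L1 u = (u.1.1, u.1.2.1, u.2.2.1) := fun u => rfl
  let L2 : (ℝ × Pl × Pl) × Pl × Pl × Pl →L[ℝ] Pl :=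
    (ContinuousLinearMap.snd ℝ Pl Pl).comp ((ContinuousLinearMap.snd ℝ ℝ (Pl × Pl)).comp
      (ContinuousLinearMap.fst ℝ (ℝ × Pl × Pl) (Pl × Pl × Pl)))
  have hL2 : ∀ u, L2 u = u.1.2.2 := fun u => rfl
  let X : In N → (ℝ × Pl × Pl) × Pl × Pl × Pl := fun q =>
    (π q.1.1 q.1.1.b, w q.1.1 (q.1.2 - 1) q.1.1.b, w q.1.1 q.1.2 q.1.1.b,
      w q.1.1 (q.1.2 + 1) q.1.1.b)
  have hXb : ∀ q : In N, ‖X q‖ ≤ max (max 1 R) (max B 0) := by
    intro q
    show ‖((_, _, _, _) : (ℝ × Pl × Pl) × Pl × Pl × Pl)‖ ≤ _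
    rw [Prod.norm_def, Prod.norm_def, Prod.norm_def]
    exact max_le_max (hbR _) (max_le (hwb _ _) (max_le (hwb _ _) (hwb _ _)))
  have hle : ∀ (A t : ℝ), 1 ≤ A → 0 ≤ t → A ≤ hc A t := by
    intro A t hA ht
    have h1 : 1 ≤ Real.exp (A * t) := Real.one_le_exp (by positivity)
    unfold hc
    nlinarith
  have hℓI : ∀ q : In N, 0 ≤ lx lQ q.1.1 := fun q => hℓ q.1.1
  have hA1 : (1 : ℝ) ≤ max (max 1 R) (max B 0) := (le_max_left _ _).trans (le_max_left _ _)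
  have hid : HB (fun q : In N => lx lQ q.1.1)
      (fun (_ : In N) (u : (ℝ × Pl × Pl) × Pl × Pl × Pl) => u) X :=
    HB_id hℓI hA1 (fun q => (hXb q).trans (hle _ _ hA1 (hℓI q)))
  have hG : HB (fun q : In N => lx lQ q.1.1) (fun q => G q.1.1 q.1.2) X := by
    have h1 := HB_JE h hK'c
    let φ : In N → Lx ι ℝ K' := fun q =>
      ⟨q.1.1.i, q.1.1.p, q.1.1.z, w q.1.1 q.1.2 q.1.1.b, q.1.1.hp, Or.inl q.1.1.hz,
        Or.inr (by
          rw [mem_closedBall_zero_iff]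
          exact hwb _ _)⟩
    have h2 : HB (fun q : In N => lx lQ q.1.1) (fun q : In N => JE m (s q.1.1.i))
        (fun q => L1 (X q)) := HB_pull h1 φ
    have h3 : HB (fun q : In N => lx lQ q.1.1)
        (fun (q : In N) (u : (ℝ × Pl × Pl) × Pl × Pl × Pl) => L1 u) X := HB_clm hℓI hid L1
    exact HB_sub hℓI (HB_comp hℓI h2 h3) (HB_clm hℓI hid L2)
  have heq : ∀ q j, 1 ≤ j → j < N q → ∀ y,
      G q j (π q y, w q (j - 1) y, w q j y, w q (j + 1) y) = 0 := by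
    intro q j h1 h2 y
    have h2' : j < 2 := h2
    obtain rfl : j = 1 := by omega
    show JE m (s q.i) (y.1, y.2.1, w q 1 y) - y.2.2 = 0
    rw [hw1]
    have : JE m (s q.i) (y.1, y.2.1, JV m (s q.i) y) = y.2.2 :=
      Ex_Vx h.cf.hX (hm_mm h.cf q.i y.1) y.2.1 y.2.2
    rw [this, sub_self]
  have hinv : ∃ K' : ℝ, ∀ (q : Lx ι ℝ K) (v : ℕ → Pl) (M : ℝ), ‖v 0‖ ≤ M → ‖v (N q)‖ ≤ M →
      (∀ j, 1 ≤ j → j < N q →
        ‖fderiv ℝ (G q j) (π q q.b, w q (j - 1) q.b, w q j q.b, w q (j + 1) q.b)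
          (0, v (j - 1), v j, v (j + 1))‖ ≤ M) →
      ∀ j ≤ N q, ‖v j‖ ≤ K' * Real.exp (K' * lx lQ q) * M := by
    refine ⟨max C 1, fun q v M h0 h2 h1 j hj => ?_⟩
    have hM : 0 ≤ M := (norm_nonneg _).trans h0
    have hexp : 1 ≤ Real.exp (max C 1 * lx lQ q) :=
      Real.one_le_exp (mul_nonneg (le_trans zero_le_one (le_max_right _ _)) (hℓ q))
    have hle' : max C 1 * M ≤ max C 1 * Real.exp (max C 1 * lx lQ q) * M := by
      have h5 : 0 ≤ max C 1 := le_trans zero_le_one (le_max_right _ _)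
      have h6 : max C 1 * 1 ≤ max C 1 * Real.exp (max C 1 * lx lQ q) :=
        mul_le_mul_of_nonneg_left hexp h5
      rw [mul_one] at h6
      exact mul_le_mul_of_nonneg_right h6 hM
    refine le_trans ?_ hle'
    have hle : M ≤ max C 1 * M := by
      nlinarith [le_max_right C 1]
    have hj2 : j ≤ 2 := hj
    have h2' : ‖v 2‖ ≤ M := h2
    interval_cases j
    · exact h0.trans hle
    · have h3 := h1 1 le_rfl (by show 1 < 2; norm_num)
      set V := JV m (s q.i) q.b with hV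
      have hEV : Ex (mm m (s q.i) q.p) q.z V = q.w := Ex_Vx h.cf.hX (hm_mm h.cf q.i q.p) q.z q.w
      have h4 := G04_inv_le h.cf (i := q.i) (p := q.p) hC (z := q.z) (V := V)
        (by
          intro v
          rw [hEV]
          exact hq q.i q.p q.hp _ q.hw v) (v 1)
      have h5 : fderiv ℝ (G q 1) (π q q.b, w q (1 - 1) q.b, w q 1 q.b, w q (1 + 1) q.b)
          (0, v (1 - 1), v 1, v (1 + 1)) = fderiv ℝ (Ex (mm m (s q.i) q.p) q.z) V (v 1) := by
        have hw1' : w q 1 q.b = V := by rw [hw1]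
        rw [hw1']
        have d0 : HasDerivAt (fun r : ℝ => V + r • v 1) (v 1) 0 := by
          simpa using ((hasDerivAt_id (0 : ℝ)).smul_const (v 1)).const_add V
        have d1 : HasDerivAt (fun r : ℝ => ((π q q.b, w q (1 - 1) q.b + r • v (1 - 1),
            V + r • v 1, w q (1 + 1) q.b + r • v (1 + 1)) : (ℝ × Pl × Pl) × Pl × Pl × Pl))
            ((0, v (1 - 1), v 1, v (1 + 1)) : (ℝ × Pl × Pl) × Pl × Pl × Pl) 0 := by
          refine (hasDerivAt_const (0 : ℝ) _).prodMk (HasDerivAt.prodMk ?_ (d0.prodMk ?_))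
          · simpa using ((hasDerivAt_id (0 : ℝ)).smul_const (v (1 - 1))).const_add
              (w q (1 - 1) q.b)
          · simpa using ((hasDerivAt_id (0 : ℝ)).smul_const (v (1 + 1))).const_add
              (w q (1 + 1) q.b)
        have hGs : ContDiff ℝ ∞ (G q 1) :=
          ((JE_smooth h.cf q.i).comp L1.contDiff).sub L2.contDiff
        have hGd : Differentiable ℝ (G q 1) := hGs.differentiable (by simp)
        have d2 : HasFDerivAt (G q 1) (fderiv ℝ (G q 1) (π q q.b, w q (1 - 1) q.b, V,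
            w q (1 + 1) q.b)) ((π q q.b, w q (1 - 1) q.b + (0 : ℝ) • v (1 - 1),
            V + (0 : ℝ) • v 1, w q (1 + 1) q.b + (0 : ℝ) • v (1 + 1)) :
              (ℝ × Pl × Pl) × Pl × Pl × Pl) := by
          rw [zero_smul, zero_smul, zero_smul, add_zero, add_zero, add_zero]
          exact (hGd _).hasFDerivAt
        have d3 := d2.comp_hasDerivAt (0 : ℝ) d1
        have d4 : HasFDerivAt (Ex (mm m (s q.i) q.p) q.z)
            (fderiv ℝ (Ex (mm m (s q.i) q.p) q.z) V) (V + (0 : ℝ) • v 1) := by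
          rw [zero_smul, add_zero]
          exact (G04_diffE h.cf q.i q.p q.z V).hasFDerivAt
        have d5 := (d4.comp_hasDerivAt (0 : ℝ) d0).sub_const q.w
        exact d3.unique d5
      rw [h5] at h3
      refine h4.trans ?_
      exact mul_le_mul (le_max_left _ _) h3 (norm_nonneg _) (by positivity)
    · exact h2'.trans hle
  have key := HIF (κ := Lx ι ℝ K) (E := ℝ × Pl × Pl) (F := Pl) (Q := ℝ × Pl × Pl)
    (ℓ := fun q => lx lQ q) hℓ (N := N) (x := Lx.b) (w := w) (π := π) (G := G)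
    hπ hG hws heq
    (by
      have : (fun q => w q 0) = fun (_ : Lx ι ℝ K) (_ : ℝ × Pl × Pl) => (0 : Pl) := funext hw0
      rw [this]
      exact HB_const hℓ le_rfl (fun q => by
        rw [norm_zero]
        exact (hc_pos le_rfl).le))
    (by
      have : (fun q => w q (N q)) = fun (_ : Lx ι ℝ K) (_ : ℝ × Pl × Pl) => (0 : Pl) :=
        funext hw2
      rw [this]
      exact HB_const hℓ le_rfl (fun q => by
        rw [norm_zero]
        exact (hc_pos le_rfl).le))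
    ⟨max 1 (max B 0), le_max_left _ _, fun q j _ =>
      ((hwb q j).trans (le_max_right _ _)).trans (hle _ _ (le_max_left _ _) (hℓ q))⟩
    hinv
  let ψ : Lx ι ℝ K → Le N := fun q => ⟨(q, 1), by show 1 ≤ 2; norm_num⟩
  have hfin := HB_pull key ψ
  refine HB_congr hfin fun q y => ?_
  show w q 1 y = JV m (s q.i) y
  rw [hw1]

end BE36
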