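import Pool.Agent.LibBE36.G04

/-! Row BE36 G05 (cites G01, G03, G04; `LibBE88/A6`): the local families with finitely many deck transformations.
SHORT / MEDIUM, 35 min.
Plan: `LibBE88/A6.lean` word for word: `EB0_JVd`, `EB0_JEd` with `HB_JV`, `HB_JE`, `HB_act` (row G01), `HB_comp`, `HB_prod`,
`HB_clm`, `HB_idx`. -/

open MeasureTheory Set Filter Topology
open scoped ContDiff

namespace BE36

open BGS BR BE

variable {Γ : Type} [Group Γ] [MulAction Γ Pl] {D : Set Pl} {ι : Type} {m : Pl → Co} {a b : ℝ}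
  {s : ι → ℝ × Pl → ℝ} {lQ : ι → ℝ} {K : Set Pl}

theorem HB_JVd (h : CH Γ D m a b s lQ) {S : Set Γ} (hS : S.Finite) :
    HB (fun q : Lx ι ℝ (closure D) × S => lx lQ q.1) (fun q (e : ℝ × Pl × Pl) =>
      JV m (s q.1.i) (e.1, e.2.1, (q.2 : Γ) • e.2.2)) (fun q => q.1.b) := by
  classical
  have hcD : IsCompact (closure D) := h.cf.hX.bdd.isCompact_closure
  have : Finite S := hS
  -- the compact set containing all the points
  let K' : Set Pl := closure D ∪ ⋃ g : S, (fun z : Pl => (g : Γ) • z) '' closure D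
  have hK' : IsCompact K' :=
    hcD.union (isCompact_iUnion fun g => hcD.image (h.cf.hX.smooth (g : Γ)).continuous)
  have h0 : ∀ q : Lx ι ℝ (closure D) × S, (0 : ℝ) ≤ lx lQ q.1 := fun q => lx_nonneg h q.1
  let φ : Lx ι ℝ (closure D) × S → Lx ι ℝ K' := fun q =>
    { i := q.1.i, p := q.1.p, z := q.1.z, w := (q.2 : Γ) • q.1.w, hp := q.1.hp
      hz := Or.inl q.1.hz
      hw := Or.inr (mem_iUnion.2 ⟨q.2, q.1.w, q.1.hw, rfl⟩) }
  have h1 : HB (fun q : Lx ι ℝ (closure D) × S => lx lQ q.1)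
      (fun q => JV m (s q.1.i)) (fun q => (φ q).b) := HB_pull (HB_JV h hK') φ
  have hid : HB (fun q : Lx ι ℝ (closure D) × S => lx lQ q.1) (fun _ (e : ℝ × Pl × Pl) => e)
      (fun q => q.1.b) := HB_pull (HB_idx h hcD) (fun q : Lx ι ℝ (closure D) × S => q.1)
  have hp : HB (fun q : Lx ι ℝ (closure D) × S => lx lQ q.1) (fun _ (e : ℝ × Pl × Pl) => e.1)
      (fun q => q.1.b) := HB_clm h0 hid (ContinuousLinearMap.fst ℝ ℝ (Pl × Pl))
  have hz : HB (fun q : Lx ι ℝ (closure D) × S => lx lQ q.1) (fun _ (e : ℝ × Pl × Pl) => e.2.1)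
      (fun q => q.1.b) := HB_clm h0 hid
        ((ContinuousLinearMap.fst ℝ Pl Pl).comp (ContinuousLinearMap.snd ℝ ℝ (Pl × Pl)))
  have hw : HB (fun q : Lx ι ℝ (closure D) × S => lx lQ q.1) (fun _ (e : ℝ × Pl × Pl) => e.2.2)
      (fun q => q.1.b) := HB_clm h0 hid
        ((ContinuousLinearMap.snd ℝ Pl Pl).comp (ContinuousLinearMap.snd ℝ ℝ (Pl × Pl)))
  have hg : HB (fun q : Lx ι ℝ (closure D) × S => lx lQ q.1) (fun q (z : Pl) => (q.2 : Γ) • z)
      (fun q => q.1.b.2.2) := HB_act h hcD hS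
  have hgw : HB (fun q : Lx ι ℝ (closure D) × S => lx lQ q.1)
      (fun q (e : ℝ × Pl × Pl) => (q.2 : Γ) • e.2.2) (fun q => q.1.b) :=
    HB_comp h0 (g := fun (q : Lx ι ℝ (closure D) × S) (z : Pl) => (q.2 : Γ) • z)
      (f := fun (_ : Lx ι ℝ (closure D) × S) (e : ℝ × Pl × Pl) => e.2.2) hg hw
  have hf : HB (fun q : Lx ι ℝ (closure D) × S => lx lQ q.1)
      (fun q (e : ℝ × Pl × Pl) => (e.1, e.2.1, (q.2 : Γ) • e.2.2)) (fun q => q.1.b) :=
    HB_prod h0 hp (HB_prod h0 hz hgw)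
  exact HB_comp h0 (g := fun (q : Lx ι ℝ (closure D) × S) => JV m (s q.1.i))
    (f := fun (q : Lx ι ℝ (closure D) × S) (e : ℝ × Pl × Pl) =>
      (e.1, e.2.1, (q.2 : Γ) • e.2.2)) h1 hf

theorem HB_JEd (h : CH Γ D m a b s lQ) (hK : IsCompact K) {S : Set Γ} (hS : S.Finite) :
    HB (fun q : Lx ι ℝ K × S => lx lQ q.1) (fun q (e : ℝ × Pl × Pl) =>
      (q.2 : Γ) • JE m (s q.1.i) e) (fun q => q.1.b) := by
  classical
  have h0 : ∀ q : Lx ι ℝ K × S, (0 : ℝ) ≤ lx lQ q.1 := fun q => lx_nonneg h q.1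
  obtain ⟨C, hC⟩ := (EB0_JE h.cf hK).bound 0
  have hval : ∀ q : Lx ι ℝ K, JE m (s q.i) q.b ∈ Metric.closedBall (0 : Pl) C := by
    intro q
    have h1 := hC q
    rw [norm_iteratedFDeriv_zero] at h1
    rw [mem_closedBall_zero_iff]
    simpa using h1
  have hJ' : HB (fun q : Lx ι ℝ K × S => lx lQ q.1) (fun q => JE m (s q.1.i))
      (fun q => q.1.b) := HB_pull (HB_JE h hK) (fun q : Lx ι ℝ K × S => q.1)
  let φ : Lx ι ℝ K × S → Lx ι ℝ (Metric.closedBall (0 : Pl) C) × S := fun q =>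
    ({ i := q.1.i, p := q.1.p, z := JE m (s q.1.i) q.1.b, w := JE m (s q.1.i) q.1.b
       hp := q.1.hp, hz := hval q.1, hw := hval q.1 }, q.2)
  have hg : HB (fun q : Lx ι ℝ K × S => lx lQ q.1) (fun q (z : Pl) => (q.2 : Γ) • z)
      (fun q => JE m (s q.1.i) q.1.b) :=
    HB_pull (HB_act h (isCompact_closedBall (0 : Pl) C) hS) φ
  exact HB_comp h0 (g := fun (q : Lx ι ℝ K × S) (z : Pl) => (q.2 : Γ) • z)
    (f := fun q => JE m (s q.1.i)) hg hJ'

end BE36
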