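import Pool.Agent.LibBE36.G05

/-! Row BE36 G06 (cites G05, K11; `LibBE88/G1`, `G5`, `G6`): the points of the chain. MEDIUM, 45 min.
Plan: the proof of `EB_w` (`LibBE88/G6.lean`) with `HIF` (row K11) in place of `IF`, `ℓ = lh m s lQ` (`lh_nonneg`;
`lx lQ ≤ lh`: `HB_mono`), `HB_JVd` (row G05) in place of `EB0_JVd`. `hinv`: `chain_inv h.cf` (row G5) gives
`C exp (C ll) M ≤ C exp (C lh) M` (take `C ≥ 0`: replace `C` by `|C|`). `hw`: `(w_smooth h.cf q j).continuous`. -/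

open MeasureTheory Set Filter Topology
open scoped ContDiff

namespace BE36

open BGS BR BE

variable {Γ : Type} [Group Γ] [MulAction Γ Pl] {D : Set Pl} {ι : Type} {m : Pl → Co} {a b : ℝ}
  {s : ι → ℝ × Pl → ℝ} {lQ : ι → ℝ}

theorem G06_hc {A t : ℝ} (hA : 1 ≤ A) (ht : 0 ≤ t) : A ≤ hc A t :=
  le_mul_of_one_le_right (zero_le_one.trans hA)
    (Real.one_le_exp (mul_nonneg (zero_le_one.trans hA) ht))

/-- The identity. -/
theorem HB_ix (h : CH Γ D m a b s lQ) :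
    HB (fun q : Ix ι ℝ Γ D => lh m s lQ q) (fun _ (e : ℝ × Pl × Pl) => e) Ix.b := by
  have hcomp : IsCompact (closure D) := h.cf.hX.bdd.isCompact_closure
  obtain ⟨R, hR⟩ := hcomp.isBounded.exists_norm_le
  refine HB_id (lh_nonneg h) (A := max 1 R) (le_max_left _ _) fun q => ?_
  refine le_trans ?_ (G06_hc (le_max_left _ _) (lh_nonneg h q))
  show ‖(q.p, q.x, q.y)‖ ≤ max 1 R
  rw [Prod.norm_def, Prod.norm_def]
  exact max_le (q.hp.trans (le_max_left _ _))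
    (max_le ((hR _ q.hx).trans (le_max_right _ _)) ((hR _ q.hy).trans (le_max_right _ _)))

theorem HB_w (h : CH Γ D m a b s lQ) :
    HB (fun q : Le (fun q : Ix ι ℝ Γ D => q.N m s) => lh m s lQ q.1.1)
      (fun q => q.1.1.w h.cf.hX m s q.1.2) (fun q => q.1.1.b) := by
  have hcomp : IsCompact (closure D) := h.cf.hX.bdd.isCompact_closure
  obtain ⟨R, hR⟩ := hcomp.isBounded.exists_norm_le
  have hℓ : ∀ q : Ix ι ℝ Γ D, 0 ≤ lh m s lQ q := lh_nonneg h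
  have hid := HB_ix h
  obtain ⟨S, hS, hsp⟩ := sp_fin h.cf
  have hle : ∀ q : Ix ι ℝ Γ D, lQ q.i ≤ lh m s lQ q := fun q => by
    unfold lh
    linarith [ll_nonneg m s q]
  -- the equations
  have hd := HB_JVd h hS
  have hcl : ∃ K : ℝ, ∀ (q : Ix ι ℝ Γ D) (v : ℕ → Pl) (M : ℝ), ‖v 0‖ ≤ M → ‖v (q.N m s)‖ ≤ M →
      (∀ j, 1 ≤ j → j < q.N m s →
        ‖fderiv ℝ (q.G h.cf.hX m s j) (q.b.1, q.w h.cf.hX m s (j - 1) q.b, q.w h.cf.hX m s j q.b,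
          q.w h.cf.hX m s (j + 1) q.b) (0, v (j - 1), v j, v (j + 1))‖ ≤ M) →
      ∀ j ≤ q.N m s, ‖v j‖ ≤ K * Real.exp (K * lh m s lQ q) * M := by
    obtain ⟨C, hC⟩ := chain_inv h.cf
    refine ⟨|C|, fun q v M h0 h1 h2 j hj => (hC q v M h0 h1 h2 j hj).trans ?_⟩
    have hM : 0 ≤ M := (norm_nonneg _).trans h0
    refine mul_le_mul_of_nonneg_right ?_ hM
    have hle : ll m s q ≤ lh m s lQ q := le_add_of_nonneg_left (h.nonneg q.i)
    have e1 : C * ll m s q ≤ |C| * lh m s lQ q :=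
      (mul_le_mul_of_nonneg_right (le_abs_self C) (ll_nonneg m s q)).trans
        (mul_le_mul_of_nonneg_left hle (abs_nonneg C))
    exact mul_le_mul (le_abs_self C) (Real.exp_le_exp.2 e1) (Real.exp_pos _).le (abs_nonneg C)
  refine HIF (κ := Ix ι ℝ Γ D) (ℓ := fun q => lh m s lQ q) hℓ (N := fun q => q.N m s) (x := Ix.b)
    (w := fun q j => q.w h.cf.hX m s j) (π := fun _ e => e.1) (G := fun q j => q.G h.cf.hX m s j)
    (HB_clm hℓ hid (ContinuousLinearMap.fst ℝ ℝ (Pl × Pl))) ?_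
    (fun q j => (w_smooth h.cf q j).continuous)
    (fun q j h1 _ y => crit h.cf q j h1 y) ?_ ?_ ?_ hcl
  · have h0 : ∀ q : In (fun q : Ix ι ℝ Γ D => q.N m s), (0 : ℝ) ≤ lh m s lQ q.1.1 :=
      fun q => hℓ q.1.1
    have hid' : HB (fun q : In (fun q : Ix ι ℝ Γ D => q.N m s) => lh m s lQ q.1.1)
        (fun _ (e : ℝ × Pl × Pl × Pl) => e)
        (fun q => (q.1.1.b.1, q.1.1.w h.cf.hX m s (q.1.2 - 1) q.1.1.b,
          q.1.1.w h.cf.hX m s q.1.2 q.1.1.b, q.1.1.w h.cf.hX m s (q.1.2 + 1) q.1.1.b)) := by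
      refine HB_id h0 (A := max 1 R) (le_max_left _ _) fun q => ?_
      refine le_trans ?_ (G06_hc (le_max_left _ _) (h0 q))
      rw [Prod.norm_def, Prod.norm_def, Prod.norm_def]
      exact max_le (q.1.1.hp.trans (le_max_left _ _)) (max_le
        ((hR _ (w_mem h.cf _ _)).trans (le_max_right _ _)) (max_le
        ((hR _ (w_mem h.cf _ _)).trans (le_max_right _ _))
        ((hR _ (w_mem h.cf _ _)).trans (le_max_right _ _))))
    -- the two linear maps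
    let L1 : ℝ × Pl × Pl × Pl →L[ℝ] ℝ × Pl × Pl :=
      (ContinuousLinearMap.fst ℝ ℝ (Pl × Pl × Pl)).prod
        (((ContinuousLinearMap.fst ℝ Pl Pl).comp ((ContinuousLinearMap.snd ℝ Pl (Pl × Pl)).comp
          (ContinuousLinearMap.snd ℝ ℝ (Pl × Pl × Pl)))).prod
        ((ContinuousLinearMap.fst ℝ Pl (Pl × Pl)).comp (ContinuousLinearMap.snd ℝ ℝ (Pl × Pl × Pl))))
    let L2 : ℝ × Pl × Pl × Pl →L[ℝ] ℝ × Pl × Pl :=
      (ContinuousLinearMap.fst ℝ ℝ (Pl × Pl × Pl)).prod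
        (((ContinuousLinearMap.fst ℝ Pl Pl).comp ((ContinuousLinearMap.snd ℝ Pl (Pl × Pl)).comp
          (ContinuousLinearMap.snd ℝ ℝ (Pl × Pl × Pl)))).prod
        ((ContinuousLinearMap.snd ℝ Pl Pl).comp ((ContinuousLinearMap.snd ℝ Pl (Pl × Pl)).comp
          (ContinuousLinearMap.snd ℝ ℝ (Pl × Pl × Pl)))))
    let φ1 : In (fun q : Ix ι ℝ Γ D => q.N m s) → Lx ι ℝ (closure D) × S := fun q =>
      (⟨q.1.1.i, q.1.1.p, q.1.1.w h.cf.hX m s q.1.2 q.1.1.b,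
        q.1.1.w h.cf.hX m s (q.1.2 - 1) q.1.1.b,
        q.1.1.hp, w_mem h.cf _ _, w_mem h.cf _ _⟩,
        ⟨q.1.1.sm h.cf.hX m s q.1.2, (hsp q.1.1 q.1.2).2 q.2.1⟩)
    let φ2 : In (fun q : Ix ι ℝ Γ D => q.N m s) → Lx ι ℝ (closure D) × S := fun q =>
      (⟨q.1.1.i, q.1.1.p, q.1.1.w h.cf.hX m s q.1.2 q.1.1.b,
        q.1.1.w h.cf.hX m s (q.1.2 + 1) q.1.1.b,
        q.1.1.hp, w_mem h.cf _ _, w_mem h.cf _ _⟩,
        ⟨q.1.1.sp h.cf.hX m s q.1.2, (hsp q.1.1 q.1.2).1⟩)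
    have hm1 : HB (fun q : In (fun q : Ix ι ℝ Γ D => q.N m s) => lh m s lQ q.1.1)
        (fun q (e : ℝ × Pl × Pl) =>
          JV m (s q.1.1.i) (e.1, e.2.1, q.1.1.sm h.cf.hX m s q.1.2 • e.2.2))
        (fun q => (q.1.1.p, q.1.1.w h.cf.hX m s q.1.2 q.1.1.b,
          q.1.1.w h.cf.hX m s (q.1.2 - 1) q.1.1.b)) :=
      HB_mono (ℓ := fun q => lx lQ (φ1 q).1) (fun q => h.nonneg q.1.1.i)
        (fun q => hle q.1.1) (HB_pull hd φ1)
    have hm2 : HB (fun q : In (fun q : Ix ι ℝ Γ D => q.N m s) => lh m s lQ q.1.1)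
        (fun q (e : ℝ × Pl × Pl) =>
          JV m (s q.1.1.i) (e.1, e.2.1, q.1.1.sp h.cf.hX m s q.1.2 • e.2.2))
        (fun q => (q.1.1.p, q.1.1.w h.cf.hX m s q.1.2 q.1.1.b,
          q.1.1.w h.cf.hX m s (q.1.2 + 1) q.1.1.b)) :=
      HB_mono (ℓ := fun q => lx lQ (φ2 q).1) (fun q => h.nonneg q.1.1.i)
        (fun q => hle q.1.1) (HB_pull hd φ2)
    have hl1 : HB (fun q : In (fun q : Ix ι ℝ Γ D => q.N m s) => lh m s lQ q.1.1)
        (fun _ (e : ℝ × Pl × Pl × Pl) => (e.1, e.2.2.1, e.2.1))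
        (fun q => (q.1.1.b.1, q.1.1.w h.cf.hX m s (q.1.2 - 1) q.1.1.b,
          q.1.1.w h.cf.hX m s q.1.2 q.1.1.b, q.1.1.w h.cf.hX m s (q.1.2 + 1) q.1.1.b)) :=
      HB_congr (HB_clm h0 hid' L1) fun _ _ => rfl
    have hl2 : HB (fun q : In (fun q : Ix ι ℝ Γ D => q.N m s) => lh m s lQ q.1.1)
        (fun _ (e : ℝ × Pl × Pl × Pl) => (e.1, e.2.2.1, e.2.2.2))
        (fun q => (q.1.1.b.1, q.1.1.w h.cf.hX m s (q.1.2 - 1) q.1.1.b,
          q.1.1.w h.cf.hX m s q.1.2 q.1.1.b, q.1.1.w h.cf.hX m s (q.1.2 + 1) q.1.1.b)) :=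
      HB_congr (HB_clm h0 hid' L2) fun _ _ => rfl
    have hA := HB_comp h0 (g := fun (q : In (fun q : Ix ι ℝ Γ D => q.N m s))
      (e : ℝ × Pl × Pl) => JV m (s q.1.1.i) (e.1, e.2.1, q.1.1.sm h.cf.hX m s q.1.2 • e.2.2))
      (f := fun _ (e : ℝ × Pl × Pl × Pl) => (e.1, e.2.2.1, e.2.1)) hm1 hl1
    have hB := HB_comp h0 (g := fun (q : In (fun q : Ix ι ℝ Γ D => q.N m s))
      (e : ℝ × Pl × Pl) => JV m (s q.1.1.i) (e.1, e.2.1, q.1.1.sp h.cf.hX m s q.1.2 • e.2.2))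
      (f := fun _ (e : ℝ × Pl × Pl × Pl) => (e.1, e.2.2.1, e.2.2.2)) hm2 hl2
    exact HB_add h0 hA hB
  · have h1 : (fun q : Ix ι ℝ Γ D => q.w h.cf.hX m s 0) = fun _ (e : ℝ × Pl × Pl) => e.2.1 :=
      funext fun q => funext fun e => w_zero h.cf q e
    rw [h1]
    exact HB_clm hℓ hid ((ContinuousLinearMap.fst ℝ Pl Pl).comp
      (ContinuousLinearMap.snd ℝ ℝ (Pl × Pl)))
  · have h1 : (fun q : Ix ι ℝ Γ D => q.w h.cf.hX m s (q.N m s)) =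
        fun _ (e : ℝ × Pl × Pl) => e.2.2 :=
      funext fun q => funext fun e => w_last h.cf q e
    rw [h1]
    exact HB_clm hℓ hid ((ContinuousLinearMap.snd ℝ Pl Pl).comp
      (ContinuousLinearMap.snd ℝ ℝ (Pl × Pl)))
  · refine ⟨max 1 R, le_max_left _ _, fun q j _ => ?_⟩
    exact ((hR _ (w_mem h.cf q j)).trans (le_max_right _ _)).trans
      (G06_hc (le_max_left _ _) (hℓ q))

end BE36
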