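import Pool.Agent.LibBE36.G06
import Pool.Agent.LibBE88.V1

/-! Row BE36 G07 (cites G05, G06; `LibBE88/V1`): the inverse of the exponential map at all distances and the API of the
class `HAd`. MEDIUM, 50 min.
Plan: `LibBE88/V1.lean` with `HB` in place of `EB`. `HAd_V`: as `Adm_V` (`w_step` with `j = 0`, `HB_JVd` with the finite set of
`sp_fin`, `HB_w` at `j = 1`, the factor `N ≤ exp (ll)`). The closure properties of `HAd` are those of `HB` (unfold `HAd`).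
`HAd_val`: `HB_val`. `HAd_d2`: `sg (JV ..)` is the sum of the squares of the components. -/

open MeasureTheory Set Filter Topology
open scoped ContDiff

namespace BE36

open BGS BR BE

variable {Γ : Type} [Group Γ] [MulAction Γ Pl] {D : Set Pl} {ι : Type} {m : Pl → Co} {a b : ℝ}
  {s : ι → ℝ × Pl → ℝ} {lQ : ι → ℝ} {F F' FC FC' : Type} [NormedAddCommGroup F]
  [NormedSpace ℝ F] [NormedAddCommGroup FC] [NormedSpace ℂ FC] [CX F FC] [NormedAddCommGroup F']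
  [NormedSpace ℝ F'] [NormedAddCommGroup FC'] [NormedSpace ℂ FC'] [CX F' FC']

private theorem G07_eq (h : CF Γ D m a b s) (q : Ix ι ℝ Γ D) (e : ℝ × Pl × Pl) :
    JV m (s q.i) (e.1, e.2.1, q.g • e.2.2) =
      (q.N m s : ℝ) • JV m (s q.i) (e.1, e.2.1, q.sp h.hX m s 0 • q.w h.hX m s 1 e) := by
  have hN : (q.N m s : ℝ) ≠ 0 := by
    have := N_pos m s q
    positivity
  have h1 := (w_step h q 0 e).1
  rw [w_zero h q e, zero_add] at h1
  rw [h1, smul_smul, mul_one_div_cancel hN, one_smul]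
  have hm := hm_mm h q.i e.1
  have hz : q.z m s 0 e = e.2.1 := by
    unfold Ix.z JE
    rw [Nat.cast_zero, zero_div, zero_smul]
    exact Ex_zero h.hX hm _
  have hγ : q.γ h.hX m s 0 = 1 := by
    unfold Ix.γ
    rw [if_pos rfl]
  unfold Ix.ve
  rw [hγ, inv_one, hz, Nat.cast_zero, zero_div, (gfl_isFlow h.hX hm).zero]
  unfold Rg
  have h2 : (fun w : Pl => (1 : Γ) • w) = id := by
    funext w
    exact one_smul Γ w
  rw [h2, fderiv_id, one_smul]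
  exact (ifr_fr (hm.pos _).1 (hm.pos _).2 _).symm

private theorem G07_ll (q : Ix ι ℝ Γ D) : 0 ≤ ll m s q := by
  have h0 : 0 ≤ q.d m s := Real.sqrt_nonneg _
  exact Real.log_nonneg (by linarith)

private theorem G07_exp (q : Ix ι ℝ Γ D) : Real.exp (ll m s q) = 2 + q.d m s := by
  have h0 : 0 ≤ q.d m s := Real.sqrt_nonneg _
  rw [ll, Real.exp_log (by linarith)]

theorem HAd_V (h : CH Γ D m a b s lQ) : HAd Γ D m s lQ (fun i => JV m (s i)) := by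
  have hl : ∀ q : Ix ι ℝ Γ D, 0 ≤ lh m s lQ q := fun q => lh_nonneg h q
  obtain ⟨S, hS, hSq⟩ := sp_fin h.cf
  -- the outer family
  have h1 : HB (fun q : Ix ι ℝ Γ D => lh m s lQ q)
      (fun q (e : ℝ × Pl × Pl) => JV m (s q.i) (e.1, e.2.1, q.sp h.cf.hX m s 0 • e.2.2))
      (fun q => (q.p, q.x, q.w h.cf.hX m s 1 q.b)) := by
    have h2 := HB_pull (HB_JVd h hS)
      (fun q : Ix ι ℝ Γ D => ((⟨q.i, q.p, q.x, q.w h.cf.hX m s 1 q.b, q.hp, q.hx, w_mem h.cf q 1⟩,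
        ⟨q.sp h.cf.hX m s 0, (hSq q 0).1⟩) : Lx ι ℝ (closure D) × S))
    refine HB_mono (fun q => h.nonneg _) (fun q => ?_) h2
    change lQ q.i ≤ lQ q.i + ll m s q
    exact le_add_of_nonneg_right (G07_ll q)
  -- the point `w_1`
  have h3 : HB (fun q : Ix ι ℝ Γ D => lh m s lQ q) (fun q => q.w h.cf.hX m s 1) Ix.b :=
    HB_pull (HB_w h)
      (fun q : Ix ι ℝ Γ D => (⟨(q, 1), N_pos m s q⟩ : Le (fun q : Ix ι ℝ Γ D => q.N m s)))
  have h5 : HB (fun q : Ix ι ℝ Γ D => lh m s lQ q)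
      (fun q (e : ℝ × Pl × Pl) => (e.1, e.2.1, q.w h.cf.hX m s 1 e)) Ix.b :=
    HB_prod hl (HB_clm hl (HB_ix h) (ContinuousLinearMap.fst ℝ ℝ (Pl × Pl)))
      (HB_prod hl (HB_clm hl (HB_ix h) ((ContinuousLinearMap.fst ℝ Pl Pl).comp
        (ContinuousLinearMap.snd ℝ ℝ (Pl × Pl)))) h3)
  have h6 := HB_comp (g := fun (q : Ix ι ℝ Γ D) (e : ℝ × Pl × Pl) =>
      JV m (s q.i) (e.1, e.2.1, q.sp h.cf.hX m s 0 • e.2.2))
    (f := fun (q : Ix ι ℝ Γ D) (e : ℝ × Pl × Pl) => (e.1, e.2.1, q.w h.cf.hX m s 1 e))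
    (x := Ix.b) hl h1 h5
  have h7 : HB (fun q : Ix ι ℝ Γ D => lh m s lQ q)
      (fun (q : Ix ι ℝ Γ D) (_ : ℝ × Pl × Pl) => (q.N m s : ℝ)) Ix.b := by
    refine HB_const hl (A := 1) le_rfl fun q => ?_
    unfold hc lh
    rw [one_mul, one_mul, Real.exp_add, G07_exp, Real.norm_eq_abs, abs_of_nonneg (Nat.cast_nonneg _)]
    have h8 : (q.N m s : ℝ) ≤ 2 + q.d m s := (d_N h.cf q).2.2.2
    have h9 : 1 ≤ Real.exp (lQ q.i) := Real.one_le_exp (h.nonneg q.i)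
    have h10 : 0 ≤ q.d m s := Real.sqrt_nonneg _
    nlinarith
  have h8 := HB_smul hl h7 h6
  exact HB_congr h8 fun q e => (G07_eq h.cf q e).symm

theorem HAd_add (h : CH Γ D m a b s lQ) {Q R : ι → ℝ × Pl × Pl → F} (hQ : HAd Γ D m s lQ Q)
    (hR : HAd Γ D m s lQ R) : HAd Γ D m s lQ (fun i e => Q i e + R i e) :=
  HB_add (fun q => lh_nonneg h q) hQ hR

theorem HAd_sub (h : CH Γ D m a b s lQ) {Q R : ι → ℝ × Pl × Pl → F} (hQ : HAd Γ D m s lQ Q)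
    (hR : HAd Γ D m s lQ R) : HAd Γ D m s lQ (fun i e => Q i e - R i e) :=
  HB_sub (fun q => lh_nonneg h q) hQ hR

theorem HAd_mul (h : CH Γ D m a b s lQ) {Q R : ι → ℝ × Pl × Pl → ℝ} (hQ : HAd Γ D m s lQ Q)
    (hR : HAd Γ D m s lQ R) : HAd Γ D m s lQ (fun i e => Q i e * R i e) :=
  HB_mul (fun q => lh_nonneg h q) hQ hR

theorem HAd_clm (h : CH Γ D m a b s lQ) {Q : ι → ℝ × Pl × Pl → F} (hQ : HAd Γ D m s lQ Q)
    (L : F →L[ℝ] F') : HAd Γ D m s lQ (fun i e => L (Q i e)) :=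
  HB_clm (fun q => lh_nonneg h q) hQ L

theorem HAd_const (h : CH Γ D m a b s lQ) (c : F) :
    HAd Γ D m s lQ (fun (_ : ι) (_ : ℝ × Pl × Pl) => c) := by
  refine HB_const (fun q => lh_nonneg h q) (A := max 1 ‖c‖) (le_max_left _ _) fun q => ?_
  unfold hc
  have h1 : 1 ≤ Real.exp (max 1 ‖c‖ * lh m s lQ q) :=
    Real.one_le_exp (mul_nonneg (le_max_of_le_left zero_le_one) (lh_nonneg h q))
  have h2 : ‖c‖ ≤ max 1 ‖c‖ := le_max_right _ _
  have h3 : 0 ≤ max 1 ‖c‖ := le_max_of_le_left zero_le_one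
  nlinarith

theorem HAd_congr {Q R : ι → ℝ × Pl × Pl → F} (hQ : HAd Γ D m s lQ Q)
    (he : ∀ i e, Q i e = R i e) : HAd Γ D m s lQ R :=
  HB_congr hQ fun q _ => he q.i _

theorem HAd_val {Q : ι → ℝ × Pl × Pl → F} (hQ : HAd Γ D m s lQ Q) :
    ∃ A : ℝ, 1 ≤ A ∧ ∀ q : Ix ι ℝ Γ D, ‖Q q.i (q.p, q.x, q.g • q.y)‖ ≤ hc A (lh m s lQ q) := by
  have h1 : HB (fun q : Ix ι ℝ Γ D => lh m s lQ q)
      (fun (q : Ix ι ℝ Γ D) (e : ℝ × Pl × Pl) => Q q.i (e.1, e.2.1, q.g • e.2.2)) Ix.b := hQ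
  obtain ⟨A, hA, h2⟩ := HB_val h1
  exact ⟨A, hA, fun q => h2 q⟩

theorem HAd_d2 (h : CH Γ D m a b s lQ) : HAd Γ D m s lQ (fun i e => sg (JV m (s i) e)) := by
  have h1 := HAd_clm h (HAd_V h) (ContinuousLinearMap.fst ℝ ℝ ℝ)
  have h2 := HAd_clm h (HAd_V h) (ContinuousLinearMap.snd ℝ ℝ ℝ)
  have h3 := HAd_add h (HAd_mul h h1 h1) (HAd_mul h h2 h2)
  refine HAd_congr h3 fun i e => ?_
  simp only [sg, ContinuousLinearMap.coe_fst', ContinuousLinearMap.coe_snd']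
  ring

end BE36
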