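import Pool.Agent.LibBE36.G07
import Pool.Agent.LibBE88.V2

/-! Row BE36 G08 (cites G05, G06; `LibBE88/V2`): the points of the geodesic, jointly in the ratio. MEDIUM / STRONG, 60 min.
Plan. `V2_key_r`: the proof of `V2_key` gives for EVERY real `r` (with `j = V2_j m s q` fixed)
`γ_j⁻¹ • gp r (e.1, e.2.1, g • e.2.2) = JE (e.1, w_j e, (r N - j) • V2_v q e)`: `r = j / N + (r N - j) / N` (`Ex_add`, `Ex_deck`,
`Rg_smul`, `w_step`). `HB_gp`: as `EB_gp` of `LibBE88/V2.lean`: `HB_JEd` for the compact set `closure D ∪ closedBall 0 C` at the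
points `(p, w_j, t • v)`, `t = V2_t ∈ [0, 1]`, composed with the family
`(r, e) ↦ (e.1, w_j e, (r * N - j) • V2_v q e)` of class `HB` at `(q.2, q.1.b)`: `r` is `HB_clm` of `HB_id` on
`ℝ × (ℝ × Pl × Pl)`, the constants `N`, `j ≤ N ≤ exp (ll)` are `HB_const`, `w_j` and `w_{j+1}` are `HB_w` pulled back along
`q ↦ ⟨(q.1, j q), _⟩` and composed with the projection `(r, e) ↦ e` (`HB_comp`, `HB_clm`), `HB_JVd` for `V2_v` (index of the finite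
set `sp_fin`), `HB_smul`. -/

open MeasureTheory Set Filter Topology
open scoped ContDiff

namespace BE36

open BGS BR BE

variable {Γ : Type} [Group Γ] [MulAction Γ Pl] {D : Set Pl} {ι : Type} {m : Pl → Co} {a b : ℝ}
  {s : ι → ℝ × Pl → ℝ} {lQ : ι → ℝ}

theorem V2_key_r (h : CF Γ D m a b s) (q : Ix ι ℝ Γ D × Icc (0 : ℝ) 1) (r : ℝ)
    (e : ℝ × Pl × Pl) :
    (gη h.hX m s q)⁻¹ • gp m (s q.1.i) r (e.1, e.2.1, q.1.g • e.2.2) =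
      V2_T h.hX m s q • JE m (s q.1.i) (e.1, q.1.w h.hX m s (V2_j m s q) e,
        (r * q.1.N m s - V2_j m s q) • V2_v h.hX m s q e) := by
  have hm := hm_mm h q.1.i e.1
  have hN : 1 ≤ q.1.N m s := N_pos m s q.1
  have hN0 : (0 : ℝ) < q.1.N m s := by exact_mod_cast hN
  have hr : r = (V2_j m s q : ℝ) / q.1.N m s + (r * q.1.N m s - V2_j m s q) / q.1.N m s := by
    rw [← add_div, add_sub_cancel, mul_div_assoc, div_self hN0.ne', mul_one]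
  have h1 : gp m (s q.1.i) r (e.1, e.2.1, q.1.g • e.2.2) =
      Ex (mm m (s q.1.i) e.1) e.2.1
        (((V2_j m s q : ℝ) / q.1.N m s + (r * q.1.N m s - V2_j m s q) / q.1.N m s) •
          JV m (s q.1.i) (e.1, e.2.1, q.1.g • e.2.2)) := by
    rw [← hr]
    rfl
  have h0 : (q.1.γ h.hX m s (V2_j m s q))⁻¹ • gp m (s q.1.i) r (e.1, e.2.1, q.1.g • e.2.2) =
      JE m (s q.1.i) (e.1, q.1.w h.hX m s (V2_j m s q) e,
        (r * q.1.N m s - V2_j m s q) • V2_v h.hX m s q e) := by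
    rw [h1, Ex_add h.hX hm, ← Ex_deck h.hX h.hO hm, Rg_smul h.hX hm]
    have h2 := (w_step h q.1 (V2_j m s q) e).1
    unfold V2_v
    rw [h2]
    unfold JE Ix.w Ix.ve Ix.z JE
    rw [smul_smul]
    congr 2
    rw [mul_one_div]
  rw [← h0, V2_T, smul_smul, mul_assoc, mul_inv_cancel, mul_one]

theorem G08_hc {A t : ℝ} (hA : 1 ≤ A) (ht : 0 ≤ t) : A ≤ hc A t := by
  have h1 : 1 ≤ Real.exp (A * t) := Real.one_le_exp (mul_nonneg (zero_le_one.trans hA) ht)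
  unfold hc
  nlinarith

/-- The identity. -/
theorem G08_id (h : CH Γ D m a b s lQ) :
    HB (fun q : Ix ι ℝ Γ D × Icc (0 : ℝ) 1 => lh m s lQ q.1)
      (fun _ (e : ℝ × (ℝ × Pl × Pl)) => e) (fun q => ((q.2 : ℝ), q.1.b)) := by
  obtain ⟨C, hC⟩ := h.cf.hX.bdd.closure.exists_norm_le
  refine HB_id (fun q => lh_nonneg h q.1) (A := max 1 C) (le_max_left _ _) fun q => ?_
  refine le_trans ?_ (G08_hc (le_max_left _ _) (lh_nonneg h q.1))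
  have h1 : ‖(q.2 : ℝ)‖ ≤ max 1 C := by
    rw [Real.norm_of_nonneg q.2.2.1]
    exact q.2.2.2.trans (le_max_left _ _)
  exact norm_prod_le_iff.2 ⟨h1, norm_prod_le_iff.2 ⟨q.1.hp.trans (le_max_left _ _),
    norm_prod_le_iff.2
      ⟨(hC _ q.1.hx).trans (le_max_right _ _), (hC _ q.1.hy).trans (le_max_right _ _)⟩⟩⟩

/-- The projection to the points. -/
theorem G08_snd (h : CH Γ D m a b s lQ) :
    HB (fun q : Ix ι ℝ Γ D × Icc (0 : ℝ) 1 => lh m s lQ q.1)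
      (fun _ (e : ℝ × (ℝ × Pl × Pl)) => e.2) (fun q => ((q.2 : ℝ), q.1.b)) :=
  HB_clm (fun q : Ix ι ℝ Γ D × Icc (0 : ℝ) 1 => lh_nonneg h q.1) (G08_id h)
    (ContinuousLinearMap.snd ℝ ℝ (ℝ × Pl × Pl))

/-- The points of the chain. -/
theorem G08_w (h : CH Γ D m a b s lQ) (j : Ix ι ℝ Γ D × Icc (0 : ℝ) 1 → ℕ)
    (hj : ∀ q, j q ≤ q.1.N m s) :
    HB (fun q : Ix ι ℝ Γ D × Icc (0 : ℝ) 1 => lh m s lQ q.1)
      (fun q (e : ℝ × (ℝ × Pl × Pl)) => q.1.w h.cf.hX m s (j q) e.2)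
      (fun q => ((q.2 : ℝ), q.1.b)) := by
  have h1 : HB (fun q : Ix ι ℝ Γ D × Icc (0 : ℝ) 1 => lh m s lQ q.1)
      (fun q (e : ℝ × Pl × Pl) => q.1.w h.cf.hX m s (j q) e) (fun q => q.1.b) :=
    HB_pull (HB_w h) (fun q : Ix ι ℝ Γ D × Icc (0 : ℝ) 1 =>
      (⟨(q.1, j q), hj q⟩ : {q : Ix ι ℝ Γ D × ℕ // q.2 ≤ q.1.N m s}))
  exact HB_comp (f := fun (_ : Ix ι ℝ Γ D × Icc (0 : ℝ) 1) (e : ℝ × (ℝ × Pl × Pl)) => e.2)
    (x := fun q => ((q.2 : ℝ), q.1.b)) (fun q => lh_nonneg h q.1) h1 (G08_snd h)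

theorem G08_le (m : Pl → Co) (s : ι → ℝ × Pl → ℝ) (lQ : ι → ℝ) (q : Ix ι ℝ Γ D) :
    lQ q.i ≤ lh m s lQ q := by
  have h1 := ll_nonneg m s q
  unfold lh
  linarith

/-- The vectors of the steps. -/
theorem G08_v (h : CH Γ D m a b s lQ) :
    HB (fun q : Ix ι ℝ Γ D × Icc (0 : ℝ) 1 => lh m s lQ q.1)
      (fun q (e : ℝ × (ℝ × Pl × Pl)) => V2_v h.cf.hX m s q e.2)
      (fun q => ((q.2 : ℝ), q.1.b)) := by
  obtain ⟨S, hS, hmem⟩ := sp_fin h.cf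
  have hℓ : ∀ q : Ix ι ℝ Γ D × Icc (0 : ℝ) 1, 0 ≤ lh m s lQ q.1 := fun q => lh_nonneg h q.1
  have h0 : HB (fun q : Ix ι ℝ Γ D × Icc (0 : ℝ) 1 => lQ q.1.i)
      (fun q (e : ℝ × Pl × Pl) => JV m (s q.1.i) (e.1, e.2.1,
        q.1.sp h.cf.hX m s (V2_j m s q) • e.2.2))
      (fun q => ((q.1.b.1, q.1.w h.cf.hX m s (V2_j m s q) q.1.b,
        q.1.w h.cf.hX m s (V2_j m s q + 1) q.1.b) : ℝ × Pl × Pl)) :=
    HB_pull (HB_JVd h hS)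
    (fun q : Ix ι ℝ Γ D × Icc (0 : ℝ) 1 =>
      ((⟨q.1.i, q.1.p, q.1.w h.cf.hX m s (V2_j m s q) q.1.b,
        q.1.w h.cf.hX m s (V2_j m s q + 1) q.1.b, q.1.hp, w_mem h.cf q.1 _, w_mem h.cf q.1 _⟩,
        ⟨q.1.sp h.cf.hX m s (V2_j m s q), (hmem q.1 _).1⟩) : Lx ι ℝ (closure D) × S))
  have h1 : HB (fun q : Ix ι ℝ Γ D × Icc (0 : ℝ) 1 => lh m s lQ q.1)
      (fun q (e : ℝ × Pl × Pl) => JV m (s q.1.i) (e.1, e.2.1,
        q.1.sp h.cf.hX m s (V2_j m s q) • e.2.2))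
      (fun q => ((q.1.b.1, q.1.w h.cf.hX m s (V2_j m s q) q.1.b,
        q.1.w h.cf.hX m s (V2_j m s q + 1) q.1.b) : ℝ × Pl × Pl)) :=
    HB_mono (fun q => h.nonneg q.1.i)
      (fun q => G08_le m s lQ q.1) h0
  have h2 : HB (fun q : Ix ι ℝ Γ D × Icc (0 : ℝ) 1 => lh m s lQ q.1)
      (fun q (e : ℝ × (ℝ × Pl × Pl)) => ((e.2.1, q.1.w h.cf.hX m s (V2_j m s q) e.2,
        q.1.w h.cf.hX m s (V2_j m s q + 1) e.2) : ℝ × Pl × Pl))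
      (fun q => ((q.2 : ℝ), q.1.b)) :=
    HB_prod hℓ (HB_clm hℓ (G08_snd h) (ContinuousLinearMap.fst ℝ ℝ (Pl × Pl)))
      (HB_prod hℓ (G08_w h (V2_j m s) fun q => (Nat.le_succ _).trans (V2_lt m s q))
        (G08_w h (fun q => V2_j m s q + 1) fun q => V2_lt m s q))
  exact HB_comp (x := fun q : Ix ι ℝ Γ D × Icc (0 : ℝ) 1 => ((q.2 : ℝ), q.1.b))
    (f := fun q (e : ℝ × (ℝ × Pl × Pl)) => ((e.2.1, q.1.w h.cf.hX m s (V2_j m s q) e.2,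
        q.1.w h.cf.hX m s (V2_j m s q + 1) e.2) : ℝ × Pl × Pl)) hℓ h1 h2

theorem G08_N (h : CH Γ D m a b s lQ) (q : Ix ι ℝ Γ D) :
    (q.N m s : ℝ) ≤ hc 1 (lh m s lQ q) := by
  have h1 := d_N h.cf q
  have h2 : Real.exp (ll m s q) = 2 + q.d m s := by
    unfold ll
    exact Real.exp_log (by linarith [h1.1])
  unfold hc
  rw [one_mul, one_mul]
  calc (q.N m s : ℝ) ≤ 2 + q.d m s := h1.2.2.2
    _ = Real.exp (ll m s q) := h2.symm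
    _ ≤ Real.exp (lh m s lQ q) :=
      Real.exp_le_exp.2 (le_add_of_nonneg_left (h.nonneg q.i))

theorem HB_gp (h : CH Γ D m a b s lQ) :
    HB (fun q : Ix ι ℝ Γ D × Icc (0 : ℝ) 1 => lh m s lQ q.1)
      (fun q (e : ℝ × (ℝ × Pl × Pl)) =>
        (gη h.cf.hX m s q)⁻¹ • gp m (s q.1.i) e.1 (e.2.1, e.2.2.1, q.1.g • e.2.2.2))
      (fun q => ((q.2 : ℝ), q.1.b)) := by
  have hℓ : ∀ q : Ix ι ℝ Γ D × Icc (0 : ℝ) 1, 0 ≤ lh m s lQ q.1 := fun q => lh_nonneg h q.1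
  obtain ⟨S, hS, hmem⟩ := V2_T_fin h.cf
  have hv := G08_v h
  -- the vectors are bounded
  have hvb : ∃ C : ℝ, 0 ≤ C ∧ ∀ q : Ix ι ℝ Γ D × Icc (0 : ℝ) 1,
      ‖V2_t m s q • V2_v h.cf.hX m s q q.1.b‖ ≤ C := by
    refine ⟨1, zero_le_one, fun q => ?_⟩
    rw [norm_smul, Real.norm_of_nonneg (V2_t_mem m s q).1]
    have h3 := V2_v_eu h.cf q
    have h4 := V2_t_mem m s q
    have h5 : ‖V2_v h.cf.hX m s q q.1.b‖ ≤ eu (V2_v h.cf.hX m s q q.1.b) := by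
      exact H1e_norm _
    have h6 := norm_nonneg (V2_v h.cf.hX m s q q.1.b)
    nlinarith
  obtain ⟨C, hC0, hC⟩ := hvb
  have hK : IsCompact (closure D ∪ Metric.closedBall (0 : Pl) C) :=
    (h.cf.hX.bdd.isCompact_closure).union (isCompact_closedBall 0 C)
  have h0 : HB (fun q : Ix ι ℝ Γ D × Icc (0 : ℝ) 1 => lQ q.1.i)
      (fun q (e : ℝ × Pl × Pl) => V2_T h.cf.hX m s q • JE m (s q.1.i) e)
      (fun q => ((q.1.b.1, q.1.w h.cf.hX m s (V2_j m s q) q.1.b,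
        ((q.2 : ℝ) * q.1.N m s - V2_j m s q) • V2_v h.cf.hX m s q q.1.b) : ℝ × Pl × Pl)) :=
    HB_pull (HB_JEd h hK hS)
    (fun q : Ix ι ℝ Γ D × Icc (0 : ℝ) 1 =>
      ((⟨q.1.i, q.1.p, q.1.w h.cf.hX m s (V2_j m s q) q.1.b,
        V2_t m s q • V2_v h.cf.hX m s q q.1.b, q.1.hp, Or.inl (w_mem h.cf q.1 _),
        Or.inr (mem_closedBall_zero_iff.2 (hC q))⟩,
        ⟨V2_T h.cf.hX m s q, hmem q⟩) : Lx ι ℝ (closure D ∪ Metric.closedBall (0 : Pl) C) × S))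
  have h1 : HB (fun q : Ix ι ℝ Γ D × Icc (0 : ℝ) 1 => lh m s lQ q.1)
      (fun q (e : ℝ × Pl × Pl) => V2_T h.cf.hX m s q • JE m (s q.1.i) e)
      (fun q => ((q.1.b.1, q.1.w h.cf.hX m s (V2_j m s q) q.1.b,
        ((q.2 : ℝ) * q.1.N m s - V2_j m s q) • V2_v h.cf.hX m s q q.1.b) : ℝ × Pl × Pl)) :=
    HB_mono (fun q => h.nonneg q.1.i)
      (fun q => G08_le m s lQ q.1) h0
  have hτ : HB (fun q : Ix ι ℝ Γ D × Icc (0 : ℝ) 1 => lh m s lQ q.1)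
      (fun q (e : ℝ × (ℝ × Pl × Pl)) => e.1 * (q.1.N m s : ℝ) - (V2_j m s q : ℝ))
      (fun q => ((q.2 : ℝ), q.1.b)) := by
    refine HB_sub hℓ (HB_mul hℓ
      (HB_clm hℓ (G08_id h) (ContinuousLinearMap.fst ℝ ℝ (ℝ × Pl × Pl)))
      (HB_const hℓ le_rfl fun q => ?_)) (HB_const hℓ le_rfl fun q => ?_)
    · rw [Real.norm_of_nonneg (Nat.cast_nonneg _)]
      exact G08_N h q.1
    · rw [Real.norm_of_nonneg (Nat.cast_nonneg _)]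
      refine le_trans ?_ (G08_N h q.1)
      exact_mod_cast (Nat.le_succ _).trans (V2_lt m s q)
  have h2 : HB (fun q : Ix ι ℝ Γ D × Icc (0 : ℝ) 1 => lh m s lQ q.1)
      (fun q (e : ℝ × (ℝ × Pl × Pl)) => ((e.2.1, q.1.w h.cf.hX m s (V2_j m s q) e.2,
        (e.1 * q.1.N m s - V2_j m s q) • V2_v h.cf.hX m s q e.2) : ℝ × Pl × Pl))
      (fun q => ((q.2 : ℝ), q.1.b)) :=
    HB_prod hℓ (HB_clm hℓ (G08_snd h) (ContinuousLinearMap.fst ℝ ℝ (Pl × Pl)))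
      (HB_prod hℓ (G08_w h (V2_j m s) fun q => (Nat.le_succ _).trans (V2_lt m s q))
        (HB_smul hℓ hτ hv))
  have h3 := HB_comp (x := fun q : Ix ι ℝ Γ D × Icc (0 : ℝ) 1 => ((q.2 : ℝ), q.1.b))
    (f := fun q (e : ℝ × (ℝ × Pl × Pl)) => ((e.2.1, q.1.w h.cf.hX m s (V2_j m s q) e.2,
        (e.1 * q.1.N m s - V2_j m s q) • V2_v h.cf.hX m s q e.2) : ℝ × Pl × Pl)) hℓ h1 h2
  exact HB_congr h3 fun q e => (V2_key_r h.cf q e.1 e.2).symm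

end BE36
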