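import Pool.Agent.LibBE36.G08
import Pool.Agent.LibBE36K.K09
import Pool.Agent.LibBE88.V3

/-! Row BE36 G09 (cites G08, K09; `LibBE88/V2`, `V3`): functions of class `HAd` along the geodesic and their integrals.
MEDIUM, 50 min.
Plan. `qr q` is the index of the point of ratio `q.2`: as in the proof of `Adm_gp` (`LibBE88/V2.lean`); `d (qr q) = q.2 * d q`
(`gp_ds`), so `lh (qr q) ≤ lh q`. `HAd_gp`: `Q` at the index `qr q` (`HB_pull`, `HB_mono`) composed with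
`(r, e) ↦ (e.1, e.2.1, η⁻¹ • gp r ..)` (`HB_gp`, `HB_prod`, `HB_clm`, `HB_comp`); `η • η⁻¹ • gp = gp`. `HAd_int`:
`HB_int` (row K09) for `Φ q (r, e) = r ^ n * Q q.i (e.1, e.2.1, gp r ..)` (`HB_pow`, `HB_mul`). `HAd_int2`: the integral over
`r ∈ [1/N, 1]` of `Q (.., gp r) / r`: substitution `r = 1/N + (1 - 1/N) θ`: for the index `(q, θ)` the family
`HAd_gp` at `q.2 = 1/N + (1 - 1/N) θ ∈ [0, 1]` composed with the affine map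
`(θ, e) ↦ (1/N + (1 - 1/N) θ, e)`, times `(1 - 1/N) / (1/N + (1 - 1/N) θ)` (`HB_inv`: the value is `≥ 1/N ≥ exp (-ll)`);
`N ≤ 2 + d` (`d_N`). -/

open MeasureTheory Set Filter Topology
open scoped ContDiff

namespace BE36

open BGS BR BE

variable {Γ : Type} [Group Γ] [MulAction Γ Pl] {D : Set Pl} {ι : Type} {m : Pl → Co} {a b : ℝ}
  {s : ι → ℝ × Pl → ℝ} {lQ : ι → ℝ}

/-- The index of the point of ratio `q.2`. -/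
noncomputable def qr (h : CF Γ D m a b s) (q : Ix ι ℝ Γ D × Icc (0 : ℝ) 1) : Ix ι ℝ Γ D :=
  ⟨q.1.i, q.1.p, q.1.x, (gη h.hX m s q)⁻¹ • gp m (s q.1.i) q.2 (q.1.b.1, q.1.b.2.1, q.1.g • q.1.b.2.2),
    gη h.hX m s q, q.1.hp, q.1.hx, V2_gp_mem h q⟩

theorem qr_d (h : CF Γ D m a b s) (q : Ix ι ℝ Γ D × Icc (0 : ℝ) 1) :
    (qr h q).d m s = q.2 * q.1.d m s := by
  unfold Ix.d qr
  dsimp only
  rw [smul_inv_smul]
  exact gp_ds h q.1.i q.1.p q.1.x (q.1.g • q.1.y) q.2.2.1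

theorem G09_lh_nonneg (h : CH Γ D m a b s lQ) (q : Ix ι ℝ Γ D) : 0 ≤ lh m s lQ q :=
  add_nonneg (h.nonneg _) (ll_nonneg m s q)

theorem qr_lh (h : CH Γ D m a b s lQ) (q : Ix ι ℝ Γ D × Icc (0 : ℝ) 1) :
    lh m s lQ (qr h.cf q) ≤ lh m s lQ q.1 := by
  have h3 := (d_N h.cf q.1).1
  have h4 : (q.2 : ℝ) * q.1.d m s ≤ q.1.d m s := mul_le_of_le_one_left h3 q.2.2.2
  have h5 : 0 ≤ (q.2 : ℝ) * q.1.d m s := mul_nonneg q.2.2.1 h3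
  unfold lh ll
  rw [qr_d]
  have h6 : Real.log (2 + q.2 * q.1.d m s) ≤ Real.log (2 + q.1.d m s) :=
    Real.log_le_log (by linarith) (by linarith)
  exact add_le_add (le_refl _) h6

theorem G09_hc_ge {A t : ℝ} (hA : 1 ≤ A) (ht : 0 ≤ t) : A ≤ hc A t := by
  unfold hc
  exact le_mul_of_one_le_right (by linarith) (Real.one_le_exp (by positivity))

theorem G09_hc_exp {t : ℝ} : Real.exp t ≤ hc 1 t := by
  unfold hc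
  rw [one_mul, one_mul]

/-- The identity at the points `(q.2, q.1.b)`. -/
theorem G09_id (h : CH Γ D m a b s lQ) :
    HB (fun q : Ix ι ℝ Γ D × Icc (0 : ℝ) 1 => lh m s lQ q.1)
      (fun _ (e : ℝ × (ℝ × Pl × Pl)) => e) (fun q => ((q.2 : ℝ), q.1.b)) := by
  obtain ⟨C, hC⟩ := h.cf.hX.bdd.closure.exists_norm_le
  refine HB_id (fun q => G09_lh_nonneg h q.1) (A := max 1 C) (le_max_left _ _) fun q => ?_
  have h1 : ‖((q.2 : ℝ), q.1.b)‖ ≤ max 1 C := by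
    refine norm_prod_le_iff.2 ⟨?_, norm_prod_le_iff.2 ⟨q.1.hp.trans (le_max_left _ _),
      norm_prod_le_iff.2 ⟨(hC _ q.1.hx).trans (le_max_right _ _),
        (hC _ q.1.hy).trans (le_max_right _ _)⟩⟩⟩
    change ‖(q.2 : ℝ)‖ ≤ _
    rw [Real.norm_of_nonneg q.2.2.1]
    exact q.2.2.2.trans (le_max_left _ _)
  exact h1.trans (G09_hc_ge (le_max_left _ _) (G09_lh_nonneg h q.1))

/-- The projection to the second variable. -/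
theorem G09_id2 (h : CH Γ D m a b s lQ) :
    HB (fun q : Ix ι ℝ Γ D × Icc (0 : ℝ) 1 => lh m s lQ q.1)
      (fun _ (e : ℝ × (ℝ × Pl × Pl)) => e.2) (fun q => ((q.2 : ℝ), q.1.b)) :=
  HB_clm (fun q : Ix ι ℝ Γ D × Icc (0 : ℝ) 1 => G09_lh_nonneg h q.1) (G09_id h)
    (ContinuousLinearMap.snd ℝ ℝ (ℝ × Pl × Pl))

/-- The ratio. -/
theorem G09_id1 (h : CH Γ D m a b s lQ) :
    HB (fun q : Ix ι ℝ Γ D × Icc (0 : ℝ) 1 => lh m s lQ q.1)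
      (fun _ (e : ℝ × (ℝ × Pl × Pl)) => e.1) (fun q => ((q.2 : ℝ), q.1.b)) :=
  HB_clm (fun q : Ix ι ℝ Γ D × Icc (0 : ℝ) 1 => G09_lh_nonneg h q.1) (G09_id h)
    (ContinuousLinearMap.fst ℝ ℝ (ℝ × Pl × Pl))

theorem HAd_gp (h : CH Γ D m a b s lQ) {Q : ι → ℝ × Pl × Pl → ℝ} (hQ : HAd Γ D m s lQ Q) :
    HB (fun q : Ix ι ℝ Γ D × Icc (0 : ℝ) 1 => lh m s lQ q.1)
      (fun q (e : ℝ × (ℝ × Pl × Pl)) =>
        Q q.1.i (e.2.1, e.2.2.1, gp m (s q.1.i) e.1 (e.2.1, e.2.2.1, q.1.g • e.2.2.2)))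
      (fun q => ((q.2 : ℝ), q.1.b)) := by
  have hℓ : ∀ q : Ix ι ℝ Γ D × Icc (0 : ℝ) 1, 0 ≤ lh m s lQ q.1 :=
    fun q => G09_lh_nonneg h q.1
  have h1 : HB (fun q : Ix ι ℝ Γ D × Icc (0 : ℝ) 1 => lh m s lQ q.1)
      (fun q (e : ℝ × Pl × Pl) => Q q.1.i (e.1, e.2.1, gη h.cf.hX m s q • e.2.2))
      (fun q => ((q.1.b.1, q.1.b.2.1,
        (gη h.cf.hX m s q)⁻¹ • gp m (s q.1.i) q.2 (q.1.b.1, q.1.b.2.1, q.1.g • q.1.b.2.2)) :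
          ℝ × Pl × Pl)) :=
    HB_mono (ℓ := fun q : Ix ι ℝ Γ D × Icc (0 : ℝ) 1 => lh m s lQ (qr h.cf q))
      (fun q => G09_lh_nonneg h (qr h.cf q)) (qr_lh h) (HB_pull hQ (qr h.cf))
  have h2 : HB (fun q : Ix ι ℝ Γ D × Icc (0 : ℝ) 1 => lh m s lQ q.1)
      (fun q (e : ℝ × (ℝ × Pl × Pl)) => ((e.2.1, e.2.2.1,
        (gη h.cf.hX m s q)⁻¹ • gp m (s q.1.i) e.1 (e.2.1, e.2.2.1, q.1.g • e.2.2.2)) :
          ℝ × Pl × Pl))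
      (fun q => ((q.2 : ℝ), q.1.b)) :=
    HB_prod hℓ (HB_clm hℓ (G09_id2 h) (ContinuousLinearMap.fst ℝ ℝ (Pl × Pl)))
      (HB_prod hℓ (HB_clm hℓ (G09_id2 h) ((ContinuousLinearMap.fst ℝ Pl Pl).comp
        (ContinuousLinearMap.snd ℝ ℝ (Pl × Pl)))) (HB_gp h))
  have h3 := HB_comp (x := fun q : Ix ι ℝ Γ D × Icc (0 : ℝ) 1 => ((q.2 : ℝ), q.1.b))
    (f := fun q (e : ℝ × (ℝ × Pl × Pl)) => ((e.2.1, e.2.2.1,
        (gη h.cf.hX m s q)⁻¹ • gp m (s q.1.i) e.1 (e.2.1, e.2.2.1, q.1.g • e.2.2.2)) :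
          ℝ × Pl × Pl))
    hℓ h1 h2
  refine HB_congr h3 fun q e => ?_
  rw [smul_inv_smul]

theorem HAd_int (h : CH Γ D m a b s lQ) {Q : ι → ℝ × Pl × Pl → ℝ} (hQ : HAd Γ D m s lQ Q)
    (n : ℕ) :
    HAd Γ D m s lQ
      (fun i e => ∫ r in (0 : ℝ)..1, r ^ n * Q i (e.1, e.2.1, gp m (s i) r e)) := by
  have hℓ : ∀ q : Ix ι ℝ Γ D × Icc (0 : ℝ) 1, 0 ≤ lh m s lQ q.1 :=
    fun q => G09_lh_nonneg h q.1
  have h1 := HB_mul hℓ (HB_pow hℓ (G09_id1 h) n) (HAd_gp h hQ)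
  exact HB_int (ℓ := fun q : Ix ι ℝ Γ D => lh m s lQ q) (G09_lh_nonneg h) (x := Ix.b)
    (Φ := fun q (w : ℝ × ℝ × Pl × Pl) => w.1 ^ n *
      Q q.i (w.2.1, w.2.2.1, gp m (s q.i) w.1 (w.2.1, w.2.2.1, q.g • w.2.2.2))) h1

theorem G09_N (h : CH Γ D m a b s lQ) (q : Ix ι ℝ Γ D) :
    (1 : ℝ) ≤ q.N m s ∧ (q.N m s : ℝ) ≤ hc 1 (lh m s lQ q) := by
  have hN : (1 : ℝ) ≤ q.N m s := by exact_mod_cast N_pos m s q
  have h1 := (d_N h.cf q).2.2.2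
  have h0 := (d_N h.cf q).1
  refine ⟨hN, h1.trans (le_trans ?_ G09_hc_exp)⟩
  have h2 : 2 + q.d m s = Real.exp (ll m s q) := by
    unfold ll
    rw [Real.exp_log (by linarith)]
  rw [h2]
  exact Real.exp_le_exp.2 (le_add_of_nonneg_left (h.nonneg _))

/-- The affine ratio. -/
theorem G09_rho (m : Pl → Co) (s : ι → ℝ × Pl → ℝ) (q : Ix ι ℝ Γ D) {θ : ℝ}
    (hθ : θ ∈ Icc (0 : ℝ) 1) :
    1 / (q.N m s : ℝ) ≤ 1 / (q.N m s : ℝ) + (1 - 1 / (q.N m s : ℝ)) * θ ∧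
      1 / (q.N m s : ℝ) + (1 - 1 / (q.N m s : ℝ)) * θ ≤ 1 ∧ 0 < 1 / (q.N m s : ℝ) ∧
      0 ≤ 1 - 1 / (q.N m s : ℝ) := by
  have hN : (1 : ℝ) ≤ q.N m s := by exact_mod_cast N_pos m s q
  have h1 : 0 < 1 / (q.N m s : ℝ) := by positivity
  have h2 : 1 / (q.N m s : ℝ) ≤ 1 := by
    rw [div_le_one (by linarith)]
    exact hN
  have h3 : 0 ≤ 1 - 1 / (q.N m s : ℝ) := by linarith
  refine ⟨?_, ?_, h1, h3⟩
  · have := mul_nonneg h3 hθ.1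
    linarith
  · have := mul_le_mul_of_nonneg_left hθ.2 h3
    linarith

/-- `∫ r in 1/N..1, Q (gp r) / r`, with `r = 1/N + (1 - 1/N) θ`. -/
theorem HAd_int2 (h : CH Γ D m a b s lQ) {Q : ι → ℝ × Pl × Pl → ℝ} (hQ : HAd Γ D m s lQ Q) :
    HB (fun q : Ix ι ℝ Γ D => lh m s lQ q)
      (fun q (e : ℝ × Pl × Pl) => ∫ θ in (0 : ℝ)..1,
        (1 - 1 / (q.N m s : ℝ)) / (1 / (q.N m s : ℝ) + (1 - 1 / (q.N m s : ℝ)) * θ) *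
          Q q.i (e.1, e.2.1, gp m (s q.i) (1 / (q.N m s : ℝ) + (1 - 1 / (q.N m s : ℝ)) * θ)
            (e.1, e.2.1, q.g • e.2.2))) Ix.b := by
  have hℓ : ∀ q : Ix ι ℝ Γ D × Icc (0 : ℝ) 1, 0 ≤ lh m s lQ q.1 :=
    fun q => G09_lh_nonneg h q.1
  have hr := fun q : Ix ι ℝ Γ D × Icc (0 : ℝ) 1 => G09_rho m s q.1 q.2.2
  -- constants
  have c1 : HB (fun q : Ix ι ℝ Γ D × Icc (0 : ℝ) 1 => lh m s lQ q.1)
      (fun q (_ : ℝ × (ℝ × Pl × Pl)) => 1 / (q.1.N m s : ℝ))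
      (fun q => ((q.2 : ℝ), q.1.b)) :=
    HB_const hℓ (A := 1) le_rfl fun q => by
      rw [Real.norm_of_nonneg (hr q).2.2.1.le]
      exact ((hr q).1.trans (hr q).2.1).trans (G09_hc_ge le_rfl (hℓ q))
  have c2 : HB (fun q : Ix ι ℝ Γ D × Icc (0 : ℝ) 1 => lh m s lQ q.1)
      (fun q (_ : ℝ × (ℝ × Pl × Pl)) => 1 - 1 / (q.1.N m s : ℝ))
      (fun q => ((q.2 : ℝ), q.1.b)) :=
    HB_const hℓ (A := 1) le_rfl fun q => by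
      rw [Real.norm_of_nonneg (hr q).2.2.2]
      refine le_trans ?_ (G09_hc_ge le_rfl (hℓ q))
      have := (hr q).2.2.1
      linarith
  have haff : HB (fun q : Ix ι ℝ Γ D × Icc (0 : ℝ) 1 => lh m s lQ q.1)
      (fun q (e : ℝ × (ℝ × Pl × Pl)) =>
        1 / (q.1.N m s : ℝ) + (1 - 1 / (q.1.N m s : ℝ)) * e.1)
      (fun q => ((q.2 : ℝ), q.1.b)) := HB_add hℓ c1 (HB_mul hℓ c2 (G09_id1 h))
  have hinv : HB (fun q : Ix ι ℝ Γ D × Icc (0 : ℝ) 1 => lh m s lQ q.1)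
      (fun q (e : ℝ × (ℝ × Pl × Pl)) =>
        (1 - 1 / (q.1.N m s : ℝ)) / (1 / (q.1.N m s : ℝ) + (1 - 1 / (q.1.N m s : ℝ)) * e.1))
      (fun q => ((q.2 : ℝ), q.1.b)) := by
    refine HB_div hℓ c2 haff (fun q => ?_) (A := 1) le_rfl fun q => ?_
    · exact ((hr q).2.2.1.trans_le (hr q).1).ne'
    · change |1 / (q.1.N m s : ℝ) + (1 - 1 / (q.1.N m s : ℝ)) * (q.2 : ℝ)|⁻¹ ≤ _
      rw [abs_of_pos ((hr q).2.2.1.trans_le (hr q).1)]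
      refine le_trans (inv_anti₀ (hr q).2.2.1 (hr q).1) ?_
      rw [one_div, inv_inv]
      exact (G09_N h q.1).2
  have h0 : HB (fun q : Ix ι ℝ Γ D × Icc (0 : ℝ) 1 => lh m s lQ q.1)
      (fun q (e : ℝ × (ℝ × Pl × Pl)) =>
        Q q.1.i (e.2.1, e.2.2.1, gp m (s q.1.i) e.1 (e.2.1, e.2.2.1, q.1.g • e.2.2.2)))
      (fun q => (1 / (q.1.N m s : ℝ) + (1 - 1 / (q.1.N m s : ℝ)) * (q.2 : ℝ), q.1.b)) :=
    HB_pull (HAd_gp h hQ) (fun q : Ix ι ℝ Γ D × Icc (0 : ℝ) 1 =>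
      ((q.1, ⟨1 / (q.1.N m s : ℝ) + (1 - 1 / (q.1.N m s : ℝ)) * (q.2 : ℝ),
        ⟨(hr q).2.2.1.le.trans (hr q).1, (hr q).2.1⟩⟩) : Ix ι ℝ Γ D × Icc (0 : ℝ) 1))
  have h2 : HB (fun q : Ix ι ℝ Γ D × Icc (0 : ℝ) 1 => lh m s lQ q.1)
      (fun q (e : ℝ × (ℝ × Pl × Pl)) =>
        ((1 / (q.1.N m s : ℝ) + (1 - 1 / (q.1.N m s : ℝ)) * e.1, e.2) :
          ℝ × (ℝ × Pl × Pl)))
      (fun q => ((q.2 : ℝ), q.1.b)) := HB_prod hℓ haff (G09_id2 h)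
  have h3 := HB_comp (x := fun q : Ix ι ℝ Γ D × Icc (0 : ℝ) 1 => ((q.2 : ℝ), q.1.b))
    (f := fun q (e : ℝ × (ℝ × Pl × Pl)) =>
        ((1 / (q.1.N m s : ℝ) + (1 - 1 / (q.1.N m s : ℝ)) * e.1, e.2) :
          ℝ × (ℝ × Pl × Pl)))
    hℓ h0 h2
  have h4 := HB_mul hℓ hinv h3
  exact HB_int (ℓ := fun q : Ix ι ℝ Γ D => lh m s lQ q) (G09_lh_nonneg h) (x := Ix.b)
    (Φ := fun q (w : ℝ × ℝ × Pl × Pl) =>
      (1 - 1 / (q.N m s : ℝ)) / (1 / (q.N m s : ℝ) + (1 - 1 / (q.N m s : ℝ)) * w.1) *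
      Q q.i (w.2.1, w.2.2.1, gp m (s q.i) (1 / (q.N m s : ℝ) + (1 - 1 / (q.N m s : ℝ)) * w.1)
        (w.2.1, w.2.2.1, q.g • w.2.2.2))) h4

end BE36
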