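import Pool.Agent.LibBE36.G07
import Pool.Agent.LibBE88.V6

/-! Row BE36 G10 (cites G01, G07; `LibBE88/V6`): Laplacian and gradients in the class `HAd`. MEDIUM, 50 min.
Plan: `LibBE88/V6.lean` with `HB` in place of `EB` (public lemmas `V6_dx`, `V6_dy`, `mm_SM` may be cited). The functions are smooth by
hypothesis (`hGs`, `hus`), so `dx`, `dy` are `fderiv` in the directions `(0, 0, (1, 0))`, `(0, 0, (0, 1))` (`V6_dx`, `V6_dy`), `HB_fderiv`;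
`wt = √dt` and its inverse: `HB_sqrt`, `HB_inv` (`hC`); `HB_metric`: `HB_mm` for `K = closure D` at the points `(p, y)`, composed with the
projection `e ↦ (e.1, e.2.2)` (`HB_pull`, `HB_mono` from `lx` to `lh`, `HB_comp`, `HB_clm`, `HB_ix`). `HAd_LL`, `HAd_gr`: at the index `q`
`LL (mm ..) (fun z => Q (p, x, z)) (g • y) = LL (mm ..) (fun z => Q (p, x, g • z)) y` (`LL_pull`; copy the end of `V6.lean`). -/

open MeasureTheory Set Filter Topology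
open scoped ContDiff

namespace BE36

open BGS BR BE

variable {Γ : Type} [Group Γ] [MulAction Γ Pl] {D : Set Pl} {ι : Type} {m : Pl → Co} {a b : ℝ}
  {s : ι → ℝ × Pl → ℝ} {lQ : ι → ℝ} {κ : Type} {ℓ : κ → ℝ} {x : κ → ℝ × Pl × Pl}

theorem G10_c1 (hℓ : ∀ q, 0 ≤ ℓ q) {G : κ → ℝ × Pl × Pl → Co} (hG : HB ℓ G x) :
    HB ℓ (fun q e => (G q e).1) x := HB_clm hℓ hG (ContinuousLinearMap.fst ℝ ℝ (ℝ × ℝ))

theorem G10_c2 (hℓ : ∀ q, 0 ≤ ℓ q) {G : κ → ℝ × Pl × Pl → Co} (hG : HB ℓ G x) :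
    HB ℓ (fun q e => (G q e).2.1) x := HB_clm hℓ hG
  ((ContinuousLinearMap.fst ℝ ℝ ℝ).comp (ContinuousLinearMap.snd ℝ ℝ (ℝ × ℝ)))

theorem G10_c3 (hℓ : ∀ q, 0 ≤ ℓ q) {G : κ → ℝ × Pl × Pl → Co} (hG : HB ℓ G x) :
    HB ℓ (fun q e => (G q e).2.2) x := HB_clm hℓ hG
  ((ContinuousLinearMap.snd ℝ ℝ ℝ).comp (ContinuousLinearMap.snd ℝ ℝ (ℝ × ℝ)))

theorem G10_dt (hℓ : ∀ q, 0 ≤ ℓ q) {G : κ → ℝ × Pl × Pl → Co} (hG : HB ℓ G x) :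
    HB ℓ (fun q e => dt (G q e)) x := by
  have h := HB_sub hℓ (HB_mul hℓ (G10_c1 hℓ hG) (G10_c3 hℓ hG))
    (HB_mul hℓ (G10_c2 hℓ hG) (G10_c2 hℓ hG))
  refine HB_congr h fun q e => ?_
  unfold dt
  ring

theorem G10_sm_c {G : ℝ × Pl × Pl → Co} (h : ContDiff ℝ ∞ G) :
    ContDiff ℝ ∞ (fun e => (G e).1) ∧ ContDiff ℝ ∞ (fun e => (G e).2.1) ∧
      ContDiff ℝ ∞ (fun e => (G e).2.2) :=
  ⟨contDiff_fst.comp h, contDiff_fst.comp (contDiff_snd.comp h),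
    contDiff_snd.comp (contDiff_snd.comp h)⟩

theorem G10_sm_fd {u : ℝ × Pl × Pl → ℝ} (h : ContDiff ℝ ∞ u) (v : ℝ × Pl × Pl) :
    ContDiff ℝ ∞ (fun e => fderiv ℝ u e v) :=
  (h.fderiv_right (m := ∞) (by simp)).clm_apply contDiff_const

theorem G10_sm_w {G : ℝ × Pl × Pl → Co} (h : ContDiff ℝ ∞ G) (hpos : ∀ e, 0 < dt (G e)) :
    ContDiff ℝ ∞ (fun e : ℝ × Pl × Pl => (wt (fun z => G (e.1, e.2.1, z)) e.2.2)⁻¹) := by
  obtain ⟨h1, h2, h3⟩ := G10_sm_c h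
  have h4 : ContDiff ℝ ∞ (fun e => dt (G e)) := by
    have h5 := (h1.mul h3).sub (h2.mul h2)
    refine (iff_of_eq (congrArg (fun f => ContDiff ℝ ∞ f) ?_)).mp h5
    funext e
    unfold dt
    ring
  have h6 : ContDiff ℝ ∞ (fun e => √(dt (G e))) := h4.sqrt fun e => (hpos e).ne'
  have h7 : ContDiff ℝ ∞ (fun e => (√(dt (G e)))⁻¹) :=
    h6.inv fun e => (Real.sqrt_pos.2 (hpos e)).ne'
  exact h7

theorem HB_wti (hℓ : ∀ q, 0 ≤ ℓ q) {G : κ → ℝ × Pl × Pl → Co} (hG : HB ℓ G x)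
    (hpos : ∀ q e, 0 < dt (G q e)) {A : ℝ} (hA : 1 ≤ A)
    (hC : ∀ q, |dt (G q (x q))|⁻¹ ≤ hc A (ℓ q)) :
    HB ℓ (fun q e => (wt (fun z => G q (e.1, e.2.1, z)) e.2.2)⁻¹) x := by
  have hC' : ∀ q, (dt (G q (x q)))⁻¹ ≤ hc A (ℓ q) := fun q => by
    have h1 := hC q
    rwa [abs_of_pos (hpos q (x q))] at h1
  have h1 := HB_sqrt hℓ (G10_dt hℓ hG) (fun q => hpos q (x q)) hA hC'
  obtain ⟨A', hA', hAA, h2⟩ := hc_pow hA (c := 2) (by norm_num) 1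
  have h3 := HB_inv hℓ h1 (fun q => (Real.sqrt_pos.2 (hpos q (x q))).ne') hA' (fun q => by
    have hp := hpos q (x q)
    have h4 : (√(dt (G q (x q))))⁻¹ ≤ 1 + (dt (G q (x q)))⁻¹ := by
      rw [← Real.sqrt_inv]
      have h5 : 0 ≤ (dt (G q (x q)))⁻¹ := (inv_pos.2 hp).le
      rw [Real.sqrt_le_left (by linarith)]
      nlinarith
    have h6 := hc_one hA (hℓ q)
    have h7 := hC' q
    have h8 := h2 (ℓ q) (hℓ q)
    rw [pow_one] at h8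
    rw [abs_of_pos (Real.sqrt_pos.2 hp)]
    linarith)
  exact h3

theorem HB_LL (hℓ : ∀ q, 0 ≤ ℓ q) {G : κ → ℝ × Pl × Pl → Co} (hGs : ∀ q, ContDiff ℝ ∞ (G q))
    (hG : HB ℓ G x) (hpos : ∀ q e, 0 < dt (G q e)) {A : ℝ} (hA : 1 ≤ A)
    (hC : ∀ q, |dt (G q (x q))|⁻¹ ≤ hc A (ℓ q)) {u : κ → ℝ × Pl × Pl → ℝ}
    (hus : ∀ q, ContDiff ℝ ∞ (u q)) (hu : HB ℓ u x) :
    HB ℓ (fun q e => LL (fun z => G q (e.1, e.2.1, z)) (fun z => u q (e.1, e.2.1, z)) e.2.2)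
      x := by
  have h1 := G10_c1 hℓ hG
  have h2 := G10_c2 hℓ hG
  have h3 := G10_c3 hℓ hG
  have hW := HB_wti hℓ hG hpos hA hC
  have hux := HB_fderiv hℓ hu ((0 : ℝ), (0 : Pl), ((1 : ℝ), (0 : ℝ)))
  have huy := HB_fderiv hℓ hu ((0 : ℝ), (0 : Pl), ((0 : ℝ), (1 : ℝ)))
  have hud : ∀ q, Differentiable ℝ (u q) := fun q => (hus q).differentiable (by simp)
  have sux := fun q => G10_sm_fd (hus q) ((0 : ℝ), (0 : Pl), ((1 : ℝ), (0 : ℝ)))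
  have suy := fun q => G10_sm_fd (hus q) ((0 : ℝ), (0 : Pl), ((0 : ℝ), (1 : ℝ)))
  have sW := fun q => G10_sm_w (hGs q) (hpos q)
  have ha := HB_mul hℓ (HB_sub hℓ (HB_mul hℓ h3 hux) (HB_mul hℓ h2 huy)) hW
  have hb := HB_mul hℓ (HB_sub hℓ (HB_mul hℓ h1 huy) (HB_mul hℓ h2 hux)) hW
  have sa := fun q => ((((G10_sm_c (hGs q)).2.2.mul (sux q)).sub
    ((G10_sm_c (hGs q)).2.1.mul (suy q))).mul (sW q))
  have sb := fun q => ((((G10_sm_c (hGs q)).1.mul (suy q)).sub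
    ((G10_sm_c (hGs q)).2.1.mul (sux q))).mul (sW q))
  have had := HB_fderiv hℓ ha ((0 : ℝ), (0 : Pl), ((1 : ℝ), (0 : ℝ)))
  have hbd := HB_fderiv hℓ hb ((0 : ℝ), (0 : Pl), ((0 : ℝ), (1 : ℝ)))
  have hfin := HB_mul hℓ (HB_add hℓ had hbd) hW
  refine HB_congr hfin fun q e => ?_
  obtain ⟨p, y, v⟩ := e
  unfold LL
  rw [← V6_dx ((sa q).differentiable (by simp)) p y v,
    ← V6_dy ((sb q).differentiable (by simp)) p y v, ← div_eq_mul_inv]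
  congr 2
  · congr 1
    funext z
    rw [V6_dx (hud q), V6_dy (hud q), div_eq_mul_inv]
  · congr 1
    funext z
    rw [V6_dx (hud q), V6_dy (hud q), div_eq_mul_inv]

theorem HB_gr (hℓ : ∀ q, 0 ≤ ℓ q) {G : κ → ℝ × Pl × Pl → Co} (hGs : ∀ q, ContDiff ℝ ∞ (G q))
    (hG : HB ℓ G x) (hpos : ∀ q e, 0 < dt (G q e)) {A : ℝ} (hA : 1 ≤ A)
    (hC : ∀ q, |dt (G q (x q))|⁻¹ ≤ hc A (ℓ q)) {u w : κ → ℝ × Pl × Pl → ℝ}
    (hus : ∀ q, ContDiff ℝ ∞ (u q)) (hws : ∀ q, ContDiff ℝ ∞ (w q)) (hu : HB ℓ u x)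
    (hw : HB ℓ w x) :
    HB ℓ (fun q e => gr (fun z => G q (e.1, e.2.1, z)) (fun z => u q (e.1, e.2.1, z))
      (fun z => w q (e.1, e.2.1, z)) e.2.2) x := by
  have h1 := G10_c1 hℓ hG
  have h2 := G10_c2 hℓ hG
  have h3 := G10_c3 hℓ hG
  have hW := HB_wti hℓ hG hpos hA hC
  have hux := HB_fderiv hℓ hu ((0 : ℝ), (0 : Pl), ((1 : ℝ), (0 : ℝ)))
  have huy := HB_fderiv hℓ hu ((0 : ℝ), (0 : Pl), ((0 : ℝ), (1 : ℝ)))
  have hwx := HB_fderiv hℓ hw ((0 : ℝ), (0 : Pl), ((1 : ℝ), (0 : ℝ)))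
  have hwy := HB_fderiv hℓ hw ((0 : ℝ), (0 : Pl), ((0 : ℝ), (1 : ℝ)))
  have hud : ∀ q, Differentiable ℝ (u q) := fun q => (hus q).differentiable (by simp)
  have hwd : ∀ q, Differentiable ℝ (w q) := fun q => (hws q).differentiable (by simp)
  have ha := HB_sub hℓ (HB_mul hℓ h3 (HB_mul hℓ hux hwx))
    (HB_mul hℓ h2 (HB_add hℓ (HB_mul hℓ hux hwy) (HB_mul hℓ huy hwx)))
  have hb := HB_add hℓ ha (HB_mul hℓ h1 (HB_mul hℓ huy hwy))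
  have hfin := HB_mul hℓ (HB_mul hℓ hb hW) hW
  refine HB_congr hfin fun q e => ?_
  obtain ⟨p, y, v⟩ := e
  unfold gr wf2
  rw [V6_dx (hud q), V6_dy (hud q), V6_dx (hwd q), V6_dy (hwd q)]
  show _ = _ / √(dt (G q (p, y, v))) / √(dt (G q (p, y, v)))
  show _ * (√(dt (G q (p, y, v))))⁻¹ * (√(dt (G q (p, y, v))))⁻¹ = _
  rw [div_eq_mul_inv, div_eq_mul_inv]
  ring

theorem HB_metric (h : CH Γ D m a b s lQ) :
    HB (fun q : Ix ι ℝ Γ D => lh m s lQ q) (fun q e => mm m (s q.i) e.1 e.2.2) Ix.b := by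
  have hK : IsCompact (closure D) := h.cf.hX.bdd.isCompact_closure
  let φ : Ix ι ℝ Γ D → Lx ι ℝ (closure D) := fun q => ⟨q.i, q.p, q.y, q.y, q.hp, q.hy, q.hy⟩
  have h0 := HB_pull (HB_mm h hK) φ
  have h1 : HB (fun q : Ix ι ℝ Γ D => lh m s lQ q)
      (fun q (e : ℝ × Pl) => mm m (s q.i) e.1 e.2) (fun q => (q.p, q.y)) :=
    HB_mono (fun q => lx_nonneg h (φ q)) (fun q => le_add_of_nonneg_right (ll_nonneg m s q)) h0
  have h2 := HB_clm (lh_nonneg h) (HB_ix h) ((ContinuousLinearMap.fst ℝ ℝ (Pl × Pl)).prod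
    ((ContinuousLinearMap.snd ℝ Pl Pl).comp (ContinuousLinearMap.snd ℝ ℝ (Pl × Pl))))
  have h2' : HB (fun q : Ix ι ℝ Γ D => lh m s lQ q) (fun _ (e : ℝ × Pl × Pl) => (e.1, e.2.2))
    Ix.b := h2
  exact HB_comp (ι := Ix ι ℝ Γ D) (E := ℝ × Pl × Pl) (F := ℝ × Pl) (G := Co)
    (x := Ix.b) (g := fun (q : Ix ι ℝ Γ D) (e : ℝ × Pl) =>
      mm m (s q.i) e.1 e.2) (f := fun _ (e : ℝ × Pl × Pl) => (e.1, e.2.2)) (lh_nonneg h) h1 h2'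

theorem metric_low (h : CH Γ D m a b s lQ) : ∃ A : ℝ, 1 ≤ A ∧ ∀ q : Ix ι ℝ Γ D,
    |dt (mm m (s q.i) q.p q.y)|⁻¹ ≤ hc A (lh m s lQ q) := by
  have hK : IsCompact (closure D) := h.cf.hX.bdd.isCompact_closure
  obtain ⟨A, hA, h1⟩ := mm_inv h hK
  refine ⟨A, hA, fun q => ?_⟩
  have h2 := (h1 ⟨q.i, q.p, q.y, q.y, q.hp, q.hy, q.hy⟩).2
  refine h2.trans ?_
  unfold hc
  have h3 : lx lQ (⟨q.i, q.p, q.y, q.y, q.hp, q.hy, q.hy⟩ : Lx ι ℝ (closure D)) ≤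
      lh m s lQ q := le_add_of_nonneg_right (ll_nonneg m s q)
  have h4 : (0 : ℝ) ≤ A := by linarith
  gcongr

theorem G10_act (h : CH Γ D m a b s lQ) {Q : ι → ℝ × Pl × Pl → ℝ}
    (hs : ∀ i, ContDiff ℝ ∞ (Q i)) (q : Ix ι ℝ Γ D) :
    ContDiff ℝ ∞ (fun e : ℝ × Pl × Pl => Q q.i (e.1, e.2.1, q.g • e.2.2)) :=
  (hs q.i).comp (contDiff_fst.prodMk ((contDiff_fst.comp contDiff_snd).prodMk
    ((h.cf.hX.smooth q.g).comp (contDiff_snd.comp contDiff_snd))))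

theorem HAd_LL (h : CH Γ D m a b s lQ) {Q : ι → ℝ × Pl × Pl → ℝ}
    (hs : ∀ i, ContDiff ℝ ∞ (Q i)) (hQ : HAd Γ D m s lQ Q) :
    HAd Γ D m s lQ (fun i e => LL (mm m (s i) e.1) (fun z => Q i (e.1, e.2.1, z)) e.2.2) := by
  obtain ⟨A, hA, hC⟩ := metric_low h
  have h1 := HB_LL (lh_nonneg h) (V6_metric (ι := ι) (P := ℝ) h.cf).smooth (HB_metric h)
    (fun q e => ((hm_mm h.cf q.i e.1).pos e.2.2).2) hA hC (G10_act h hs) hQ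
  unfold HAd
  refine HB_congr h1 fun q e => ?_
  have hs1 : ContDiff ℝ ∞ (fun z => Q q.i (e.1, e.2.1, z)) :=
    (hs q.i).comp (contDiff_const.prodMk (contDiff_const.prodMk contDiff_id))
  exact LL_pull (mm_SM h.cf q.i e.1) (mm_SM h.cf q.i e.1) (φ := fun z => q.g • z)
    (ψ := fun z => q.g⁻¹ • z) (h.cf.hX.smooth q.g) (h.cf.hX.smooth q.g⁻¹)
    (fun z => inv_smul_smul q.g z) (fun z => smul_inv_smul q.g z)
    (fun z v => (hm_mm h.cf q.i e.1).inv q.g z v) hs1 e.2.2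

theorem HAd_gr (h : CH Γ D m a b s lQ) {Q R : ι → ℝ × Pl × Pl → ℝ}
    (hs : ∀ i, ContDiff ℝ ∞ (Q i)) (hs' : ∀ i, ContDiff ℝ ∞ (R i)) (hQ : HAd Γ D m s lQ Q)
    (hR : HAd Γ D m s lQ R) :
    HAd Γ D m s lQ (fun i e => gr (mm m (s i) e.1) (fun z => Q i (e.1, e.2.1, z))
      (fun z => R i (e.1, e.2.1, z)) e.2.2) := by
  obtain ⟨A, hA, hC⟩ := metric_low h
  have h1 := HB_gr (lh_nonneg h) (V6_metric (ι := ι) (P := ℝ) h.cf).smooth (HB_metric h)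
    (fun q e => ((hm_mm h.cf q.i e.1).pos e.2.2).2) hA hC (G10_act h hs) (G10_act h hs') hQ hR
  unfold HAd
  refine HB_congr h1 fun q e => ?_
  have hs1 : ContDiff ℝ ∞ (fun z => Q q.i (e.1, e.2.1, z)) :=
    (hs q.i).comp (contDiff_const.prodMk (contDiff_const.prodMk contDiff_id))
  have hs2 : ContDiff ℝ ∞ (fun z => R q.i (e.1, e.2.1, z)) :=
    (hs' q.i).comp (contDiff_const.prodMk (contDiff_const.prodMk contDiff_id))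
  exact gr_pull (mm_SM h.cf q.i e.1) (mm_SM h.cf q.i e.1) (φ := fun z => q.g • z)
    (h.cf.hX.smooth q.g) (fun z v => (hm_mm h.cf q.i e.1).inv q.g z v) hs1 hs2 e.2.2

end BE36
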