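import Pool.Agent.LibBE36.G05
import Pool.Agent.LibBE36K.K05
import Pool.Agent.LibBE88.V7

/-! Row BE36 G11 (cites G01, G03, G05; `LibBE88/V7`): the logarithmic density, locally. MEDIUM, 45 min.
Plan: `V7_EBW` and `EB0_ffd` of `LibBE88/V7.lean` with `HB` in place of `EB0`. `V7_W` is by `V7_form` equal to
`√(dt (mm (JE e))) * wd (fderiv (JE) e (0,0,(1,0))) (fderiv (JE) e (0,0,(0,1)))`; `HB_JE`, `HB_fderiv`, `HB_dt` at the points
`(p, JE ..)` in a compact set (the values of `JE` at `Lx.b` are bounded: `EB0_JE h.cf hK` of order `0`, `V7_val`), `HB_comp`, `HB_sqrt`,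
`HB_mul`, `HB_sub` (`wd` is the 2 × 2 determinant). `HB_ffd`: `HB_log` (`V7_one`: the value is `≥ 1`) of `V7_W` composed with
`e ↦ (e.1, e.2.1, JV (e.1, e.2.1, g • e.2.2))` (`HB_JVd`; the values are bounded: `EB0_JVd`). -/

open MeasureTheory Set Filter Topology
open scoped ContDiff

namespace BE36

open BGS BR BE

variable {Γ : Type} [Group Γ] [MulAction Γ Pl] {D : Set Pl} {ι : Type} {m : Pl → Co} {a b : ℝ}
  {s : ι → ℝ × Pl → ℝ} {lQ : ι → ℝ} {K : Set Pl}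

theorem HB_W (h : CH Γ D m a b s lQ) (hK : IsCompact K) :
    HB (fun q : Lx ι ℝ K => lx lQ q) (fun q => V7_W m (s q.i)) Lx.b := by
  have hℓ : ∀ q : Lx ι ℝ K, 0 ≤ lx lQ q := fun q => lx_nonneg h q
  have hJ := HB_JE h hK
  obtain ⟨C, hC⟩ := V7_val (EB0_JE h.cf hK)
  have hK' : IsCompact (Metric.closedBall (0 : Pl) C) := isCompact_closedBall 0 C
  have hmem : ∀ q : Lx ι ℝ K, JE m (s q.i) q.b ∈ Metric.closedBall (0 : Pl) C := fun q => by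
    rw [mem_closedBall_zero_iff]
    exact hC q
  let φ : Lx ι ℝ K → Lx ι ℝ (Metric.closedBall (0 : Pl) C) := fun q =>
    ⟨q.i, q.p, JE m (s q.i) q.b, JE m (s q.i) q.b, q.hp, hmem q, hmem q⟩
  -- the metric at the point `JE`
  have hM : HB (fun q : Lx ι ℝ K => lx lQ q) (fun (q : Lx ι ℝ K) (e : ℝ × Pl) =>
      dt (mm m (s q.i) e.1 e.2)) (fun q => (q.p, JE m (s q.i) q.b)) := HB_pull (HB_dt h hK') φ
  have hid : HB (fun q : Lx ι ℝ K => lx lQ q) (fun (_ : Lx ι ℝ K) (e : ℝ × Pl × Pl) => e.1) Lx.b :=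
    HB_clm hℓ (HB_idx h hK) (ContinuousLinearMap.fst ℝ ℝ (Pl × Pl))
  have hD : HB (fun q : Lx ι ℝ K => lx lQ q) (fun (q : Lx ι ℝ K) (e : ℝ × Pl × Pl) =>
      dt (mm m (s q.i) e.1 (JE m (s q.i) e))) Lx.b :=
    HB_comp hℓ (g := fun (q : Lx ι ℝ K) (e : ℝ × Pl) => dt (mm m (s q.i) e.1 e.2))
      (f := fun (q : Lx ι ℝ K) (e : ℝ × Pl × Pl) => (e.1, JE m (s q.i) e)) hM
      (HB_prod hℓ hid hJ)
  obtain ⟨A, hA1, hA2⟩ := mm_inv h hK'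
  have hS : HB (fun q : Lx ι ℝ K => lx lQ q) (fun (q : Lx ι ℝ K) (e : ℝ × Pl × Pl) =>
      √(dt (mm m (s q.i) e.1 (JE m (s q.i) e)))) Lx.b := by
    refine HB_sqrt hℓ hD (fun q => ((hm_mm h.cf q.i q.b.1).pos _).2) hA1 fun q => ?_
    have h1 := (hA2 (φ q)).2
    have h2 : 0 < dt (mm m (s (φ q).i) (φ q).p (φ q).z) :=
      ((hm_mm h.cf (φ q).i (φ q).p).pos _).2
    rw [abs_of_pos h2] at h1
    exact h1
  have hA := HB_fderiv hℓ hJ (0, 0, ((1 : ℝ), (0 : ℝ)))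
  have hB := HB_fderiv hℓ hJ (0, 0, ((0 : ℝ), (1 : ℝ)))
  have hA1 := HB_clm hℓ hA (ContinuousLinearMap.fst ℝ ℝ ℝ)
  have hA2 := HB_clm hℓ hA (ContinuousLinearMap.snd ℝ ℝ ℝ)
  have hB1 := HB_clm hℓ hB (ContinuousLinearMap.fst ℝ ℝ ℝ)
  have hB2 := HB_clm hℓ hB (ContinuousLinearMap.snd ℝ ℝ ℝ)
  have hfin := HB_mul hℓ hS (HB_sub hℓ (HB_mul hℓ hA1 hB2) (HB_mul hℓ hA2 hB1))
  refine HB_congr hfin fun q e => ?_
  rw [V7_form h.cf]
  rfl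

theorem HB_ffd (h : CH Γ D m a b s lQ) {S : Set Γ} (hS : S.Finite) :
    HB (fun q : Lx ι ℝ (closure D) × S => lx lQ q.1) (fun q (e : ℝ × Pl × Pl) =>
      ff m (s q.1.i) (e.1, e.2.1, (q.2 : Γ) • e.2.2)) (fun q => q.1.b) := by
  have hℓ : ∀ q : Lx ι ℝ (closure D) × S, 0 ≤ lx lQ q.1 := fun q => lx_nonneg h q.1
  have hJ := HB_JVd h hS
  obtain ⟨C, hC⟩ := V7_val (EB0_JVd h.cf hS (ι := ι) (P := ℝ))
  have hDc : IsCompact (closure D) := h.cf.hX.bdd.isCompact_closure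
  have hK : IsCompact (closure D ∪ Metric.closedBall (0 : Pl) C) :=
    hDc.union (isCompact_closedBall 0 C)
  let φ : Lx ι ℝ (closure D) × S → Lx ι ℝ (closure D ∪ Metric.closedBall (0 : Pl) C) := fun q =>
    ⟨q.1.i, q.1.p, q.1.z, JV m (s q.1.i) (q.1.p, q.1.z, (q.2 : Γ) • q.1.w), q.1.hp,
      Or.inl q.1.hz, Or.inr (by
        rw [mem_closedBall_zero_iff]
        exact hC q)⟩
  have hW : HB (fun q : Lx ι ℝ (closure D) × S => lx lQ q.1)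
      (fun (q : Lx ι ℝ (closure D) × S) => V7_W m (s q.1.i))
      (fun q => (q.1.p, q.1.z, JV m (s q.1.i) (q.1.p, q.1.z, (q.2 : Γ) • q.1.w))) :=
    HB_pull (HB_W h hK) φ
  have hid : HB (fun q : Lx ι ℝ (closure D) × S => lx lQ q.1)
      (fun (_ : Lx ι ℝ (closure D) × S) (e : ℝ × Pl × Pl) => e) (fun q => q.1.b) :=
    HB_pull (HB_idx h hDc) Prod.fst
  have h1 := HB_clm hℓ hid (ContinuousLinearMap.fst ℝ ℝ (Pl × Pl))
  have h2 := HB_clm hℓ hid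
    ((ContinuousLinearMap.fst ℝ Pl Pl).comp (ContinuousLinearMap.snd ℝ ℝ (Pl × Pl)))
  have h3 := HB_prod hℓ h1 (HB_prod hℓ h2 hJ)
  have h4 : HB (fun q : Lx ι ℝ (closure D) × S => lx lQ q.1)
      (fun (q : Lx ι ℝ (closure D) × S) (e : ℝ × Pl × Pl) =>
      V7_W m (s q.1.i) (e.1, e.2.1, JV m (s q.1.i) (e.1, e.2.1, (q.2 : Γ) • e.2.2)))
      (fun q => q.1.b) :=
    HB_comp hℓ (g := fun (q : Lx ι ℝ (closure D) × S) => V7_W m (s q.1.i))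
      (f := fun (q : Lx ι ℝ (closure D) × S) (e : ℝ × Pl × Pl) =>
        ((e.1, e.2.1, JV m (s q.1.i) (e.1, e.2.1, (q.2 : Γ) • e.2.2)) : ℝ × Pl × Pl)) hW h3
  refine HB_log hℓ h4 (fun q => lt_of_lt_of_le one_pos
    (wt_form h.cf.hX (hm_mm h.cf q.1.i q.1.b.1) q.1.b.2.1 _).2) le_rfl fun q => ?_
  exact (inv_le_one_of_one_le₀
    (wt_form h.cf.hX (hm_mm h.cf q.1.i q.1.b.1) q.1.b.2.1 _).2).trans (hc_one le_rfl (hℓ q))

end BE36
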