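import Pool.Agent.LibBE36.G09
import Pool.Agent.LibBE36.G10
import Pool.Agent.LibBE36.G11
import Pool.Agent.LibBE88.V9

/-! Row BE36 G12 (cites G06, G07, G09, G10, G11; `LibBE88/V8`, `V9`): the density at all distances. MEDIUM, 50 min.
Plan. `HAd_RR`: as `Adm_RR` (`LibBE88/V8.lean`): `HAd_LL` for `sg ∘ JV` (`HAd_d2`; smooth: `JV_smooth`), `HAd_const`. `HAd_ff`: at the
index `q`, `N = q.N m s`, `E = (e.1, e.2.1, g • e.2.2)`: by `ff_ray`
`ff (.., gp 1 E) - ff (.., gp (1/N) E) = ∫ r in 1/N..1, RR (.., gp r E) / r`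
`= ∫ θ in 0..1, (1 - 1/N) / (1/N + (1 - 1/N) θ) * RR (.., gp (1/N + (1 - 1/N) θ) E)`
(`intervalIntegral.integral_eq_sub_of_hasDerivAt` for `θ ↦ ff (.., gp (1/N + (1 - 1/N) θ) E)`; the integrand is continuous), where
`gp 1 E = g • e.2.2` and `gp (1/N) E = sp_0 • w_1 e` (as in `LibBE88/V9.lean`). First term: `HB_ffd` (row G11) with the finite set of
`sp_fin`, composed with `e ↦ (e.1, e.2.1, w_1 e)` (`HB_w`, `HB_ix`, `HB_prod`, `HB_comp`); the second: `HAd_int2` (row G09). -/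

open MeasureTheory Set Filter Topology
open scoped ContDiff

namespace BE36

open BGS BR BE

variable {Γ : Type} [Group Γ] [MulAction Γ Pl] {D : Set Pl} {ι : Type} {m : Pl → Co} {a b : ℝ}
  {s : ι → ℝ × Pl → ℝ} {lQ : ι → ℝ}

theorem HAd_RR (h : CH Γ D m a b s lQ) : HAd Γ D m s lQ (fun i => RR m (s i)) := by
  have hsm : ∀ i, ContDiff ℝ ∞ (fun e => sg (JV m (s i) e)) := fun i =>
    PX1_sg_smooth.comp (JV_smooth h.cf i)
  have h1 := HAd_LL h hsm (HAd_d2 h)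
  have h2 := HAd_sub h (HAd_mul h h1 (HAd_const h (1 / 2 : ℝ))) (HAd_const h (2 : ℝ))
  refine HAd_congr h2 fun i e => ?_
  simp only [RR]
  ring

/-- The point of ratio `1 / N`. -/
private theorem G12_sp (h : CF Γ D m a b s) (q : Ix ι ℝ Γ D) (e : ℝ × Pl × Pl) :
    q.sp h.hX m s 0 • q.w h.hX m s 1 e =
      gp m (s q.i) (1 / (q.N m s : ℝ)) (e.1, e.2.1, q.g • e.2.2) := by
  have h0 : q.γ h.hX m s 0 = 1 := by
    unfold Ix.γ
    rw [if_pos rfl]
  have h1 : q.sp h.hX m s 0 • q.w h.hX m s 1 e = q.z m s 1 e := by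
    unfold Ix.sp Ix.w
    rw [h0, smul_smul, zero_add, inv_one, one_mul, mul_inv_cancel, one_smul]
  rw [h1]
  unfold Ix.z gp
  rw [Nat.cast_one]

/-- The first term. -/
private theorem G12_first (h : CH Γ D m a b s lQ) :
    HB (fun q : Ix ι ℝ Γ D => lh m s lQ q)
      (fun q e => ff m (s q.i) (e.1, e.2.1, gp m (s q.i) (1 / (q.N m s : ℝ))
        (e.1, e.2.1, q.g • e.2.2))) Ix.b := by
  have hℓ : ∀ q : Ix ι ℝ Γ D, 0 ≤ lh m s lQ q := fun q => lh_nonneg h q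
  obtain ⟨S, hS, hS1⟩ := sp_fin h.cf
  have h1 := HB_ffd h hS
  let φ : Ix ι ℝ Γ D → Lx ι ℝ (closure D) × S := fun q =>
    ⟨⟨q.i, q.p, q.x, q.w h.cf.hX m s 1 q.b, q.hp, q.hx, w_mem h.cf q 1⟩,
      ⟨q.sp h.cf.hX m s 0, (hS1 q 0).1⟩⟩
  have h2 : HB (fun q : Ix ι ℝ Γ D => lh m s lQ q) (fun (q : Ix ι ℝ Γ D) (e : ℝ × Pl × Pl) =>
      ff m (s q.i) (e.1, e.2.1, q.sp h.cf.hX m s 0 • e.2.2))
      (fun q => (q.p, q.x, q.w h.cf.hX m s 1 q.b)) :=
    HB_mono (fun q => lx_nonneg h (φ q).1) (fun q => le_add_of_nonneg_right (ll_nonneg m s q))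
      (HB_pull h1 φ)
  have h4 : HB (fun q : Ix ι ℝ Γ D => lh m s lQ q) (fun q => q.w h.cf.hX m s 1) Ix.b :=
    HB_pull (HB_w h)
      (fun q : Ix ι ℝ Γ D => (⟨(q, 1), N_pos m s q⟩ : Le (fun q : Ix ι ℝ Γ D => q.N m s)))
  have h5 := HB_ix h
  have h6 := HB_clm hℓ h5 (ContinuousLinearMap.fst ℝ ℝ (Pl × Pl))
  have h7 := HB_clm hℓ h5
    ((ContinuousLinearMap.fst ℝ Pl Pl).comp (ContinuousLinearMap.snd ℝ ℝ (Pl × Pl)))
  have h8 := HB_prod hℓ h6 (HB_prod hℓ h7 h4)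
  have h9 := HB_comp hℓ (g := fun (q : Ix ι ℝ Γ D) (e : ℝ × Pl × Pl) =>
    ff m (s q.i) (e.1, e.2.1, q.sp h.cf.hX m s 0 • e.2.2)) (f := fun (q : Ix ι ℝ Γ D)
      (e : ℝ × Pl × Pl) => ((e.1, e.2.1, q.w h.cf.hX m s 1 e) : ℝ × Pl × Pl)) (x := Ix.b) h2 h8
  refine HB_congr h9 fun q e => ?_
  rw [G12_sp h.cf q e]

/-- Integration along the ray. -/
private theorem G12_int (h : CF Γ D m a b s) (hne : D.Nonempty) (i : ι) (E : ℝ × Pl × Pl) {N : ℝ}
    (hN : 1 ≤ N) :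
    ff m (s i) (E.1, E.2.1, gp m (s i) 1 E) =
      ff m (s i) (E.1, E.2.1, gp m (s i) (1 / N) E) + ∫ θ in (0 : ℝ)..1,
        (1 - 1 / N) / (1 / N + (1 - 1 / N) * θ) *
        RR m (s i) (E.1, E.2.1, gp m (s i) (1 / N + (1 - 1 / N) * θ) E) := by
  have hN0 : 0 < 1 / N := by positivity
  have hk : 0 ≤ 1 - 1 / N := by
    have : 1 / N ≤ 1 := by
      rw [div_le_one (by linarith)]
      exact hN
    linarith
  have hpos : ∀ θ ∈ Set.uIcc (0 : ℝ) 1, 0 < 1 / N + (1 - 1 / N) * θ := by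
    intro θ hθ
    rw [Set.uIcc_of_le zero_le_one] at hθ
    have := mul_nonneg hk hθ.1
    linarith
  have hd : ∀ θ ∈ Set.uIcc (0 : ℝ) 1, HasDerivAt
      (fun θ => ff m (s i) (E.1, E.2.1, gp m (s i) (1 / N + (1 - 1 / N) * θ) E))
      ((1 - 1 / N) / (1 / N + (1 - 1 / N) * θ) *
        RR m (s i) (E.1, E.2.1, gp m (s i) (1 / N + (1 - 1 / N) * θ) E)) θ := by
    intro θ hθ
    have h0 := hpos θ hθ
    have h1 := ff_ray h i E h0
    have h2 : HasDerivAt (fun θ : ℝ => 1 / N + (1 - 1 / N) * θ) (1 - 1 / N) θ := by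
      have h4 := ((hasDerivAt_id θ).const_mul (1 - 1 / N)).const_add (1 / N)
      rw [mul_one] at h4
      exact h4
    have h3 := HasDerivAt.comp (h₂ := fun r => ff m (s i) (E.1, E.2.1, gp m (s i) r E))
      (h := fun θ : ℝ => 1 / N + (1 - 1 / N) * θ) θ h1 h2
    refine h3.congr_deriv ?_
    ring
  have hc : ContinuousOn
      (fun θ => (1 - 1 / N) / (1 / N + (1 - 1 / N) * θ) *
        RR m (s i) (E.1, E.2.1, gp m (s i) (1 / N + (1 - 1 / N) * θ) E)) (Set.uIcc (0 : ℝ) 1) := by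
    have h1 : Continuous (RR m (s i)) := (Adm_smooth h.hX hne (Adm_RR h) i).continuous
    have h2 : Continuous (fun θ : ℝ => gp m (s i) (1 / N + (1 - 1 / N) * θ) E) := by
      have h3 := (gp_smooth h i).continuous
      have h4 : Continuous (fun θ : ℝ => ((1 / N + (1 - 1 / N) * θ, E) : ℝ × ℝ × Pl × Pl)) := by
        fun_prop
      exact h3.comp h4
    have h5 : Continuous (fun θ : ℝ =>
        ((E.1, E.2.1, gp m (s i) (1 / N + (1 - 1 / N) * θ) E) : ℝ × Pl × Pl)) := by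
      fun_prop
    refine ContinuousOn.mul ?_ (h1.comp h5).continuousOn
    refine ContinuousOn.div continuousOn_const ?_ (fun θ hθ => (hpos θ hθ).ne')
    exact (continuous_const.add (continuous_const.mul continuous_id)).continuousOn
  have h1 := intervalIntegral.integral_eq_sub_of_hasDerivAt (a := (0 : ℝ)) (b := 1)
    hd hc.intervalIntegrable
  have h2 : 1 / N + (1 - 1 / N) * 1 = 1 := by ring
  have h3 : 1 / N + (1 - 1 / N) * 0 = 1 / N := by ring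
  rw [h2, h3] at h1
  linarith

theorem HAd_ff (h : CH Γ D m a b s lQ) : HAd Γ D m s lQ (fun i => ff m (s i)) := by
  have hne : D.Nonempty := by
    obtain ⟨γ, hγ, _⟩ := h.cf.hX.orbit (0 : Pl)
    exact ⟨_, hγ⟩
  have hℓ : ∀ q : Ix ι ℝ Γ D, 0 ≤ lh m s lQ q := fun q => lh_nonneg h q
  have h1 := G12_first h
  have h2 := HAd_int2 h (HAd_RR h)
  have h3 := HB_add hℓ h1 h2
  refine HB_congr h3 fun q e => ?_
  have h4 := G12_int h.cf hne q.i (e.1, e.2.1, q.g • e.2.2) (N := (q.N m s : ℝ))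
    (by exact_mod_cast N_pos m s q)
  have h5 : gp m (s q.i) 1 (e.1, e.2.1, q.g • e.2.2) = q.g • e.2.2 := by
    unfold gp JE JV
    rw [one_smul]
    exact Ex_Vx h.cf.hX (hm_mm h.cf q.i e.1) _ _
  rw [h5] at h4
  exact h4.symm

end BE36
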