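import Pool.Agent.LibBE36.G12
import Pool.Agent.LibBE88.V10
import Pool.Agent.LibBE88.V11

/-! Row BE36 G13 (cites G10, G12; `LibBE88/V4`, `V6`, `V10`): the transport operator `TT` in coordinates. MEDIUM / STRONG, 60 min.
Plan. `TT Q (p, x, g • y) = LL (mm p) (u (p, x, ·)) y - gr (mm p) (f (p, x, ·)) (u (p, x, ·)) y + c0 * u (p, x, y)` for the family
`u (p, x, y) = Q (p, x, g • y)`, `f (p, x, y) = ff (p, x, g • y)` (`LL_pull`, `gr_pull` with `φ = (g • ·)`, as in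
`V6.lean`), `c0 = gr (f, f) / 4 - LL f / 2` (at `(p, x, g • y)`). With `E, F, G` the coefficients of `mm m (s i) p y`,
`W = 1 / wt = 1 / √dt`: `LL u = (dx ((G u_x - F u_y) W) + dy ((E u_y - F u_x) W)) W`, so the coefficients are
`u_xx: G W²`, `u_xy: -2 F W²`, `u_yy: E W²` (`u_xy = u_yx`: second derivatives of a smooth function),
`u_x: (dx (G W) - dy (F W)) W`, `u_y: (dy (E W) - dx (F W)) W` (read the definitions of `LL`, `gr`, `wf2`, `PX4_fl1` in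
`LibBR70/PX4.lean` and adapt), and `gr (f, u)` contributes `- (G f_x - F f_y) W²`, `- (E f_y - F f_x) W²` to those of `u_x`, `u_y`. All coefficients are of
class `HB`: `HB_metric`, `HB_wti`, `HB_fderiv`, `HAd_ff` (`c0`: `HAd_LL`, `HAd_gr`, `ff_smooth`). -/

open MeasureTheory Set Filter Topology
open scoped ContDiff

namespace BE36

open BGS BR BE

variable {Γ : Type} [Group Γ] [MulAction Γ Pl] {D : Set Pl} {ι : Type} {m : Pl → Co} {a b : ℝ}
  {s : ι → ℝ × Pl → ℝ} {lQ : ι → ℝ}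

/-- The derivatives in the second point. -/
noncomputable def d1 (u : ℝ × Pl × Pl → ℝ) (e : ℝ × Pl × Pl) : ℝ :=
  fderiv ℝ u e (0, 0, ((1 : ℝ), (0 : ℝ)))

noncomputable def d2 (u : ℝ × Pl × Pl → ℝ) (e : ℝ × Pl × Pl) : ℝ :=
  fderiv ℝ u e (0, 0, ((0 : ℝ), (1 : ℝ)))

private theorem G13_dxm {f g : Pl → ℝ} {z : Pl} (hf : DifferentiableAt ℝ f z)
    (hg : DifferentiableAt ℝ g z) : dx (fun y => f y * g y) z = dx f z * g z + f z * dx g z := by
  unfold dx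
  rw [fderiv_fun_mul hf hg]
  simp only [ContinuousLinearMap.add_apply, ContinuousLinearMap.smul_apply, smul_eq_mul]
  ring

private theorem G13_dym {f g : Pl → ℝ} {z : Pl} (hf : DifferentiableAt ℝ f z)
    (hg : DifferentiableAt ℝ g z) : dy (fun y => f y * g y) z = dy f z * g z + f z * dy g z := by
  unfold dy
  rw [fderiv_fun_mul hf hg]
  simp only [ContinuousLinearMap.add_apply, ContinuousLinearMap.smul_apply, smul_eq_mul]
  ring

private theorem G13_dxs {f g : Pl → ℝ} {z : Pl} (hf : DifferentiableAt ℝ f z)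
    (hg : DifferentiableAt ℝ g z) : dx (fun y => f y - g y) z = dx f z - dx g z := by
  unfold dx
  rw [fderiv_fun_sub hf hg]
  rfl

private theorem G13_dys {f g : Pl → ℝ} {z : Pl} (hf : DifferentiableAt ℝ f z)
    (hg : DifferentiableAt ℝ g z) : dy (fun y => f y - g y) z = dy f z - dy g z := by
  unfold dy
  rw [fderiv_fun_sub hf hg]
  rfl

private theorem G13_sym {u : Pl → ℝ} (hu : ContDiff ℝ ∞ u) (z : Pl) :
    dy (dx u) z = dx (dy u) z := by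
  have h1 : IsSymmSndFDerivAt ℝ u z := by
    refine (hu.contDiffAt).isSymmSndFDerivAt ?_
    rw [minSmoothness_of_isRCLikeNormedField]
    exact WithTop.coe_le_coe.2 le_top
  have h2 : Differentiable ℝ (fderiv ℝ u) :=
    (hu.fderiv_right (m := ∞) (by simp)).differentiable (by simp)
  have h3 : ∀ v w : Pl, fderiv ℝ (fun y => fderiv ℝ u y v) z w = fderiv ℝ (fderiv ℝ u) z w v := by
    intro v w
    rw [fderiv_clm_apply (h2 z) (differentiableAt_const v)]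
    simp
  unfold dx dy
  rw [h3, h3]
  exact h1 _ _

private theorem G13_LL {c : Pl → Co} (hc : SM c) {u : Pl → ℝ} (hu : ContDiff ℝ ∞ u) (v : Pl) :
    LL c u v =
      (dx (fun z => (c z).2.2 * (wt c z)⁻¹) v - dy (fun z => (c z).2.1 * (wt c z)⁻¹) v) *
        (wt c v)⁻¹ * dx u v +
      (dy (fun z => (c z).1 * (wt c z)⁻¹) v - dx (fun z => (c z).2.1 * (wt c z)⁻¹) v) *
        (wt c v)⁻¹ * dy u v +
      (c v).2.2 * (wt c v)⁻¹ * (wt c v)⁻¹ * dx (dx u) v -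
      ((c v).2.1 * (wt c v)⁻¹ * (wt c v)⁻¹ + (c v).2.1 * (wt c v)⁻¹ * (wt c v)⁻¹) *
        dx (dy u) v +
      (c v).1 * (wt c v)⁻¹ * (wt c v)⁻¹ * dy (dy u) v := by
  have hW : ContDiff ℝ ∞ (fun z => (wt c z)⁻¹) := (V4_wt hc).inv fun z => (V4_wp hc z).ne'
  have hG : ContDiff ℝ ∞ (fun z => (c z).2.2 * (wt c z)⁻¹) :=
    (contDiff_snd.comp (contDiff_snd.comp hc.smooth)).mul hW
  have hF : ContDiff ℝ ∞ (fun z => (c z).2.1 * (wt c z)⁻¹) :=
    (contDiff_fst.comp (contDiff_snd.comp hc.smooth)).mul hW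
  have hE : ContDiff ℝ ∞ (fun z => (c z).1 * (wt c z)⁻¹) :=
    (contDiff_fst.comp hc.smooth).mul hW
  have hdx : ContDiff ℝ ∞ (dx u) := (hu.fderiv_right (m := ∞) (by simp)).clm_apply contDiff_const
  have hdy : ContDiff ℝ ∞ (dy u) := (hu.fderiv_right (m := ∞) (by simp)).clm_apply contDiff_const
  have D : ∀ {f : Pl → ℝ}, ContDiff ℝ ∞ f → DifferentiableAt ℝ f v := fun hf =>
    hf.differentiable (by simp) v
  unfold LL
  have e1 : (fun z => ((c z).2.2 * dx u z - (c z).2.1 * dy u z) / wt c z) =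
      fun z => ((c z).2.2 * (wt c z)⁻¹) * dx u z - ((c z).2.1 * (wt c z)⁻¹) * dy u z := by
    funext z
    rw [div_eq_mul_inv]
    ring
  have e2 : (fun z => ((c z).1 * dy u z - (c z).2.1 * dx u z) / wt c z) =
      fun z => ((c z).1 * (wt c z)⁻¹) * dy u z - ((c z).2.1 * (wt c z)⁻¹) * dx u z := by
    funext z
    rw [div_eq_mul_inv]
    ring
  rw [e1, e2, G13_dxs (D (hG.mul hdx)) (D (hF.mul hdy)), G13_dys (D (hE.mul hdy)) (D (hF.mul hdx)),
    G13_dxm (D hG) (D hdx), G13_dxm (D hF) (D hdy), G13_dym (D hE) (D hdy), G13_dym (D hF) (D hdx),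
    G13_sym hu, div_eq_mul_inv]
  ring

private theorem G13_gr (c : Pl → Co) (f u : Pl → ℝ) (v : Pl) :
    gr c f u v = ((c v).2.2 * dx f v - (c v).2.1 * dy f v) * (wt c v)⁻¹ * (wt c v)⁻¹ * dx u v +
      ((c v).1 * dy f v - (c v).2.1 * dx f v) * (wt c v)⁻¹ * (wt c v)⁻¹ * dy u v := by
  unfold gr wf2
  show _ / √(dt (c v)) / wt c v = _
  rw [div_eq_mul_inv, div_eq_mul_inv]
  show _ * (wt c v)⁻¹ * (wt c v)⁻¹ = _
  ring

private theorem G13_d1s {u : ℝ × Pl × Pl → ℝ} (hu : ContDiff ℝ ∞ u) : ContDiff ℝ ∞ (d1 u) :=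
  (hu.fderiv_right (m := ∞) (by simp)).clm_apply contDiff_const

private theorem G13_d2s {u : ℝ × Pl × Pl → ℝ} (hu : ContDiff ℝ ∞ u) : ContDiff ℝ ∞ (d2 u) :=
  (hu.fderiv_right (m := ∞) (by simp)).clm_apply contDiff_const

private theorem G13_dx {u : ℝ × Pl × Pl → ℝ} (hu : ContDiff ℝ ∞ u) (p : ℝ) (x : Pl) :
    dx (fun y => u (p, x, y)) = fun y => d1 u (p, x, y) :=
  funext fun z => V6_dx (hu.differentiable (by simp)) p x z

private theorem G13_dy {u : ℝ × Pl × Pl → ℝ} (hu : ContDiff ℝ ∞ u) (p : ℝ) (x : Pl) :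
    dy (fun y => u (p, x, y)) = fun y => d2 u (p, x, y) :=
  funext fun z => V6_dy (hu.differentiable (by simp)) p x z

private theorem G13_slice {u : ℝ × Pl × Pl → ℝ} (hu : ContDiff ℝ ∞ u) (p : ℝ) (x : Pl) :
    ContDiff ℝ ∞ (fun y => u (p, x, y)) :=
  hu.comp (contDiff_const.prodMk (contDiff_const.prodMk contDiff_id))

theorem TT_form (h : CH Γ D m a b s lQ) : ∃ c : Fin 6 → Ix ι ℝ Γ D → ℝ × Pl × Pl → ℝ,
    (∀ k, HB (fun q : Ix ι ℝ Γ D => lh m s lQ q) (c k) Ix.b) ∧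
    ∀ Q : ℝ × Pl × Pl → ℝ, ContDiff ℝ ∞ Q → ∀ (q : Ix ι ℝ Γ D) (e : ℝ × Pl × Pl),
      TT m (s q.i) Q (e.1, e.2.1, q.g • e.2.2) =
        c 0 q e * Q (e.1, e.2.1, q.g • e.2.2) +
        c 1 q e * d1 (fun e => Q (e.1, e.2.1, q.g • e.2.2)) e +
        c 2 q e * d2 (fun e => Q (e.1, e.2.1, q.g • e.2.2)) e +
        c 3 q e * d1 (d1 (fun e => Q (e.1, e.2.1, q.g • e.2.2))) e +
        c 4 q e * d1 (d2 (fun e => Q (e.1, e.2.1, q.g • e.2.2))) e +
        c 5 q e * d2 (d2 (fun e => Q (e.1, e.2.1, q.g • e.2.2))) e := by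
  have hℓ : ∀ q : Ix ι ℝ Γ D, 0 ≤ lh m s lQ q := fun q => lh_nonneg h q
  have hcf := h.cf
  obtain ⟨A, hA1, hA⟩ := metric_low (Γ := Γ) (D := D) h
  -- the coefficients of the metric
  have hM := HB_metric (Γ := Γ) (D := D) h
  have hGc := HB_clm hℓ hM
    ((ContinuousLinearMap.snd ℝ ℝ ℝ).comp (ContinuousLinearMap.snd ℝ ℝ (ℝ × ℝ)))
  have hFc := HB_clm hℓ hM
    ((ContinuousLinearMap.fst ℝ ℝ ℝ).comp (ContinuousLinearMap.snd ℝ ℝ (ℝ × ℝ)))
  have hEc := HB_clm hℓ hM (ContinuousLinearMap.fst ℝ ℝ (ℝ × ℝ))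
  have hW := HB_wti hℓ hM (fun q e => ((hm_mm hcf q.i e.1).pos e.2.2).2) hA1 hA
  set W : Ix ι ℝ Γ D → ℝ × Pl × Pl → ℝ := fun q e =>
    (wt (fun z => mm m (s q.i) (e.1, e.2.1, z).1 (e.1, e.2.1, z).2.2) e.2.2)⁻¹ with hWd
  set cG : Ix ι ℝ Γ D → ℝ × Pl × Pl → ℝ := fun q e => (mm m (s q.i) e.1 e.2.2).2.2 with hcG
  set cF : Ix ι ℝ Γ D → ℝ × Pl × Pl → ℝ := fun q e => (mm m (s q.i) e.1 e.2.2).2.1 with hcF
  set cE : Ix ι ℝ Γ D → ℝ × Pl × Pl → ℝ := fun q e => (mm m (s q.i) e.1 e.2.2).1 with hcE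
  have hGc' : HB (fun q : Ix ι ℝ Γ D => lh m s lQ q) cG Ix.b := hGc
  have hFc' : HB (fun q : Ix ι ℝ Γ D => lh m s lQ q) cF Ix.b := hFc
  have hEc' : HB (fun q : Ix ι ℝ Γ D => lh m s lQ q) cE Ix.b := hEc
  have hW' : HB (fun q : Ix ι ℝ Γ D => lh m s lQ q) W Ix.b := hW
  -- the density
  set f : Ix ι ℝ Γ D → ℝ × Pl × Pl → ℝ := fun q e =>
    ff m (s q.i) (e.1, e.2.1, q.g • e.2.2) with hf
  have hff := HAd_ff h
  have hf' : HB (fun q : Ix ι ℝ Γ D => lh m s lQ q) f Ix.b := hff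
  have hf1 : HB (fun q : Ix ι ℝ Γ D => lh m s lQ q) (fun q => d1 (f q)) Ix.b :=
    HB_fderiv hℓ hf' (0, 0, ((1 : ℝ), (0 : ℝ)))
  have hf2 : HB (fun q : Ix ι ℝ Γ D => lh m s lQ q) (fun q => d2 (f q)) Ix.b :=
    HB_fderiv hℓ hf' (0, 0, ((0 : ℝ), (1 : ℝ)))
  have hGW := HB_mul hℓ hGc' hW'
  have hFW := HB_mul hℓ hFc' hW'
  have hEW := HB_mul hℓ hEc' hW'
  have hGW1 : HB (fun q : Ix ι ℝ Γ D => lh m s lQ q)
      (fun q => d1 (fun e => cG q e * W q e)) Ix.b :=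
    HB_fderiv hℓ hGW (0, 0, ((1 : ℝ), (0 : ℝ)))
  have hFW1 : HB (fun q : Ix ι ℝ Γ D => lh m s lQ q)
      (fun q => d1 (fun e => cF q e * W q e)) Ix.b :=
    HB_fderiv hℓ hFW (0, 0, ((1 : ℝ), (0 : ℝ)))
  have hFW2 : HB (fun q : Ix ι ℝ Γ D => lh m s lQ q)
      (fun q => d2 (fun e => cF q e * W q e)) Ix.b :=
    HB_fderiv hℓ hFW (0, 0, ((0 : ℝ), (1 : ℝ)))
  have hEW2 : HB (fun q : Ix ι ℝ Γ D => lh m s lQ q)
      (fun q => d2 (fun e => cE q e * W q e)) Ix.b :=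
    HB_fderiv hℓ hEW (0, 0, ((0 : ℝ), (1 : ℝ)))
  have hc0 : HB (fun q : Ix ι ℝ Γ D => lh m s lQ q) (fun q (e : ℝ × Pl × Pl) =>
      gr (mm m (s q.i) e.1) (fun z => ff m (s q.i) (e.1, e.2.1, z))
        (fun z => ff m (s q.i) (e.1, e.2.1, z)) (q.g • e.2.2) * (1 / 4) -
      LL (mm m (s q.i) e.1) (fun z => ff m (s q.i) (e.1, e.2.1, z)) (q.g • e.2.2) * (1 / 2))
      Ix.b := by
    have h1 := HAd_gr h (ff_smooth hcf) (ff_smooth hcf) hff hff
    have h2 := HAd_LL h (ff_smooth hcf) hff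
    exact HAd_sub h (HAd_mul h h1 (HAd_const h (1 / 4 : ℝ)))
      (HAd_mul h h2 (HAd_const h (1 / 2 : ℝ)))
  have hc1 := HB_sub hℓ (HB_mul hℓ (HB_sub hℓ hGW1 hFW2) hW')
    (HB_mul hℓ (HB_mul hℓ (HB_sub hℓ (HB_mul hℓ hGc' hf1) (HB_mul hℓ hFc' hf2)) hW') hW')
  have hc2 := HB_sub hℓ (HB_mul hℓ (HB_sub hℓ hEW2 hFW1) hW')
    (HB_mul hℓ (HB_mul hℓ (HB_sub hℓ (HB_mul hℓ hEc' hf2) (HB_mul hℓ hFc' hf1)) hW') hW')
  have hc3 := HB_mul hℓ (HB_mul hℓ hGc' hW') hW'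
  have hc4' := HB_mul hℓ (HB_mul hℓ hFc' hW') hW'
  have hc4 := HB_neg hℓ (HB_add hℓ hc4' hc4')
  have hc5 := HB_mul hℓ (HB_mul hℓ hEc' hW') hW'
  refine ⟨![fun q (e : ℝ × Pl × Pl) =>
      gr (mm m (s q.i) e.1) (fun z => ff m (s q.i) (e.1, e.2.1, z))
        (fun z => ff m (s q.i) (e.1, e.2.1, z)) (q.g • e.2.2) * (1 / 4) -
      LL (mm m (s q.i) e.1) (fun z => ff m (s q.i) (e.1, e.2.1, z)) (q.g • e.2.2) * (1 / 2),
    fun q e => (d1 (fun e => cG q e * W q e) e - d2 (fun e => cF q e * W q e) e) * W q e -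
      (cG q e * d1 (f q) e - cF q e * d2 (f q) e) * W q e * W q e,
    fun q e => (d2 (fun e => cE q e * W q e) e - d1 (fun e => cF q e * W q e) e) * W q e -
      (cE q e * d2 (f q) e - cF q e * d1 (f q) e) * W q e * W q e,
    fun q e => cG q e * W q e * W q e,
    fun q e => -(cF q e * W q e * W q e + cF q e * W q e * W q e),
    fun q e => cE q e * W q e * W q e], ?_, ?_⟩
  rotate_left
  · intro Q hQ q e
    obtain ⟨p, x, y⟩ := e
    have hSM := mm_SM hcf q.i p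
    set u : ℝ × Pl × Pl → ℝ := fun e => Q (e.1, e.2.1, q.g • e.2.2) with hu
    have hgs : ContDiff ℝ ∞ (fun e : ℝ × Pl × Pl => ((e.1, e.2.1, q.g • e.2.2) : ℝ × Pl × Pl)) :=
      contDiff_fst.prodMk (contDiff_snd.fst.prodMk ((hcf.hX.smooth q.g).comp contDiff_snd.snd))
    have hus : ContDiff ℝ ∞ u := hQ.comp hgs
    have hfs : ContDiff ℝ ∞ (f q) := (ff_smooth hcf q.i).comp hgs
    have hMs : ContDiff ℝ ∞ (fun e : ℝ × Pl × Pl => mm m (s q.i) e.1 e.2.2) :=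
      (V7_mms hcf q.i).comp (contDiff_fst.prodMk contDiff_snd.snd)
    have hds : ContDiff ℝ ∞ (fun e : ℝ × Pl × Pl => dt (mm m (s q.i) e.1 e.2.2)) := by
      unfold dt
      exact (hMs.fst.mul hMs.snd.snd).sub (hMs.snd.fst.pow 2)
    have hWs : ContDiff ℝ ∞ (W q) := by
      have h1 : ContDiff ℝ ∞ (fun e : ℝ × Pl × Pl => √(dt (mm m (s q.i) e.1 e.2.2))) :=
        hds.sqrt fun e => ((hm_mm hcf q.i e.1).pos e.2.2).2.ne'
      exact h1.inv fun e => (Real.sqrt_pos.2 ((hm_mm hcf q.i e.1).pos e.2.2).2).ne'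
    have hGs : ContDiff ℝ ∞ (fun e => cG q e * W q e) := hMs.snd.snd.mul hWs
    have hFs : ContDiff ℝ ∞ (fun e => cF q e * W q e) := hMs.snd.fst.mul hWs
    have hEs : ContDiff ℝ ∞ (fun e => cE q e * W q e) := hMs.fst.mul hWs
    have hQsl : ContDiff ℝ ∞ (fun z => Q (p, x, z)) := G13_slice hQ p x
    have hfsl : ContDiff ℝ ∞ (fun z => ff m (s q.i) (p, x, z)) := G13_slice (ff_smooth hcf q.i) p x
    have e1 : LL (mm m (s q.i) p) (fun z => Q (p, x, z)) (q.g • y) =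
        LL (mm m (s q.i) p) (fun z => u (p, x, z)) y :=
      (LL_pull hSM hSM (φ := fun z => q.g • z)
        (ψ := fun z => q.g⁻¹ • z) (hcf.hX.smooth q.g) (hcf.hX.smooth q.g⁻¹)
        (fun z => inv_smul_smul q.g z) (fun z => smul_inv_smul q.g z)
        (fun z v => (hm_mm hcf q.i p).inv q.g z v) hQsl y).symm
    have e2 : gr (mm m (s q.i) p) (fun z => ff m (s q.i) (p, x, z)) (fun z => Q (p, x, z))
        (q.g • y) = gr (mm m (s q.i) p) (fun z => f q (p, x, z)) (fun z => u (p, x, z)) y :=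
      (gr_pull hSM hSM (φ := fun z => q.g • z)
        (hcf.hX.smooth q.g) (fun z v => (hm_mm hcf q.i p).inv q.g z v) hfsl hQsl y).symm
    have l1 := G13_LL hSM (G13_slice hus p x) y
    have l2 := G13_gr (mm m (s q.i) p) (fun z => f q (p, x, z)) (fun z => u (p, x, z)) y
    rw [G13_dx hus, G13_dy hus, G13_dx (G13_d1s hus), G13_dx (G13_d2s hus),
      G13_dy (G13_d2s hus)] at l1
    rw [G13_dx hus, G13_dy hus, G13_dx hfs, G13_dy hfs] at l2
    have w1 : dx (fun z => (mm m (s q.i) p z).2.2 * (wt (mm m (s q.i) p) z)⁻¹) y =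
        d1 (fun e => cG q e * W q e) (p, x, y) := congrFun (G13_dx hGs p x) y
    have w2 : dy (fun z => (mm m (s q.i) p z).2.1 * (wt (mm m (s q.i) p) z)⁻¹) y =
        d2 (fun e => cF q e * W q e) (p, x, y) := congrFun (G13_dy hFs p x) y
    have w3 : dy (fun z => (mm m (s q.i) p z).1 * (wt (mm m (s q.i) p) z)⁻¹) y =
        d2 (fun e => cE q e * W q e) (p, x, y) := congrFun (G13_dy hEs p x) y
    have w4 : dx (fun z => (mm m (s q.i) p z).2.1 * (wt (mm m (s q.i) p) z)⁻¹) y =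
        d1 (fun e => cF q e * W q e) (p, x, y) := congrFun (G13_dx hFs p x) y
    rw [w1, w2, w3, w4] at l1
    have hWy : (wt (mm m (s q.i) p) y)⁻¹ = W q (p, x, y) := rfl
    rw [hWy] at l1 l2
    have hT : TT m (s q.i) Q (p, x, q.g • y) =
        LL (mm m (s q.i) p) (fun z => Q (p, x, z)) (q.g • y) -
        gr (mm m (s q.i) p) (fun z => ff m (s q.i) (p, x, z)) (fun z => Q (p, x, z)) (q.g • y) +
        (gr (mm m (s q.i) p) (fun z => ff m (s q.i) (p, x, z))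
          (fun z => ff m (s q.i) (p, x, z)) (q.g • y) / 4 -
        LL (mm m (s q.i) p) (fun z => ff m (s q.i) (p, x, z)) (q.g • y) / 2) *
          Q (p, x, q.g • y) := rfl
    rw [hT, e1, e2, l1, l2]
    show _ = _ * Q (p, x, q.g • y) + _ * d1 u (p, x, y) + _ * d2 u (p, x, y) +
      _ * d1 (d1 u) (p, x, y) + _ * d1 (d2 u) (p, x, y) + _ * d2 (d2 u) (p, x, y)
    simp only [Matrix.cons_val_zero, Matrix.cons_val_one, Matrix.cons_val]
    have hG1 : (mm m (s q.i) p y).2.2 = cG q (p, x, y) := rfl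
    have hF1 : (mm m (s q.i) p y).2.1 = cF q (p, x, y) := rfl
    have hE1 : (mm m (s q.i) p y).1 = cE q (p, x, y) := rfl
    rw [hG1, hF1, hE1]
    ring
  · intro k
    fin_cases k
    · exact hc0
    · exact hc1
    · exact hc2
    · exact hc3
    · exact hc4
    · exact hc5

end BE36
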