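import Pool.Agent.LibBE36.G07
import Pool.Agent.LibBE99.Defs

/-! Row BE36 G14 (cites G07, K05; `LibBE88/V12`): the diagonal `y = x`. SHORT / MEDIUM, 35 min.
Plan. `HJx`: `Q` at the index `(i, p, x, x, g)` (`HB_pull`; `ll` of this index is `log (2 + q.d m s)` by definition of `Jx.d` and `Ix.d`)
composed with the linear map `(p, x) ↦ (p, x, x)` (`HB_comp`, `HB_clm` of `HB_id`). `HJx_ds`: `ds M x y = √(sg (Vx M x y))`
(`eu v = √(sg v)`: see `diag_ds` in `V12.lean`), `HB_sqrt` with `ds_low h.cf` (`g ≠ 1`, `ds ≥ c > 0`). -/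

open MeasureTheory Set Filter Topology
open scoped ContDiff

namespace BE36

open BGS BR BE

variable {Γ : Type} [Group Γ] [MulAction Γ Pl] {D : Set Pl} {ι : Type} {m : Pl → Co} {a b : ℝ}
  {s : ι → ℝ × Pl → ℝ} {lQ : ι → ℝ} {F FC : Type} [NormedAddCommGroup F]
  [NormedSpace ℝ F] [NormedAddCommGroup FC] [NormedSpace ℂ FC] [CX F FC]

/-- The scale. -/
noncomputable def lj (m : Pl → Co) (s : ι → ℝ × Pl → ℝ) (lQ : ι → ℝ)
    (q : Jx ι ℝ Γ (closure D)) : ℝ := lQ q.i + Real.log (2 + q.d m s)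

/-- The index `(i, p, x, x, g)`. -/
private def G14_ix (q : Jx ι ℝ Γ (closure D)) : Ix ι ℝ Γ D :=
  ⟨q.i, q.p, q.x, q.x, q.g, q.hp, q.hx, q.hx⟩

theorem HJx (h : CH Γ D m a b s lQ) {Q : ι → ℝ × Pl × Pl → F} (hQ : HAd Γ D m s lQ Q) :
    HB (fun q : Jx ι ℝ Γ (closure D) => lj m s lQ q)
      (fun q (e : ℝ × Pl) => Q q.i (e.1, e.2, q.g • e.2)) Jx.b := by
  obtain ⟨A, hA, hAb⟩ := hQ
  refine ⟨A, hA, fun q => ?_⟩
  obtain ⟨g, h1, h2, h3⟩ := hAb (G14_ix q)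
  have hmaps : ∀ z : ℂ × (ℂ × ℂ), z ∈ Metric.ball (CX.of (Jx.b q) : ℂ × (ℂ × ℂ))
      (hc A (lj m s lQ q))⁻¹ → (z.1, z.2, z.2) ∈
        Metric.ball (CX.of (Ix.b (G14_ix q)) : ℂ × (ℂ × ℂ) × (ℂ × ℂ))
          (hc A (lh m s lQ (G14_ix q)))⁻¹ := by
    intro z hz
    rw [Metric.mem_ball, Prod.dist_eq, max_lt_iff] at hz
    rw [Metric.mem_ball, Prod.dist_eq, Prod.dist_eq, max_lt_iff, max_lt_iff]
    exact ⟨hz.1, hz.2, hz.2⟩
  refine ⟨fun z : ℂ × (ℂ × ℂ) => g (z.1, z.2, z.2), ?_, fun z hz => h2 _ (hmaps z hz), ?_⟩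
  · refine h1.comp (Differentiable.differentiableOn ?_) (fun z hz => hmaps z hz)
    fun_prop
  · intro y hy
    exact h3 (y.1, y.2, y.2) (hmaps _ hy)

private theorem G14_lj_nonneg (h : CH Γ D m a b s lQ) (q : Jx ι ℝ Γ (closure D)) :
    0 ≤ lj m s lQ q := by
  have h1 : 0 ≤ q.d m s := by
    show 0 ≤ eu (Vx (mm m (s q.i) q.p) q.x (q.g • q.x))
    exact Real.sqrt_nonneg _
  have h2 : 0 ≤ Real.log (2 + q.d m s) := Real.log_nonneg (by linarith)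
  have h3 := h.nonneg q.i
  show 0 ≤ lQ q.i + Real.log (2 + q.d m s)
  linarith

theorem HJx_ds (h : CH Γ D m a b s lQ) :
    HB (fun q : Jx ι ℝ Γ (closure D) => lj m s lQ q)
      (fun q (e : ℝ × Pl) => ds (mm m (s q.i) e.1) e.2 (q.g • e.2)) Jx.b := by
  obtain ⟨c, hc0, hcd⟩ := ds_low h.cf
  have hsq := HJx h (HAd_d2 h)
  have hpos : ∀ q : Jx ι ℝ Γ (closure D),
      c ^ 2 ≤ sg (JV m (s q.i) ((Jx.b q).1, (Jx.b q).2, q.g • (Jx.b q).2)) := by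
    intro q
    have h1 := hcd q.i q.p q.hp q.x q.g q.hg
    have h2 : ds (mm m (s q.i) q.p) q.x (q.g • q.x) ^ 2 =
        sg (JV m (s q.i) (q.p, q.x, q.g • q.x)) := by
      show eu (Vx (mm m (s q.i) q.p) q.x (q.g • q.x)) ^ 2 = _
      unfold eu
      rw [Real.sq_sqrt (by positivity)]
      rfl
    have h3 : c ^ 2 ≤ ds (mm m (s q.i) q.p) q.x (q.g • q.x) ^ 2 := pow_le_pow_left₀ hc0.le h1 2
    rw [h2] at h3
    exact h3
  have hA : 1 ≤ max 1 (c ^ 2)⁻¹ := le_max_left _ _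
  have key := HB_sqrt (fun q => G14_lj_nonneg h q) hsq (fun q => (pow_pos hc0 2).trans_le (hpos q))
    hA (fun q => by
      have h2 : (sg (JV m (s q.i) ((Jx.b q).1, (Jx.b q).2, q.g • (Jx.b q).2)))⁻¹ ≤ (c ^ 2)⁻¹ :=
        inv_anti₀ (pow_pos hc0 2) (hpos q)
      have h3 : (c ^ 2)⁻¹ ≤ max 1 (c ^ 2)⁻¹ := le_max_right _ _
      have h4 : max 1 (c ^ 2)⁻¹ ≤ hc (max 1 (c ^ 2)⁻¹) (lj m s lQ q) := by
        have h5 : 1 ≤ Real.exp (max 1 (c ^ 2)⁻¹ * lj m s lQ q) :=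
          Real.one_le_exp (mul_nonneg (by linarith) (G14_lj_nonneg h q))
        unfold hc
        nlinarith
      exact (h2.trans h3).trans h4)
  exact HB_congr key (fun q e => rfl)

end BE36
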