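import Pool.Agent.LibBE36.G02

/-! Row BE36 GE1 (cites K01-K05, G01, G02): the curvature, tools. MEDIUM, 45 min.
Plan. `hc_le_pow`: `n = 2 * ⌈A⌉₊`: `A ≤ ⌈A⌉₊ ≤ 2 ^ ⌈A⌉₊ ≤ Y ^ ⌈A⌉₊` (`Nat.lt_two_pow_self`), `exp (A t) ≤ exp (⌈A⌉₊ t) = (exp t) ^ ⌈A⌉₊ ≤
Y ^ ⌈A⌉₊` (`Real.exp_nat_mul`). `HE_slice`: compose the extension with `Lc`. `HE_diag`, `HE_par`: `HE_slice` with
`L z = (p, z, z)`, `Lc z = (p, z, z)`, resp. `L t = (t, x, x)` (sup norm on products: the ball goes into the ball). `HB_curv`: unfold `curv`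
(`LibBGS/Defs.lean`: Brioschi), `Matrix.det_fin_three`, `simp` to a polynomial in `E, F, G`, their first derivatives, and
`dy (dy E)`, `dy (dx F)`, `dx (dx G)`, divided by `dt ^ 2`: `HB_E`, `HB_F`, `HB_G`, `HB_dxy` (row G02; twice: the functions
`fun e => dx (fun v => E (e.1, v)) e.2` are differentiable: `HB_congr (HB_fderiv ..)` does not give it, use smoothness of
`(p, z) ↦ mm m (s i) p z` (`hm_mm`, `A2_E` etc. of `LibBE88/A2.lean`, `contDiff_infty..fderiv`)), `HB_mul`, `HB_add`, `HB_sub`,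
`HB_inv` with `HB_dt`, `mm_inv`; `HB_congr` at the end with `field_simp`/`ring`. -/

open MeasureTheory Set Filter Topology
open scoped ContDiff

namespace BE36

open BGS BR BE

theorem hc_le_pow {A : ℝ} (hA : 1 ≤ A) : ∃ n0 : ℕ, ∀ n : ℕ, n0 ≤ n → ∀ t Y : ℝ, 0 ≤ t → 2 ≤ Y →
    Real.exp t ≤ Y → hc A t ≤ Y ^ n := by
  refine ⟨2 * ⌈A⌉₊, fun n hn t Y ht hY hexp => ?_⟩
  set N : ℕ := ⌈A⌉₊ with hN
  have hAN : A ≤ N := Nat.le_ceil A
  have hY1 : (1 : ℝ) ≤ Y := by linarith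
  have hY0 : (0 : ℝ) ≤ Y := by linarith
  have h1 : A ≤ Y ^ N := by
    have h2 : (N : ℝ) ≤ (2 : ℝ) ^ N := by
      have h3 : N < 2 ^ N := Nat.lt_two_pow_self
      exact_mod_cast h3.le
    exact hAN.trans (h2.trans (pow_le_pow_left₀ (by norm_num) hY N))
  have h4 : Real.exp (A * t) ≤ Y ^ N := by
    have h5 : Real.exp (A * t) ≤ Real.exp (N * t) :=
      Real.exp_le_exp.2 (mul_le_mul_of_nonneg_right hAN ht)
    rw [Real.exp_nat_mul] at h5
    exact h5.trans (pow_le_pow_left₀ (Real.exp_pos t).le hexp N)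
  have h6 : hc A t ≤ Y ^ N * Y ^ N := mul_le_mul h1 h4 (Real.exp_pos _).le (pow_nonneg hY0 N)
  rw [← pow_add, ← two_mul] at h6
  exact h6.trans (pow_le_pow_right₀ hY1 hn)

section slice

variable {E F G EC FC GC : Type} [NormedAddCommGroup E] [NormedSpace ℝ E]
  [NormedAddCommGroup F] [NormedSpace ℝ F] [NormedAddCommGroup EC] [NormedSpace ℂ EC]
  [NormedAddCommGroup FC] [NormedSpace ℂ FC] [CX E EC] [CX F FC] [NormedAddCommGroup G]
  [NormedSpace ℝ G] [NormedAddCommGroup GC] [NormedSpace ℂ GC] [CX G GC]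

theorem HE_slice {f : F → G} {x : E} {r B : ℝ} {L : E → F} {Lc : EC → FC}
    (hd : Differentiable ℂ Lc) (hr : ∀ y : E, Lc (CX.of y) = CX.of (L y))
    (hb : ∀ z ∈ Metric.ball (CX.of x : EC) r, Lc z ∈ Metric.ball (CX.of (L x) : FC) r)
    (hf : HE f (L x) r B) : HE (fun y => f (L y)) x r B := by
  obtain ⟨g, h1, h2, h3⟩ := hf
  refine ⟨fun z => g (Lc z), h1.comp hd.differentiableOn fun z hz => hb z hz,
    fun z hz => h2 _ (hb z hz), fun y hy => ?_⟩
  have h4 := hb _ hy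
  rw [hr] at h4
  show g (Lc (CX.of y)) = CX.of (f (L y))
  rw [hr]
  exact h3 (L y) h4

/-- The diagonal, with a fixed parameter. -/
theorem HE_diag {f : ℝ × Pl × Pl → G} {p : ℝ} {x : Pl} {r B : ℝ} (hr : 0 < r)
    (hf : HE f (p, x, x) r B) : HE (fun z : Pl => f (p, z, z)) x r B := by
  refine HE_slice (L := fun z : Pl => (p, z, z))
    (Lc := fun z : ℂ × ℂ => ((p : ℂ), z, z)) ?_ (fun y => rfl) (fun z hz => ?_) hf
  · exact (differentiable_const _).prodMk (differentiable_id.prodMk differentiable_id)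
  · have h1 : dist z (CX.of x : ℂ × ℂ) < r := hz
    show dist ((p : ℂ), z, z) ((p : ℂ), (CX.of x : ℂ × ℂ), (CX.of x : ℂ × ℂ)) < r
    rw [Prod.dist_eq, Prod.dist_eq]
    refine max_lt ?_ (max_lt h1 h1)
    rw [dist_self]
    exact hr

/-- A fixed point. -/
theorem HE_par {f : ℝ × Pl × Pl → G} {p : ℝ} {x y : Pl} {r B : ℝ} (hr : 0 < r)
    (hf : HE f (p, x, y) r B) : HE (fun t : ℝ => f (t, x, y)) p r B := by
  refine HE_slice (L := fun t : ℝ => (t, x, y))
    (Lc := fun t : ℂ => (t, (CX.of x : ℂ × ℂ), (CX.of y : ℂ × ℂ))) ?_ (fun y => rfl)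
    (fun z hz => ?_) hf
  · exact differentiable_id.prodMk (differentiable_const _)
  · have h1 : dist z (CX.of p : ℂ) < r := hz
    show dist (z, (CX.of x : ℂ × ℂ), (CX.of y : ℂ × ℂ))
      ((CX.of p : ℂ), (CX.of x : ℂ × ℂ), (CX.of y : ℂ × ℂ)) < r
    rw [Prod.dist_eq]
    refine max_lt h1 ?_
    rw [dist_self]
    exact hr

/-- A fixed parameter. -/
theorem HE_fix {f : ℝ × E → G} {p : ℝ} {x : E} {r B : ℝ} (hr : 0 < r)
    (hf : HE f (p, x) r B) : HE (fun z : E => f (p, z)) x r B := by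
  refine HE_slice (L := fun z : E => (p, z))
    (Lc := fun z : EC => ((p : ℂ), z)) ?_ (fun y => rfl) (fun z hz => ?_) hf
  · exact (differentiable_const _).prodMk differentiable_id
  · have h1 : dist z (CX.of x : EC) < r := hz
    show dist ((p : ℂ), z) ((p : ℂ), (CX.of x : EC)) < r
    rw [Prod.dist_eq]
    refine max_lt ?_ h1
    rw [dist_self]
    exact hr

end slice

variable {Γ : Type} [Group Γ] [MulAction Γ Pl] {D : Set Pl} {ι : Type} {m : Pl → Co} {a b : ℝ}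
  {s : ι → ℝ × Pl → ℝ} {lQ : ι → ℝ} {K : Set Pl}

theorem HB_curv (h : CH Γ D m a b s lQ) (hK : IsCompact K) :
    HB (fun q : Lx ι ℝ K => lx lQ q) (fun q (e : ℝ × Pl) => curv (mm m (s q.i) e.1) e.2)
      (fun q => (q.p, q.z)) := by
  have hn : ∀ q : Lx ι ℝ K, 0 ≤ lx lQ q := fun q => lx_nonneg h q
  have hE := HB_E h hK
  have hF := HB_F h hK
  have hG := HB_G h hK
  have aE := A2_E (P := ℝ) h.cf hK
  have aF := A2_F (P := ℝ) h.cf hK
  have aG := A2_G (P := ℝ) h.cf hK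
  have hEx := (HB_dxy h (fun q => (aE.smooth q).differentiable (by simp)) hE).1
  have hEy := (HB_dxy h (fun q => (aE.smooth q).differentiable (by simp)) hE).2
  have hFx := (HB_dxy h (fun q => (aF.smooth q).differentiable (by simp)) hF).1
  have hFy := (HB_dxy h (fun q => (aF.smooth q).differentiable (by simp)) hF).2
  have hGx := (HB_dxy h (fun q => (aG.smooth q).differentiable (by simp)) hG).1
  have hGy := (HB_dxy h (fun q => (aG.smooth q).differentiable (by simp)) hG).2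
  have hEyy := (HB_dxy h (fun q => ((A2_EBdy aE).smooth q).differentiable (by simp)) hEy).2
  have hFxy := (HB_dxy h (fun q => ((A2_EBdx aF).smooth q).differentiable (by simp)) hFx).2
  have hGxx := (HB_dxy h (fun q => ((A2_EBdx aG).smooth q).differentiable (by simp)) hGx).1
  obtain ⟨A, hA, hA'⟩ := mm_inv h hK
  have hI := HB_inv hn (HB_dt h hK) (fun q => ((hm_mm h.cf q.i q.p).pos q.z).2.ne') hA
    (fun q => (hA' q).2)
  have c2 := fun {f : Lx ι ℝ K → ℝ × Pl → ℝ}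
    (hf : HB (fun q : Lx ι ℝ K => lx lQ q) f (fun q => (q.p, q.z))) =>
    HB_mul hn (G02_cst hn (1 / 2 : ℝ)) hf
  have ha := HB_sub hn (HB_sub hn hFxy (c2 hEyy)) (c2 hGxx)
  have hb := c2 hEx
  have hc' := HB_sub hn hFx (c2 hEy)
  have hd := HB_sub hn hFy (c2 hGx)
  have he := c2 hGy
  have hu := c2 hEy
  have hv := c2 hGx
  have t1 := HB_mul hn ha (HB_sub hn (HB_mul hn hE hG) (HB_mul hn hF hF))
  have t2 := HB_mul hn hb (HB_sub hn (HB_mul hn hd hG) (HB_mul hn hF he))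
  have t3 := HB_mul hn hc' (HB_sub hn (HB_mul hn hd hF) (HB_mul hn hE he))
  have t4 := HB_mul hn hu (HB_sub hn (HB_mul hn hu hG) (HB_mul hn hF hv))
  have t5 := HB_mul hn hv (HB_sub hn (HB_mul hn hu hF) (HB_mul hn hE hv))
  have tot := HB_mul hn (HB_sub hn (HB_add hn (HB_sub hn t1 t2) t3) (HB_sub hn t5 t4))
    (HB_mul hn hI hI)
  refine HB_congr tot fun q e => ?_
  unfold curv
  simp only [Matrix.det_fin_three, Matrix.of_apply, Matrix.cons_val', Matrix.cons_val_zero,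
    Matrix.cons_val_one, Matrix.cons_val]
  ring

end BE36
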