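import Pool.Agent.LibBE36.N5

/-! Row BE36 N6 (cites N2, N5, K02; `uu_zero`): the coefficients of the parametrix, with explicit dependence on their number.
MEDIUM, 45 min.
Plan. Fix `N` and `q`, `lam = lh q`, `H = hc A lam` (`A` from `uu_step`, enlarged), `n = N + 1`, `κ0 = 1 / (64 H n)`,
`κ0' = κ0 / (16 H n)`, `κ_j = κ0 (2 - j / n)`, `κ'_j = κ0' (2 - j / n)`, `ρ = κ0 / (2 n)`, `ρ' = κ0' / n` (`≤ ρ`). By induction on `j ≤ N`: for all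
`q'` with `lh q' ≤ lam` the function `uu j` is in `HO (Om q' κ'_j κ_j) (X ^ j)`, `X = H / ρ'^2`: `j = 0`: the constant `1`
(`uu_zero`); step: `uu_step` with `κ' = κ'_(j+1)`, `κ = κ_(j+1)` (`κ_j = κ + 2 ρ`, `κ'_j = κ' + ρ'`; `H (2 κ) ≤ 4 H κ0 ≤ 1`,
`H (κ' + κ²) ≤ H (2 κ0' + 4 κ0²) ≤ ρ / 2`). At `j ≤ N` the domain contains `Om q κ0' κ0`, which contains the ball of radius
`κ0' / C` around `of q.b` (`Om_cmp`). `H = A exp (A lam) ≤ (2 exp lam) ^ n1` for a natural number `n1` depending on `A`, so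
everything is bounded by powers of `Y = (N + 1) * (2 * exp (lh q)) ≥ 2`. -/

open MeasureTheory Set Filter Topology
open scoped ContDiff

namespace BE36

open BGS BR BE

variable {Γ : Type} [Group Γ] [MulAction Γ Pl] {D : Set Pl} {ι : Type} {m : Pl → Co} {a b : ℝ}
  {s : ι → ℝ × Pl → ℝ} {lQ : ι → ℝ}

/-- A real number `≥ 1` is at most a power of `2`. -/
theorem N6_two (A : ℝ) : A ≤ (2 : ℝ) ^ ⌈A⌉₊ := by
  have h1 : A ≤ (⌈A⌉₊ : ℝ) := Nat.le_ceil A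
  have h2 : (⌈A⌉₊ : ℝ) ≤ ((2 ^ ⌈A⌉₊ : ℕ) : ℝ) := by
    exact_mod_cast (Nat.lt_two_pow_self).le
  calc A ≤ (⌈A⌉₊ : ℝ) := h1
    _ ≤ ((2 ^ ⌈A⌉₊ : ℕ) : ℝ) := h2
    _ = (2 : ℝ) ^ ⌈A⌉₊ := by push_cast; rfl

/-- The constant of the class `HB` is at most a power of `2 exp lam`. -/
theorem N6_hc {A lam : ℝ} (h0 : 0 ≤ lam) :
    hc A lam ≤ (2 * Real.exp lam) ^ ⌈A⌉₊ := by
  have h1 : A ≤ (2 : ℝ) ^ ⌈A⌉₊ := N6_two A
  have h2 : Real.exp (A * lam) ≤ Real.exp lam ^ ⌈A⌉₊ := by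
    rw [← Real.exp_nat_mul]
    exact Real.exp_le_exp.2 (mul_le_mul_of_nonneg_right (Nat.le_ceil A) h0)
  unfold hc
  rw [mul_pow]
  exact mul_le_mul h1 h2 (Real.exp_pos _).le (by positivity)

/-- The arithmetic of the induction. -/
theorem N6_arith {H n t : ℝ} (hH : 1 ≤ H) (hn : 1 ≤ n) (ht1 : 1 ≤ t) (ht2 : t ≤ 2) {κ0 κ0' : ℝ}
    (hκ0 : κ0 = 1 / (64 * H * n)) (hκ0' : κ0' = κ0 / (16 * H * n)) :
    0 < κ0 ∧ 0 < κ0' ∧ κ0' ≤ κ0 ∧ κ0' * t ≤ κ0 * t ∧ κ0' / n ≤ κ0 / (2 * n) ∧ κ0 / (2 * n) ≤ κ0 * t ∧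
      H * (2 * (κ0 * t)) ≤ 1 ∧ H * (κ0' * t + (κ0 * t) ^ 2) ≤ κ0 / (2 * n) / 2 := by
  have hH0 : 0 < H := by linarith
  have hn0 : 0 < n := by linarith
  have hHn : 1 ≤ H * n := by nlinarith
  have hp : 0 < κ0 := by rw [hκ0]; positivity
  have hp' : 0 < κ0' := by rw [hκ0']; positivity
  have e1 : H * κ0 = 1 / (64 * n) := by rw [hκ0]; field_simp
  have e2 : H * κ0' = κ0 / (16 * n) := by rw [hκ0']; field_simp
  have h2 : 2 * κ0' ≤ κ0 := by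
    rw [hκ0', mul_div_assoc', div_le_iff₀ (by positivity)]
    nlinarith [mul_le_mul_of_nonneg_left hHn hp.le]
  have h3 : κ0' ≤ κ0 := by linarith
  refine ⟨hp, hp', h3, mul_le_mul_of_nonneg_right h3 (by linarith), ?_, ?_, ?_, ?_⟩
  · rw [div_le_div_iff₀ hn0 (by positivity)]
    nlinarith [mul_le_mul_of_nonneg_right h2 hn0.le]
  · rw [div_le_iff₀ (by positivity)]
    have : κ0 * 1 ≤ κ0 * (t * (2 * n)) := mul_le_mul_of_nonneg_left (by nlinarith) hp.le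
    linarith
  · have h4 : H * (2 * (κ0 * t)) = (H * κ0) * (2 * t) := by ring
    rw [h4, e1]
    have h5 : 1 / (64 * n) ≤ 1 / 64 := by
      apply one_div_le_one_div_of_le (by norm_num)
      linarith
    have h6 : (0 : ℝ) ≤ 1 / (64 * n) := by positivity
    nlinarith
  · have h4 : H * (κ0' * t + (κ0 * t) ^ 2) = (H * κ0') * t + (H * κ0) * κ0 * t ^ 2 := by ring
    rw [h4, e1, e2]
    have h7 : t ^ 2 ≤ 4 := by nlinarith
    have h8 : κ0 / (16 * n) * t ≤ κ0 / (16 * n) * 2 :=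
      mul_le_mul_of_nonneg_left ht2 (by positivity)
    have h9 : 1 / (64 * n) * κ0 * t ^ 2 ≤ 1 / (64 * n) * κ0 * 4 :=
      mul_le_mul_of_nonneg_left h7 (by positivity)
    have h10 : κ0 / (16 * n) * 2 + 1 / (64 * n) * κ0 * 4 = κ0 / n * (3 / 16) := by
      field_simp
      norm_num
    have h11 : κ0 / (2 * n) / 2 = κ0 / n * (4 / 16) := by
      field_simp
      norm_num
    have h12 : 0 ≤ κ0 / n := by positivity
    rw [h11]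
    nlinarith

/-- The induction over the number of the coefficient. -/
theorem N6_ind {A : ℝ} (hA : 1 ≤ A) (hcf : CF Γ D m a b s)
    (hst : ∀ (lam : ℝ) (j : ℕ)
    (κ' κ ρ' ρ B : ℝ), 0 ≤ lam → 0 < κ' → κ' ≤ κ → 0 < ρ' → ρ' ≤ ρ → ρ ≤ κ → 0 ≤ B →
      hc A lam * (2 * κ) ≤ 1 → hc A lam * (κ' + κ ^ 2) ≤ ρ / 2 →
      (∀ q : Ix ι ℝ Γ D, lh m s lQ q ≤ lam → HO (Om m s q (κ' + ρ') (κ + 2 * ρ)) B
        (fun e : ℝ × Pl × Pl => uu m (s q.i) j (e.1, e.2.1, q.g • e.2.2))) →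
      ∀ q : Ix ι ℝ Γ D, lh m s lQ q ≤ lam → HO (Om m s q κ' κ) (hc A lam * B / ρ' ^ 2)
        (fun e : ℝ × Pl × Pl => uu m (s q.i) (j + 1) (e.1, e.2.1, q.g • e.2.2)))
    {lam : ℝ} (hlam : 0 ≤ lam) (N : ℕ) {κ0 κ0' : ℝ}
    (hκ0 : κ0 = 1 / (64 * hc A lam * ((N : ℝ) + 1)))
    (hκ0' : κ0' = κ0 / (16 * hc A lam * ((N : ℝ) + 1))) (j : ℕ) : j ≤ N →
    ∀ q : Ix ι ℝ Γ D, lh m s lQ q ≤ lam →
      HO (Om m s q (κ0' * (2 - j / ((N : ℝ) + 1))) (κ0 * (2 - j / ((N : ℝ) + 1))))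
        ((hc A lam / (κ0' / ((N : ℝ) + 1)) ^ 2) ^ j)
        (fun e : ℝ × Pl × Pl => uu m (s q.i) j (e.1, e.2.1, q.g • e.2.2)) := by
  have hn : (1 : ℝ) ≤ (N : ℝ) + 1 := by
    have : (0 : ℝ) ≤ N := Nat.cast_nonneg _
    linarith
  have hH : 1 ≤ hc A lam := hc_one hA hlam
  induction j with
  | zero =>
    intro _ q _
    refine ⟨fun _ => 1, differentiableOn_const _, fun z _ => ?_, fun y _ => ?_⟩
    · rw [norm_one, pow_zero]
    · have h1 := uu_zero hcf q.i (y.1, y.2.1, q.g • y.2.2)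
      change (1 : ℂ) = CX.of (uu m (s q.i) 0 (y.1, y.2.1, q.g • y.2.2))
      rw [h1]
      exact (Complex.ofReal_one).symm
  | succ j ih =>
    intro hj q hq
    have hj' : ((j : ℝ) + 1) ≤ (N : ℝ) := by exact_mod_cast hj
    have hj0 : (0 : ℝ) ≤ (j : ℝ) := Nat.cast_nonneg _
    have hn0 : (0 : ℝ) < (N : ℝ) + 1 := by linarith
    have ht1 : 1 ≤ 2 - ((j + 1 : ℕ) : ℝ) / ((N : ℝ) + 1) := by
      have : ((j + 1 : ℕ) : ℝ) / ((N : ℝ) + 1) ≤ 1 := by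
        rw [div_le_one hn0]
        push_cast
        linarith
      linarith
    have ht2 : 2 - ((j + 1 : ℕ) : ℝ) / ((N : ℝ) + 1) ≤ 2 := by
      have : 0 ≤ ((j + 1 : ℕ) : ℝ) / ((N : ℝ) + 1) := by positivity
      linarith
    obtain ⟨a1, a2, a3, a4, a5, a6, a7, a8⟩ := N6_arith hH hn ht1 ht2 hκ0 hκ0'
    have h1 := hst lam j (κ0' * (2 - ((j + 1 : ℕ) : ℝ) / ((N : ℝ) + 1)))
      (κ0 * (2 - ((j + 1 : ℕ) : ℝ) / ((N : ℝ) + 1))) (κ0' / ((N : ℝ) + 1))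
      (κ0 / (2 * ((N : ℝ) + 1))) ((hc A lam / (κ0' / ((N : ℝ) + 1)) ^ 2) ^ j) hlam
      (mul_pos a2 (by linarith)) a4 (div_pos a2 hn0) a5 a6 (by positivity) a7 a8 ?_ q hq
    · refine HO_mono h1 subset_rfl (le_of_eq ?_)
      rw [pow_succ]
      ring
    · intro q' hq'
      have h2 := ih (by omega) q' hq'
      have e1 : κ0' * (2 - ((j + 1 : ℕ) : ℝ) / ((N : ℝ) + 1)) + κ0' / ((N : ℝ) + 1) =
          κ0' * (2 - (j : ℝ) / ((N : ℝ) + 1)) := by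
        push_cast
        field_simp
        ring
      have e2 : κ0 * (2 - ((j + 1 : ℕ) : ℝ) / ((N : ℝ) + 1)) + 2 * (κ0 / (2 * ((N : ℝ) + 1))) =
          κ0 * (2 - (j : ℝ) / ((N : ℝ) + 1)) := by
        push_cast
        field_simp
        ring
      rw [e1, e2]
      exact h2

/-- **The end of the geometry**: `N` coefficients on balls of radius `Y ^ (-A)`, bounded by `Y ^ (A j)`,
`Y = (N + 1) * 2 Q (2 + d)`. -/
theorem uu_ext (h : CH Γ D m a b s lQ) : ∃ A : ℕ, ∀ (N : ℕ) (q : Ix ι ℝ Γ D), ∀ j ≤ N,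
    HE (fun e : ℝ × Pl × Pl => uu m (s q.i) j (e.1, e.2.1, q.g • e.2.2)) q.b
      ((((N : ℝ) + 1) * (2 * Real.exp (lh m s lQ q))) ^ A)⁻¹
      ((((N : ℝ) + 1) * (2 * Real.exp (lh m s lQ q))) ^ (A * j)) := by
  obtain ⟨A, hA, hst⟩ := uu_step h
  obtain ⟨C, hC, hcmp⟩ := Om_cmp h.cf
  refine ⟨⌈C⌉₊ + 5 * ⌈A⌉₊ + 26, fun N q j hj => ?_⟩
  have hlam : 0 ≤ lh m s lQ q := add_nonneg (h.nonneg q.i) (ll_nonneg m s q)
  have hn : (1 : ℝ) ≤ (N : ℝ) + 1 := by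
    have : (0 : ℝ) ≤ N := Nat.cast_nonneg _
    linarith
  have hn0 : (0 : ℝ) < (N : ℝ) + 1 := by linarith
  have hH : 1 ≤ hc A (lh m s lQ q) := hc_one hA hlam
  have hH' : hc A (lh m s lQ q) ≤ _ := N6_hc hlam
  have hC' := N6_two C
  have hind := N6_ind hA h.cf hst hlam N rfl rfl j hj q le_rfl
  set lam := lh m s lQ q with hlamdef
  set H := hc A lam with hHdef
  set n : ℝ := (N : ℝ) + 1 with hndef
  set κ0 : ℝ := 1 / (64 * H * n) with hκ0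
  set κ0' : ℝ := κ0 / (16 * H * n) with hκ0'
  have hj0 : (0 : ℝ) ≤ (j : ℝ) := Nat.cast_nonneg _
  have hjN : (j : ℝ) ≤ N := by exact_mod_cast hj
  have ht1 : 1 ≤ 2 - (j : ℝ) / n := by
    have : (j : ℝ) / n ≤ 1 := by
      rw [div_le_one hn0]
      linarith
    linarith
  have ht2 : 2 - (j : ℝ) / n ≤ 2 := by
    have : 0 ≤ (j : ℝ) / n := by positivity
    linarith
  obtain ⟨a1, a2, a3, a4, a5, a6, a7, a8⟩ := N6_arith hH hn ht1 ht2 hκ0 hκ0'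
  have hH0 : 0 < H := by linarith
  have hC0 : 0 < C := by linarith
  set Y : ℝ := n * (2 * Real.exp lam) with hYdef
  have hexp : 1 ≤ Real.exp lam := Real.one_le_exp hlam
  have hY2 : 2 ≤ Y := by
    have : (1 : ℝ) * 2 ≤ n * (2 * Real.exp lam) :=
      mul_le_mul hn (by linarith) (by norm_num) hn0.le
    linarith
  have hY1 : 1 ≤ Y := by linarith
  have hY0 : 0 < Y := by linarith
  have hEY : 2 * Real.exp lam ≤ Y := by
    have : 1 * (2 * Real.exp lam) ≤ n * (2 * Real.exp lam) :=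
      mul_le_mul_of_nonneg_right hn (by positivity)
    linarith
  have hnY : n ≤ Y := by
    have : n * 1 ≤ n * (2 * Real.exp lam) := mul_le_mul_of_nonneg_left (by linarith) hn0.le
    linarith
  have hHY : H ≤ Y ^ ⌈A⌉₊ := hH'.trans (pow_le_pow_left₀ (by positivity) hEY _)
  have hCY : C ≤ Y ^ ⌈C⌉₊ := hC'.trans (pow_le_pow_left₀ (by norm_num) hY2 _)
  have hρ : κ0' = 1 / (1024 * H ^ 2 * n ^ 2) := by
    rw [hκ0', hκ0]
    field_simp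
    norm_num
  -- the radius
  have hrad : (Y ^ (⌈C⌉₊ + 5 * ⌈A⌉₊ + 26))⁻¹ ≤ κ0' / C := by
    have e1 : κ0' / C = (C * (2 ^ 10 * (H ^ 2 * n ^ 2)))⁻¹ := by
      rw [hρ]
      field_simp
      norm_num
    rw [e1]
    apply inv_anti₀ (by positivity)
    calc C * (2 ^ 10 * (H ^ 2 * n ^ 2))
        ≤ Y ^ ⌈C⌉₊ * (Y ^ 10 * ((Y ^ ⌈A⌉₊) ^ 2 * Y ^ 2)) := by
          gcongr
      _ = Y ^ (⌈C⌉₊ + 2 * ⌈A⌉₊ + 12) := by
          rw [← pow_mul, ← pow_add, ← pow_add, ← pow_add]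
          congr 1
          ring
      _ ≤ Y ^ (⌈C⌉₊ + 5 * ⌈A⌉₊ + 26) := pow_le_pow_right₀ hY1 (by omega)
  -- the bound
  have hX : H / (κ0' / n) ^ 2 ≤ Y ^ (⌈C⌉₊ + 5 * ⌈A⌉₊ + 26) := by
    have e1 : H / (κ0' / n) ^ 2 = 2 ^ 20 * (H ^ 5 * n ^ 6) := by
      rw [hρ]
      field_simp
      norm_num
    rw [e1]
    calc 2 ^ 20 * (H ^ 5 * n ^ 6) ≤ Y ^ 20 * ((Y ^ ⌈A⌉₊) ^ 5 * Y ^ 6) := by
          gcongr
      _ = Y ^ (5 * ⌈A⌉₊ + 26) := by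
          rw [← pow_mul, ← pow_add, ← pow_add]
          congr 1
          ring
      _ ≤ Y ^ (⌈C⌉₊ + 5 * ⌈A⌉₊ + 26) := pow_le_pow_right₀ hY1 (by omega)
  have hX0 : 0 ≤ H / (κ0' / n) ^ 2 := by positivity
  refine HO_mono hind ?_ ?_
  · have h1 : Metric.ball (CX.of q.b : ℂ × (ℂ × ℂ) × (ℂ × ℂ)) (κ0' / C) ⊆ Om m s q κ0' κ0 := by
      refine (hcmp q κ0' κ0 κ0').2.1 ?_ a3
      exact div_le_self a2.le hC
    refine (Metric.ball_subset_ball hrad).trans (h1.trans (Om_mono q ?_ ?_))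
    · nlinarith
    · nlinarith
  · rw [pow_mul]
    exact pow_le_pow_left₀ hX0 hX j

end BE36
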