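import Pool.Agent.LibBE36.GE1
import Pool.Agent.LibBE36.G12
import Pool.Agent.LibBE36.G14
import Pool.Agent.LibBE36.N6
import Pool.Agent.LibBE36C.Defs

/-! Row BE36 GE2 (cites G02, G12, G14, N6, GE1; `LibBE36C/Defs`): the interface `BE36C.GI` of part C'. SHORT / MEDIUM, 40 min.
Plan. `EX_of`: `cx x = CX.of x` and `EX f x r B` is `HE f x r B` (unfold; `rfl` up to the shape). Each field: the corresponding family of
class `HB` with constant `A`: `HE .. (hc A t)⁻¹ (hc A t)`, then `HE_mono` with `hc A t ≤ Y ^ n` (`hc_le_pow`), `Y = 2 * exp (lQ i)` for `vec`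
(`HB_jf` for the compact set `closure D ∪ closedBall 0 1` at the points `(p, x, u)`, `‖u‖ ≤ eu u = 1`; `jf m s (p, z) = (0, gf (mm m s p) z)`:
fix the parameter (`HE_fix`) and take the second component, `HB_clm` with `ContinuousLinearMap.snd`), `cur` (`HB_curv`), `ex` (`h.hs`), with
`HE_fix`; `Y = exp (lj q) = exp (lQ q.i) * (2 + q.d m s)` for `d` (`HJx_ds`, `HE_fix`), `f` (`HJx` for `HAd_ff`); `u`: `uu_ext` at the index
`(i, p, x, x, g)`, whose `lh` is `lj q`, and `HE_diag`; `(N + 1) * (2 * exp (lj q)) ≤ X ^ 2`, `X = (N + 2) * Q * (2 + d) ≥ 4`. -/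

open MeasureTheory Set Filter Topology
open scoped ContDiff

namespace BE36

open BGS BR BE

variable {Γ : Type} [Group Γ] [MulAction Γ Pl] {D : Set Pl} {ι : Type} {m : Pl → Co} {a b : ℝ}
  {s : ι → ℝ × Pl → ℝ} {lQ : ι → ℝ}

private theorem GE2_snd {E F G EC FC GC : Type} [NormedAddCommGroup E] [NormedSpace ℝ E]
    [NormedAddCommGroup F] [NormedSpace ℝ F] [NormedAddCommGroup EC] [NormedSpace ℂ EC]
    [NormedAddCommGroup FC] [NormedSpace ℂ FC] [CX E EC] [CX F FC] [NormedAddCommGroup G]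
    [NormedSpace ℝ G] [NormedAddCommGroup GC] [NormedSpace ℂ GC] [CX G GC]
    {f : E → F × G} {x : E} {r B : ℝ} (hf : HE f x r B) : HE (fun y => (f y).2) x r B := by
  obtain ⟨g, h1, h2, h3⟩ := hf
  refine ⟨fun z => (g z).2, h1.snd, fun z hz => (norm_snd_le (g z)).trans (h2 z hz),
    fun y hy => ?_⟩
  exact congrArg Prod.snd (h3 y hy)

private theorem GE2_pow {E F EC FC : Type} [NormedAddCommGroup E] [NormedSpace ℝ E]
    [NormedAddCommGroup F] [NormedSpace ℝ F] [NormedAddCommGroup EC] [NormedSpace ℂ EC]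
    [NormedAddCommGroup FC] [NormedSpace ℂ FC] [CX E EC] [CX F FC] {f : E → F} {x : E}
    {A t Y : ℝ} (hA : 1 ≤ A) (hf : HE f x (hc A t)⁻¹ (hc A t)) (hY : hc A t ≤ Y) :
    HE f x Y⁻¹ Y :=
  HE_mono hf (inv_anti₀ (hc_pos hA) hY) hY

private theorem GE2_EV {V : Pl × Pl → Pl × Pl} {z : Pl × Pl} {r B : ℝ} (h : HE V z r B) :
    BE36C.EV V z r B := by
  obtain ⟨g, h1, h2, h3⟩ := h
  exact ⟨g, h1, h2, fun y hy => h3 y hy⟩

theorem EX_of {f : Pl → ℝ} {x : Pl} {r B : ℝ} (h : HE f x r B) : BE36C.EX f x r B := by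
  obtain ⟨g, h1, h2, h3⟩ := h
  exact ⟨g, h1, h2, fun y hy => h3 y hy⟩

private theorem GE2_d_nonneg (q : Jx ι ℝ Γ (closure D)) : 0 ≤ q.d m s := by
  show 0 ≤ eu (Vx (mm m (s q.i) q.p) q.x (q.g • q.x))
  exact Real.sqrt_nonneg _

private theorem GE2_lj (q : Jx ι ℝ Γ (closure D)) :
    Real.exp (lj m s lQ q) = Real.exp (lQ q.i) * (2 + q.d m s) := by
  have h1 : 0 ≤ q.d m s := GE2_d_nonneg q
  unfold lj
  rw [Real.exp_add, Real.exp_log (by linarith)]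

private theorem GE2_lj_nonneg (h : CH Γ D m a b s lQ) (q : Jx ι ℝ Γ (closure D)) :
    0 ≤ lj m s lQ q := by
  have h1 : 0 ≤ q.d m s := GE2_d_nonneg q
  have h2 : 0 ≤ Real.log (2 + q.d m s) := Real.log_nonneg (by linarith)
  have h3 := h.nonneg q.i
  show 0 ≤ lQ q.i + Real.log (2 + q.d m s)
  linarith

private theorem GE2_two (h : CH Γ D m a b s lQ) (q : Jx ι ℝ Γ (closure D)) :
    2 ≤ Real.exp (lQ q.i) * (2 + q.d m s) := by
  have h1 : 0 ≤ q.d m s := GE2_d_nonneg q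
  have h2 : 1 ≤ Real.exp (lQ q.i) := Real.one_le_exp (h.nonneg q.i)
  nlinarith

/-- The local fields. -/
private theorem GE2_loc (h : CH Γ D m a b s lQ) {F FC : Type} [NormedAddCommGroup F]
    [NormedSpace ℝ F] [NormedAddCommGroup FC] [NormedSpace ℂ FC] [CX F FC]
    {E EC : Type} [NormedAddCommGroup E] [NormedSpace ℝ E] [NormedAddCommGroup EC]
    [NormedSpace ℂ EC] [CX E EC] {K : Set Pl}
    {f : Lx ι ℝ K → ℝ × E → F} {x : Lx ι ℝ K → E}
    (hf : HB (fun q : Lx ι ℝ K => lx lQ q) f (fun q => (q.p, x q))) :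
    ∃ A : ℕ, ∀ q : Lx ι ℝ K, HE (fun z : E => f q (q.p, z)) (x q)
      ((2 * Real.exp (lQ q.i)) ^ A)⁻¹ ((2 * Real.exp (lQ q.i)) ^ A) := by
  obtain ⟨A, hA, h1⟩ := hf
  obtain ⟨n, hn⟩ := hc_le_pow hA
  refine ⟨n, fun q => ?_⟩
  have h2 : 1 ≤ Real.exp (lQ q.i) := Real.one_le_exp (h.nonneg q.i)
  have h3 : hc A (lQ q.i) ≤ (2 * Real.exp (lQ q.i)) ^ n :=
    hn n le_rfl (lQ q.i) (2 * Real.exp (lQ q.i)) (h.nonneg q.i) (by linarith) (by linarith)
  exact GE2_pow hA (HE_fix (inv_pos.2 (hc_pos hA)) (h1 q)) h3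

/-- The global fields. -/
private theorem GE2_glo (h : CH Γ D m a b s lQ) {F FC : Type} [NormedAddCommGroup F]
    [NormedSpace ℝ F] [NormedAddCommGroup FC] [NormedSpace ℂ FC] [CX F FC]
    {f : Jx ι ℝ Γ (closure D) → ℝ × Pl → F}
    (hf : HB (fun q : Jx ι ℝ Γ (closure D) => lj m s lQ q) f Jx.b) :
    ∃ A : ℕ, ∀ q : Jx ι ℝ Γ (closure D), HE (fun z : Pl => f q (q.p, z)) q.x
      ((Real.exp (lQ q.i) * (2 + q.d m s)) ^ A)⁻¹
      ((Real.exp (lQ q.i) * (2 + q.d m s)) ^ A) := by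
  obtain ⟨A, hA, h1⟩ := hf
  obtain ⟨n, hn⟩ := hc_le_pow hA
  refine ⟨n, fun q => ?_⟩
  have h3 : hc A (lj m s lQ q) ≤ (Real.exp (lQ q.i) * (2 + q.d m s)) ^ n :=
    hn n le_rfl (lj m s lQ q) _ (GE2_lj_nonneg h q) (GE2_two h q) (GE2_lj q).le
  exact GE2_pow hA (HE_fix (inv_pos.2 (hc_pos hA)) (h1 q)) h3

/-- **The interface of part C'.** -/
theorem CH.gi (h : CH Γ D m a b s lQ) : BE36C.GI Γ D m s (fun i => Real.exp (lQ i)) := by
  have hcD : IsCompact (closure D) := h.cf.hX.bdd.isCompact_closure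
  refine ⟨fun i => Real.one_le_exp (h.nonneg i), ?_, ?_, ?_, ?_, ?_, ?_⟩
  · -- the geodesic field
    have hK : IsCompact (closure D ∪ Metric.closedBall (0 : Pl) 1) :=
      hcD.union (isCompact_closedBall _ _)
    obtain ⟨A, hA⟩ := GE2_loc (E := Pl × Pl) h (f := fun q => jf m (s q.i))
      (x := fun q => (q.z, q.w)) (HB_jf h hK)
    refine ⟨A, fun i p hp x hx u hu => ?_⟩
    have hu' : u ∈ Metric.closedBall (0 : Pl) 1 := by
      rw [mem_closedBall_zero_iff, ← hu]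
      exact H1e_norm u
    have h1 := hA ⟨i, p, x, u, hp, Or.inl hx, Or.inr hu'⟩
    exact GE2_EV (GE2_snd h1)
  · obtain ⟨A, hA⟩ := GE2_loc (E := Pl) h
      (f := fun q (e : ℝ × Pl) => curv (mm m (s q.i) e.1) e.2) (x := fun q => q.z)
      (HB_curv h hcD)
    exact ⟨A, fun i p hp x hx => EX_of (hA ⟨i, p, x, x, hp, hx, hx⟩)⟩
  · obtain ⟨A, hA⟩ := GE2_loc (E := Pl) h (f := fun q => s q.i) (x := fun q => q.z)
      (h.hs _ hcD)
    exact ⟨A, fun i p hp x hx => EX_of (hA ⟨i, p, x, x, hp, hx, hx⟩)⟩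
  · obtain ⟨A, hA⟩ := GE2_glo h (HJx_ds h)
    exact ⟨A, fun q => EX_of (hA q)⟩
  · obtain ⟨A, hA⟩ := GE2_glo h (HJx h (HAd_ff h))
    exact ⟨A, fun q => EX_of (hA q)⟩
  · obtain ⟨A, hA⟩ := uu_ext h
    refine ⟨2 * A, fun N q j hj => ?_⟩
    have hd := GE2_d_nonneg (m := m) (s := s) q
    have hQ : 1 ≤ Real.exp (lQ q.i) := Real.one_le_exp (h.nonneg q.i)
    have h1 := hA N ⟨q.i, q.p, q.x, q.x, q.g, q.hp, q.hx, q.hx⟩ j hj
    have hlh : Real.exp (lh m s lQ (⟨q.i, q.p, q.x, q.x, q.g, q.hp, q.hx, q.hx⟩ : Ix ι ℝ Γ D)) =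
        Real.exp (lQ q.i) * (2 + q.d m s) := GE2_lj q
    rw [hlh] at h1
    set Q := Real.exp (lQ q.i) with hQdef
    set d := q.d m s with hddef
    have hN : (0 : ℝ) ≤ (N : ℝ) := Nat.cast_nonneg N
    have hQd : 2 ≤ Q * (2 + d) := by nlinarith
    have hY0 : 0 < ((N : ℝ) + 1) * (2 * (Q * (2 + d))) := by positivity
    have hX4 : 4 ≤ ((N : ℝ) + 2) * Q * (2 + d) := by nlinarith
    have hYX : ((N : ℝ) + 1) * (2 * (Q * (2 + d))) ≤ (((N : ℝ) + 2) * Q * (2 + d)) ^ 2 := by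
      have e1 : ((N : ℝ) + 1) * (2 * (Q * (2 + d))) ≤ 2 * (((N : ℝ) + 2) * Q * (2 + d)) := by
        nlinarith
      nlinarith
    have h2 := HE_diag (inv_pos.2 (pow_pos hY0 A)) h1
    refine EX_of (HE_mono h2 ?_ ?_)
    · refine inv_anti₀ (pow_pos hY0 A) ?_
      rw [pow_mul]
      exact pow_le_pow_left₀ hY0.le hYX A
    · calc (((N : ℝ) + 1) * (2 * (Q * (2 + d)))) ^ (A * j)
          ≤ ((((N : ℝ) + 2) * Q * (2 + d)) ^ 2) ^ (A * j) := pow_le_pow_left₀ hY0.le hYX _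
        _ = (((N : ℝ) + 2) * Q * (2 + d)) ^ (2 * (A * j)) := by rw [← pow_mul]
        _ ≤ (((N : ℝ) + 2) * Q * (2 + d)) ^ (2 * A * (j + 1)) := by
            refine pow_le_pow_right₀ (by linarith) ?_
            nlinarith

end BE36
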