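import Pool.Agent.LibBE36.GE1
import Pool.Agent.LibBE36.G12
import Pool.Agent.LibBE36.G14
import Pool.Agent.LibBE36.N6
import Pool.Agent.LibBE36D.Defs

/-! Row BE36 GE3 (cites G12, G14, N6, GE1; `LibBE36D/Defs`, `HX`; `LibBE99/U1`): the interface `BD36.PX` of part D'. MEDIUM, 50 min.
Plan. `HX_of`: `HE f 0 r B` for `f : ℝ → ℝ` gives `HX r B (fun t => (f t : ℂ))`. First `x ∈ closure D`, the index `q = (i, 0, g, x) : Jx`, resp.
`(i, 0, x, x, g) : Ix`, scale `exp (lh q) = exp (lQ i) * (2 + d)`, `d = ds (mm m (s i) 0) x (g • x)`; `Y = (N + 1) * exp (lQ i) * (2 + d) ≥ 2`,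
`M = (A Y) ^ A ≥ Y ^ A`. `px_ds`: `HJx_ds` and `HE_fix`-like slice in the parameter (`HE_slice` with `t ↦ (t, x)`), `hc_le_pow`. `px_uu`:
`UU .. = exp (-(ff / 2)) * uu` (`uu_UU`); `HAd_ff`, `HB_exp` (`ff ≥ 0`: `ff_nonneg`: the value of `exp (-(ff / 2))` is at most `1`), `HJx`, `HE_par`;
`uu_ext` for `uu`: radius `(Y' ^ A1)⁻¹`, bound `Y' ^ (A1 j)`, `Y' = (N + 1) * (2 * exp (lh q)) ≤ Y ^ 2`; the product of the two
extensions on the smaller ball. `px_s`: `h.hs` for `K = closure D` (`HE_slice`). Then `A` is the maximum of the three numbers (all the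
inequalities are monotone in `A`: `(A Y) ^ A ≥ Y ^ A`). General `x`: `β • x ∈ closure D` (`h.cf.hX.orbit`), `g' = β g β⁻¹`:
`ds_deck` (`LibBR73/AN0`), `UU_deck` (`LibBE66/UD` or `LibBE99/U1`), `h.cf.inv`. -/

open MeasureTheory Set Filter Topology
open scoped ContDiff

namespace BE36

open BGS BR BE

variable {Γ : Type} [Group Γ] [MulAction Γ Pl] {D : Set Pl} {ι : Type} {m : Pl → Co} {a b : ℝ}
  {s : ι → ℝ × Pl → ℝ} {lQ : ι → ℝ}

theorem HX_of {f : ℝ → ℝ} {r B : ℝ} (h : HE f 0 r B) : BD36.HX r B (fun t => ((f t : ℝ) : ℂ)) := by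
  obtain ⟨g, h1, h2, h3⟩ := h
  have h0 : (CX.of (0 : ℝ) : ℂ) = 0 := Complex.ofReal_zero
  rw [h0] at h1 h2 h3
  refine ⟨g, h1, h2, fun t ht => h3 t ?_⟩
  rw [mem_ball_zero_iff]
  exact (Complex.norm_real t).trans_lt ht

theorem HX_mono {f : ℝ → ℂ} {r r' B B' : ℝ} (h : BD36.HX r B f) (hr : r' ≤ r) (hB : B ≤ B') :
    BD36.HX r' B' f := by
  obtain ⟨g, h1, h2, h3⟩ := h
  exact ⟨g, h1.mono (Metric.ball_subset_ball hr),
    fun z hz => (h2 z (Metric.ball_subset_ball hr hz)).trans hB, fun t ht => h3 t (ht.trans_le hr)⟩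

private theorem GE3_mul {f g : ℝ → ℝ} {r B B' : ℝ} (hB : 0 ≤ B)
    (hf : HE f 0 r B) (hg : HE g 0 r B') : HE (fun t => f t * g t) 0 r (B * B') := by
  obtain ⟨F, h1, h2, h3⟩ := hf
  obtain ⟨G, k1, k2, k3⟩ := hg
  refine ⟨fun z => F z * G z, h1.mul k1, fun z hz => ?_, fun t ht => ?_⟩
  · rw [norm_mul]
    exact mul_le_mul (h2 z hz) (k2 z hz) (norm_nonneg _) hB
  · show F (CX.of t) * G (CX.of t) = ((f t * g t : ℝ) : ℂ)
    rw [h3 t ht, k3 t ht]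
    exact (Complex.ofReal_mul _ _).symm

private theorem GE3_slice {E EC G GC : Type} [NormedAddCommGroup E] [NormedSpace ℝ E]
    [NormedAddCommGroup EC] [NormedSpace ℂ EC] [CX E EC] [NormedAddCommGroup G] [NormedSpace ℝ G]
    [NormedAddCommGroup GC] [NormedSpace ℂ GC] [CX G GC] {f : ℝ × E → G} {x : E} {r B : ℝ}
    (hf : HE f (0, x) r B) : HE (fun t : ℝ => f (t, x)) 0 r B := by
  refine HE_slice (L := fun t : ℝ => ((t, x) : ℝ × E)) (Lc := fun z : ℂ => ((z, CX.of x) : ℂ × EC))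
    (x := (0 : ℝ)) ?_ (fun y => rfl) ?_ hf
  · exact differentiable_id.prodMk (differentiable_const _)
  · intro z hz
    rw [Metric.mem_ball, Prod.dist_eq, max_lt_iff]
    have hr : 0 < r := Metric.pos_of_mem_ball hz
    exact ⟨hz, (dist_self _).trans_lt hr⟩

private theorem GE3_ds0 {M : Pl → Co} {x y : Pl} : 0 ≤ ds M x y := Real.sqrt_nonneg _

theorem px_ds (h : CH Γ D m a b s lQ) : ∃ A : ℕ, ∀ (i : ι), ∀ x ∈ closure D, ∀ g : Γ, g ≠ 1 →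
    HE (fun p : ℝ => ds (mm m (s i) p) x (g • x)) 0
      ((Real.exp (lQ i) * (2 + ds (mm m (s i) 0) x (g • x))) ^ A)⁻¹
      ((Real.exp (lQ i) * (2 + ds (mm m (s i) 0) x (g • x))) ^ A) := by
  obtain ⟨A, hA, h1⟩ := HJx_ds h
  obtain ⟨n, hn⟩ := hc_le_pow hA
  refine ⟨n, fun i x hx g hg => ?_⟩
  have h2 : HE (fun e : ℝ × Pl => ds (mm m (s i) e.1) e.2 (g • e.2)) (0, x)
      (hc A (lQ i + Real.log (2 + ds (mm m (s i) 0) x (g • x))))⁻¹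
      (hc A (lQ i + Real.log (2 + ds (mm m (s i) 0) x (g • x)))) :=
    h1 ⟨i, 0, g, x, by simp, hg, hx⟩
  have hd : 0 ≤ ds (mm m (s i) 0) x (g • x) := GE3_ds0
  have hQ : 1 ≤ Real.exp (lQ i) := Real.one_le_exp (h.nonneg i)
  have h3 : hc A (lQ i + Real.log (2 + ds (mm m (s i) 0) x (g • x))) ≤
      (Real.exp (lQ i) * (2 + ds (mm m (s i) 0) x (g • x))) ^ n := by
    refine hn n le_rfl _ _ ?_ ?_ ?_
    · have := Real.log_nonneg (x := 2 + ds (mm m (s i) 0) x (g • x)) (by linarith)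
      have := h.nonneg i
      linarith
    · nlinarith
    · rw [Real.exp_add, Real.exp_log (by linarith)]
  have h4 : HE (fun e : ℝ × Pl => ds (mm m (s i) e.1) e.2 (g • e.2)) (0, x)
      ((Real.exp (lQ i) * (2 + ds (mm m (s i) 0) x (g • x))) ^ n)⁻¹
      ((Real.exp (lQ i) * (2 + ds (mm m (s i) 0) x (g • x))) ^ n) :=
    HE_mono h2 (inv_anti₀ (hc_pos hA) h3) h3
  exact GE3_slice (f := fun e : ℝ × Pl => ds (mm m (s i) e.1) e.2 (g • e.2)) h4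

theorem px_s (h : CH Γ D m a b s lQ) : ∃ A : ℕ, ∀ (i : ι), ∀ x ∈ closure D,
    HE (fun p : ℝ => s i (p, x)) 0 ((2 * Real.exp (lQ i)) ^ A)⁻¹ ((2 * Real.exp (lQ i)) ^ A) := by
  obtain ⟨A, hA, h1⟩ := h.hs (closure D) h.cf.hX.bdd.isCompact_closure
  obtain ⟨n, hn⟩ := hc_le_pow hA
  refine ⟨n, fun i x hx => ?_⟩
  have h2 : HE (s i) (0, x) (hc A (lQ i))⁻¹ (hc A (lQ i)) := h1 ⟨i, 0, x, x, by simp, hx, hx⟩
  have hQ : 1 ≤ Real.exp (lQ i) := Real.one_le_exp (h.nonneg i)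
  have h3 : hc A (lQ i) ≤ (2 * Real.exp (lQ i)) ^ n :=
    hn n le_rfl _ _ (h.nonneg i) (by linarith) (by linarith)
  have h4 : HE (s i) (0, x) ((2 * Real.exp (lQ i)) ^ n)⁻¹ ((2 * Real.exp (lQ i)) ^ n) :=
    HE_mono h2 (inv_anti₀ (hc_pos hA) h3) h3
  exact GE3_slice (f := s i) h4

theorem px_uu (h : CH Γ D m a b s lQ) : ∃ A : ℕ, ∀ (i : ι), ∀ x ∈ closure D, ∀ (g : Γ) (N : ℕ),
    ∀ j ≤ N, HE (fun p : ℝ => UU (Gx (mm m (s i) p) x) j (Vx (mm m (s i) p) x (g • x))) 0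
      ((((N : ℝ) + 1) * (Real.exp (lQ i) * (2 + ds (mm m (s i) 0) x (g • x)))) ^ A)⁻¹
      ((((N : ℝ) + 1) * (Real.exp (lQ i) * (2 + ds (mm m (s i) 0) x (g • x)))) ^
        (A * (j + 1))) := by
  have hlh : ∀ q : Ix ι ℝ Γ D, 0 ≤ lh m s lQ q := by
    intro q
    have h1 : 0 ≤ q.d m s := Real.sqrt_nonneg _
    have h2 : 0 ≤ Real.log (2 + q.d m s) := Real.log_nonneg (by linarith)
    have h3 := h.nonneg q.i
    show 0 ≤ lQ q.i + Real.log (2 + q.d m s)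
    linarith
  have hff : HB (fun q : Ix ι ℝ Γ D => lh m s lQ q)
      (fun q (e : ℝ × Pl × Pl) => Real.exp (-(ff m (s q.i) (e.1, e.2.1, q.g • e.2.2) / 2)))
      Ix.b := by
    have h1 : HB (fun q : Ix ι ℝ Γ D => lh m s lQ q)
        (fun q (e : ℝ × Pl × Pl) => -(ff m (s q.i) (e.1, e.2.1, q.g • e.2.2) / 2)) Ix.b := by
      have h2 := HB_clm hlh (HAd_ff h) ((-(1 / 2) : ℝ) • ContinuousLinearMap.id ℝ ℝ)
      refine HB_congr h2 fun q e => ?_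
      show (-(1 / 2) : ℝ) * ff m (s q.i) (e.1, e.2.1, q.g • e.2.2) = _
      ring
    refine HB_exp hlh h1 le_rfl fun q => ?_
    have h3 : 0 ≤ ff m (s q.i) ((Ix.b q).1, (Ix.b q).2.1, q.g • (Ix.b q).2.2) :=
      ff_nonneg h.cf q.i _
    refine le_trans (Real.exp_le_one_iff.2 ?_) (hc_one le_rfl (hlh q))
    linarith
  obtain ⟨A, hA, h1⟩ := hff
  obtain ⟨n, hn⟩ := hc_le_pow hA
  obtain ⟨A2, h2⟩ := uu_ext h
  refine ⟨max n (2 * A2), fun i x hx g N j hj => ?_⟩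
  have hd : 0 ≤ ds (mm m (s i) 0) x (g • x) := GE3_ds0
  have hQ : 1 ≤ Real.exp (lQ i) := Real.one_le_exp (h.nonneg i)
  have hlq : lh m s lQ ⟨i, 0, x, x, g, by simp, hx, hx⟩ =
      lQ i + Real.log (2 + ds (mm m (s i) 0) x (g • x)) := rfl
  have hexp : Real.exp (lh m s lQ ⟨i, 0, x, x, g, by simp, hx, hx⟩) =
      Real.exp (lQ i) * (2 + ds (mm m (s i) 0) x (g • x)) := by
    rw [hlq, Real.exp_add, Real.exp_log (by linarith)]
  have h3 : HE (fun e : ℝ × Pl × Pl => Real.exp (-(ff m (s i) (e.1, e.2.1, g • e.2.2) / 2)))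
      (0, x, x) (hc A (lh m s lQ ⟨i, 0, x, x, g, by simp, hx, hx⟩))⁻¹
      (hc A (lh m s lQ ⟨i, 0, x, x, g, by simp, hx, hx⟩)) := h1 ⟨i, 0, x, x, g, by simp, hx, hx⟩
  have h4 : HE (fun e : ℝ × Pl × Pl => uu m (s i) j (e.1, e.2.1, g • e.2.2)) (0, x, x)
      ((((N : ℝ) + 1) * (2 * Real.exp (lh m s lQ ⟨i, 0, x, x, g, by simp, hx, hx⟩))) ^ A2)⁻¹
      ((((N : ℝ) + 1) * (2 * Real.exp (lh m s lQ ⟨i, 0, x, x, g, by simp, hx, hx⟩))) ^
        (A2 * j)) := h2 N ⟨i, 0, x, x, g, by simp, hx, hx⟩ j hj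
  rw [hexp] at h4
  have hl0 := hlh ⟨i, 0, x, x, g, by simp, hx, hx⟩
  generalize lh m s lQ ⟨i, 0, x, x, g, by simp, hx, hx⟩ = l0 at h3 hexp hl0
  set Z : ℝ := Real.exp (lQ i) * (2 + ds (mm m (s i) 0) x (g • x)) with hZ
  have hZ2 : 2 ≤ Z := by
    rw [hZ]
    nlinarith
  have hN : (0 : ℝ) ≤ N := Nat.cast_nonneg N
  have hY2 : 2 ≤ ((N : ℝ) + 1) * Z := by nlinarith
  have hY1 : 1 ≤ ((N : ℝ) + 1) * Z := by linarith
  have hZY : Z ≤ ((N : ℝ) + 1) * Z := by nlinarith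
  have h5 : hc A l0 ≤ (((N : ℝ) + 1) * Z) ^ n := hn n le_rfl _ _ hl0 hY2 (hexp.le.trans hZY)
  have hY0 : 0 < ((N : ℝ) + 1) * Z := by linarith
  have h2Z : ((N : ℝ) + 1) * (2 * Z) ≤ (((N : ℝ) + 1) * Z) ^ 2 := by nlinarith
  have h2Z0 : 0 < ((N : ℝ) + 1) * (2 * Z) := by nlinarith
  have hr1 : ((((N : ℝ) + 1) * Z) ^ (max n (2 * A2)))⁻¹ ≤ (hc A l0)⁻¹ :=
    inv_anti₀ (hc_pos hA) (h5.trans (pow_le_pow_right₀ hY1 (le_max_left _ _)))
  have hr2 : ((((N : ℝ) + 1) * Z) ^ (max n (2 * A2)))⁻¹ ≤ ((((N : ℝ) + 1) * (2 * Z)) ^ A2)⁻¹ := by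
    refine inv_anti₀ (pow_pos h2Z0 _) ?_
    calc (((N : ℝ) + 1) * (2 * Z)) ^ A2 ≤ ((((N : ℝ) + 1) * Z) ^ 2) ^ A2 :=
          pow_le_pow_left₀ h2Z0.le h2Z _
      _ = (((N : ℝ) + 1) * Z) ^ (2 * A2) := (pow_mul _ _ _).symm
      _ ≤ _ := pow_le_pow_right₀ hY1 (le_max_right _ _)
  have h6 : HE (fun p : ℝ => Real.exp (-(ff m (s i) (p, x, g • x) / 2))) 0
      ((((N : ℝ) + 1) * Z) ^ (max n (2 * A2)))⁻¹ ((((N : ℝ) + 1) * Z) ^ n) :=
    GE3_slice (f := fun e : ℝ × Pl × Pl => Real.exp (-(ff m (s i) (e.1, e.2.1, g • e.2.2) / 2)))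
      (x := ((x, x) : Pl × Pl)) (HE_mono h3 hr1 h5)
  have h7 : HE (fun p : ℝ => uu m (s i) j (p, x, g • x)) 0
      ((((N : ℝ) + 1) * Z) ^ (max n (2 * A2)))⁻¹ ((((N : ℝ) + 1) * (2 * Z)) ^ (A2 * j)) :=
    GE3_slice (f := fun e : ℝ × Pl × Pl => uu m (s i) j (e.1, e.2.1, g • e.2.2))
      (x := ((x, x) : Pl × Pl)) (HE_mono h4 hr2 le_rfl)
  have h8 := GE3_mul (pow_pos hY0 n).le h6 h7
  have h9 : (((N : ℝ) + 1) * Z) ^ n * (((N : ℝ) + 1) * (2 * Z)) ^ (A2 * j) ≤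
      (((N : ℝ) + 1) * Z) ^ (max n (2 * A2) * (j + 1)) := by
    calc (((N : ℝ) + 1) * Z) ^ n * (((N : ℝ) + 1) * (2 * Z)) ^ (A2 * j)
        ≤ (((N : ℝ) + 1) * Z) ^ n * ((((N : ℝ) + 1) * Z) ^ 2) ^ (A2 * j) :=
          mul_le_mul_of_nonneg_left (pow_le_pow_left₀ h2Z0.le h2Z _) (pow_pos hY0 n).le
      _ = (((N : ℝ) + 1) * Z) ^ (n + 2 * (A2 * j)) := by rw [← pow_mul, ← pow_add]
      _ ≤ _ := by
        refine pow_le_pow_right₀ hY1 ?_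
        have e1 : n ≤ max n (2 * A2) := le_max_left _ _
        have e2 : 2 * A2 ≤ max n (2 * A2) := le_max_right _ _
        calc n + 2 * (A2 * j) = n + (2 * A2) * j := by ring
          _ ≤ max n (2 * A2) + max n (2 * A2) * j := Nat.add_le_add e1 (Nat.mul_le_mul_right j e2)
          _ = max n (2 * A2) * (j + 1) := by ring
  refine HO_congr (HE_mono h8 le_rfl h9) fun p _ => ?_
  have h10 := uu_UU h.cf i j (p, x, g • x)
  exact h10.symm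

/-- **The interface of part D'.** -/
theorem CH.px (h : CH Γ D m a b s lQ) : BD36.PX Γ m s (fun i => Real.exp (lQ i)) := by
  obtain ⟨A1, h1⟩ := px_ds h
  obtain ⟨A2, h2⟩ := px_uu h
  obtain ⟨A3, h3⟩ := px_s h
  refine ⟨A1 + A2 + A3 + 1, by omega, fun i x g N M hg hM => ?_⟩
  obtain ⟨β, hβ, -⟩ := h.cf.hX.orbit x
  have hβc : β • x ∈ closure D := subset_closure hβ
  have hconj : (β * g * β⁻¹) • (β • x) = β • (g • x) := by
    rw [mul_smul, mul_smul, inv_smul_smul]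
  have hg' : β * g * β⁻¹ ≠ 1 := by
    intro h0
    apply hg
    have h00 : β * g = β := by
      rw [mul_inv_eq_one] at h0
      exact h0
    exact mul_eq_left.1 h00
  have hds : ∀ p : ℝ, ds (mm m (s i) p) (β • x) ((β * g * β⁻¹) • (β • x)) =
      ds (mm m (s i) p) x (g • x) := by
    intro p
    rw [hconj]
    exact (ds_deck h.cf.hX h.cf.hO (hm_mm h.cf i p) β x (g • x)).1
  have hUU : ∀ (j : ℕ) (p : ℝ), UU (Gx (mm m (s i) p) (β • x)) j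
      (Vx (mm m (s i) p) (β • x) ((β * g * β⁻¹) • (β • x))) =
      UU (Gx (mm m (s i) p) x) j (Vx (mm m (s i) p) x (g • x)) := by
    intro j p
    rw [hconj]
    exact BE66.UU_deck h.cf.hX h.cf.hO (hm_mm h.cf i p) β x (g • x) j
  have hs : ∀ p : ℝ, s i (p, β • x) = s i (p, x) := fun p => h.cf.inv i p β x
  have k1 := h1 i (β • x) hβc (β * g * β⁻¹) hg'
  have k2 := h2 i (β • x) hβc (β * g * β⁻¹) N
  have k3 := h3 i (β • x) hβc
  simp only [hds, hUU, hs] at k1 k2 k3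
  have hd : 0 ≤ ds (mm m (s i) 0) x (g • x) := GE3_ds0
  have hQ : 1 ≤ Real.exp (lQ i) := Real.one_le_exp (h.nonneg i)
  set Z : ℝ := Real.exp (lQ i) * (2 + ds (mm m (s i) 0) x (g • x)) with hZ
  have hZ2 : 2 ≤ Z := by
    rw [hZ]
    nlinarith
  have hQZ : 2 * Real.exp (lQ i) ≤ Z := by
    rw [hZ]
    nlinarith
  have hN : (0 : ℝ) ≤ N := Nat.cast_nonneg N
  have hY1 : 1 ≤ ((N : ℝ) + 1) * Z := by nlinarith
  have hZY : Z ≤ ((N : ℝ) + 1) * Z := by nlinarith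
  have hZ0 : 0 < Z := by linarith
  have hMY : ∀ k ≤ A1 + A2 + A3 + 1, (((N : ℝ) + 1) * Z) ^ k ≤ M := by
    intro k hk
    have e1 : M = (((A1 + A2 + A3 + 1 : ℕ) : ℝ) * (((N : ℝ) + 1) * Z)) ^ (A1 + A2 + A3 + 1) := by
      rw [hM, hZ]
      unfold BD36.hM
      congr 2
      ring
    have e2 : (1 : ℝ) ≤ ((A1 + A2 + A3 + 1 : ℕ) : ℝ) := by
      exact_mod_cast Nat.le_add_left 1 _
    rw [e1]
    calc (((N : ℝ) + 1) * Z) ^ k ≤ (((N : ℝ) + 1) * Z) ^ (A1 + A2 + A3 + 1) :=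
          pow_le_pow_right₀ hY1 hk
      _ ≤ _ := pow_le_pow_left₀ (by linarith) (by nlinarith) _
  have hM1 : 1 ≤ M := by simpa using hMY 0 (Nat.zero_le _)
  have hZp : ∀ k ≤ A1 + A2 + A3 + 1, Z ^ k ≤ M := fun k hk =>
    (pow_le_pow_left₀ hZ0.le hZY k).trans (hMY k hk)
  refine ⟨?_, fun j hj => ?_, ?_⟩
  · have e1 : Z ^ A1 ≤ M := hZp A1 (by omega)
    exact HX_mono (HX_of k1) (inv_anti₀ (pow_pos hZ0 _) e1) e1
  · have e1 : (((N : ℝ) + 1) * Z) ^ A2 ≤ M := hMY A2 (by omega)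
    refine HX_mono (HX_of (k2 j hj)) (inv_anti₀ (pow_pos (by linarith) _) e1) ?_
    rw [pow_mul]
    exact pow_le_pow_left₀ (pow_nonneg (by linarith) _) e1 _
  · have e1 : (2 * Real.exp (lQ i)) ^ A3 ≤ M :=
      (pow_le_pow_left₀ (by positivity) hQZ A3).trans (hZp A3 (by omega))
    exact HX_mono (HX_of k3) (inv_anti₀ (by positivity) e1) e1

end BE36
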