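import Pool.Agent.LibBE36.G13
import Pool.Agent.LibBE36.N6

/-! Row BE36 GE4 (cites G07, G13, K02, K03, N6): sequences of functions with explicit dependence on the number. MEDIUM, 50 min.
Plan. `lN ≥ 0`; `lh ≤ lN`. `HN_up`: the constant factor `exp (-((A1 - A0) (N + 1) lN)) ≤ 1` (`HB_const`, `HB_mul`, `Real.exp_add`); `HB_lN`: a
family of class `HB` for `lh` is one for `lN` (`HB_pull` along `t ↦ t.2`, `HB_mono`). `HN_mul`: `HB_mul` with it. `HN_add`: `HN_up` to the maximum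
of the two exponents, `HB_add`. `HN_uu`: `uu_ext` with `j = N`: on the ball of radius `(Y ^ A)⁻¹`, bounded by `Y ^ (A N)`,
`Y = (N + 1) * (2 * exp (lh)) ≤ exp (2 lN)` (`exp (lh) ≥ 2`), so with the exponent `A0 = 2 A` the bound is `1`; radius `≥ exp (-(2 A lN))`. `HN_TT`: `TT_form` (row
G13) for the smooth function `Q N i`; `u e = κ * Q N i (e.1, e.2.1, g • e.2.2)`, `κ = exp (-(A0 (N + 1) lN))`, is of class `HB`, so
`d1 u, d2 u, d1 (d1 u), ..` are (`HB_fderiv`), and `d1 (κ * v) = κ * d1 v` for smooth `v` (`fderiv_const_mul`); `HB_mul`, `HB_add`, `HB_congr`.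
`HN_val`: the value at the centre: `|κ * Q| ≤ hc A (lN)`, `hc A (lN) * exp (A0 (N + 1) lN) ≤ (exp lN) ^ (n (N + 1))` with `exp lN ≥ 2` as in `hc_le_pow`. -/

open MeasureTheory Set Filter Topology
open scoped ContDiff

namespace BE36

open BGS BR BE

variable {Γ : Type} [Group Γ] [MulAction Γ Pl] {D : Set Pl} {ι : Type} {m : Pl → Co} {a b : ℝ}
  {s : ι → ℝ × Pl → ℝ} {lQ : ι → ℝ}

/-- The scale: `exp (lN (N, q)) = (N + 1) Q (2 + d)`. -/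
noncomputable def lN (m : Pl → Co) (s : ι → ℝ × Pl → ℝ) (lQ : ι → ℝ)
    (t : ℕ × Ix ι ℝ Γ D) : ℝ := Real.log ((t.1 : ℝ) + 1) + lh m s lQ t.2

/-- Sequences of functions `Q N i (p, x, y)`, of size `exp (A0 (N + 1) lN)`. -/
def HN (Γ : Type) [Group Γ] [MulAction Γ Pl] (D : Set Pl) (m : Pl → Co) (s : ι → ℝ × Pl → ℝ)
    (lQ : ι → ℝ) (Q : ℕ → ι → ℝ × Pl × Pl → ℝ) : Prop :=
  ∃ A0 : ℝ, 0 ≤ A0 ∧ HB (fun t : ℕ × Ix ι ℝ Γ D => lN m s lQ t)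
    (fun t (e : ℝ × Pl × Pl) => Real.exp (-(A0 * ((t.1 : ℝ) + 1) * lN m s lQ t)) *
      Q t.1 t.2.i (e.1, e.2.1, t.2.g • e.2.2)) (fun t => t.2.b)

theorem GE4_d_nonneg (q : Ix ι ℝ Γ D) : 0 ≤ q.d m s := Real.sqrt_nonneg _

theorem GE4_ll_nonneg (q : Ix ι ℝ Γ D) : 0 ≤ ll m s q := by
  unfold ll
  exact Real.log_nonneg (by linarith [GE4_d_nonneg (m := m) (s := s) q])

theorem GE4_lh_nonneg (h : CH Γ D m a b s lQ) (q : Ix ι ℝ Γ D) : 0 ≤ lh m s lQ q := by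
  unfold lh
  exact add_nonneg (h.nonneg _) (GE4_ll_nonneg q)

theorem GE4_lh_exp (q : Ix ι ℝ Γ D) :
    Real.exp (lh m s lQ q) = Real.exp (lQ q.i) * (2 + q.d m s) := by
  unfold lh ll
  rw [Real.exp_add, Real.exp_log (by linarith [GE4_d_nonneg (m := m) (s := s) q])]

theorem GE4_log_nonneg (N : ℕ) : 0 ≤ Real.log ((N : ℝ) + 1) :=
  Real.log_nonneg (by linarith [(Nat.cast_nonneg N : (0 : ℝ) ≤ N)])

theorem GE4_le (t : ℕ × Ix ι ℝ Γ D) : lh m s lQ t.2 ≤ lN m s lQ t := by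
  unfold lN
  linarith [GE4_log_nonneg t.1]

theorem GE4_exp (t : ℕ × Ix ι ℝ Γ D) :
    Real.exp (lN m s lQ t) = ((t.1 : ℝ) + 1) * Real.exp (lh m s lQ t.2) := by
  unfold lN
  rw [Real.exp_add, Real.exp_log (by positivity)]

theorem lN_nonneg (h : CH Γ D m a b s lQ) (t : ℕ × Ix ι ℝ Γ D) : 0 ≤ lN m s lQ t :=
  (GE4_lh_nonneg h t.2).trans (GE4_le t)

theorem lN_exp (h : CH Γ D m a b s lQ) (t : ℕ × Ix ι ℝ Γ D) :
    Real.exp (lN m s lQ t) = ((t.1 : ℝ) + 1) * (Real.exp (lQ t.2.i) * (2 + t.2.d m s)) ∧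
      2 ≤ Real.exp (lN m s lQ t) := by
  have e1 : Real.exp (lN m s lQ t) = ((t.1 : ℝ) + 1) * (Real.exp (lQ t.2.i) * (2 + t.2.d m s)) := by
    rw [GE4_exp, GE4_lh_exp]
  refine ⟨e1, ?_⟩
  rw [e1]
  have h1 : (1 : ℝ) ≤ (t.1 : ℝ) + 1 := by linarith [(Nat.cast_nonneg t.1 : (0 : ℝ) ≤ t.1)]
  have h2 : 1 ≤ Real.exp (lQ t.2.i) := Real.one_le_exp (h.nonneg _)
  have h3 : 2 ≤ 2 + t.2.d m s := by linarith [GE4_d_nonneg (m := m) (s := s) t.2]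
  have h4 : 2 ≤ Real.exp (lQ t.2.i) * (2 + t.2.d m s) := by nlinarith
  nlinarith

/-- A smaller constant factor. -/
theorem GE4_up (h : CH Γ D m a b s lQ) {Q : ℕ → ι → ℝ × Pl × Pl → ℝ} {A0 A1 : ℝ} (hA : A0 ≤ A1)
    (hQ : HB (fun t : ℕ × Ix ι ℝ Γ D => lN m s lQ t)
      (fun t (e : ℝ × Pl × Pl) => Real.exp (-(A0 * ((t.1 : ℝ) + 1) * lN m s lQ t)) *
        Q t.1 t.2.i (e.1, e.2.1, t.2.g • e.2.2)) (fun t => t.2.b)) :
    HB (fun t : ℕ × Ix ι ℝ Γ D => lN m s lQ t)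
      (fun t (e : ℝ × Pl × Pl) => Real.exp (-(A1 * ((t.1 : ℝ) + 1) * lN m s lQ t)) *
        Q t.1 t.2.i (e.1, e.2.1, t.2.g • e.2.2)) (fun t => t.2.b) := by
  have hℓ : ∀ t : ℕ × Ix ι ℝ Γ D, 0 ≤ lN m s lQ t := lN_nonneg h
  have h1 : HB (fun t : ℕ × Ix ι ℝ Γ D => lN m s lQ t) (fun t (_ : ℝ × Pl × Pl) =>
      Real.exp (-((A1 - A0) * ((t.1 : ℝ) + 1) * lN m s lQ t))) (fun t => t.2.b) := by
    refine HB_const hℓ (A := 1) le_rfl fun t => ?_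
    refine le_trans ?_ (hc_one le_rfl (hℓ t))
    rw [Real.norm_of_nonneg (Real.exp_pos _).le, Real.exp_le_one_iff]
    have h2 : 0 ≤ (A1 - A0) * ((t.1 : ℝ) + 1) * lN m s lQ t :=
      mul_nonneg (mul_nonneg (by linarith) (by positivity)) (hℓ t)
    linarith
  refine HB_congr (HB_mul hℓ h1 hQ) fun t e => ?_
  rw [← mul_assoc, ← Real.exp_add]
  congr 2
  ring

/-- Families for `lh` are families for `lN`. -/
theorem GE4_lift (h : CH Γ D m a b s lQ) {f : Ix ι ℝ Γ D → ℝ × Pl × Pl → ℝ}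
    (hf : HB (fun q : Ix ι ℝ Γ D => lh m s lQ q) f Ix.b) :
    HB (fun t : ℕ × Ix ι ℝ Γ D => lN m s lQ t) (fun t => f t.2) (fun t => t.2.b) :=
  HB_mono (ℓ := fun t : ℕ × Ix ι ℝ Γ D => lh m s lQ t.2) (fun t => GE4_lh_nonneg h t.2) (fun t => GE4_le t)
    (HB_pull hf (fun t : ℕ × Ix ι ℝ Γ D => t.2))

theorem HN_mul (h : CH Γ D m a b s lQ) {R : ι → ℝ × Pl × Pl → ℝ} (hR : HAd Γ D m s lQ R)
    {Q : ℕ → ι → ℝ × Pl × Pl → ℝ} (hQ : HN Γ D m s lQ Q) :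
    HN Γ D m s lQ (fun N i e => R i e * Q N i e) := by
  obtain ⟨A0, hA0, hQ⟩ := hQ
  refine ⟨A0, hA0, ?_⟩
  refine HB_congr (HB_mul (lN_nonneg h) (GE4_lift h hR) hQ) fun t e => ?_
  ring

theorem HN_add (h : CH Γ D m a b s lQ) {Q R : ℕ → ι → ℝ × Pl × Pl → ℝ}
    (hQ : HN Γ D m s lQ Q) (hR : HN Γ D m s lQ R) :
    HN Γ D m s lQ (fun N i e => Q N i e + R N i e) := by
  obtain ⟨A0, hA0, hQ⟩ := hQ
  obtain ⟨A1, hA1, hR⟩ := hR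
  refine ⟨max A0 A1, hA0.trans (le_max_left _ _), ?_⟩
  refine HB_congr (HB_add (lN_nonneg h) (GE4_up h (le_max_left A0 A1) hQ)
    (GE4_up h (le_max_right A0 A1) hR)) fun t e => ?_
  ring

theorem GE4_HE_mul {f : ℝ × Pl × Pl → ℝ} {a : ℝ × Pl × Pl} {r B c : ℝ} (hc : 0 ≤ c)
    (hf : HE f a r B) : HE (fun e => c * f e) a r (c * B) := by
  obtain ⟨g, h1, h2, h3⟩ := hf
  refine ⟨fun z => (c : ℂ) * g z, h1.const_mul _, fun z hz => ?_, fun y hy => ?_⟩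
  · rw [norm_mul, Complex.norm_real, Real.norm_of_nonneg hc]
    exact mul_le_mul_of_nonneg_left (h2 z hz) hc
  · show (c : ℂ) * g (CX.of y) = _
    rw [h3 y hy]
    show (c : ℂ) * ((f y : ℝ) : ℂ) = ((c * f y : ℝ) : ℂ)
    push_cast
    ring

theorem HN_uu (h : CH Γ D m a b s lQ) : HN Γ D m s lQ (fun N i => uu m (s i) N) := by
  obtain ⟨A, hA⟩ := uu_ext h
  refine ⟨2 * A, by positivity, 2 * A + 1, by
    have : (0 : ℝ) ≤ A := Nat.cast_nonneg A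
    linarith, ?_⟩
  rintro ⟨N, q⟩
  have h1 := hA N q N le_rfl
  obtain ⟨L, hL⟩ : ∃ L, L = lN m s lQ (N, q) := ⟨_, rfl⟩
  have hL0 : 0 ≤ L := by rw [hL]; exact lN_nonneg h _
  have hLe : Real.exp L = ((N : ℝ) + 1) * Real.exp (lh m s lQ q) := by
    rw [hL]
    exact GE4_exp (N, q)
  have hL2 : 2 ≤ Real.exp L := by
    rw [hL]
    exact (lN_exp h (N, q)).2
  obtain ⟨Y, hY⟩ : ∃ Y, Y = ((N : ℝ) + 1) * (2 * Real.exp (lh m s lQ q)) := ⟨_, rfl⟩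
  have hYe : Y = 2 * Real.exp L := by
    rw [hY, hLe]
    ring
  have hY2 : Y ≤ Real.exp (2 * L) := by
    rw [hYe, two_mul L, Real.exp_add]
    exact mul_le_mul_of_nonneg_right hL2 (Real.exp_pos _).le
  have hY0 : 0 < Y := by
    rw [hYe]
    positivity
  rw [← hY] at h1
  have hYp : ∀ k : ℕ, Y ^ k ≤ Real.exp (2 * k * L) := by
    intro k
    refine (pow_le_pow_left₀ hY0.le hY2 k).trans (le_of_eq ?_)
    rw [← Real.exp_nat_mul]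
    congr 1
    ring
  have hA0 : (0 : ℝ) ≤ A := Nat.cast_nonneg A
  have h2 := GE4_HE_mul (Real.exp_pos (-(2 * A * ((N : ℝ) + 1) * L))).le h1
  show HE (fun e : ℝ × Pl × Pl => Real.exp (-(2 * A * ((N : ℝ) + 1) * lN m s lQ (N, q))) *
    uu m (s q.i) N (e.1, e.2.1, q.g • e.2.2)) q.b (hc (2 * A + 1) (lN m s lQ (N, q)))⁻¹
    (hc (2 * A + 1) (lN m s lQ (N, q)))
  rw [← hL]
  have h1c : 1 ≤ hc (2 * A + 1) L := hc_one (by linarith) hL0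
  refine HE_mono h2 ?_ ?_
  · refine inv_anti₀ (pow_pos hY0 _) ?_
    refine (hYp A).trans ?_
    unfold hc
    have h3 : Real.exp (2 * A * L) ≤ Real.exp ((2 * A + 1) * L) := by
      apply Real.exp_le_exp.2
      nlinarith
    have h4 : 0 < Real.exp ((2 * A + 1) * L) := Real.exp_pos _
    nlinarith
  · refine le_trans ?_ h1c
    refine (mul_le_mul_of_nonneg_left (hYp (A * N)) (Real.exp_pos _).le).trans ?_
    rw [← Real.exp_add, Real.exp_le_one_iff]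
    push_cast
    have h3 : 0 ≤ 2 * (A : ℝ) * L := by positivity
    nlinarith

theorem GE4_smooth {v : ℝ × Pl × Pl → ℝ} (hv : ContDiff ℝ ∞ v) (w : ℝ × Pl × Pl) :
    ContDiff ℝ ∞ fun e => fderiv ℝ v e w :=
  (hv.fderiv_right (m := ∞) (by simp)).clm_apply contDiff_const

theorem GE4_mul {v : ℝ × Pl × Pl → ℝ} (hv : ContDiff ℝ ∞ v) (κ : ℝ) (w : ℝ × Pl × Pl) :
    (fun e => fderiv ℝ (fun e => κ * v e) e w) = fun e => κ * fderiv ℝ v e w := by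
  funext e
  rw [fderiv_const_mul (hv.differentiable (by simp) e)]
  rfl

theorem HN_TT (h : CH Γ D m a b s lQ) {Q : ℕ → ι → ℝ × Pl × Pl → ℝ}
    (hs : ∀ N i, ContDiff ℝ ∞ (Q N i)) (hQ : HN Γ D m s lQ Q) :
    HN Γ D m s lQ (fun N i => TT m (s i) (Q N i)) := by
  obtain ⟨c, hc, hT⟩ := TT_form h
  obtain ⟨A0, hA0, hQ⟩ := hQ
  refine ⟨A0, hA0, ?_⟩
  have hℓ : ∀ t : ℕ × Ix ι ℝ Γ D, 0 ≤ lN m s lQ t := lN_nonneg h
  obtain ⟨w1, hw1⟩ : ∃ w1 : ℝ × Pl × Pl, w1 = (0, 0, ((1 : ℝ), (0 : ℝ))) := ⟨_, rfl⟩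
  obtain ⟨w2, hw2⟩ : ∃ w2 : ℝ × Pl × Pl, w2 = (0, 0, ((0 : ℝ), (1 : ℝ))) := ⟨_, rfl⟩
  have hu1 := HB_fderiv hℓ hQ w1
  have hu2 := HB_fderiv hℓ hQ w2
  have hu11 := HB_fderiv hℓ hu1 w1
  have hu21 := HB_fderiv hℓ hu2 w1
  have hu22 := HB_fderiv hℓ hu2 w2
  have hsum := HB_add hℓ (HB_add hℓ (HB_add hℓ (HB_add hℓ (HB_add hℓ
    (HB_mul hℓ (GE4_lift h (hc 0)) hQ)
    (HB_mul hℓ (GE4_lift h (hc 1)) hu1))
    (HB_mul hℓ (GE4_lift h (hc 2)) hu2))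
    (HB_mul hℓ (GE4_lift h (hc 3)) hu11))
    (HB_mul hℓ (GE4_lift h (hc 4)) hu21))
    (HB_mul hℓ (GE4_lift h (hc 5)) hu22)
  refine HB_congr hsum ?_
  rintro ⟨N, q⟩ e
  obtain ⟨κ, hκ⟩ : ∃ κ, κ = Real.exp (-(A0 * ((N : ℝ) + 1) * lN m s lQ (N, q))) := ⟨_, rfl⟩
  obtain ⟨v, hv⟩ : ∃ v : ℝ × Pl × Pl → ℝ, v = fun e => Q N q.i (e.1, e.2.1, q.g • e.2.2) := ⟨_, rfl⟩
  have hvs : ContDiff ℝ ∞ v := by
    rw [hv]
    exact (hs N q.i).comp (contDiff_fst.prodMk (contDiff_snd.fst.prodMk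
      ((h.cf.hX.smooth q.g).comp contDiff_snd.snd)))
  show c 0 q e * (Real.exp (-(A0 * ((N : ℝ) + 1) * lN m s lQ (N, q))) * Q N q.i (e.1, e.2.1, q.g • e.2.2)) +
      c 1 q e * (fun e => fderiv ℝ (fun e : ℝ × Pl × Pl => Real.exp (-(A0 * ((N : ℝ) + 1) * lN m s lQ (N, q))) *
        Q N q.i (e.1, e.2.1, q.g • e.2.2)) e w1) e +
      c 2 q e * (fun e => fderiv ℝ (fun e : ℝ × Pl × Pl => Real.exp (-(A0 * ((N : ℝ) + 1) * lN m s lQ (N, q))) *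
        Q N q.i (e.1, e.2.1, q.g • e.2.2)) e w2) e +
      c 3 q e * (fun e => fderiv ℝ (fun e => fderiv ℝ (fun e : ℝ × Pl × Pl =>
        Real.exp (-(A0 * ((N : ℝ) + 1) * lN m s lQ (N, q))) * Q N q.i (e.1, e.2.1, q.g • e.2.2)) e w1) e w1) e +
      c 4 q e * (fun e => fderiv ℝ (fun e => fderiv ℝ (fun e : ℝ × Pl × Pl =>
        Real.exp (-(A0 * ((N : ℝ) + 1) * lN m s lQ (N, q))) * Q N q.i (e.1, e.2.1, q.g • e.2.2)) e w2) e w1) e +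
      c 5 q e * (fun e => fderiv ℝ (fun e => fderiv ℝ (fun e : ℝ × Pl × Pl =>
        Real.exp (-(A0 * ((N : ℝ) + 1) * lN m s lQ (N, q))) * Q N q.i (e.1, e.2.1, q.g • e.2.2)) e w2) e w2) e =
    Real.exp (-(A0 * ((N : ℝ) + 1) * lN m s lQ (N, q))) * TT m (s q.i) (Q N q.i) (e.1, e.2.1, q.g • e.2.2)
  rw [hT (Q N q.i) (hs N q.i) q e, ← hκ]
  have e0 : (fun e : ℝ × Pl × Pl => Q N q.i (e.1, e.2.1, q.g • e.2.2)) = v := hv.symm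
  have e0' : ∀ e : ℝ × Pl × Pl, Q N q.i (e.1, e.2.1, q.g • e.2.2) = v e := fun e => by rw [hv]
  simp only [e0']
  have m1 : ∀ e, fderiv ℝ (fun e => κ * v e) e w1 = κ * fderiv ℝ v e w1 := congrFun (GE4_mul hvs κ w1)
  have m2 : ∀ e, fderiv ℝ (fun e => κ * v e) e w2 = κ * fderiv ℝ v e w2 := congrFun (GE4_mul hvs κ w2)
  have m11 : ∀ e, fderiv ℝ (fun e => κ * fderiv ℝ v e w1) e w1 = κ * fderiv ℝ (fun e => fderiv ℝ v e w1) e w1 :=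
    congrFun (GE4_mul (GE4_smooth hvs w1) κ w1)
  have m21 : ∀ e, fderiv ℝ (fun e => κ * fderiv ℝ v e w2) e w1 = κ * fderiv ℝ (fun e => fderiv ℝ v e w2) e w1 :=
    congrFun (GE4_mul (GE4_smooth hvs w2) κ w1)
  have m22 : ∀ e, fderiv ℝ (fun e => κ * fderiv ℝ v e w2) e w2 = κ * fderiv ℝ (fun e => fderiv ℝ v e w2) e w2 :=
    congrFun (GE4_mul (GE4_smooth hvs w2) κ w2)
  simp only [m1, m2]
  rw [m11, m21, m22]
  have f1 : d1 v = fun e => fderiv ℝ v e w1 := by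
    rw [hw1]
    rfl
  have f2 : d2 v = fun e => fderiv ℝ v e w2 := by
    rw [hw2]
    rfl
  have f1' : ∀ (u : ℝ × Pl × Pl → ℝ) (e : ℝ × Pl × Pl), d1 u e = fderiv ℝ u e w1 := by
    intro u e
    rw [hw1]
    rfl
  have f2' : ∀ (u : ℝ × Pl × Pl → ℝ) (e : ℝ × Pl × Pl), d2 u e = fderiv ℝ u e w2 := by
    intro u e
    rw [hw2]
    rfl
  show _ = κ * (c 0 q e * v e + c 1 q e * d1 v e + c 2 q e * d2 v e + c 3 q e * d1 (d1 v) e +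
    c 4 q e * d1 (d2 v) e + c 5 q e * d2 (d2 v) e)
  rw [f1' (d1 v), f1' (d2 v), f2' (d2 v), f1, f2]
  ring

theorem HN_val (h : CH Γ D m a b s lQ) {Q : ℕ → ι → ℝ × Pl × Pl → ℝ}
    (hQ : HN Γ D m s lQ Q) : ∃ A : ℕ, ∀ t : ℕ × Ix ι ℝ Γ D,
      |Q t.1 t.2.i (t.2.p, t.2.x, t.2.g • t.2.y)| ≤ Real.exp (lN m s lQ t) ^ (A * (t.1 + 1)) := by
  obtain ⟨A0, hA0, hQ⟩ := hQ
  obtain ⟨A, hA, hv⟩ := HB_val hQ
  obtain ⟨k, hk⟩ : ∃ k : ℕ, A ≤ 2 ^ k := by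
    obtain ⟨k, hk⟩ := pow_unbounded_of_one_lt A (by norm_num : (1 : ℝ) < 2)
    exact ⟨k, hk.le⟩
  refine ⟨k + ⌈A⌉₊ + ⌈A0⌉₊, fun t => ?_⟩
  have h1 := hv t
  have hL0 := lN_nonneg h t
  have hL2 := (lN_exp h t).2
  obtain ⟨L, hL⟩ : ∃ L, L = lN m s lQ t := ⟨_, rfl⟩
  have h2 : ‖Real.exp (-(A0 * ((t.1 : ℝ) + 1) * lN m s lQ t)) *
      Q t.1 t.2.i (t.2.p, t.2.x, t.2.g • t.2.y)‖ ≤ hc A (lN m s lQ t) := h1
  rw [← hL] at h2 hL0 hL2 ⊢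
  rw [norm_mul, Real.norm_of_nonneg (Real.exp_pos _).le, Real.norm_eq_abs, Real.exp_neg,
    inv_mul_le_iff₀ (Real.exp_pos _)] at h2
  refine h2.trans ?_
  unfold hc
  have h3 : A ≤ Real.exp (k * L) := by
    refine hk.trans ?_
    rw [Real.exp_nat_mul]
    exact pow_le_pow_left₀ (by norm_num) hL2 k
  have h4 : Real.exp (A0 * ((t.1 : ℝ) + 1) * L) * (A * Real.exp (A * L)) ≤
      Real.exp (A0 * ((t.1 : ℝ) + 1) * L) * (Real.exp (k * L) * Real.exp (A * L)) :=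
    mul_le_mul_of_nonneg_left (mul_le_mul_of_nonneg_right h3 (Real.exp_pos _).le) (Real.exp_pos _).le
  refine h4.trans ?_
  rw [← Real.exp_add, ← Real.exp_add, ← Real.exp_nat_mul]
  apply Real.exp_le_exp.2
  push_cast
  have hN : (0 : ℝ) ≤ t.1 := Nat.cast_nonneg _
  have hkk : (0 : ℝ) ≤ k := Nat.cast_nonneg _
  have hAc : A ≤ ⌈A⌉₊ := Nat.le_ceil A
  have hA0c : A0 ≤ ⌈A0⌉₊ := Nat.le_ceil A0
  have hA0n : (0 : ℝ) ≤ (⌈A⌉₊ : ℝ) := Nat.cast_nonneg _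
  have h5 : A0 * ((t.1 : ℝ) + 1) ≤ (⌈A0⌉₊ : ℝ) * ((t.1 : ℝ) + 1) := mul_le_mul_of_nonneg_right hA0c (by linarith)
  have h6 : (k : ℝ) + A ≤ ((k : ℝ) + ⌈A⌉₊) * ((t.1 : ℝ) + 1) := by nlinarith
  have h7 : A0 * ((t.1 : ℝ) + 1) + ((k : ℝ) + A) ≤ ((k : ℝ) + ⌈A⌉₊ + ⌈A0⌉₊) * ((t.1 : ℝ) + 1) := by linarith
  have h8 := mul_le_mul_of_nonneg_right h7 hL0
  linarith

end BE36
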