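import Pool.Agent.LibBE36.GE4
import Pool.Agent.LibBE88.V13
import Pool.Agent.LibBE36T.Defs

/-! Row BE36 GE5 (cites GE4, G07; `LibBE88/V13`, `V10`; `LibBE36T/Defs`): the growth of the remainder of the parametrix, explicit in
the number `N` (the interface of part T). MEDIUM, 60 min.
Plan: `LibBE88/V13.lean` with `Wn` in place of `Wc`; all the pointwise identities there are for one metric `M` (there `m`; here
`M = mm m (s i) p`, `hm_mm h.cf i p`): `Wn_E` (`HAd_d2`, `HN_mul`; `Vx_Ex`), `Wn_H` (`TT_conj h.cf i`, `HN_TT`), `Wn_F` (`LL_mulG`, `V13_gr`, `LL_lin`: the proof of `Wc_F`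
verbatim), `Wn_cN` (`uu_UU`, `HN_uu`, `uu_smooth`, `Wn_H`). Smoothness of `TT (Q N i)`: `LL`, `gr` of smooth functions with parameters
(`Adm_TT` contains it; or `V11`/`V6`: grep `TT` + `ContDiff` in `LibBE88/V10.lean`, `V11.lean`; if there is no such lemma, keep
the smoothness of the family in all variables by the formula of `TT`). `Wn_bd`: as `Wc_bd`: the index
`(i, p, x, γ • Ex x v, γ⁻¹)`, `exp (-(ff / 2)) ≤ 1` (`ff_nonneg`), `HN_val`, `d = eu v ≤ ρ` for `sg v ≤ ρ ^ 2`. `gk`: by induction over the depth `2` as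
`V13_Gk` (the constant `A` depends on the depth only, not on `N`: for each of the finitely many `c` one constant, take the maximum;
`GkB` is monotone in `B`: `GkB_mono`). `u0`: `UU (Gx M x) j 0 = uu (p, x, x)` (`uu_UU` at `Ex x 0 = x`, `Vx_self`, `ff (p, x, x) = log 1 = 0`; or
`exp (-(ff / 2)) ≤ 1`), `uu_ext` with `N = j` at the index `(i, p, x, x, 1)` with `d = 0`, the value at the centre of the ball. -/

open MeasureTheory Set Filter Topology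
open scoped ContDiff

namespace BE36

open BGS BR BE

variable {Γ : Type} [Group Γ] [MulAction Γ Pl] {D : Set Pl} {ι : Type} {m : Pl → Co} {a b : ℝ}
  {s : ι → ℝ × Pl → ℝ} {lQ : ι → ℝ}

/-- Functions of `(x, v)` of the form `wt ^ (-1/2) Q (x, Ex x v)`. -/
def Wn (Γ : Type) [Group Γ] [MulAction Γ Pl] (D : Set Pl) (m : Pl → Co) (s : ι → ℝ × Pl → ℝ)
    (lQ : ι → ℝ) (c : ℕ → ι → ℝ → Pl × Pl → ℝ) : Prop :=
  ∃ Q : ℕ → ι → ℝ × Pl × Pl → ℝ, (∀ N i, ContDiff ℝ ∞ (Q N i)) ∧ HN Γ D m s lQ Q ∧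
    ∀ N i p x v, c N i p (x, v) = Real.exp (-(ff m (s i) (p, x, Ex (mm m (s i) p) x v) / 2)) *
      Q N i (p, x, Ex (mm m (s i) p) x v)

/-! ### Tools -/

theorem GE5_EB {E F : Type} [NormedAddCommGroup E] [NormedSpace ℝ E] [NormedAddCommGroup F]
    [NormedSpace ℝ F] {f : E → F} (hf : ContDiff ℝ ∞ f) (x : E) :
    EB (fun _ : Unit => (0 : ℝ)) (fun _ => f) (fun _ => x) :=
  ⟨fun _ => hf, fun k => ⟨‖iteratedFDeriv ℝ k f x‖, fun _ => by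
    rw [mul_zero, Real.exp_zero, mul_one]⟩⟩

theorem GE5_mm (h : CF Γ D m a b s) (i : ι) :
    ContDiff ℝ ∞ (fun e : ℝ × Pl × Pl => mm m (s i) e.1 e.2.2) := by
  have h1 : ContDiff ℝ ∞ (fun e : ℝ × Pl × Pl => s i (e.1, e.2.2)) :=
    (h.smooth i).comp (contDiff_fst.prodMk (contDiff_snd.comp contDiff_snd))
  have h2 : ContDiff ℝ ∞ (fun e : ℝ × Pl × Pl => m e.2.2) :=
    h.hm.smooth.comp (contDiff_snd.comp contDiff_snd)
  exact (Real.contDiff_exp.comp h1).smul h2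

theorem GE5_LL (h : CF Γ D m a b s) (i : ι) {u : ℝ × Pl × Pl → ℝ} (hu : ContDiff ℝ ∞ u) :
    ContDiff ℝ ∞ (fun e : ℝ × Pl × Pl =>
      LL (mm m (s i) e.1) (fun z => u (e.1, e.2.1, z)) e.2.2) := by
  have h1 := V6_LL (κ := Unit) (P := ℝ) (ℓ := fun _ => (0 : ℝ)) (x := fun _ => (0 : ℝ × Pl × Pl))
    (fun _ => le_rfl) (GE5_EB (GE5_mm h i) 0)
    (fun _ e => ((hm_mm h i e.1).pos e.2.2).2)
    (C := |dt (mm m (s i) (0 : ℝ × Pl × Pl).1 (0 : ℝ × Pl × Pl).2.2)|⁻¹)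
    (fun _ => by rw [mul_zero, Real.exp_zero, mul_one]) (GE5_EB hu 0)
  exact h1.smooth ()

theorem GE5_gr (h : CF Γ D m a b s) (i : ι) {u w : ℝ × Pl × Pl → ℝ} (hu : ContDiff ℝ ∞ u)
    (hw : ContDiff ℝ ∞ w) :
    ContDiff ℝ ∞ (fun e : ℝ × Pl × Pl =>
      gr (mm m (s i) e.1) (fun z => u (e.1, e.2.1, z)) (fun z => w (e.1, e.2.1, z)) e.2.2) := by
  have h1 := V6_gr (κ := Unit) (P := ℝ) (ℓ := fun _ => (0 : ℝ)) (x := fun _ => (0 : ℝ × Pl × Pl))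
    (fun _ => le_rfl) (GE5_EB (GE5_mm h i) 0)
    (fun _ e => ((hm_mm h i e.1).pos e.2.2).2)
    (C := |dt (mm m (s i) (0 : ℝ × Pl × Pl).1 (0 : ℝ × Pl × Pl).2.2)|⁻¹)
    (fun _ => by rw [mul_zero, Real.exp_zero, mul_one]) (GE5_EB hu 0) (GE5_EB hw 0)
  exact h1.smooth ()

theorem TT_smooth (h : CH Γ D m a b s lQ) (i : ι) {Q : ℝ × Pl × Pl → ℝ}
    (hs : ContDiff ℝ ∞ Q) : ContDiff ℝ ∞ (TT m (s i) Q) := by
  have hf := ff_smooth h.cf i
  have h1 := GE5_LL h.cf i hs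
  have h2 := GE5_gr h.cf i hf hs
  have h3 := GE5_gr h.cf i hf hf
  have h4 := GE5_LL h.cf i hf
  exact (h1.sub h2).add (((h3.div_const 4).sub (h4.div_const 2)).mul hs)

theorem GE5_Q (h : CH Γ D m a b s lQ) (i : ι) {Q : ℝ × Pl × Pl → ℝ} (hs : ContDiff ℝ ∞ Q)
    (p : ℝ) (x : Pl) :
    ContDiff ℝ ∞ (fun v : Pl => Real.exp (-(ff m (s i) (p, x, Ex (mm m (s i) p) x v) / 2)) *
      Q (p, x, Ex (mm m (s i) p) x v)) := by
  have hE : ContDiff ℝ ∞ (fun v : Pl => Ex (mm m (s i) p) x v) :=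
    (Ex_smooth h.cf.hX (hm_mm h.cf i p)).comp (contDiff_const.prodMk contDiff_id)
  have h2 : ContDiff ℝ ∞ (fun v : Pl => ((p, x, Ex (mm m (s i) p) x v) : ℝ × Pl × Pl)) :=
    contDiff_const.prodMk (contDiff_const.prodMk hE)
  have h3 : ContDiff ℝ ∞ (fun v => ff m (s i) (p, x, Ex (mm m (s i) p) x v)) :=
    (ff_smooth h.cf i).comp h2
  exact ((h3.div_const 2).neg.exp).mul (hs.comp h2)

theorem GE5_sm (h : CH Γ D m a b s lQ) {c : ℕ → ι → ℝ → Pl × Pl → ℝ}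
    (hc : Wn Γ D m s lQ c) (N : ℕ) (i : ι) (p : ℝ) (x : Pl) :
    ContDiff ℝ ∞ (fun v => c N i p (x, v)) := by
  obtain ⟨Q, hs, -, hcQ⟩ := hc
  have h1 := GE5_Q h i (hs N i) p x
  have h2 : (fun v => c N i p (x, v)) =
      fun v => Real.exp (-(ff m (s i) (p, x, Ex (mm m (s i) p) x v) / 2)) *
        Q N i (p, x, Ex (mm m (s i) p) x v) := funext fun v => hcQ N i p x v
  rw [h2]
  exact h1

theorem GE5_lin (h : CH Γ D m a b s lQ) {c c' : ℕ → ι → ℝ → Pl × Pl → ℝ}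
    (hc : Wn Γ D m s lQ c) (hc' : Wn Γ D m s lQ c') (α β : ℝ) :
    Wn Γ D m s lQ (fun N i p q => α * c N i p q + β * c' N i p q) := by
  obtain ⟨Q, hs, hQ, hcQ⟩ := hc
  obtain ⟨Q', hs', hQ', hcQ'⟩ := hc'
  refine ⟨fun N i e => α * Q N i e + β * Q' N i e, fun N i => ?_, ?_, fun N i p x v => ?_⟩
  · exact (contDiff_const.mul (hs N i)).add (contDiff_const.mul (hs' N i))
  · exact HN_add h (HN_mul h (HAd_const h α) hQ) (HN_mul h (HAd_const h β) hQ')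
  · change α * c N i p (x, v) + β * c' N i p (x, v) = _
    rw [hcQ, hcQ']
    ring

theorem GE5_eu {v : Pl} {ρ : ℝ} (hρ : 0 ≤ ρ) (hv : sg v ≤ ρ ^ 2) : eu v ≤ ρ := by
  have h1 : eu v = √(sg v) := rfl
  rw [h1]
  calc √(sg v) ≤ √(ρ ^ 2) := Real.sqrt_le_sqrt hv
    _ = ρ := Real.sqrt_sq hρ

theorem Wn_bd (h : CH Γ D m a b s lQ) {c : ℕ → ι → ℝ → Pl × Pl → ℝ} (hc : Wn Γ D m s lQ c) :
    ∃ A : ℕ, ∀ (N : ℕ) (i : ι) (p : ℝ), ‖p‖ ≤ 1 → ∀ ρ : ℝ, 0 ≤ ρ → ∀ x ∈ closure D, ∀ v : Pl,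
      sg v ≤ ρ ^ 2 →
      |c N i p (x, v)| ≤ (((N : ℝ) + 1) * (Real.exp (lQ i) * (2 + ρ))) ^ (A * (N + 1)) := by
  obtain ⟨Q, hs, hQ, hcQ⟩ := hc
  obtain ⟨A, hA⟩ := HN_val h hQ
  refine ⟨A, fun N i p hp ρ hρ x hx v hv => ?_⟩
  obtain ⟨γ, hγ, -⟩ := h.cf.hX.orbit (Ex (mm m (s i) p) x v)
  have hgy : γ⁻¹ • (γ • Ex (mm m (s i) p) x v) = Ex (mm m (s i) p) x v := inv_smul_smul γ _
  let q : Ix ι ℝ Γ D := ⟨i, p, x, γ • Ex (mm m (s i) p) x v, γ⁻¹, hp, hx, subset_closure hγ⟩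
  have hq := hA (N, q)
  have hq1 : |Q N i (p, x, Ex (mm m (s i) p) x v)| ≤
      Real.exp (lN m s lQ (N, q)) ^ (A * (N + 1)) := by
    have h1 : Q N i (p, x, Ex (mm m (s i) p) x v) =
        Q N i (p, x, γ⁻¹ • (γ • Ex (mm m (s i) p) x v)) := by rw [hgy]
    rw [h1]
    exact hq
  have hd : q.d m s = eu v := by
    change ds (mm m (s i) p) x (γ⁻¹ • (γ • Ex (mm m (s i) p) x v)) = eu v
    rw [hgy]
    unfold ds
    rw [Vx_Ex h.cf.hX (hm_mm h.cf i p)]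
  have hd0 : 0 ≤ eu v := Real.sqrt_nonneg _
  have hle : eu v ≤ ρ := GE5_eu hρ hv
  have h2 : Real.exp (lN m s lQ (N, q)) ≤ ((N : ℝ) + 1) * (Real.exp (lQ i) * (2 + ρ)) := by
    rw [(lN_exp h (N, q)).1]
    change ((N : ℝ) + 1) * (Real.exp (lQ i) * (2 + q.d m s)) ≤ _
    rw [hd]
    have hN : (0 : ℝ) ≤ (N : ℝ) + 1 := by positivity
    refine mul_le_mul_of_nonneg_left ?_ hN
    exact mul_le_mul_of_nonneg_left (by linarith) (Real.exp_pos _).le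
  have h5 : Real.exp (-(ff m (s i) (p, x, Ex (mm m (s i) p) x v) / 2)) ≤ 1 := by
    rw [Real.exp_le_one_iff]
    have := ff_nonneg h.cf i (p, x, Ex (mm m (s i) p) x v)
    linarith
  rw [hcQ, abs_mul, abs_of_pos (Real.exp_pos _)]
  calc Real.exp (-(ff m (s i) (p, x, Ex (mm m (s i) p) x v) / 2)) *
        |Q N i (p, x, Ex (mm m (s i) p) x v)|
      ≤ 1 * |Q N i (p, x, Ex (mm m (s i) p) x v)| := mul_le_mul_of_nonneg_right h5 (abs_nonneg _)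
    _ ≤ Real.exp (lN m s lQ (N, q)) ^ (A * (N + 1)) := by rw [one_mul]; exact hq1
    _ ≤ _ := pow_le_pow_left₀ (Real.exp_pos _).le h2 _

theorem Wn_E (h : CH Γ D m a b s lQ) {c : ℕ → ι → ℝ → Pl × Pl → ℝ} (hc : Wn Γ D m s lQ c) :
    Wn Γ D m s lQ (fun N i p => PX6_E (c N i p)) := by
  obtain ⟨Q, hs, hQ, hcQ⟩ := hc
  refine ⟨fun N i e => (4 * sg (JV m (s i) e)) * Q N i e, fun N i => ?_, ?_,
    fun N i p x v => ?_⟩
  · exact (contDiff_const.mul (PX1_sg_smooth.comp (JV_smooth h.cf i))).mul (hs N i)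
  · exact HN_mul h (HAd_mul h (HAd_const h (4 : ℝ)) (HAd_d2 h)) hQ
  · have h1 : JV m (s i) (p, x, Ex (mm m (s i) p) x v) = v :=
      Vx_Ex h.cf.hX (hm_mm h.cf i p) x v
    change 4 * sg v * c N i p (x, v) =
      Real.exp (-(ff m (s i) (p, x, Ex (mm m (s i) p) x v) / 2)) *
        ((4 * sg (JV m (s i) (p, x, Ex (mm m (s i) p) x v))) *
          Q N i (p, x, Ex (mm m (s i) p) x v))
    rw [hcQ, h1]
    ring

theorem Wn_H (h : CH Γ D m a b s lQ) {c : ℕ → ι → ℝ → Pl × Pl → ℝ} (hc : Wn Γ D m s lQ c) :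
    Wn Γ D m s lQ (fun N i p => PX6_H (mE (mm m (s i) p)) (c N i p)) := by
  obtain ⟨Q, hs, hQ, hcQ⟩ := hc
  refine ⟨fun N i => TT m (s i) (Q N i), fun N i => TT_smooth h i (hs N i), HN_TT h hs hQ,
    fun N i p x v => ?_⟩
  have hsl : ContDiff ℝ ∞ (fun y : Pl => Q N i (p, x, y)) :=
    (hs N i).comp (contDiff_const.prodMk (contDiff_const.prodMk contDiff_id))
  have h1 := TT_conj h.cf i (Q := Q N i) p x hsl v
  change LL (Gx (mm m (s i) p) x) (fun v => c N i p (x, v)) v = _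
  have h3 : (fun v => c N i p (x, v)) =
      fun v => Real.exp (-(ff m (s i) (p, x, Ex (mm m (s i) p) x v) / 2)) *
        Q N i (p, x, Ex (mm m (s i) p) x v) := funext fun v => hcQ N i p x v
  rw [h3]
  exact h1

theorem Wn_F (h : CH Γ D m a b s lQ) {c : ℕ → ι → ℝ → Pl × Pl → ℝ} (hc : Wn Γ D m s lQ c) :
    Wn Γ D m s lQ (fun N i p => PX6_F (mE (mm m (s i) p)) (c N i p)) := by
  have h1 := GE5_lin h (Wn_E h (Wn_H h hc)) (Wn_H h (Wn_E h hc)) (1 / 4) (-(1 / 4))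
  have h2 : (fun N i p => PX6_F (mE (mm m (s i) p)) (c N i p)) = fun N i p q =>
      (1 / 4) * PX6_E (PX6_H (mE (mm m (s i) p)) (c N i p)) q +
      (-(1 / 4)) * PX6_H (mE (mm m (s i) p)) (PX6_E (c N i p)) q := by
    funext N i p q
    obtain ⟨x, v⟩ := q
    have hP : PMt (Gx (mm m (s i) p) x) := Gx_PMt h.cf.hX h.cf.hO (hm_mm h.cf i p) x
    have hSM : SM (Gx (mm m (s i) p) x) := ⟨hP.smooth, hP.pos⟩
    have hcs : ContDiff ℝ ∞ (fun v => c N i p (x, v)) := GE5_sm h hc N i p x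
    have h3 := LL_mulG hSM PX1_sg_smooth hcs v
    rw [V13_gr hP] at h3
    have h4 := LL_lin hSM (PX1_sg_smooth.mul hcs) hcs 4 0 v
    have h5 : PX6_H (mE (mm m (s i) p)) (PX6_E (c N i p)) (x, v) =
        4 * LL (Gx (mm m (s i) p) x) (fun y => sg y * c N i p (x, y)) v := by
      change LL (Gx (mm m (s i) p) x) (fun y => 4 * sg y * c N i p (x, y)) v = _
      have h6 : (fun y => 4 * sg y * c N i p (x, y)) =
          fun y => 4 * (sg y * c N i p (x, y)) + 0 * c N i p (x, y) := by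
        funext y
        ring
      rw [h6, h4]
      ring
    change -(c N i p (x, v) * LL (Gx (mm m (s i) p) x) sg v +
      4 * (v.1 * dx (fun v => c N i p (x, v)) v + v.2 * dy (fun v => c N i p (x, v)) v)) =
      (1 / 4) * (4 * sg v * LL (Gx (mm m (s i) p) x) (fun v => c N i p (x, v)) v) +
      (-(1 / 4)) * PX6_H (mE (mm m (s i) p)) (PX6_E (c N i p)) (x, v)
    rw [h5, h3]
    ring
  rw [h2]
  exact h1

theorem Wn_cN (h : CH Γ D m a b s lQ) :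
    Wn Γ D m s lQ (fun N i p => BE73.cN (mm m (s i) p) N) := by
  have h1 : Wn Γ D m s lQ (fun N i p q => UU (Gx (mm m (s i) p) q.1) N q.2) := by
    refine ⟨fun N i => uu m (s i) N, fun N i => uu_smooth h.cf i N, HN_uu h,
      fun N i p x v => ?_⟩
    have h2 := uu_UU h.cf i N (p, x, Ex (mm m (s i) p) x v)
    have h3 : JV m (s i) (p, x, Ex (mm m (s i) p) x v) = v :=
      Vx_Ex h.cf.hX (hm_mm h.cf i p) x v
    rw [h3] at h2
    exact h2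
  exact Wn_H h h1

theorem GkB_mono {K : Set Pl} {G : Pl × Pl → Co} {ρ B B' : ℝ} (hB : B ≤ B') (k : ℕ) :
    ∀ c : Pl × Pl → ℝ, B36.GkB K G ρ B k c → B36.GkB K G ρ B' k c := by
  induction k with
  | zero =>
    intro c hc x hx v hv
    exact (hc x hx v hv).trans hB
  | succ k ih =>
    intro c hc
    obtain ⟨h0, h1, h2, h3⟩ := hc
    exact ⟨fun x hx v hv => (h0 x hx v hv).trans hB, ih _ h1, ih _ h2, ih _ h3⟩

theorem GE5_Y (h : CH Γ D m a b s lQ) (N : ℕ) (i : ι) {ρ : ℝ} (hρ : 0 ≤ ρ) :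
    1 ≤ ((N : ℝ) + 1) * (Real.exp (lQ i) * (2 + ρ)) := by
  have h1 : (1 : ℝ) ≤ (N : ℝ) + 1 := by
    have : (0 : ℝ) ≤ (N : ℝ) := Nat.cast_nonneg _
    linarith
  have h2 : 1 ≤ Real.exp (lQ i) := Real.one_le_exp (h.nonneg i)
  have h3 : 1 ≤ Real.exp (lQ i) * (2 + ρ) := by nlinarith
  nlinarith

theorem GE5_Gk (h : CH Γ D m a b s lQ) (k : ℕ) :
    ∀ c : ℕ → ι → ℝ → Pl × Pl → ℝ, Wn Γ D m s lQ c → ∃ A : ℕ, ∀ (N : ℕ) (i : ι) (p : ℝ),
      ‖p‖ ≤ 1 → ∀ ρ : ℝ, 0 ≤ ρ → B36.GkB (closure D) (mE (mm m (s i) p)) ρ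
      ((((N : ℝ) + 1) * (Real.exp (lQ i) * (2 + ρ))) ^ (A * (N + 1))) k (c N i p) := by
  induction k with
  | zero =>
    intro c hc
    exact Wn_bd h hc
  | succ k ih =>
    intro c hc
    obtain ⟨A0, h0⟩ := Wn_bd h hc
    obtain ⟨A1, h1⟩ := ih _ (Wn_E h hc)
    obtain ⟨A2, h2⟩ := ih _ (Wn_F h hc)
    obtain ⟨A3, h3⟩ := ih _ (Wn_H h hc)
    refine ⟨A0 + A1 + A2 + A3, fun N i p hp ρ hρ => ?_⟩
    have hY := GE5_Y h N i hρ
    have hle : ∀ B : ℕ, B ≤ A0 + A1 + A2 + A3 →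
        (((N : ℝ) + 1) * (Real.exp (lQ i) * (2 + ρ))) ^ (B * (N + 1)) ≤
        (((N : ℝ) + 1) * (Real.exp (lQ i) * (2 + ρ))) ^ ((A0 + A1 + A2 + A3) * (N + 1)) :=
      fun B hB => pow_le_pow_right₀ hY (Nat.mul_le_mul_right _ hB)
    refine ⟨fun x hx v hv => (h0 N i p hp ρ hρ x hx v hv).trans (hle A0 (by omega)), ?_, ?_, ?_⟩
    · exact GkB_mono (hle A1 (by omega)) k _ (h1 N i p hp ρ hρ)
    · exact GkB_mono (hle A2 (by omega)) k _ (h2 N i p hp ρ hρ)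
    · exact GkB_mono (hle A3 (by omega)) k _ (h3 N i p hp ρ hρ)

/-- **The interface of part T.** -/
theorem CH.gk (h : CH Γ D m a b s lQ) : ∃ A : ℕ, ∀ (N : ℕ) (i : ι) (p : ℝ), ‖p‖ ≤ 1 →
    ∀ ρ : ℝ, 0 ≤ ρ → B36.GkB (closure D) (mE (mm m (s i) p)) ρ
      ((((N : ℝ) + 1) * (Real.exp (lQ i) * (2 + ρ))) ^ (A * (N + 1))) 2
      (BE73.cN (mm m (s i) p) N) :=
  GE5_Gk h 2 _ (Wn_cN h)

theorem CH.u0 (h : CH Γ D m a b s lQ) : ∃ A : ℕ, ∀ (N : ℕ) (i : ι) (p : ℝ), ‖p‖ ≤ 1 →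
    ∀ j, 1 ≤ j → j ≤ N → ∀ x ∈ closure D, |UU (Gx (mm m (s i) p) x) j 0| ≤
      ((((N : ℝ) + 1) * (4 * Real.exp (lQ i))) ^ A) ^ j := by
  obtain ⟨A, hA⟩ := uu_ext h
  refine ⟨A, fun N i p hp j _ hj x hx => ?_⟩
  let q : Ix ι ℝ Γ D := ⟨i, p, x, x, 1, hp, hx, hx⟩
  have hN : (0 : ℝ) < (N : ℝ) + 1 := by positivity
  have hd : q.d m s = 0 := by
    change ds (mm m (s i) p) x ((1 : Γ) • x) = 0
    rw [one_smul]
    unfold ds
    rw [Vx_self h.cf.hX (hm_mm h.cf i p)]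
    simp [eu]
  have hlh : Real.exp (lh m s lQ q) = 2 * Real.exp (lQ i) := by
    change Real.exp (lQ i + ll m s q) = _
    rw [Real.exp_add]
    unfold ll
    rw [hd, add_zero, Real.exp_log (by norm_num)]
    ring
  obtain ⟨g, -, hg2, hg3⟩ := hA N q j hj
  have hmem : (CX.of q.b : ℂ × (ℂ × ℂ) × (ℂ × ℂ)) ∈ Metric.ball (CX.of q.b : ℂ × (ℂ × ℂ) × (ℂ × ℂ))
      ((((N : ℝ) + 1) * (2 * Real.exp (lh m s lQ q))) ^ A)⁻¹ := by
    apply Metric.mem_ball_self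
    have := Real.exp_pos (lh m s lQ q)
    positivity
  have h1 := hg2 _ hmem
  rw [hg3 _ hmem, CX.norm_of] at h1
  have h2 : uu m (s i) j (p, x, (1 : Γ) • x) = uu m (s i) j (p, x, x) := by rw [one_smul]
  have h3 : |uu m (s i) j (p, x, x)| ≤
      (((N : ℝ) + 1) * (2 * Real.exp (lh m s lQ q))) ^ (A * j) := by
    rw [← h2]
    exact h1
  have h4 := uu_UU h.cf i j (p, x, x)
  have h5 : JV m (s i) (p, x, x) = 0 := Vx_self h.cf.hX (hm_mm h.cf i p) x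
  rw [h5] at h4
  have h6 : Real.exp (-(ff m (s i) (p, x, x) / 2)) ≤ 1 := by
    rw [Real.exp_le_one_iff]
    have := ff_nonneg h.cf i (p, x, x)
    linarith
  have h7 : |UU (Gx (mm m (s i) p) x) j 0| =
      Real.exp (-(ff m (s i) (p, x, x) / 2)) * |uu m (s i) j (p, x, x)| := by
    have h8 : UU (Gx (mm m (s i) p) x) j 0 =
        Real.exp (-(ff m (s i) (p, x, x) / 2)) * uu m (s i) j (p, x, x) := h4
    rw [h8, abs_mul, abs_of_pos (Real.exp_pos _)]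
  have h9 : (((N : ℝ) + 1) * (2 * Real.exp (lh m s lQ q))) =
      ((N : ℝ) + 1) * (4 * Real.exp (lQ i)) := by
    rw [hlh]
    ring
  rw [h7]
  calc Real.exp (-(ff m (s i) (p, x, x) / 2)) * |uu m (s i) j (p, x, x)|
      ≤ 1 * |uu m (s i) j (p, x, x)| := mul_le_mul_of_nonneg_right h6 (abs_nonneg _)
    _ ≤ (((N : ℝ) + 1) * (2 * Real.exp (lh m s lQ q))) ^ (A * j) := by rw [one_mul]; exact h3
    _ = ((((N : ℝ) + 1) * (4 * Real.exp (lQ i))) ^ A) ^ j := by rw [h9, pow_mul]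

end BE36
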