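import Pool.Agent.LibBE36.HDefs

open Set Filter Topology Metric
open scoped ContDiff

namespace H36

variable {E F G Ec Fc Gc : Type} [NormedAddCommGroup E] [NormedSpace ℝ E] [NormedAddCommGroup F]
  [NormedSpace ℝ F] [NormedAddCommGroup G] [NormedSpace ℝ G] [NormedAddCommGroup Ec]
  [NormedSpace ℂ Ec] [NormedAddCommGroup Fc] [NormedSpace ℂ Fc] [NormedAddCommGroup Gc]
  [NormedSpace ℂ Gc] [Cxf E Ec] [Cxf F Fc] [Cxf G Gc]

theorem j_zero : (j (0 : E) : Ec) = 0 :=
  norm_eq_zero.1 (by rw [Cxf.j_norm, norm_zero])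

theorem j_neg (x : E) : (j (-x) : Ec) = -j x := by
  refine eq_neg_of_add_eq_zero_left ?_
  rw [← Cxf.j_add, neg_add_cancel, j_zero]

theorem j_sub (x y : E) : (j (x - y) : Ec) = j x - j y := by
  rw [sub_eq_add_neg, Cxf.j_add, j_neg, ← sub_eq_add_neg]

private theorem HC1_re_neg (w : Ec) : (Cxf.re (-w) : E) = -Cxf.re w := by
  have h := Cxf.re_smul (E := E) (-1 : ℝ) w
  simpa using h

private theorem HC1_im_neg (w : Ec) : (Cxf.im (-w) : E) = -Cxf.im w := by
  have h := Cxf.im_smul (E := E) (-1 : ℝ) w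
  simpa using h

theorem re_sub (z w : Ec) : (Cxf.re (z - w) : E) = Cxf.re z - Cxf.re w := by
  rw [sub_eq_add_neg, Cxf.re_add, HC1_re_neg, ← sub_eq_add_neg]

theorem im_sub (z w : Ec) : (Cxf.im (z - w) : E) = Cxf.im z - Cxf.im w := by
  rw [sub_eq_add_neg, Cxf.im_add, HC1_im_neg, ← sub_eq_add_neg]

theorem j_cont : Continuous (j : E → Ec) := by
  refine LipschitzWith.continuous (K := 1) (LipschitzWith.of_dist_le_mul fun x y => ?_)
  rw [dist_eq_norm, dist_eq_norm, ← j_sub, Cxf.j_norm, NNReal.coe_one, one_mul]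

theorem re_cont : Continuous (Cxf.re : Ec → E) := by
  refine LipschitzWith.continuous (K := 1) (LipschitzWith.of_dist_le_mul fun x y => ?_)
  rw [dist_eq_norm, dist_eq_norm, ← re_sub, NNReal.coe_one, one_mul]
  exact Cxf.re_le _

theorem im_cont : Continuous (Cxf.im : Ec → E) := by
  refine LipschitzWith.continuous (K := 1) (LipschitzWith.of_dist_le_mul fun x y => ?_)
  rw [dist_eq_norm, dist_eq_norm, ← im_sub, NNReal.coe_one, one_mul]
  exact Cxf.im_le _

private theorem HC1_jL : ∃ J : F →L[ℝ] Fc, ∀ x, J x = j x := by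
  refine ⟨LinearMap.mkContinuous
    { toFun := fun x => (j x : Fc)
      map_add' := fun x y => Cxf.j_add x y
      map_smul' := fun r x => by
        rw [Cxf.j_smul, RingHom.id_apply, Complex.coe_smul] } 1 ?_, fun x => rfl⟩
  intro x
  rw [one_mul]
  exact (Cxf.j_norm x).le

private theorem HC1_reL : ∃ J : Fc →L[ℝ] F, ∀ z, J z = Cxf.re z := by
  refine ⟨LinearMap.mkContinuous
    { toFun := fun z => (Cxf.re z : F)
      map_add' := fun x y => Cxf.re_add x y
      map_smul' := fun r x => by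
        rw [RingHom.id_apply, ← Cxf.re_smul, Complex.coe_smul] } 1 ?_, fun x => rfl⟩
  intro x
  rw [one_mul]
  exact Cxf.re_le x

theorem j_deriv {c : ℝ → F} {c' : F} {t : ℝ} (h : HasDerivAt c c' t) :
    HasDerivAt (fun s => (j (c s) : Fc)) (j c') t := by
  obtain ⟨J, hJ⟩ := HC1_jL (F := F) (Fc := Fc)
  have h1 := J.hasFDerivAt.comp_hasDerivAt t h
  rw [hJ] at h1
  refine h1.congr_of_eventuallyEq (Eventually.of_forall fun s => ?_)
  exact (hJ (c s)).symm

theorem re_deriv {c : ℝ → Fc} {c' : Fc} {t : ℝ} (h : HasDerivAt c c' t) :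
    HasDerivAt (fun s => (Cxf.re (c s) : F)) (Cxf.re c') t := by
  obtain ⟨J, hJ⟩ := HC1_reL (F := F) (Fc := Fc)
  have h1 := J.hasFDerivAt.comp_hasDerivAt t h
  rw [hJ] at h1
  refine h1.congr_of_eventuallyEq (Eventually.of_forall fun s => ?_)
  exact (hJ (c s)).symm

/-- The complexification of a linear map. -/
noncomputable def cx (L : E →L[ℝ] F) (z : Ec) : Fc :=
  j (L (Cxf.re z)) + Complex.I • j (L (Cxf.im z))

private theorem HC1_cx_add (L : E →L[ℝ] F) (z w : Ec) :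
    (cx L (z + w) : Fc) = cx L z + cx L w := by
  unfold cx
  rw [Cxf.re_add, Cxf.im_add, map_add, map_add, Cxf.j_add, Cxf.j_add, smul_add]
  abel

private theorem HC1_cx_real (L : E →L[ℝ] F) (r : ℝ) (z : Ec) :
    (cx L ((r : ℂ) • z) : Fc) = (r : ℂ) • cx L z := by
  unfold cx
  rw [Cxf.re_smul, Cxf.im_smul, map_smul, map_smul, Cxf.j_smul, Cxf.j_smul, smul_add,
    smul_comm Complex.I (r : ℂ)]

private theorem HC1_cx_I (L : E →L[ℝ] F) (z : Ec) :
    (cx L (Complex.I • z) : Fc) = Complex.I • cx L z := by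
  unfold cx
  rw [Cxf.re_I, Cxf.im_I, map_neg, j_neg, smul_add, smul_smul, Complex.I_mul_I, neg_one_smul]
  abel

private theorem HC1_cx_smul (L : E →L[ℝ] F) (c : ℂ) (z : Ec) :
    (cx L (c • z) : Fc) = c • cx L z := by
  have e : ∀ (X : Type) [NormedAddCommGroup X] [NormedSpace ℂ X] (x : X),
      c • x = (c.re : ℂ) • x + (c.im : ℂ) • (Complex.I • x) := by
    intro X _ _ x
    rw [smul_smul, ← add_smul, Complex.re_add_im]
  rw [e Ec z, e Fc (cx L z), HC1_cx_add, HC1_cx_real, HC1_cx_real, HC1_cx_I]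

theorem cx_clm (L : E →L[ℝ] F) : ∃ Lc : Ec →L[ℂ] Fc, (∀ z, Lc z = cx L z) ∧
    (∀ x : E, Lc (j x) = j (L x)) ∧ ‖Lc‖ ≤ 2 * ‖L‖ := by
  have hb : ∀ z : Ec, ‖(cx L z : Fc)‖ ≤ 2 * ‖L‖ * ‖z‖ := by
    intro z
    unfold cx
    refine (norm_add_le _ _).trans ?_
    rw [norm_smul, Complex.norm_I, one_mul, Cxf.j_norm, Cxf.j_norm]
    have h1 : ‖L (Cxf.re z)‖ ≤ ‖L‖ * ‖z‖ :=
      (L.le_opNorm _).trans (mul_le_mul_of_nonneg_left (Cxf.re_le z) (norm_nonneg L))
    have h2 : ‖L (Cxf.im z)‖ ≤ ‖L‖ * ‖z‖ :=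
      (L.le_opNorm _).trans (mul_le_mul_of_nonneg_left (Cxf.im_le z) (norm_nonneg L))
    linarith
  refine ⟨LinearMap.mkContinuous
    { toFun := fun z => (cx L z : Fc)
      map_add' := fun x y => HC1_cx_add L x y
      map_smul' := fun r x => HC1_cx_smul L r x } (2 * ‖L‖) hb, fun z => rfl, ?_, ?_⟩
  · intro x
    change cx L (j x) = j (L x)
    unfold cx
    rw [Cxf.re_j, Cxf.im_j, map_zero, j_zero, smul_zero, add_zero]
  · exact LinearMap.mkContinuous_norm_le _ (by positivity) _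

end H36
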