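import Pool.Agent.LibBE36.HC4

open Set Filter Topology Metric
open scoped ContDiff

namespace H36

variable {E F G Ec Fc Gc : Type} [NormedAddCommGroup E] [NormedSpace ℝ E] [NormedAddCommGroup F]
  [NormedSpace ℝ F] [NormedAddCommGroup G] [NormedSpace ℝ G] [NormedAddCommGroup Ec]
  [NormedSpace ℂ Ec] [NormedAddCommGroup Fc] [NormedSpace ℂ Fc] [NormedAddCommGroup Gc]
  [NormedSpace ℂ Gc] [Cxf E Ec] [Cxf F Fc] [Cxf G Gc]

theorem HC4b_abslog {a B : ℝ} (hB : 2 ≤ B) (h0 : 0 < a) (ha : a ≤ B) (h1 : a⁻¹ ≤ B) :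
    |Real.log a| ≤ Real.log B := by
  rw [abs_le]
  constructor
  · have h2 : Real.log a⁻¹ ≤ Real.log B := Real.log_le_log (inv_pos.2 h0) h1
    rw [Real.log_inv] at h2
    linarith
  · exact Real.log_le_log h0 ha

/-- the extension of the logarithm -/
theorem HC4b_aux {f : E → ℝ} {x : E} {B : ℝ} (hB : 2 ≤ B) (hf : Hol f x B) (h0 : 0 < f x)
    (h1 : (f x)⁻¹ ≤ B) : ∃ L : Ec → ℂ, DifferentiableOn ℂ L (ball (j x) (1 / B ^ 6)) ∧
      (∀ z ∈ ball (j x : Ec) (1 / B ^ 6), ‖L z - ((Real.log (f x) : ℝ) : ℂ)‖ ≤ 1) ∧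
      (∀ y : E, (j y : Ec) ∈ ball (j x : Ec) (1 / B ^ 6) → 0 < f y ∧
        L (j y) = ((Real.log (f y) : ℝ) : ℂ)) := by
  obtain ⟨g, hg⟩ := hf
  have hB0 : 0 < B := by linarith
  have hgx : g (j x) = ((f x : ℝ) : ℂ) := hg.ext x (mem_ball_self (by positivity))
  have hsub : ball (j x : Ec) (1 / B ^ 6) ⊆ ball (j x : Ec) (1 / B) := by
    apply ball_subset_ball
    apply one_div_le_one_div_of_le hB0
    calc B = B ^ 1 := (pow_one B).symm
      _ ≤ B ^ 6 := pow_le_pow_right₀ (by linarith) (by norm_num)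
  have hfx : (f x : ℂ) ≠ 0 := by exact_mod_cast h0.ne'
  have hw : ∀ z ∈ ball (j x : Ec) (1 / B ^ 6), ‖g z / ((f x : ℝ) : ℂ) - 1‖ ≤ 1 / 2 := by
    intro z hz
    have h2 := hol_lip (by positivity : 0 < 1 / B) hg.diff hg.bound (hsub hz)
    rw [hgx] at h2
    have h3 : ‖z - j x‖ ≤ 1 / B ^ 6 := by
      have := mem_ball.1 hz
      rw [dist_eq_norm] at this
      exact this.le
    have h4 : g z / ((f x : ℝ) : ℂ) - 1 = (g z - ((f x : ℝ) : ℂ)) / ((f x : ℝ) : ℂ) := by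
      field_simp
    rw [h4, norm_div, Complex.norm_real, Real.norm_of_nonneg h0.le, div_eq_mul_inv]
    have h5 : ‖g z - ((f x : ℝ) : ℂ)‖ ≤ 3 * B / (1 / B) * (1 / B ^ 6) :=
      h2.trans (mul_le_mul_of_nonneg_left h3 (by positivity))
    calc ‖g z - ((f x : ℝ) : ℂ)‖ * (f x)⁻¹ ≤ 3 * B / (1 / B) * (1 / B ^ 6) * B :=
          mul_le_mul h5 h1 (by positivity) (by positivity)
      _ = 3 / B ^ 3 := by field_simp
      _ ≤ 1 / 2 := by
          rw [div_le_div_iff₀ (by positivity) (by norm_num)]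
          have : (2:ℝ) ^ 3 ≤ B ^ 3 := pow_le_pow_left₀ (by norm_num) hB 3
          linarith
  have hslit : ∀ z ∈ ball (j x : Ec) (1 / B ^ 6), g z / ((f x : ℝ) : ℂ) ∈ Complex.slitPlane := by
    intro z hz
    left
    have h2 := hw z hz
    have h3 := (abs_le.1 ((Complex.abs_re_le_norm _).trans h2)).1
    rw [Complex.sub_re, Complex.one_re] at h3
    linarith
  refine ⟨fun z => Complex.log (g z / ((f x : ℝ) : ℂ)) + ((Real.log (f x) : ℝ) : ℂ), ?_, ?_, ?_⟩
  · apply DifferentiableOn.add_const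
    have hd : DifferentiableOn ℂ (fun z => g z / ((f x : ℝ) : ℂ)) (ball (j x : Ec) (1 / B ^ 6)) := by
      simp only [div_eq_mul_inv (b := ((f x : ℝ) : ℂ))]
      exact (hg.diff.mono hsub).mul_const _
    exact hd.clog hslit
  · intro z hz
    rw [add_sub_cancel_right]
    have h2 := Complex.norm_log_one_add_half_le_self (hw z hz)
    rw [add_sub_cancel] at h2
    have h3 := hw z hz
    linarith
  · intro y hy
    have hgy : g (j y) = ((f y : ℝ) : ℂ) := hg.ext y (hsub hy)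
    have h2 := hw _ hy
    rw [hgy, ← Complex.ofReal_div, ← Complex.ofReal_one, ← Complex.ofReal_sub,
      Complex.norm_real, Real.norm_eq_abs, abs_le] at h2
    have h3 : 0 < f y / f x := by linarith [h2.1]
    have h4 : 0 < f y := by
      have := mul_pos h3 h0
      rwa [div_mul_cancel₀ _ h0.ne'] at this
    refine ⟨h4, ?_⟩
    show Complex.log (g (j y) / ((f x : ℝ) : ℂ)) + ((Real.log (f x) : ℝ) : ℂ) = _
    rw [hgy, ← Complex.ofReal_div, ← Complex.ofReal_log h3.le, ← Complex.ofReal_add,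
      Real.log_div h4.ne' h0.ne', sub_add_cancel]

theorem Hol_log {f : E → ℝ} {x : E} {B : ℝ} (hB : 2 ≤ B) (hf : Hol f x B) (h0 : 0 < f x)
    (h1 : (f x)⁻¹ ≤ B) : Hol (fun y => Real.log (f y)) x (B ^ 6) := by
  have hfB : f x ≤ B := by
    have := Hol_val (by linarith) hf
    exact (le_abs_self _).trans this
  obtain ⟨L, hL1, hL2, hL3⟩ := HC4b_aux hB hf h0 h1
  have hlog := HC4b_abslog hB h0 hfB h1
  have hlB : Real.log B ≤ B - 1 := Real.log_le_sub_one_of_pos (by linarith)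
  refine ⟨L, hL1, ?_, fun y hy => (hL3 y hy).2⟩
  intro z hz
  have h2 := norm_add_le (L z - ((Real.log (f x) : ℝ) : ℂ)) ((Real.log (f x) : ℝ) : ℂ)
  rw [sub_add_cancel, Complex.norm_real, Real.norm_eq_abs] at h2
  have h3 := hL2 z hz
  have h4 : B ≤ B ^ 6 := by
    calc B = B ^ 1 := (pow_one B).symm
      _ ≤ B ^ 6 := pow_le_pow_right₀ (by linarith) (by norm_num)
  linarith

theorem Hol_rpow {f : E → ℝ} {x : E} {B : ℝ} (hB : 2 ≤ B) (hf : Hol f x B) (h0 : 0 < f x)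
    (h1 : (f x)⁻¹ ≤ B) (c : ℝ) (hc : |c| ≤ 4) : Hol (fun y => f y ^ c) x (B ^ 12) := by
  have hB0 : 0 < B := by linarith
  have hfB : f x ≤ B := by
    have := Hol_val hB0 hf
    exact (le_abs_self _).trans this
  obtain ⟨L, hL1, hL2, hL3⟩ := HC4b_aux hB hf h0 h1
  have hlog := HC4b_abslog hB h0 hfB h1
  have hsub : ball (j x : Ec) (1 / B ^ 12) ⊆ ball (j x : Ec) (1 / B ^ 6) := by
    apply ball_subset_ball
    apply one_div_le_one_div_of_le (by positivity)
    exact pow_le_pow_right₀ (by linarith) (by norm_num)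
  refine ⟨fun z => Complex.exp ((c : ℂ) * L z), ?_, ?_, ?_⟩
  · exact ((hL1.mono hsub).const_mul _).cexp
  · intro z hz
    show ‖Complex.exp ((c : ℂ) * L z)‖ ≤ B ^ 12
    have h2 : ‖(c : ℂ) * L z‖ ≤ 4 * (1 + Real.log B) := by
      rw [norm_mul, Complex.norm_real, Real.norm_eq_abs]
      have h3 := norm_add_le (L z - ((Real.log (f x) : ℝ) : ℂ)) ((Real.log (f x) : ℝ) : ℂ)
      rw [sub_add_cancel, Complex.norm_real, Real.norm_eq_abs] at h3
      have h4 := hL2 z (hsub hz)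
      exact mul_le_mul hc (by linarith) (norm_nonneg _) (by norm_num)
    have h5 : ‖Complex.exp ((c : ℂ) * L z)‖ ≤ Real.exp (4 * (1 + Real.log B)) := by
      rw [Complex.norm_exp]
      apply Real.exp_le_exp.2
      exact (Complex.re_le_norm _).trans h2
    refine h5.trans ?_
    have h6 : Real.exp (4 * (1 + Real.log B)) = Real.exp 1 ^ 4 * B ^ 4 := by
      rw [mul_add, mul_one, Real.exp_add]
      congr 1
      · rw [← Real.exp_nat_mul]
        norm_num
      · rw [mul_comm, Real.exp_mul, Real.exp_log hB0]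
        norm_cast
    rw [h6]
    have h7 : Real.exp 1 ^ 4 ≤ B ^ 8 := by
      have h8 : Real.exp 1 ≤ B ^ 2 := by
        have := Real.exp_one_lt_d9
        nlinarith
      calc Real.exp 1 ^ 4 ≤ (B ^ 2) ^ 4 := pow_le_pow_left₀ (Real.exp_pos 1).le h8 4
        _ = B ^ 8 := by ring
    calc Real.exp 1 ^ 4 * B ^ 4 ≤ B ^ 8 * B ^ 4 := mul_le_mul_of_nonneg_right h7 (by positivity)
      _ = B ^ 12 := by ring
  · intro y hy
    obtain ⟨h2, h3⟩ := hL3 y (hsub hy)
    show Complex.exp ((c : ℂ) * L (j y)) = ((f y ^ c : ℝ) : ℂ)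
    rw [h3, Real.rpow_def_of_pos h2, Complex.ofReal_exp, ← Complex.ofReal_mul, mul_comm c]

theorem Hol_sqrt {f : E → ℝ} {x : E} {B : ℝ} (hB : 2 ≤ B) (hf : Hol f x B) (h0 : 0 < f x)
    (h1 : (f x)⁻¹ ≤ B) : Hol (fun y => √(f y)) x (B ^ 12) := by
  have h := Hol_rpow hB hf h0 h1 (1 / 2) (by rw [abs_of_pos] <;> norm_num)
  exact Hol_congr (fun y => (Real.sqrt_eq_rpow (f y)).symm) h

end H36
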