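import Pool.Agent.LibBE36.HC6

open Set Filter Topology Metric
open scoped ContDiff

namespace H36

variable {E F G Ec Fc Gc : Type} [NormedAddCommGroup E] [NormedSpace ℝ E] [NormedAddCommGroup F]
  [NormedSpace ℝ F] [NormedAddCommGroup G] [NormedSpace ℝ G] [NormedAddCommGroup Ec]
  [NormedSpace ℂ Ec] [NormedAddCommGroup Fc] [NormedSpace ℂ Fc] [NormedAddCommGroup Gc]
  [NormedSpace ℂ Gc] [Cxf E Ec] [Cxf F Fc] [Cxf G Gc]

/-- Holomorphic integrals. -/
theorem hol_int0 [FiniteDimensional ℂ Ec] [CompleteSpace Fc] {h : ℝ → Ec → Fc} {U : Set Ec}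
    (hU : IsOpen U) (hh : ∀ s ∈ Icc (0 : ℝ) 1, DifferentiableOn ℂ (h s) U)
    (hc : ContinuousOn (fun p : ℝ × Ec => h p.1 p.2) (Icc (0 : ℝ) 1 ×ˢ U)) {t : ℝ}
    (ht : t ∈ Icc (0 : ℝ) 1) : DifferentiableOn ℂ (fun z => ∫ s in (0 : ℝ)..t, h s z) U := by
  intro z0 hz0
  have hproper : ProperSpace Ec := FiniteDimensional.proper ℂ Ec
  obtain ⟨R, hR0, hR⟩ := Metric.isOpen_iff.1 hU z0 hz0
  set r : ℝ := R / 3 with hr
  have hr0 : 0 < r := by positivity
  have hsub : closedBall z0 (2 * r) ⊆ U := by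
    refine subset_trans ?_ hR
    exact closedBall_subset_ball (by rw [hr]; linarith)
  have hK : IsCompact (Icc (0 : ℝ) 1 ×ˢ closedBall z0 (2 * r)) :=
    isCompact_Icc.prod (isCompact_closedBall z0 (2 * r))
  have hcK : ContinuousOn (fun p : ℝ × Ec => h p.1 p.2) (Icc (0 : ℝ) 1 ×ˢ closedBall z0 (2 * r)) :=
    hc.mono (prod_mono le_rfl hsub)
  obtain ⟨B, hB⟩ := hK.exists_bound_of_continuousOn hcK
  have huI : uIcc (0 : ℝ) t ⊆ Icc 0 1 := by
    rw [uIcc_of_le ht.1]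
    exact Icc_subset_Icc_right ht.2
  have huO : uIoc (0 : ℝ) t ⊆ Icc 0 1 := uIoc_subset_uIcc.trans huI
  have hball : ∀ z ∈ ball z0 r, ball z r ⊆ closedBall z0 (2 * r) := by
    intro z hz w hw
    rw [mem_ball] at hz hw
    rw [mem_closedBall]
    have := dist_triangle w z z0
    linarith
  have hmemU : ∀ z ∈ ball z0 r, z ∈ U := fun z hz => hsub (hball z hz (mem_ball_self hr0))
  have hcz : ∀ z ∈ U, ContinuousOn (fun s => h s z) (Icc (0 : ℝ) 1) := by
    intro z hz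
    exact hc.comp (f := fun s : ℝ => (s, z)) (by fun_prop) (fun s hs => ⟨hs, hz⟩)
  have hderiv : ∀ s ∈ Icc (0 : ℝ) 1, ∀ z ∈ U, HasFDerivAt (h s) (fderiv ℂ (h s) z) z :=
    fun s hs z hz => ((hh s hs).differentiableAt (hU.mem_nhds hz)).hasFDerivAt
  have hcont : ContinuousOn (fun s => fderiv ℂ (h s) z0) (Icc (0 : ℝ) 1) := by
    rw [Metric.continuousOn_iff]
    intro s hs ε hε
    have huc := hK.uniformContinuousOn_of_continuous hcK
    rw [Metric.uniformContinuousOn_iff] at huc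
    obtain ⟨δ, hδ, hδ2⟩ := huc (ε * r / 2) (by positivity)
    refine ⟨δ, hδ, fun s' hs' hd => ?_⟩
    have h2 : DifferentiableOn ℂ (fun w => h s' w - h s w) (ball z0 r) :=
      ((hh s' hs').mono fun w hw => hmemU w hw).sub ((hh s hs).mono fun w hw => hmemU w hw)
    have h3 := hol_fd (Ec := Ec) (Fc := Fc) (B := ε * r / 2) hr0 h2 (fun w hw => by
      have hwc : w ∈ closedBall z0 (2 * r) := hball z0 (mem_ball_self hr0) hw
      have h4 := hδ2 (s', w) ⟨hs', hwc⟩ (s, w) ⟨hs, hwc⟩ (by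
        rw [Prod.dist_eq, dist_self, max_eq_left dist_nonneg]
        exact hd)
      rw [dist_eq_norm] at h4
      exact h4.le)
    have h5 : fderiv ℂ (fun w => h s' w - h s w) z0 = fderiv ℂ (h s') z0 - fderiv ℂ (h s) z0 :=
      ((hderiv s' hs' z0 hz0).sub (hderiv s hs z0 hz0)).fderiv
    rw [h5] at h3
    rw [dist_eq_norm]
    calc ‖fderiv ℂ (h s') z0 - fderiv ℂ (h s) z0‖ ≤ ε * r / 2 / r := h3
      _ = ε / 2 := by
          field_simp
      _ < ε := by linarith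
  have hmain := intervalIntegral.hasFDerivAt_integral_of_dominated_of_fderiv_le
    (𝕜 := ℂ) (μ := MeasureTheory.volume) (F := fun z s => h s z) (F' := fun z s => fderiv ℂ (h s) z)
    (x₀ := z0) (a := 0) (b := t) (s := ball z0 r) (bound := fun _ => B / r)
    (ball_mem_nhds z0 hr0)
    (by
      filter_upwards [ball_mem_nhds z0 hr0] with z hz
      exact ((hcz z (hmemU z hz)).mono huO).aestronglyMeasurable measurableSet_uIoc)
    ((hcz z0 hz0).mono huI).intervalIntegrable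
    ((hcont.mono huO).aestronglyMeasurable measurableSet_uIoc)
    (Eventually.of_forall fun s hs z hz =>
      hol_fd hr0 ((hh s (huO hs)).mono ((hball z hz).trans hsub))
        (fun w hw => hB (s, w) ⟨huO hs, hball z hz hw⟩))
    intervalIntegrable_const
    (Eventually.of_forall fun s hs z hz => hderiv s (huO hs) z (hmemU z hz))
  exact hmain.differentiableAt.differentiableWithinAt

theorem HC6b_clm : ∃ L : F →L[ℝ] Fc, ∀ x, L x = j x := by
  refine ⟨LinearMap.mkContinuous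
    { toFun := fun x => (j x : Fc)
      map_add' := fun x y => Cxf.j_add x y
      map_smul' := fun r x => by
        rw [Cxf.j_smul, RingHom.id_apply, Complex.coe_smul] } 1 (fun x => ?_), fun x => rfl⟩
  rw [one_mul]
  exact (Cxf.j_norm (Ec := Fc) x).le

theorem Hol_int [FiniteDimensional ℂ Ec] [CompleteSpace F] [CompleteSpace Fc] {Φ : ℝ × E → F}
    {x : E} {B : ℝ} (hB : 2 ≤ B)
    (hs : ContDiff ℝ ∞ Φ) (h : ∀ r ∈ Icc (0 : ℝ) 1, Hol Φ (r, x) B) :
    Hol (fun y => ∫ r in (0 : ℝ)..1, Φ (r, y)) x B := by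
  have hB0 : 0 < B := by linarith
  obtain ⟨g, hg⟩ : HolT Φ (Icc (0 : ℝ) 1 ×ˢ {x}) B := glue hB0 (fun p hp => by
    have hp2 : p = (p.1, x) := Prod.ext rfl hp.2
    rw [hp2]
    exact h p.1 hp.1)
  have hmem : ∀ s ∈ Icc (0 : ℝ) 1, ∀ z ∈ ball (j x : Ec) (1 / B),
      (((s : ℂ), z) : ℂ × Ec) ∈ thickening (1 / B) ((j : ℝ × E → ℂ × Ec) '' (Icc (0 : ℝ) 1 ×ˢ {x})) := by
    intro s hs' z hz
    rw [mem_thickening_iff]
    refine ⟨j ((s, x) : ℝ × E), mem_image_of_mem _ ⟨hs', rfl⟩, ?_⟩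
    have h1 : (j ((s, x) : ℝ × E) : ℂ × Ec) = ((s : ℂ), j x) := rfl
    rw [h1, Prod.dist_eq, dist_self, max_eq_right dist_nonneg]
    exact hz
  have hgc : ContinuousOn g (thickening (1 / B) ((j : ℝ × E → ℂ × Ec) '' (Icc (0 : ℝ) 1 ×ˢ {x}))) :=
    hg.diff.continuousOn
  refine ⟨fun z => ∫ s in (0 : ℝ)..1, g ((s : ℂ), z), ?_, ?_, ?_⟩
  · apply hol_int0 (h := fun s z => g ((s : ℂ), z)) isOpen_ball _ _ ⟨zero_le_one, le_rfl⟩
    · intro s hs'
      exact hg.diff.comp (f := fun z : Ec => ((s : ℂ), z))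
        ((differentiableOn_const _).prodMk differentiableOn_id) (fun z hz => hmem s hs' z hz)
    · exact hgc.comp (f := fun p : ℝ × Ec => ((p.1 : ℂ), p.2)) (by fun_prop)
        (fun p hp => hmem p.1 hp.1 p.2 hp.2)
  · intro z hz
    have h1 := intervalIntegral.norm_integral_le_of_norm_le_const (a := (0 : ℝ)) (b := 1) (C := B)
      (f := fun s : ℝ => g ((s : ℂ), z)) (fun s hs' => by
        rw [uIoc_of_le zero_le_one] at hs'
        exact hg.bound _ (hmem s ⟨hs'.1.le, hs'.2⟩ z hz))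
    simpa using h1
  · intro y hy
    obtain ⟨L, hL⟩ := HC6b_clm (F := F) (Fc := Fc)
    have h1 : (∫ s in (0 : ℝ)..1, g ((s : ℂ), j y)) = ∫ s in (0 : ℝ)..1, L (Φ (s, y)) := by
      apply intervalIntegral.integral_congr
      intro s hs'
      rw [uIcc_of_le zero_le_one] at hs'
      have h2 := hg.ext (s, y) (hmem s hs' (j y) hy)
      exact h2.trans (hL _).symm
    show (∫ s in (0 : ℝ)..1, g ((s : ℂ), j y)) = j (∫ r in (0 : ℝ)..1, Φ (r, y))
    rw [h1, L.intervalIntegral_comp_comm, hL]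
    apply Continuous.intervalIntegrable
    exact hs.continuous.comp (by fun_prop)

end H36
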