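import Pool.Agent.LibBE36.HC2b
import Pool.Agent.LibBE36.HC4b
import Pool.Agent.LibBE36.HC5b
import Pool.Agent.LibBE36.HC6b
import Pool.Agent.LibBE88.C5

open Set Filter Topology Metric
open scoped ContDiff

namespace H36

variable {ι E F G Ec Fc Gc : Type} [NormedAddCommGroup E] [NormedSpace ℝ E] [NormedAddCommGroup F]
  [NormedSpace ℝ F] [NormedAddCommGroup G] [NormedSpace ℝ G] [NormedAddCommGroup Ec]
  [NormedSpace ℂ Ec] [NormedAddCommGroup Fc] [NormedSpace ℂ Fc] [NormedAddCommGroup Gc]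
  [NormedSpace ℂ Gc] [Cxf E Ec] [Cxf F Fc] [Cxf G Gc] {M : ι → ℝ} {x : ι → E}

private theorem HC10_nn (hM : ∀ i, 2 ≤ M i) (i : ι) : 0 ≤ M i := by linarith [hM i]

private theorem HC10_pos (hM : ∀ i, 2 ≤ M i) (i : ι) (a : ℕ) : 0 < M i ^ a :=
  pow_pos (by linarith [hM i]) a

private theorem HC10_one (hM : ∀ i, 2 ≤ M i) (i : ι) (a : ℕ) : 1 ≤ M i ^ a :=
  one_le_pow₀ (by linarith [hM i])

private theorem HC10_le (hM : ∀ i, 2 ≤ M i) (i : ι) {a b : ℕ} (h : a ≤ b) :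
    M i ^ a ≤ M i ^ b :=
  pow_le_pow_right₀ (by linarith [hM i]) h

private theorem HC10_two (hM : ∀ i, 2 ≤ M i) (i : ι) (a : ℕ) : 2 * M i ^ a ≤ M i ^ (a + 1) := by
  rw [pow_succ, mul_comm]
  exact mul_le_mul_of_nonneg_left (hM i) (HC10_pos hM i a).le

private theorem HC10_ge (hM : ∀ i, 2 ≤ M i) (i : ι) (a : ℕ) : 2 ≤ M i ^ (a + 1) := by
  have h1 := HC10_two hM i a
  have h2 := HC10_one hM i a
  linarith

private theorem HC10_pow {f : E → F} {y : E} {m : ℝ} (hm : 2 ≤ m) {a b : ℕ} (h : a ≤ b)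
    (hf : Hol f y (m ^ a)) : Hol f y (m ^ b) :=
  Hol_mono (pow_pos (by linarith) a) (pow_le_pow_right₀ (by linarith) h) hf

private theorem HC10_up {f : E → F} {y : E} (hM : ∀ i, 2 ≤ M i) (i : ι) {a b : ℕ} (h : a ≤ b)
    (hf : Hol f y (M i ^ a)) : Hol f y (M i ^ b) :=
  HC10_pow (hM i) h hf

theorem HB_mono {M' : ι → ℝ} (hM : ∀ i, 2 ≤ M i) (hM' : ∀ i, 2 ≤ M' i)
    (h : ∃ A : ℕ, ∀ i, M i ≤ M' i ^ A) {f : ι → E → F} (hf : HB M f x) : HB M' f x := by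
  obtain ⟨A, hA⟩ := h
  obtain ⟨hs, a, ha⟩ := hf
  refine ⟨hs, A * a, fun i => ?_⟩
  refine Hol_mono (HC10_pos hM i a) ?_ (ha i)
  rw [pow_mul]
  exact pow_le_pow_left₀ (HC10_nn hM i) (hA i) a

theorem HB_congr {f g : ι → E → F} (h : ∀ i y, f i y = g i y) (hf : HB M f x) : HB M g x := by
  obtain ⟨hs, a, ha⟩ := hf
  refine ⟨fun i => ?_, a, fun i => Hol_congr (h i) (ha i)⟩
  have h1 : g i = f i := funext fun y => (h i y).symm
  rw [h1]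
  exact hs i

theorem HB_pull {ι' : Type} {f : ι → E → F} (hf : HB M f x) (φ : ι' → ι) :
    HB (fun i => M (φ i)) (fun i => f (φ i)) (fun i => x (φ i)) := by
  obtain ⟨hs, a, ha⟩ := hf
  exact ⟨fun i => hs (φ i), a, fun i => ha (φ i)⟩

theorem HB_val (hM : ∀ i, 2 ≤ M i) {f : ι → E → F} (hf : HB M f x) :
    ∃ A : ℕ, ∀ i, ‖f i (x i)‖ ≤ M i ^ A := by
  obtain ⟨hs, a, ha⟩ := hf
  exact ⟨a, fun i => Hol_val (HC10_pos hM i a) (ha i)⟩

theorem HB_const (hM : ∀ i, 2 ≤ M i) (c : ι → F) (hc : ∃ A : ℕ, ∀ i, ‖c i‖ ≤ M i ^ A) :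
    HB M (fun i (_ : E) => c i) x := by
  obtain ⟨a, ha⟩ := hc
  exact ⟨fun i => contDiff_const, a, fun i => Hol_const (c i) (ha i)⟩

theorem HB_id (hM : ∀ i, 2 ≤ M i) (hx : ∃ A : ℕ, ∀ i, ‖x i‖ ≤ M i ^ A) :
    HB M (fun _ y => y) x := by
  obtain ⟨a, ha⟩ := hx
  refine ⟨fun i => contDiff_id, a + 1, fun i => Hol_id (HC10_one hM i _) ?_⟩
  have h1 := HC10_one hM i a
  have h2 := HC10_two hM i a
  linarith [ha i]

theorem HB_prod (hM : ∀ i, 2 ≤ M i) {f : ι → E → F} {g : ι → E → G} (hf : HB M f x)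
    (hg : HB M g x) : HB M (fun i y => (f i y, g i y)) x := by
  obtain ⟨hs, a, ha⟩ := hf
  obtain ⟨ht, b, hb⟩ := hg
  refine ⟨fun i => (hs i).prodMk (ht i), a + b, fun i => ?_⟩
  exact Hol_prod (HC10_up hM i (Nat.le_add_right a b) (ha i))
    (HC10_up hM i (Nat.le_add_left b a) (hb i))

theorem HB_fst (hM : ∀ i, 2 ≤ M i) {f : ι → E → F × G} (hf : HB M f x) :
    HB M (fun i y => (f i y).1) x := by
  obtain ⟨hs, a, ha⟩ := hf
  exact ⟨fun i => contDiff_fst.comp (hs i), a, fun i => Hol_fst (ha i)⟩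

theorem HB_snd (hM : ∀ i, 2 ≤ M i) {f : ι → E → F × G} (hf : HB M f x) :
    HB M (fun i y => (f i y).2) x := by
  obtain ⟨hs, a, ha⟩ := hf
  exact ⟨fun i => contDiff_snd.comp (hs i), a, fun i => Hol_snd (ha i)⟩

theorem HB_pi (hM : ∀ i, 2 ≤ M i) {n : ℕ} {f : ι → Fin n → E → F}
    (hf : HB (fun q : ι × Fin n => M q.1) (fun q => f q.1 q.2) (fun q => x q.1)) :
    HB M (fun i y k => f i k y) x := by
  obtain ⟨hs, a, ha⟩ := hf
  refine ⟨fun i => contDiff_pi.2 fun k => hs (i, k), a, fun i => ?_⟩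
  exact Hol_pi (HC10_pos hM i a).le fun k => ha (i, k)

theorem HB_add (hM : ∀ i, 2 ≤ M i) {f g : ι → E → F} (hf : HB M f x) (hg : HB M g x) :
    HB M (fun i y => f i y + g i y) x := by
  obtain ⟨hs, a, ha⟩ := hf
  obtain ⟨ht, b, hb⟩ := hg
  refine ⟨fun i => (hs i).add (ht i), (a + b + 1) * 2, fun i => ?_⟩
  rw [pow_mul]
  exact Hol_add (HC10_ge hM i (a + b)) (HC10_up hM i (by omega) (ha i))
    (HC10_up hM i (by omega) (hb i))

theorem HB_sub (hM : ∀ i, 2 ≤ M i) {f g : ι → E → F} (hf : HB M f x) (hg : HB M g x) :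
    HB M (fun i y => f i y - g i y) x := by
  obtain ⟨hs, a, ha⟩ := hf
  obtain ⟨ht, b, hb⟩ := hg
  refine ⟨fun i => (hs i).sub (ht i), (a + b + 1) * 2, fun i => ?_⟩
  rw [pow_mul]
  exact Hol_sub (HC10_ge hM i (a + b)) (HC10_up hM i (by omega) (ha i))
    (HC10_up hM i (by omega) (hb i))

theorem HB_clm (hM : ∀ i, 2 ≤ M i) {f : ι → E → F} (hf : HB M f x) (L : ι → F →L[ℝ] G)
    (hL : ∃ A : ℕ, ∀ i, ‖L i‖ ≤ M i ^ A) : HB M (fun i y => L i (f i y)) x := by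
  obtain ⟨hs, a, ha⟩ := hf
  obtain ⟨b, hb⟩ := hL
  refine ⟨fun i => (L i).contDiff.comp (hs i), (a + b + 1) * 2, fun i => ?_⟩
  rw [pow_mul]
  refine Hol_clm (HC10_ge hM i (a + b)) (HC10_up hM i (by omega) (ha i)) (L i) ?_
  have h1 := HC10_le hM i (show b ≤ a + b by omega)
  have h2 := HC10_two hM i (a + b)
  linarith [hb i]

theorem HB_sum (hM : ∀ i, 2 ≤ M i) {κ : Type} (s : Finset κ) {f : κ → ι → E → F}
    (hf : ∀ a ∈ s, HB M (f a) x) : HB M (fun i y => ∑ a ∈ s, f a i y) x := by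
  classical
  induction s using Finset.induction_on with
  | empty =>
    refine HB_congr (f := fun _ (_ : E) => (0 : F)) (fun i y => by simp)
      (HB_const hM (fun _ => (0 : F)) ⟨0, fun i => ?_⟩)
    rw [norm_zero]
    exact (HC10_pos hM i 0).le
  | insert a s has ih =>
    have h1 := HB_add hM (hf a (Finset.mem_insert_self a s))
      (ih fun b hb => hf b (Finset.mem_insert_of_mem hb))
    refine HB_congr (fun i y => ?_) h1
    rw [Finset.sum_insert has]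

theorem HB_smul (hM : ∀ i, 2 ≤ M i) {f : ι → E → ℝ} {g : ι → E → F} (hf : HB M f x)
    (hg : HB M g x) : HB M (fun i y => f i y • g i y) x := by
  obtain ⟨hs, a, ha⟩ := hf
  obtain ⟨ht, b, hb⟩ := hg
  refine ⟨fun i => (hs i).smul (ht i), (a + b + 1) * 2, fun i => ?_⟩
  rw [pow_mul]
  exact Hol_smul (HC10_ge hM i (a + b)) (HC10_up hM i (by omega) (ha i))
    (HC10_up hM i (by omega) (hb i))

theorem HB_mul (hM : ∀ i, 2 ≤ M i) {f g : ι → E → ℝ} (hf : HB M f x) (hg : HB M g x) :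
    HB M (fun i y => f i y * g i y) x := by
  obtain ⟨hs, a, ha⟩ := hf
  obtain ⟨ht, b, hb⟩ := hg
  refine ⟨fun i => (hs i).mul (ht i), (a + b + 1) * 2, fun i => ?_⟩
  rw [pow_mul]
  exact Hol_mul (HC10_ge hM i (a + b)) (HC10_up hM i (by omega) (ha i))
    (HC10_up hM i (by omega) (hb i))

theorem HB_comp (hM : ∀ i, 2 ≤ M i) {g : ι → F → G} {f : ι → E → F}
    (hg : HB M g (fun i => f i (x i))) (hf : HB M f x) : HB M (fun i y => g i (f i y)) x := by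
  obtain ⟨hs, a, ha⟩ := hf
  obtain ⟨ht, b, hb⟩ := hg
  refine ⟨fun i => (ht i).comp (hs i), (a + b + 1) * 5, fun i => ?_⟩
  rw [pow_mul]
  exact Hol_comp (HC10_ge hM i (a + b)) (HC10_up hM i (by omega) (ha i))
    (HC10_up hM i (by omega) (hb i))

theorem HB_inv (hM : ∀ i, 2 ≤ M i) {f : ι → E → ℝ} (hf : HB M f x) (h0 : ∀ i y, f i y ≠ 0)
    (hc : ∃ A : ℕ, ∀ i, |f i (x i)|⁻¹ ≤ M i ^ A) : HB M (fun i y => (f i y)⁻¹) x := by
  obtain ⟨hs, a, ha⟩ := hf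
  obtain ⟨b, hb⟩ := hc
  refine ⟨fun i => (hs i).inv (h0 i), (a + b + 1) * 6, fun i => ?_⟩
  rw [pow_mul]
  exact Hol_inv (HC10_ge hM i (a + b)) (HC10_up hM i (by omega) (ha i)) (h0 i _)
    ((hb i).trans (HC10_le hM i (by omega)))

theorem HB_exp (hM : ∀ i, 2 ≤ M i) {f : ι → E → ℝ} (hf : HB M f x)
    (hc : ∃ A : ℕ, ∀ i, Real.exp (f i (x i)) ≤ M i ^ A) :
    HB M (fun i y => Real.exp (f i y)) x := by
  obtain ⟨hs, a, ha⟩ := hf
  obtain ⟨b, hb⟩ := hc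
  refine ⟨fun i => Real.contDiff_exp.comp (hs i), (a + b + 1) * 6, fun i => ?_⟩
  rw [pow_mul]
  exact Hol_exp (HC10_ge hM i (a + b)) (HC10_up hM i (by omega) (ha i))
    ((hb i).trans (HC10_le hM i (by omega)))

theorem HB_log (hM : ∀ i, 2 ≤ M i) {f : ι → E → ℝ} (hf : HB M f x) (h0 : ∀ i y, 0 < f i y)
    (hc : ∃ A : ℕ, ∀ i, (f i (x i))⁻¹ ≤ M i ^ A) : HB M (fun i y => Real.log (f i y)) x := by
  obtain ⟨hs, a, ha⟩ := hf
  obtain ⟨b, hb⟩ := hc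
  refine ⟨fun i => (hs i).log fun y => (h0 i y).ne', (a + b + 1) * 6, fun i => ?_⟩
  rw [pow_mul]
  exact Hol_log (HC10_ge hM i (a + b)) (HC10_up hM i (by omega) (ha i)) (h0 i _)
    ((hb i).trans (HC10_le hM i (by omega)))

theorem HB_rpow (hM : ∀ i, 2 ≤ M i) {f : ι → E → ℝ} (hf : HB M f x) (h0 : ∀ i y, 0 < f i y)
    (hc : ∃ A : ℕ, ∀ i, (f i (x i))⁻¹ ≤ M i ^ A) (c : ℝ) (h4 : |c| ≤ 4) :
    HB M (fun i y => f i y ^ c) x := by
  obtain ⟨hs, a, ha⟩ := hf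
  obtain ⟨b, hb⟩ := hc
  refine ⟨fun i => (hs i).rpow_const_of_ne fun y => (h0 i y).ne', (a + b + 1) * 12, fun i => ?_⟩
  rw [pow_mul]
  exact Hol_rpow (HC10_ge hM i (a + b)) (HC10_up hM i (by omega) (ha i)) (h0 i _)
    ((hb i).trans (HC10_le hM i (by omega))) c h4

theorem HB_sqrt (hM : ∀ i, 2 ≤ M i) {f : ι → E → ℝ} (hf : HB M f x) (h0 : ∀ i y, 0 < f i y)
    (hc : ∃ A : ℕ, ∀ i, (f i (x i))⁻¹ ≤ M i ^ A) : HB M (fun i y => √(f i y)) x := by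
  obtain ⟨hs, a, ha⟩ := hf
  obtain ⟨b, hb⟩ := hc
  refine ⟨fun i => (hs i).sqrt fun y => (h0 i y).ne', (a + b + 1) * 12, fun i => ?_⟩
  rw [pow_mul]
  exact Hol_sqrt (HC10_ge hM i (a + b)) (HC10_up hM i (by omega) (ha i)) (h0 i _)
    ((hb i).trans (HC10_le hM i (by omega)))

theorem HB_dir [FiniteDimensional ℂ Ec] [CompleteSpace Fc] (hM : ∀ i, 2 ≤ M i) {f : ι → E → F}
    (hf : HB M f x) (v : ι → E) (hv : ∃ A : ℕ, ∀ i, ‖v i‖ ≤ M i ^ A) :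
    HB M (fun i y => fderiv ℝ (f i) y (v i)) x := by
  obtain ⟨hs, a, ha⟩ := hf
  obtain ⟨b, hb⟩ := hv
  refine ⟨fun i => ?_, (a + b + 1) * 4, fun i => ?_⟩
  · exact ((hs i).fderiv_right (m := ∞) (by simp)).clm_apply contDiff_const
  rw [pow_mul]
  exact Hol_dir ((hs i).differentiable (by simp)) (HC10_ge hM i (a + b))
    (HC10_up hM i (by omega) (ha i)) (v i) ((hb i).trans (HC10_le hM i (by omega)))

theorem HB_iter [FiniteDimensional ℂ Ec] [CompleteSpace Fc] (hM : ∀ i, 2 ≤ M i) {f : ι → E → F}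
    (hf : HB M f x) (k : ℕ) : ∃ A : ℕ, ∀ i, ‖iteratedFDeriv ℝ k (f i) (x i)‖ ≤ M i ^ A := by
  obtain ⟨hs, a, ha⟩ := hf
  refine ⟨k * k + (a + 1) * (k + 1), fun i => ?_⟩
  have h1 := Hol_iter (hs i) k (HC10_ge hM i a) (HC10_up hM i (Nat.le_succ a) (ha i))
  refine h1.trans ?_
  rw [pow_add (M i) (k * k) ((a + 1) * (k + 1)), pow_mul (M i) k k,
    pow_mul (M i) (a + 1) (k + 1)]
  have h2 : ((k : ℝ) + 1) ≤ M i ^ k := by
    have h3 : ((k : ℝ) + 1) ≤ 2 ^ k := by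
      have h4 : k + 1 ≤ 2 ^ k := Nat.lt_two_pow_self
      exact_mod_cast h4
    exact h3.trans (pow_le_pow_left₀ (by norm_num) (hM i) k)
  have h5 : (0 : ℝ) ≤ (k : ℝ) + 1 := by positivity
  have h6 : (0 : ℝ) ≤ (M i ^ (a + 1)) ^ (k + 1) := pow_nonneg (HC10_pos hM i _).le _
  exact mul_le_mul_of_nonneg_right (pow_le_pow_left₀ h5 h2 k) h6

theorem HB_int [FiniteDimensional ℝ E] [FiniteDimensional ℂ Ec] [CompleteSpace F]
    [CompleteSpace Fc] (hM : ∀ i, 2 ≤ M i) {Φ : ι → ℝ × E → F}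
    (hb : HB (fun q : ι × Icc (0 : ℝ) 1 => M q.1) (fun q => Φ q.1)
      (fun q => ((q.2 : ℝ), x q.1))) :
    HB M (fun i y => ∫ r in (0 : ℝ)..1, Φ i (r, y)) x := by
  obtain ⟨hs, a, ha⟩ := hb
  have hs' : ∀ i, ContDiff ℝ ∞ (Φ i) := fun i => hs (i, ⟨0, ⟨le_rfl, zero_le_one⟩⟩)
  refine ⟨fun i => BE.int_smooth (hs' i), a + 1, fun i => ?_⟩
  refine Hol_int (HC10_ge hM i a) (hs' i) fun r hr => ?_
  exact HC10_pow (hM i) (Nat.le_succ a) (ha (i, ⟨r, hr⟩))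

/-- From points to tubes. -/
theorem HT_of {K : ι → Set E} {f : ι → E → F} (hM : ∀ i, 2 ≤ M i) (hs : ∀ i, ContDiff ℝ ∞ (f i))
    (hf : HB (fun q : (i : ι) × K i => M q.1) (fun q => f q.1) (fun q => (q.2 : E))) :
    HT M f K := by
  obtain ⟨-, a, ha⟩ := hf
  refine ⟨hs, a, fun i => glue (HC10_pos hM i a) fun y hy => ?_⟩
  exact ha ⟨i, ⟨y, hy⟩⟩

end H36
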