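import Pool.Agent.LibBE36.HC8
import Pool.Agent.LibBE36.HC9b
import Pool.Agent.LibBE36.HC10
import Pool.Agent.LibBE88.C2

open Set Filter Topology Metric
open scoped ContDiff

namespace H36

open BE (In Le)

theorem HC11_fst {E F G Ec Fc Gc : Type} [NormedAddCommGroup E] [NormedSpace ℝ E]
    [NormedAddCommGroup F] [NormedSpace ℝ F] [NormedAddCommGroup G] [NormedSpace ℝ G]
    [NormedAddCommGroup Ec] [NormedSpace ℂ Ec] [NormedAddCommGroup Fc] [NormedSpace ℂ Fc]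
    [NormedAddCommGroup Gc] [NormedSpace ℂ Gc] [Cxf E Ec] [Cxf F Fc] [Cxf G Gc]
    {f : E → F} {x : E} (a : G) {B : ℝ} (hf : Hol f x B) :
    Hol (fun p : E × G => f p.1) (x, a) B := by
  obtain ⟨g, hg⟩ := hf
  have hball : ∀ z : Ec × Gc, z ∈ ball (j (x, a) : Ec × Gc) (1 / B) → z.1 ∈ ball (j x : Ec) (1 / B) := by
    intro z hz
    rw [mem_ball] at hz ⊢
    exact lt_of_le_of_lt (le_max_left _ _) hz
  refine ⟨fun z => g z.1, ?_, ?_, ?_⟩
  · exact hg.diff.comp differentiableOn_fst fun z hz => hball z hz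
  · intro z hz
    exact hg.bound _ (hball z hz)
  · intro y hy
    exact hg.ext y.1 (hball _ hy)

theorem HC11_proj {E F Ec Fc : Type} [NormedAddCommGroup E] [NormedSpace ℝ E]
    [NormedAddCommGroup F] [NormedSpace ℝ F] [NormedAddCommGroup Ec] [NormedSpace ℂ Ec]
    [NormedAddCommGroup Fc] [NormedSpace ℂ Fc] [Cxf E Ec] [Cxf F Fc] {n : ℕ}
    (x : E) (a : Fin n → F) {B : ℝ} (k : Fin n) (h : ‖a k‖ + 1 ≤ B) :
    Hol (fun p : E × (Fin n → F) => p.2 k) (x, a) B := by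
  have hB : 1 ≤ B := by linarith [norm_nonneg (a k)]
  have hB1 : 1 / B ≤ 1 := by
    rw [div_le_one (by linarith)]
    exact hB
  refine ⟨fun z => z.2 k, ?_, ?_, ?_⟩
  · exact (by fun_prop : Differentiable ℂ fun z : Ec × (Fin n → Fc) => z.2 k).differentiableOn
  · intro z hz
    rw [mem_ball] at hz
    have h1 : dist z.2 (j a : Fin n → Fc) < 1 / B := lt_of_le_of_lt (le_max_right _ _) hz
    have h2 : dist (z.2 k) (j (a k) : Fc) < 1 / B := lt_of_le_of_lt (dist_le_pi_dist z.2 (j a : Fin n → Fc) k) h1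
    rw [dist_eq_norm] at h2
    have h3 : ‖z.2 k‖ ≤ ‖z.2 k - (j (a k) : Fc)‖ + ‖(j (a k) : Fc)‖ := by
      have := norm_add_le (z.2 k - (j (a k) : Fc)) (j (a k) : Fc)
      rwa [sub_add_cancel] at this
    rw [Cxf.j_norm] at h3
    linarith
  · intro y _
    rfl

/-- the chain for one parameter -/
theorem HC11_one {E F Q Ec Fc Qc : Type} [NormedAddCommGroup E] [NormedSpace ℝ E]
    [NormedAddCommGroup F] [NormedSpace ℝ F] [FiniteDimensional ℝ F]
    [NormedAddCommGroup Q] [NormedSpace ℝ Q] [NormedAddCommGroup Ec] [NormedSpace ℂ Ec]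
    [FiniteDimensional ℂ Ec] [NormedAddCommGroup Fc] [NormedSpace ℂ Fc] [FiniteDimensional ℂ Fc]
    [NormedAddCommGroup Qc] [NormedSpace ℂ Qc] [Cxf E Ec] [Cxf F Fc] [Cxf Q Qc]
    {n : ℕ} {x : E} {w : ℕ → E → F} {π : E → Q} {G : ℕ → Q × F × F × F → F} {B : ℝ} (hB : 2 ≤ B)
    (hπ : Hol π x B) (hπs : ContDiff ℝ ∞ π)
    (hG : ∀ i, 1 ≤ i → i < n + 1 → Hol (G i) (π x, w (i - 1) x, w i x, w (i + 1) x) B)
    (hGs : ∀ i, 1 ≤ i → i < n + 1 → ContDiff ℝ ∞ (G i)) (hw : ∀ i, ContDiff ℝ ∞ (w i))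
    (heq : ∀ i, 1 ≤ i → i < n + 1 → ∀ y, G i (π y, w (i - 1) y, w i y, w (i + 1) y) = 0)
    (h0 : Hol (w 0) x B) (h1 : Hol (w (n + 1)) x B) (hb : ∀ i ≤ n + 1, ‖w i x‖ + 1 ≤ B)
    (hinv : ∀ (v : ℕ → F) (R : ℝ), ‖v 0‖ ≤ R → ‖v (n + 1)‖ ≤ R →
      (∀ i, 1 ≤ i → i < n + 1 →
        ‖fderiv ℝ (G i) (π x, w (i - 1) x, w i x, w (i + 1) x) (0, v (i - 1), v i, v (i + 1))‖ ≤ R) →
      ∀ i ≤ n + 1, ‖v i‖ ≤ B * R) :
    ∀ i ≤ n + 1, Hol (w i) x (B ^ 100) := by
  classical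
  have hB1 : 1 ≤ B := by linarith
  have hB0 : 0 < B := by linarith
  have hB5 : 2 ≤ B ^ 5 := by
    have h1 := pow_le_pow_left₀ (by norm_num) hB 5
    have h2 : (2 : ℝ) ≤ 2 ^ 5 := by norm_num
    exact h2.trans h1
  have hle5 : B ≤ B ^ 5 := by
    have := pow_le_pow_right₀ hB1 (show 1 ≤ 5 by norm_num)
    rwa [pow_one] at this
  have hle100 : B ≤ B ^ 100 := by
    have := pow_le_pow_right₀ hB1 (show 1 ≤ 100 by norm_num)
    rwa [pow_one] at this
  obtain ⟨U, hU⟩ : ∃ U : ℕ → E × (Fin n → F) → F, U = fun i p =>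
      if h : 1 ≤ i ∧ i ≤ n then p.2 ⟨i - 1, by omega⟩ else w i p.1 := ⟨_, rfl⟩
  obtain ⟨V, hV⟩ : ∃ V : (Fin n → F) → ℕ → F, V = fun v i =>
      if h : 1 ≤ i ∧ i ≤ n then v ⟨i - 1, by omega⟩ else 0 := ⟨_, rfl⟩
  obtain ⟨W, hW⟩ : ∃ W : E → Fin n → F, W = fun y (k : Fin n) => w (k + 1) y := ⟨_, rfl⟩
  have hUW : ∀ i y, U i (y, W y) = w i y := by
    intro i y
    rw [hU, hW]
    simp only
    split
    · rename_i h
      congr 1
      omega
    · rfl
  have hUhol : ∀ i ≤ n + 1, Hol (U i) (x, W x) B := by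
    intro i hi
    rw [hU]
    by_cases h : 1 ≤ i ∧ i ≤ n
    · simp only [h, and_self, dite_true]
      refine HC11_proj x (W x) ⟨i - 1, by omega⟩ ?_
      have e : W x ⟨i - 1, by omega⟩ = w i x := by
        rw [hW]
        simp only
        congr 1
        omega
      rw [e]
      exact hb i hi
    · simp only [h, dite_false]
      have h' : i = 0 ∨ i = n + 1 := by omega
      rcases h' with h' | h'
      · rw [h']
        exact HC11_fst (W x) h0
      · rw [h']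
        exact HC11_fst (W x) h1
  have hUd : ∀ i, ∃ L : E × (Fin n → F) →L[ℝ] F, HasFDerivAt (U i) L (x, W x) ∧ ∀ v, L (0, v) = V v i := by
    intro i
    by_cases h : 1 ≤ i ∧ i ≤ n
    · refine ⟨(ContinuousLinearMap.proj (R := ℝ) (φ := fun _ : Fin n => F) ⟨i - 1, by omega⟩).comp
        (ContinuousLinearMap.snd ℝ E (Fin n → F)), ?_, ?_⟩
      · have e : U i = fun p => ((ContinuousLinearMap.proj (R := ℝ) (φ := fun _ : Fin n => F) ⟨i - 1, by omega⟩).comp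
            (ContinuousLinearMap.snd ℝ E (Fin n → F))) p := by
          funext p
          rw [hU]
          simp only [h, and_self, dite_true]
          rfl
        rw [e]
        exact ContinuousLinearMap.hasFDerivAt _
      · intro v
        rw [hV]
        simp only [h, and_self, dite_true]
        rfl
    · refine ⟨(fderiv ℝ (w i) x).comp (ContinuousLinearMap.fst ℝ E (Fin n → F)), ?_, ?_⟩
      · have e : U i = (w i) ∘ Prod.fst := by
          funext p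
          rw [hU]
          simp only [h, dite_false]
          rfl
        rw [e]
        have h2 : HasFDerivAt (w i) (fderiv ℝ (w i) x) ((x, W x) : E × (Fin n → F)).1 :=
          ((hw i).differentiable (by simp) x).hasFDerivAt
        exact h2.comp (x, W x) hasFDerivAt_fst
      · intro v
        rw [hV]
        simp only [h, dite_false]
        show fderiv ℝ (w i) x 0 = 0
        exact map_zero _
  have hUs : ∀ i, Differentiable ℝ (U i) := by
    intro i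
    by_cases h : 1 ≤ i ∧ i ≤ n
    · have e : U i = fun p => p.2 ⟨i - 1, by omega⟩ := by
        funext p
        rw [hU]
        simp only [h, and_self, dite_true]
      rw [e]
      fun_prop
    · have e : U i = (w i) ∘ Prod.fst := by
        funext p
        rw [hU]
        simp only [h, dite_false]
        rfl
      rw [e]
      exact ((hw i).differentiable (by simp)).comp differentiable_fst
  obtain ⟨Y, hY⟩ : ∃ Y : ℕ → E × (Fin n → F) → Q × F × F × F, Y = fun i p =>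
      (π p.1, U (i - 1) p, U i p, U (i + 1) p) := ⟨_, rfl⟩
  have hYW : ∀ i y, Y i (y, W y) = (π y, w (i - 1) y, w i y, w (i + 1) y) := by
    intro i y
    rw [hY]
    simp only [hUW]
  obtain ⟨Φ, hΦ⟩ : ∃ Φ : E × (Fin n → F) → Fin n → F, Φ = fun p (k : Fin n) => G (k + 1) (Y (k + 1) p) := ⟨_, rfl⟩
  have hΦhol : Hol Φ (x, W x) (B ^ 5) := by
    rw [hΦ]
    refine Hol_pi (f := fun (k : Fin n) p => G (k + 1) (Y (k + 1) p)) (by positivity) fun k => ?_
    have hk := k.2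
    refine Hol_comp (f := Y (k + 1)) (g := G (k + 1)) hB ?_ ?_
    · rw [hY]
      exact Hol_prod (HC11_fst (W x) hπ) (Hol_prod (hUhol _ (by omega)) (Hol_prod (hUhol _ (by omega)) (hUhol _ (by omega))))
    · rw [hYW]
      exact hG (k + 1) (by omega) (by omega)
  have hYs : ∀ i, Differentiable ℝ (Y i) := by
    intro i
    rw [hY]
    exact ((hπs.differentiable (by simp)).comp differentiable_fst).prodMk ((hUs _).prodMk ((hUs _).prodMk (hUs _)))
  have hΦs : Differentiable ℝ Φ := by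
    rw [hΦ, differentiable_pi]
    intro k
    have hk := k.2
    exact ((hGs (k + 1) (by omega) (by omega)).differentiable (by simp)).comp (hYs (k + 1))
  have hWc : Continuous W := by
    rw [hW]
    exact continuous_pi fun k => (hw (k + 1)).continuous
  have hΦ0 : ∀ y, Φ (y, W y) = 0 := by
    intro y
    rw [hΦ]
    funext k
    have hk := k.2
    simp only
    rw [hYW]
    exact heq (k + 1) (by omega) (by omega) y
  have hWb : ‖W x‖ ≤ B ^ 5 := by
    refine (pi_norm_le_iff_of_nonneg (by positivity)).2 fun k => ?_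
    have hk := k.2
    rw [hW]
    simp only
    have := hb (k + 1) (by omega)
    linarith
  have hL : ∀ v : Fin n → F, ‖v‖ ≤ B ^ 5 * ‖fderiv ℝ Φ (x, W x) (0, v)‖ := by
    intro v
    have hR : 0 ≤ ‖fderiv ℝ Φ (x, W x) (0, v)‖ := norm_nonneg _
    have hv0 : V v 0 = 0 := by
      rw [hV]
      simp
    have hv1 : V v (n + 1) = 0 := by
      rw [hV]
      simp
    have hcomp : ∀ k : Fin n, (fderiv ℝ Φ (x, W x) (0, v)) k =
        fderiv ℝ (G (k + 1)) (π x, w (k + 1 - 1) x, w (k + 1) x, w (k + 1 + 1) x)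
          (0, V v (k + 1 - 1), V v (k + 1), V v (k + 1 + 1)) := by
      intro k
      have hk := k.2
      have d1 : HasFDerivAt (fun p => Φ p k) ((ContinuousLinearMap.proj (R := ℝ) (φ := fun _ : Fin n => F) k).comp
          (fderiv ℝ Φ (x, W x))) (x, W x) :=
        (hasFDerivAt_pi'.1 (hΦs (x, W x)).hasFDerivAt) k
      obtain ⟨L1, hL1, hL1v⟩ := hUd (k + 1 - 1)
      obtain ⟨L2, hL2, hL2v⟩ := hUd (k + 1)
      obtain ⟨L3, hL3, hL3v⟩ := hUd (k + 1 + 1)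
      have d0 : HasFDerivAt (fun p : E × (Fin n → F) => π p.1) ((fderiv ℝ π x).comp (ContinuousLinearMap.fst ℝ E (Fin n → F)))
          (x, W x) := by
        have h2 : HasFDerivAt π (fderiv ℝ π x) ((x, W x) : E × (Fin n → F)).1 :=
          ((hπs).differentiable (by simp) x).hasFDerivAt
        exact h2.comp (x, W x) hasFDerivAt_fst
      have d2 : HasFDerivAt (Y (k + 1)) (((fderiv ℝ π x).comp (ContinuousLinearMap.fst ℝ E (Fin n → F))).prod
          (L1.prod (L2.prod L3))) (x, W x) := by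
        rw [hY]
        exact d0.prodMk (hL1.prodMk (hL2.prodMk hL3))
      have d3 : HasFDerivAt (G (k + 1)) (fderiv ℝ (G (k + 1)) (Y (k + 1) (x, W x))) (Y (k + 1) (x, W x)) :=
        ((hGs (k + 1) (by omega) (by omega)).differentiable (by simp) _).hasFDerivAt
      have d4 := d3.comp (x, W x) d2
      have e1 : (fun p => Φ p k) = (G (k + 1)) ∘ (Y (k + 1)) := by
        rw [hΦ]
        rfl
      rw [e1] at d1
      have e2 := d1.unique d4
      have e3 := congrArg (fun L => L (0, v)) e2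
      refine e3.trans ?_
      rw [hYW]
      show fderiv ℝ (G (k + 1)) (π x, w (k + 1 - 1) x, w (k + 1) x, w (k + 1 + 1) x)
        (fderiv ℝ π x 0, L1 (0, v), L2 (0, v), L3 (0, v)) = _
      rw [map_zero, hL1v, hL2v, hL3v]
    have hfin := hinv (V v) ‖fderiv ℝ Φ (x, W x) (0, v)‖ (by rw [hv0, norm_zero]; exact hR)
      (by rw [hv1, norm_zero]; exact hR) (by
        intro i hi1 hi2
        have h3 := hcomp ⟨i - 1, by omega⟩
        have e : ((⟨i - 1, by omega⟩ : Fin n) : ℕ) + 1 = i := by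
          show i - 1 + 1 = i
          omega
        rw [e] at h3
        rw [← h3]
        exact norm_le_pi_norm (fderiv ℝ Φ (x, W x) (0, v)) ⟨i - 1, by omega⟩)
    have h4 : ‖v‖ ≤ B * ‖fderiv ℝ Φ (x, W x) (0, v)‖ := by
      refine (pi_norm_le_iff_of_nonneg (by positivity)).2 fun k => ?_
      have hk := k.2
      have h5 := hfin (k + 1) (by omega)
      have e : V v (k + 1) = v k := by
        rw [hV]
        have h6 : 1 ≤ (k : ℕ) + 1 ∧ (k : ℕ) + 1 ≤ n := by omega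
        simp only [h6, and_self, dite_true]
        congr 1
      rwa [e] at h5
    exact h4.trans (mul_le_mul_of_nonneg_right hle5 hR)
  have hfinal : Hol W x ((B ^ 5) ^ 20) := Hol_imp hB5 hΦhol hΦs hWc hΦ0 hL hWb
  rw [← pow_mul] at hfinal
  intro i hi
  rcases Nat.eq_zero_or_pos i with h | h
  · rw [h]
    exact Hol_mono hB0 hle100 h0
  · rcases Nat.lt_or_ge i (n + 1) with h' | h'
    · have h2 := Hol_app hfinal ⟨i - 1, by omega⟩
      refine Hol_congr (fun y => ?_) h2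
      rw [hW]
      simp only
      congr 1
      omega
    · have : i = n + 1 := by omega
      rw [this]
      exact Hol_mono hB0 hle100 h1

theorem HC11_pow {m : ℝ} (hm : 2 ≤ m) {a b : ℕ} (h : a ≤ b) : m ^ a ≤ m ^ b :=
  pow_le_pow_right₀ (by linarith) h

theorem HC11_pos {m : ℝ} (hm : 2 ≤ m) (a : ℕ) : 0 < m ^ a := pow_pos (by linarith) a

theorem HC11_two {m : ℝ} (hm : 2 ≤ m) (a : ℕ) : 2 ≤ m ^ (a + 1) := by
  have h1 : 1 ≤ m ^ a := one_le_pow₀ (by linarith)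
  rw [pow_succ]
  nlinarith

theorem HC11_add_one {m : ℝ} (hm : 2 ≤ m) (a : ℕ) : m ^ a + 1 ≤ m ^ (a + 1) := by
  have h1 : 1 ≤ m ^ a := one_le_pow₀ (by linarith)
  rw [pow_succ]
  nlinarith

/-- The implicit function theorem for chains of equations (`BE.IF` with `HB` in place of `EB`). -/
theorem HIF {κ E F Q Ec Fc Qc : Type} [NormedAddCommGroup E] [NormedSpace ℝ E]
    [FiniteDimensional ℝ E] [NormedAddCommGroup F] [NormedSpace ℝ F] [FiniteDimensional ℝ F]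
    [NormedAddCommGroup Q] [NormedSpace ℝ Q] [NormedAddCommGroup Ec] [NormedSpace ℂ Ec]
    [FiniteDimensional ℂ Ec] [NormedAddCommGroup Fc] [NormedSpace ℂ Fc] [FiniteDimensional ℂ Fc]
    [NormedAddCommGroup Qc] [NormedSpace ℂ Qc] [Cxf E Ec] [Cxf F Fc] [Cxf Q Qc]
    {M : κ → ℝ} (hM : ∀ q, 2 ≤ M q) {N : κ → ℕ} {x : κ → E} {w : κ → ℕ → E → F} {π : κ → E → Q}
    {G : κ → ℕ → Q × F × F × F → F} (hπ : HB M π x)
    (hG : HB (fun q : In N => M q.1.1) (fun q => G q.1.1 q.1.2)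
      (fun q => (π q.1.1 (x q.1.1), w q.1.1 (q.1.2 - 1) (x q.1.1), w q.1.1 q.1.2 (x q.1.1),
        w q.1.1 (q.1.2 + 1) (x q.1.1))))
    (hw : ∀ q j, ContDiff ℝ ∞ (w q j))
    (heq : ∀ q j, 1 ≤ j → j < N q → ∀ y,
      G q j (π q y, w q (j - 1) y, w q j y, w q (j + 1) y) = 0)
    (h0 : HB M (fun q => w q 0) x) (h1 : HB M (fun q => w q (N q)) x)
    (hb : ∃ A : ℕ, ∀ q j, j ≤ N q → ‖w q j (x q)‖ ≤ M q ^ A)
    (hinv : ∃ A : ℕ, ∀ (q : κ) (v : ℕ → F) (R : ℝ), ‖v 0‖ ≤ R → ‖v (N q)‖ ≤ R →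
      (∀ j, 1 ≤ j → j < N q →
        ‖fderiv ℝ (G q j) (π q (x q), w q (j - 1) (x q), w q j (x q), w q (j + 1) (x q))
          (0, v (j - 1), v j, v (j + 1))‖ ≤ R) →
      ∀ j ≤ N q, ‖v j‖ ≤ M q ^ A * R) :
    HB (fun q : Le N => M q.1.1) (fun q => w q.1.1 q.1.2) (fun q => x q.1.1) := by
  obtain ⟨Ap, hAp⟩ := hπ.hol
  obtain ⟨Ag, hAg⟩ := hG.hol
  obtain ⟨A0, hA0⟩ := h0.hol
  obtain ⟨A1, hA1⟩ := h1.hol
  obtain ⟨Ab, hAb⟩ := hb
  obtain ⟨Ai, hAi⟩ := hinv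
  refine ⟨fun q => hw q.1.1 q.1.2, (Ap + Ag + A0 + A1 + Ab + Ai + 1) * 100, ?_⟩
  rintro ⟨⟨q, i⟩, hi⟩
  have hi' : i ≤ N q := hi
  show Hol (w q i) (x q) (M q ^ ((Ap + Ag + A0 + A1 + Ab + Ai + 1) * 100))
  have hm := hM q
  have h2 : 2 ≤ M q ^ (Ap + Ag + A0 + A1 + Ab + Ai + 1) := HC11_two hm _
  have hle : M q ^ (Ap + Ag + A0 + A1 + Ab + Ai + 1) ≤ M q ^ ((Ap + Ag + A0 + A1 + Ab + Ai + 1) * 100) :=
    HC11_pow hm (by omega)
  have k0 : Hol (w q 0) (x q) (M q ^ (Ap + Ag + A0 + A1 + Ab + Ai + 1)) :=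
    Hol_mono (HC11_pos hm _) (HC11_pow hm (by omega)) (hA0 q)
  have k1 : Hol (w q (N q)) (x q) (M q ^ (Ap + Ag + A0 + A1 + Ab + Ai + 1)) :=
    Hol_mono (HC11_pos hm _) (HC11_pow hm (by omega)) (hA1 q)
  rcases Nat.eq_zero_or_pos (N q) with hN | hN
  · have : i = 0 := by omega
    rw [this]
    exact Hol_mono (HC11_pos hm _) hle k0
  · obtain ⟨n, hn⟩ : ∃ n, N q = n + 1 := ⟨N q - 1, by omega⟩
    rw [hn] at k1
    rw [pow_mul]
    refine HC11_one (n := n) (π := π q) (G := G q) h2 (Hol_mono (HC11_pos hm _) (HC11_pow hm (by omega)) (hAp q))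
      (hπ.smooth q) (fun a ha1 ha2 => ?_) (fun a ha1 ha2 => ?_) (hw q) (fun a ha1 ha2 => heq q a ha1 (by omega)) k0 k1
      (fun a ha => ?_) (fun v R hv0 hv1 hv a ha => ?_) i (by omega)
    · exact Hol_mono (HC11_pos hm _) (HC11_pow hm (by omega)) (hAg ⟨(q, a), ha1, by show a < N q; omega⟩)
    · exact hG.smooth ⟨(q, a), ha1, by show a < N q; omega⟩
    · have h3 := hAb q a (by omega)
      have h4 := HC11_add_one hm Ab
      have h5 : M q ^ (Ab + 1) ≤ M q ^ (Ap + Ag + A0 + A1 + Ab + Ai + 1) := HC11_pow hm (by omega)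
      linarith
    · have h3 := hAi q v R hv0 (by rw [hn]; exact hv1) (fun b hb1 hb2 => hv b hb1 (by omega)) a (by omega)
      have hR : 0 ≤ R := (norm_nonneg _).trans hv0
      refine h3.trans (mul_le_mul_of_nonneg_right (HC11_pow hm (by omega)) hR)

/-- One implicit function. -/
theorem HB_imp {κ E F Ec Fc : Type} [NormedAddCommGroup E] [NormedSpace ℝ E]
    [FiniteDimensional ℝ E] [NormedAddCommGroup F] [NormedSpace ℝ F] [FiniteDimensional ℝ F]
    [NormedAddCommGroup Ec] [NormedSpace ℂ Ec] [FiniteDimensional ℂ Ec] [NormedAddCommGroup Fc]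
    [NormedSpace ℂ Fc] [FiniteDimensional ℂ Fc] [Cxf E Ec] [Cxf F Fc]
    {M : κ → ℝ} (hM : ∀ q, 2 ≤ M q) {x : κ → E} {w : κ → E → F} {Φ : κ → E × F → F}
    (hΦ : HB M Φ (fun q => (x q, w q (x q)))) (hw : ∀ q, ContDiff ℝ ∞ (w q))
    (heq : ∀ q y, Φ q (y, w q y) = 0) (hb : ∃ A : ℕ, ∀ q, ‖w q (x q)‖ ≤ M q ^ A)
    (hinv : ∃ A : ℕ, ∀ q (v : F), ‖v‖ ≤ M q ^ A * ‖fderiv ℝ (Φ q) (x q, w q (x q)) (0, v)‖) :
    HB M w x := by
  obtain ⟨A1, hA1⟩ := hΦ.hol
  obtain ⟨A2, hA2⟩ := hb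
  obtain ⟨A3, hA3⟩ := hinv
  refine ⟨hw, (A1 + A2 + A3 + 1) * 20, fun q => ?_⟩
  have hm := hM q
  rw [pow_mul]
  refine Hol_imp (Φ := Φ q) (HC11_two hm _) (Hol_mono (HC11_pos hm _) (HC11_pow hm (by omega)) (hA1 q))
    ((hΦ.smooth q).differentiable (by simp)) (hw q).continuous (heq q) (fun v => ?_) ?_
  · exact (hA3 q v).trans (mul_le_mul_of_nonneg_right (HC11_pow hm (by omega)) (norm_nonneg _))
  · exact (hA2 q).trans (HC11_pow hm (by omega))

/-- Time-one maps of flows. The derivatives of the fields along the orbits are uniformly bounded. -/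
theorem HB_flow {J E S Ec : Type} [NormedAddCommGroup E] [NormedSpace ℝ E] [FiniteDimensional ℝ E]
    [NormedAddCommGroup Ec] [NormedSpace ℂ Ec] [FiniteDimensional ℂ Ec] [Cxf E Ec]
    {M : S → ℝ} (hM : ∀ q, 2 ≤ M q) {f : J → E → E} {φ : J → ℝ → E → E}
    (hφ : ∀ i, BR.IsFlow (f i) (φ i)) {jj : S → J} {x0 : S → E}
    (ho : ∃ A : ℕ, ∀ q : S × Icc (0 : ℝ) 1, ‖φ (jj q.1) q.2 (x0 q.1)‖ ≤ M q.1 ^ A)
    (hd : ∃ Λ : ℝ, ∀ q : S × Icc (0 : ℝ) 1, ‖fderiv ℝ (f (jj q.1)) (φ (jj q.1) q.2 (x0 q.1))‖ ≤ Λ)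
    (hb : HB (fun q : S × Icc (0 : ℝ) 1 => M q.1) (fun q => f (jj q.1))
      (fun q => φ (jj q.1) q.2 (x0 q.1))) (hs : ∀ i t, ContDiff ℝ ∞ (φ i t)) :
    HB (fun q : S × Icc (0 : ℝ) 1 => M q.1) (fun q => φ (jj q.1) q.2) (fun q => x0 q.1) := by
  obtain ⟨A1, hA1⟩ := hb.hol
  obtain ⟨A2, hA2⟩ := ho
  obtain ⟨Λ, hΛ⟩ := hd
  obtain ⟨A3, hA3⟩ : ∃ A3 : ℕ, Real.exp (4 * max Λ 1) ≤ 2 ^ A3 := by
    obtain ⟨n, hn⟩ := pow_unbounded_of_one_lt (Real.exp (4 * max Λ 1)) (by norm_num : (1 : ℝ) < 2)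
    exact ⟨n, hn.le⟩
  refine ⟨fun q => hs (jj q.1) q.2, A3 + (A1 + A2 + 1) * 8, ?_⟩
  rintro ⟨q, t, ht⟩
  show Hol (φ (jj q) t) (x0 q) (M q ^ (A3 + (A1 + A2 + 1) * 8))
  have hm := hM q
  have h1 := Hol_flow (f := f (jj q)) (φ := φ (jj q)) (x := x0 q) (B := M q ^ (A1 + A2 + 1)) (Λ := max Λ 1)
    (hb.smooth (q, ⟨t, ht⟩)) (hφ (jj q)).zero (fun t y => (hφ (jj q)).deriv y t) (HC11_two hm _) (le_max_right _ _)
    (fun s hs => Hol_mono (HC11_pos hm _) (HC11_pow hm (by omega)) (hA1 (q, ⟨s, hs⟩)))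
    (fun s hs => (hΛ (q, ⟨s, hs⟩)).trans (le_max_left _ _))
    (fun s hs => (hA2 (q, ⟨s, hs⟩)).trans (HC11_pow hm (by omega))) t ht
  refine Hol_mono (mul_pos (Real.exp_pos _) (pow_pos (HC11_pos hm _) _)) ?_ h1
  rw [← pow_mul, pow_add]
  refine mul_le_mul_of_nonneg_right ?_ (HC11_pos hm _).le
  exact hA3.trans (pow_le_pow_left₀ (by norm_num) hm A3)

end H36
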