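import Pool.Agent.LibBE36.HC1

open Set Filter Topology Metric
open scoped ContDiff

namespace H36

variable {E F G Ec Fc Gc : Type} [NormedAddCommGroup E] [NormedSpace ℝ E] [NormedAddCommGroup F]
  [NormedSpace ℝ F] [NormedAddCommGroup G] [NormedSpace ℝ G] [NormedAddCommGroup Ec]
  [NormedSpace ℂ Ec] [NormedAddCommGroup Fc] [NormedSpace ℂ Fc] [NormedAddCommGroup Gc]
  [NormedSpace ℂ Gc] [Cxf E Ec] [Cxf F Fc] [Cxf G Gc]

theorem Hol_mono {f : E → F} {x : E} {B B' : ℝ} (h0 : 0 < B) (h : B ≤ B') (hf : Hol f x B) :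
    Hol f x B' := by
  obtain ⟨g, hg⟩ := hf
  have hs : ball (j x : Ec) (1 / B') ⊆ ball (j x : Ec) (1 / B) :=
    ball_subset_ball (one_div_le_one_div_of_le h0 h)
  exact ⟨g, ⟨hg.diff.mono hs, fun z hz => (hg.bound z (hs hz)).trans h,
    fun y hy => hg.ext y (hs hy)⟩⟩

theorem Hol_congr {f g : E → F} {x : E} {B : ℝ} (h : ∀ y, f y = g y) (hf : Hol f x B) :
    Hol g x B := by
  obtain ⟨G', hG⟩ := hf
  exact ⟨G', ⟨hG.diff, hG.bound, fun y hy => by rw [hG.ext y hy, h y]⟩⟩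

theorem Hol_const {x : E} {B : ℝ} (c : F) (hc : ‖c‖ ≤ B) : Hol (fun _ : E => c) x B :=
  ⟨fun _ => j c, ⟨differentiableOn_const _, fun _ _ => by rw [Cxf.j_norm]; exact hc,
    fun _ _ => rfl⟩⟩

theorem Hol_id {x : E} {B : ℝ} (hB : 1 ≤ B) (hx : ‖x‖ + 1 ≤ B) : Hol (fun y : E => y) x B := by
  refine ⟨fun z => z, ⟨differentiableOn_id, fun z hz => ?_, fun _ _ => rfl⟩⟩
  have h1 : ‖z - j x‖ < 1 / B := by
    rw [← dist_eq_norm]
    exact hz
  have h2 : 1 / B ≤ 1 := by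
    rw [div_le_one (lt_of_lt_of_le one_pos hB)]
    exact hB
  have h3 : ‖z‖ ≤ ‖z - j x‖ + ‖(j x : Ec)‖ := by
    have := norm_add_le (z - j x) (j x)
    rwa [sub_add_cancel] at this
  have h4 : ‖(j x : Ec)‖ = ‖x‖ := Cxf.j_norm x
  show ‖z‖ ≤ B
  linarith

theorem Hol_val {f : E → F} {x : E} {B : ℝ} (hB : 0 < B) (hf : Hol f x B) : ‖f x‖ ≤ B := by
  obtain ⟨g, hg⟩ := hf
  have hx : (j x : Ec) ∈ ball (j x : Ec) (1 / B) := mem_ball_self (one_div_pos.2 hB)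
  have h := hg.bound _ hx
  rw [hg.ext x hx, Cxf.j_norm] at h
  exact h

theorem Hol_prod {f : E → F} {g : E → G} {x : E} {B : ℝ} (hf : Hol f x B) (hg : Hol g x B) :
    Hol (fun y => (f y, g y)) x B := by
  obtain ⟨F', hF⟩ := hf
  obtain ⟨G', hG⟩ := hg
  refine ⟨fun z => (F' z, G' z), ⟨hF.diff.prodMk hG.diff, fun z hz => ?_, fun y hy => ?_⟩⟩
  · rw [Prod.norm_def]
    exact max_le (hF.bound z hz) (hG.bound z hz)
  · exact Prod.ext (hF.ext y hy) (hG.ext y hy)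

theorem Hol_fst {f : E → F × G} {x : E} {B : ℝ} (hf : Hol f x B) :
    Hol (fun y => (f y).1) x B := by
  obtain ⟨F', hF⟩ := hf
  refine ⟨fun z => (F' z).1, ⟨hF.diff.fst, fun z hz => (norm_fst_le _).trans (hF.bound z hz),
    fun y hy => ?_⟩⟩
  have h := congrArg Prod.fst (hF.ext y hy)
  exact h

theorem Hol_snd {f : E → F × G} {x : E} {B : ℝ} (hf : Hol f x B) :
    Hol (fun y => (f y).2) x B := by
  obtain ⟨F', hF⟩ := hf
  refine ⟨fun z => (F' z).2, ⟨hF.diff.snd, fun z hz => (norm_snd_le _).trans (hF.bound z hz),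
    fun y hy => ?_⟩⟩
  have h := congrArg Prod.snd (hF.ext y hy)
  exact h

theorem Hol_pi {n : ℕ} {f : Fin n → E → F} {x : E} {B : ℝ} (hB : 0 ≤ B)
    (hf : ∀ k, Hol (f k) x B) : Hol (fun y k => f k y) x B := by
  choose g hg using hf
  refine ⟨fun z k => g k z, ⟨differentiableOn_pi.2 fun k => (hg k).diff, fun z hz => ?_,
    fun y hy => ?_⟩⟩
  · exact (pi_norm_le_iff_of_nonneg hB).2 fun k => (hg k).bound z hz
  · exact funext fun k => (hg k).ext y hy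

theorem Hol_app {n : ℕ} {f : E → Fin n → F} {x : E} {B : ℝ} (hf : Hol f x B) (k : Fin n) :
    Hol (fun y => f y k) x B := by
  obtain ⟨g, hg⟩ := hf
  refine ⟨fun z => g z k, ⟨differentiableOn_pi.1 hg.diff k,
    fun z hz => (norm_le_pi_norm (g z) k).trans (hg.bound z hz), fun y hy => ?_⟩⟩
  have h := congrFun (hg.ext y hy) k
  exact h

end H36
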