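import Pool.Agent.LibBE36.HC2

open Set Filter Topology Metric
open scoped ContDiff

namespace H36

variable {E F G Ec Fc Gc : Type} [NormedAddCommGroup E] [NormedSpace ℝ E] [NormedAddCommGroup F]
  [NormedSpace ℝ F] [NormedAddCommGroup G] [NormedSpace ℝ G] [NormedAddCommGroup Ec]
  [NormedSpace ℂ Ec] [NormedAddCommGroup Fc] [NormedSpace ℂ Fc] [NormedAddCommGroup Gc]
  [NormedSpace ℂ Gc] [Cxf E Ec] [Cxf F Fc] [Cxf G Gc]

private theorem HC2b_ball {x : E} {B : ℝ} (hB : 2 ≤ B) :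
    ball (j x : Ec) (1 / B ^ 2) ⊆ ball (j x : Ec) (1 / B) := by
  apply ball_subset_ball
  apply one_div_le_one_div_of_le (by linarith)
  nlinarith

theorem Hol_add {f g : E → F} {x : E} {B : ℝ} (hB : 2 ≤ B) (hf : Hol f x B) (hg : Hol g x B) :
    Hol (fun y => f y + g y) x (B ^ 2) := by
  obtain ⟨g₁, h₁⟩ := hf
  obtain ⟨g₂, h₂⟩ := hg
  have hs := HC2b_ball (Ec := Ec) (x := x) hB
  refine ⟨fun z => g₁ z + g₂ z, ⟨(h₁.diff.mono hs).add (h₂.diff.mono hs), fun z hz => ?_,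
    fun y hy => ?_⟩⟩
  · refine (norm_add_le _ _).trans ?_
    have e1 := h₁.bound z (hs hz)
    have e2 := h₂.bound z (hs hz)
    nlinarith
  · rw [h₁.ext y (hs hy), h₂.ext y (hs hy), Cxf.j_add]

theorem Hol_sub {f g : E → F} {x : E} {B : ℝ} (hB : 2 ≤ B) (hf : Hol f x B) (hg : Hol g x B) :
    Hol (fun y => f y - g y) x (B ^ 2) := by
  obtain ⟨g₁, h₁⟩ := hf
  obtain ⟨g₂, h₂⟩ := hg
  have hs := HC2b_ball (Ec := Ec) (x := x) hB
  refine ⟨fun z => g₁ z - g₂ z, ⟨(h₁.diff.mono hs).sub (h₂.diff.mono hs), fun z hz => ?_,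
    fun y hy => ?_⟩⟩
  · refine (norm_sub_le _ _).trans ?_
    have e1 := h₁.bound z (hs hz)
    have e2 := h₂.bound z (hs hz)
    nlinarith
  · rw [h₁.ext y (hs hy), h₂.ext y (hs hy), j_sub]

theorem Hol_clm {f : E → F} {x : E} {B : ℝ} (hB : 2 ≤ B) (hf : Hol f x B) (L : F →L[ℝ] G)
    (hL : 2 * ‖L‖ ≤ B) : Hol (fun y => L (f y)) x (B ^ 2) := by
  obtain ⟨g₁, h₁⟩ := hf
  obtain ⟨Lc, -, hLj, hLn⟩ := cx_clm (Ec := Fc) (Fc := Gc) L
  have hs := HC2b_ball (Ec := Ec) (x := x) hB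
  refine ⟨fun z => Lc (g₁ z), ⟨Lc.differentiable.comp_differentiableOn (h₁.diff.mono hs),
    fun z hz => ?_, fun y hy => ?_⟩⟩
  · refine (Lc.le_opNorm _).trans ?_
    have e1 := h₁.bound z (hs hz)
    have e2 : ‖Lc‖ * ‖g₁ z‖ ≤ B * B :=
      mul_le_mul (hLn.trans hL) e1 (norm_nonneg _) (by linarith)
    nlinarith
  · rw [h₁.ext y (hs hy), hLj]

theorem Hol_sum {κ : Type} (s : Finset κ) {f : κ → E → F} {x : E} {B : ℝ} (hB : 2 ≤ B)
    (hs : (s.card : ℝ) ≤ B) (hf : ∀ a ∈ s, Hol (f a) x B) :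
    Hol (fun y => ∑ a ∈ s, f a y) x (B ^ 2) := by
  choose! g hg using hf
  have hs' := HC2b_ball (Ec := Ec) (x := x) hB
  refine ⟨fun z => ∑ a ∈ s, g a z, ⟨?_, fun z hz => ?_, fun y hy => ?_⟩⟩
  · exact DifferentiableOn.fun_sum fun a ha => (hg a ha).diff.mono hs'
  · refine (norm_sum_le_of_le s fun a ha => (hg a ha).bound z (hs' hz)).trans ?_
    rw [Finset.sum_const, nsmul_eq_mul]
    nlinarith
  · let jh : F →+ Fc := { toFun := j, map_zero' := j_zero, map_add' := Cxf.j_add }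
    have e : jh (∑ a ∈ s, f a y) = ∑ a ∈ s, jh (f a y) := map_sum jh _ _
    refine Eq.trans ?_ e.symm
    exact Finset.sum_congr rfl fun a ha => (hg a ha).ext y (hs' hy)

theorem Hol_smul {f : E → ℝ} {g : E → F} {x : E} {B : ℝ} (hB : 2 ≤ B) (hf : Hol f x B)
    (hg : Hol g x B) : Hol (fun y => f y • g y) x (B ^ 2) := by
  obtain ⟨g₁, h₁⟩ := hf
  obtain ⟨g₂, h₂⟩ := hg
  have hs := HC2b_ball (Ec := Ec) (x := x) hB
  refine ⟨fun z => g₁ z • g₂ z, ⟨(h₁.diff.mono hs).smul (h₂.diff.mono hs), fun z hz => ?_,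
    fun y hy => ?_⟩⟩
  · rw [norm_smul, pow_two]
    exact mul_le_mul (h₁.bound z (hs hz)) (h₂.bound z (hs hz)) (norm_nonneg _) (by linarith)
  · rw [h₁.ext y (hs hy), h₂.ext y (hs hy), Cxf.j_smul]
    rfl

theorem Hol_mul {f g : E → ℝ} {x : E} {B : ℝ} (hB : 2 ≤ B) (hf : Hol f x B)
    (hg : Hol g x B) : Hol (fun y => f y * g y) x (B ^ 2) := by
  exact Hol_smul hB hf hg

end H36
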