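import Pool.Agent.LibBE36.HC2

open Set Filter Topology Metric
open scoped ContDiff

namespace H36

variable {E F G Ec Fc Gc : Type} [NormedAddCommGroup E] [NormedSpace ℝ E] [NormedAddCommGroup F]
  [NormedSpace ℝ F] [NormedAddCommGroup G] [NormedSpace ℝ G] [NormedAddCommGroup Ec]
  [NormedSpace ℂ Ec] [NormedAddCommGroup Fc] [NormedSpace ℂ Fc] [NormedAddCommGroup Gc]
  [NormedSpace ℂ Gc] [Cxf E Ec] [Cxf F Fc] [Cxf G Gc]

/-- The Schwarz lemma. -/
theorem hol_lip {g : Ec → Fc} {a : Ec} {r B : ℝ} (hr : 0 < r) (hg : DifferentiableOn ℂ g (ball a r))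
    (hb : ∀ z ∈ ball a r, ‖g z‖ ≤ B) {z : Ec} (hz : z ∈ ball a r) :
    ‖g z - g a‖ ≤ 3 * B / r * ‖z - a‖ := by
  have ha : a ∈ ball a r := mem_ball_self hr
  have hB : 0 ≤ B := (norm_nonneg _).trans (hb a ha)
  have hm : MapsTo g (ball a r) (closedBall (g a) (2 * B)) := by
    intro w hw
    rw [mem_closedBall, dist_eq_norm]
    have h1 := norm_sub_le (g w) (g a)
    linarith [hb w hw, hb a ha]
  have h := Complex.dist_le_div_mul_dist_of_mapsTo_ball hg hm hz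
  rw [dist_eq_norm, dist_eq_norm] at h
  refine h.trans (mul_le_mul_of_nonneg_right ?_ (norm_nonneg _))
  exact div_le_div_of_nonneg_right (by linarith) hr.le

/-- The Cauchy estimate. -/
theorem hol_fd {g : Ec → Fc} {a : Ec} {r B : ℝ} (hr : 0 < r) (hg : DifferentiableOn ℂ g (ball a r))
    (hb : ∀ z ∈ ball a r, ‖g z‖ ≤ B) : ‖fderiv ℂ g a‖ ≤ B / r := by
  have ha : a ∈ ball a r := mem_ball_self hr
  have hB : 0 ≤ B := (norm_nonneg _).trans (hb a ha)
  have hda : DifferentiableAt ℂ g a := hg.differentiableAt (isOpen_ball.mem_nhds ha)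
  refine ContinuousLinearMap.opNorm_le_bound _ (div_nonneg hB hr.le) fun v => ?_
  by_cases hv : v = 0
  · rw [hv, map_zero, norm_zero, norm_zero, mul_zero]
  have hv0 : 0 < ‖v‖ := norm_pos_iff.2 hv
  have hmem : ∀ ζ : ℂ, ‖ζ‖ < r / ‖v‖ → a + ζ • v ∈ ball a r := by
    intro ζ hζ
    rw [mem_ball, dist_eq_norm, add_sub_cancel_left, norm_smul]
    exact (lt_div_iff₀ hv0).1 hζ
  have hline : Differentiable ℂ fun ζ : ℂ => a + ζ • v := by fun_prop
  have hd : ∀ ζ : ℂ, ‖ζ‖ < r / ‖v‖ → DifferentiableAt ℂ (fun ζ : ℂ => g (a + ζ • v)) ζ := by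
    intro ζ hζ
    exact DifferentiableAt.comp (f := fun ζ : ℂ => a + ζ • v) (g := g) ζ
      (hg.differentiableAt (isOpen_ball.mem_nhds (hmem ζ hζ))) (hline ζ)
  have hder : deriv (fun ζ : ℂ => g (a + ζ • v)) 0 = fderiv ℂ g a v := by
    have h1 : HasDerivAt (fun ζ : ℂ => a + ζ • v) v 0 := by
      have h2 := ((hasDerivAt_id (0 : ℂ)).smul_const v).const_add a
      simpa using h2
    have h3 : HasFDerivAt g (fderiv ℂ g a) (a + (0 : ℂ) • v) := by
      rw [zero_smul, add_zero]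
      exact hda.hasFDerivAt
    exact (HasFDerivAt.comp_hasDerivAt (f := fun ζ : ℂ => a + ζ • v) (0 : ℂ) h3 h1).deriv
  have hC : ∀ ρ : ℝ, 0 < ρ → ρ < r / ‖v‖ → ‖fderiv ℂ g a v‖ * ρ ≤ B := by
    intro ρ hρ hρ1
    rw [← hder]
    have hdc : DiffContOnCl ℂ (fun ζ : ℂ => g (a + ζ • v)) (ball 0 ρ) := by
      refine DifferentiableOn.diffContOnCl fun ζ hζ => ?_
      have h1 : ‖ζ‖ ≤ ρ := by
        have h2 := closure_ball_subset_closedBall hζ
        simpa using h2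
      exact (hd ζ (lt_of_le_of_lt h1 hρ1)).differentiableWithinAt
    have h := Complex.norm_deriv_le_of_forall_mem_sphere_norm_le (C := B) hρ hdc (by
      intro ζ hζ
      have h1 : ‖ζ‖ = ρ := by simpa using hζ
      exact hb _ (hmem ζ (by rw [h1]; exact hρ1)))
    exact (le_div_iff₀ hρ).1 h
  have hfin : ‖fderiv ℂ g a v‖ * (r / ‖v‖) ≤ B := by
    by_contra hcon
    push Not at hcon
    have hR : 0 < r / ‖v‖ := div_pos hr hv0
    have hD : 0 < ‖fderiv ℂ g a v‖ := by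
      rcases (norm_nonneg (fderiv ℂ g a v)).eq_or_lt with h | h
      · rw [← h, zero_mul] at hcon
        linarith
      · exact h
    have h1 : B / ‖fderiv ℂ g a v‖ < r / ‖v‖ := by
      rw [div_lt_iff₀ hD]
      linarith [mul_comm (r / ‖v‖) ‖fderiv ℂ g a v‖]
    have h2 : 0 ≤ B / ‖fderiv ℂ g a v‖ := div_nonneg hB hD.le
    have h3 := hC ((B / ‖fderiv ℂ g a v‖ + r / ‖v‖) / 2) (by linarith) (by linarith)
    have h4 : ‖fderiv ℂ g a v‖ * (B / ‖fderiv ℂ g a v‖) = B := mul_div_cancel₀ B hD.ne'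
    nlinarith
  rw [div_mul_eq_mul_div, le_div_iff₀ hr]
  have h5 : ‖fderiv ℂ g a v‖ * (r / ‖v‖) * ‖v‖ = ‖fderiv ℂ g a v‖ * r := by
    field_simp
  rw [← h5]
  exact mul_le_mul_of_nonneg_right hfin hv0.le

theorem Hol_comp {f : E → F} {g : F → G} {x : E} {B : ℝ} (hB : 2 ≤ B) (hf : Hol f x B)
    (hg : Hol g (f x) B) : Hol (fun y => g (f y)) x (B ^ 5) := by
  obtain ⟨φ, hφ⟩ := hf
  obtain ⟨γ, hγ⟩ := hg
  have hB0 : 0 < B := by linarith
  have hr : 0 < 1 / B := one_div_pos.2 hB0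
  have hB5 : B ≤ B ^ 5 := by
    calc B = B ^ 1 := (pow_one B).symm
      _ ≤ B ^ 5 := pow_le_pow_right₀ (by linarith) (by norm_num)
  have hsub : ball (j x : Ec) (1 / B ^ 5) ⊆ ball (j x) (1 / B) :=
    ball_subset_ball (one_div_le_one_div_of_le hB0 hB5)
  have hx : (j x : Ec) ∈ ball (j x) (1 / B) := mem_ball_self hr
  have hφx : φ (j x) = j (f x) := hφ.ext x hx
  have hmaps : MapsTo φ (ball (j x) (1 / B ^ 5)) (ball (j (f x)) (1 / B)) := by
    intro z hz
    have h1 := hol_lip hr hφ.diff hφ.bound (hsub hz)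
    rw [hφx] at h1
    rw [mem_ball, dist_eq_norm] at hz ⊢
    have h2 : 3 * B / (1 / B) = 3 * B ^ 2 := by
      field_simp
    rw [h2] at h1
    have h3 : 3 * B ^ 2 * ‖z - j x‖ < 3 * B ^ 2 * (1 / B ^ 5) :=
      mul_lt_mul_of_pos_left hz (by positivity)
    have h4 : 3 * B ^ 2 * (1 / B ^ 5) ≤ 1 / B := by
      have h5 : 3 * B ^ 2 * (1 / B ^ 5) = 3 / B ^ 2 * (1 / B) := by
        field_simp
      rw [h5]
      have h6 : 3 / B ^ 2 ≤ 1 := by
        rw [div_le_one (by positivity)]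
        nlinarith
      calc 3 / B ^ 2 * (1 / B) ≤ 1 * (1 / B) := mul_le_mul_of_nonneg_right h6 hr.le
        _ = 1 / B := one_mul _
    linarith
  refine ⟨fun z => γ (φ z), ⟨?_, ?_, ?_⟩⟩
  · exact hγ.diff.comp (hφ.diff.mono hsub) hmaps
  · intro z hz
    exact (hγ.bound _ (hmaps hz)).trans hB5
  · intro y hy
    have h1 : φ (j y) = j (f y) := hφ.ext y (hsub hy)
    have h2 : (j (f y) : Fc) ∈ ball (j (f x)) (1 / B) := by
      rw [← h1]
      exact hmaps hy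
    show γ (φ (j y)) = j (g (f y))
    rw [h1]
    exact hγ.ext (f y) h2

end H36
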