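import Pool.Agent.LibBE36.HC3

open Set Filter Topology Metric
open scoped ContDiff

namespace H36

variable {E F G Ec Fc Gc : Type} [NormedAddCommGroup E] [NormedSpace ℝ E] [NormedAddCommGroup F]
  [NormedSpace ℝ F] [NormedAddCommGroup G] [NormedSpace ℝ G] [NormedAddCommGroup Ec]
  [NormedSpace ℂ Ec] [NormedAddCommGroup Fc] [NormedSpace ℂ Fc] [NormedAddCommGroup Gc]
  [NormedSpace ℂ Gc] [Cxf E Ec] [Cxf F Fc] [Cxf G Gc]

private theorem HC4_ball {a : Ec} {B : ℝ} (hB : 2 ≤ B) : ball a (1 / B ^ 6) ⊆ ball a (1 / B) := by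
  apply ball_subset_ball
  apply one_div_le_one_div_of_le (by linarith)
  calc B = B ^ 1 := (pow_one B).symm
    _ ≤ B ^ 6 := pow_le_pow_right₀ (by linarith) (by norm_num)

private theorem HC4_near {f : E → ℝ} {x : E} {B : ℝ} (hB : 2 ≤ B) {g : Ec → ℂ}
    (hg : Ext f (ball (j x) (1 / B)) B g) {z : Ec} (hz : z ∈ ball (j x : Ec) (1 / B ^ 6)) :
    ‖g z - ((f x : ℝ) : ℂ)‖ ≤ 3 / B ^ 4 := by
  have hB0 : 0 < B := by linarith
  have hr : 0 < 1 / B := by positivity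
  have h1 := hol_lip hr hg.diff hg.bound (HC4_ball hB hz)
  have h2 : g (j x) = ((f x : ℝ) : ℂ) := hg.ext x (mem_ball_self hr)
  rw [h2] at h1
  refine h1.trans ?_
  have h3 : ‖z - j x‖ ≤ 1 / B ^ 6 := by
    have h4 := mem_ball.1 hz
    rw [dist_eq_norm] at h4
    exact h4.le
  calc 3 * B / (1 / B) * ‖z - j x‖ ≤ 3 * B / (1 / B) * (1 / B ^ 6) :=
        mul_le_mul_of_nonneg_left h3 (by positivity)
    _ = 3 / B ^ 4 := by
        field_simp

private theorem HC4_four {B : ℝ} (hB : 2 ≤ B) : 3 / B ^ 4 ≤ 3 / (8 * B) := by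
  have hB0 : 0 < B := by linarith
  apply div_le_div_of_nonneg_left (by norm_num) (by positivity)
  have h : (2 : ℝ) ^ 3 ≤ B ^ 3 := pow_le_pow_left₀ (by norm_num) hB 3
  nlinarith

theorem Hol_inv {f : E → ℝ} {x : E} {B : ℝ} (hB : 2 ≤ B) (hf : Hol f x B) (h0 : f x ≠ 0)
    (h1 : |f x|⁻¹ ≤ B) : Hol (fun y => (f y)⁻¹) x (B ^ 6) := by
  obtain ⟨g, hg⟩ := hf
  have hB0 : 0 < B := by linarith
  have habs : 0 < |f x| := abs_pos.2 h0
  have hlow : 1 / B ≤ |f x| := by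
    rw [one_div]
    exact inv_le_of_inv_le₀ habs h1
  have hnorm : ∀ z ∈ ball (j x : Ec) (1 / B ^ 6), 1 / (2 * B) ≤ ‖g z‖ := by
    intro z hz
    have h2 := (HC4_near hB hg hz).trans (HC4_four hB)
    have h3 : |f x| ≤ ‖g z‖ + ‖g z - ((f x : ℝ) : ℂ)‖ := by
      have h4 : ((f x : ℝ) : ℂ) = g z - (g z - ((f x : ℝ) : ℂ)) := by ring
      calc |f x| = ‖((f x : ℝ) : ℂ)‖ := by rw [Complex.norm_real, Real.norm_eq_abs]
        _ = ‖g z - (g z - ((f x : ℝ) : ℂ))‖ := by rw [← h4]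
        _ ≤ ‖g z‖ + ‖g z - ((f x : ℝ) : ℂ)‖ := norm_sub_le _ _
    have h5 : 3 / (8 * B) = 3 / 8 * (1 / B) := by field_simp
    have h6 : 1 / (2 * B) = 1 / 2 * (1 / B) := by field_simp
    have h7 : 0 < 1 / B := by positivity
    rw [h5] at h2
    rw [h6]
    linarith
  have hpos : ∀ z ∈ ball (j x : Ec) (1 / B ^ 6), 0 < ‖g z‖ := fun z hz =>
    lt_of_lt_of_le (by positivity) (hnorm z hz)
  refine ⟨fun z => (g z)⁻¹, ?_, ?_, ?_⟩
  · exact (hg.diff.mono (HC4_ball hB)).inv fun z hz => norm_pos_iff.1 (hpos z hz)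
  · intro z hz
    rw [norm_inv]
    calc ‖g z‖⁻¹ ≤ (1 / (2 * B))⁻¹ := inv_anti₀ (by positivity) (hnorm z hz)
      _ = 2 * B := by rw [one_div, inv_inv]
      _ ≤ B ^ 6 := by
          have h : (2 : ℝ) ≤ B ^ 5 := by
            calc (2 : ℝ) ≤ B := hB
              _ = B ^ 1 := (pow_one B).symm
              _ ≤ B ^ 5 := pow_le_pow_right₀ (by linarith) (by norm_num)
          calc 2 * B ≤ B ^ 5 * B := mul_le_mul_of_nonneg_right h hB0.le
            _ = B ^ 6 := by ring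
  · intro y hy
    have h2 : g (j y) = ((f y : ℝ) : ℂ) := hg.ext y (HC4_ball hB hy)
    change (g (j y))⁻¹ = (((f y)⁻¹ : ℝ) : ℂ)
    rw [h2, Complex.ofReal_inv]

theorem Hol_exp {f : E → ℝ} {x : E} {B : ℝ} (hB : 2 ≤ B) (hf : Hol f x B)
    (h1 : Real.exp (f x) ≤ B) : Hol (fun y => Real.exp (f y)) x (B ^ 6) := by
  obtain ⟨g, hg⟩ := hf
  have hB0 : 0 < B := by linarith
  refine ⟨fun z => Complex.exp (g z), ?_, ?_, ?_⟩
  · exact (hg.diff.mono (HC4_ball hB)).cexp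
  · intro z hz
    rw [Complex.norm_exp]
    have h2 := HC4_near hB hg hz
    have h3 : 3 / B ^ 4 ≤ 3 / 16 := by
      apply div_le_div_of_nonneg_left (by norm_num) (by norm_num)
      have h : (2 : ℝ) ^ 4 ≤ B ^ 4 := pow_le_pow_left₀ (by norm_num) hB 4
      linarith
    have h4 : (g z).re ≤ f x + 3 / 16 := by
      have h5 : (g z - ((f x : ℝ) : ℂ)).re ≤ ‖g z - ((f x : ℝ) : ℂ)‖ :=
        (le_abs_self _).trans (Complex.abs_re_le_norm _)
      rw [Complex.sub_re, Complex.ofReal_re] at h5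
      linarith
    have h6 : Real.exp (3 / 16) ≤ 2 := by
      have h7 : (3 / 16 : ℝ) ≤ Real.log 2 := by
        have := Real.log_two_gt_d9
        linarith
      calc Real.exp (3 / 16) ≤ Real.exp (Real.log 2) := Real.exp_le_exp.2 h7
        _ = 2 := Real.exp_log (by norm_num)
    calc Real.exp (g z).re ≤ Real.exp (f x + 3 / 16) := Real.exp_le_exp.2 h4
      _ = Real.exp (f x) * Real.exp (3 / 16) := Real.exp_add _ _
      _ ≤ B * 2 := mul_le_mul h1 h6 (Real.exp_pos _).le hB0.le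
      _ ≤ B ^ 6 := by
          have h : (2 : ℝ) ≤ B ^ 5 := by
            calc (2 : ℝ) ≤ B := hB
              _ = B ^ 1 := (pow_one B).symm
              _ ≤ B ^ 5 := pow_le_pow_right₀ (by linarith) (by norm_num)
          calc B * 2 ≤ B * B ^ 5 := mul_le_mul_of_nonneg_left h hB0.le
            _ = B ^ 6 := by ring
  · intro y hy
    have h2 : g (j y) = ((f y : ℝ) : ℂ) := hg.ext y (HC4_ball hB hy)
    change Complex.exp (g (j y)) = ((Real.exp (f y) : ℝ) : ℂ)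
    rw [h2, Complex.ofReal_exp]

end H36
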