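import Pool.Agent.LibBE36.HC3

open Set Filter Topology Metric
open scoped ContDiff

namespace H36

variable {E F G Ec Fc Gc : Type} [NormedAddCommGroup E] [NormedSpace ℝ E] [NormedAddCommGroup F]
  [NormedSpace ℝ F] [NormedAddCommGroup G] [NormedSpace ℝ G] [NormedAddCommGroup Ec]
  [NormedSpace ℂ Ec] [NormedAddCommGroup Fc] [NormedSpace ℂ Fc] [NormedAddCommGroup Gc]
  [NormedSpace ℂ Gc] [Cxf E Ec] [Cxf F Fc] [Cxf G Gc]

theorem HC5_ball {a z w : Ec} {r s : ℝ} (hz : z ∈ ball a s) (hw : ‖w‖ < r) :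
    z + w ∈ ball a (s + r) := by
  rw [mem_ball, dist_eq_norm] at hz ⊢
  have h1 : z + w - a = (z - a) + w := by abel
  rw [h1]
  exact (norm_add_le _ _).trans_lt (add_lt_add hz hw)

theorem HC5_sub {a y : Ec} {r s : ℝ} (hy : y ∈ ball a s) : ball y r ⊆ ball a (s + r) := by
  intro u hu
  have h1 : ‖u - y‖ < r := by rwa [mem_ball, dist_eq_norm] at hu
  have h2 := HC5_ball hy h1
  rwa [add_sub_cancel] at h2

/-- the derivative is Lipschitz -/
theorem HC5_lip {g : Ec → Fc} {a : Ec} {r B : ℝ} (hr : 0 < r)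
    (hg : DifferentiableOn ℂ g (ball a (3 * r))) (hb : ∀ z ∈ ball a (3 * r), ‖g z‖ ≤ B)
    {z w : Ec} (hz : z ∈ ball a r) (hw : ‖w‖ < r) :
    ‖fderiv ℂ g (z + w) - fderiv ℂ g z‖ ≤ 3 * B / r * ‖w‖ / r := by
  have h2 : ∀ y ∈ ball z r, ball y r ⊆ ball a (3 * r) := by
    intro y hy
    have h1 : y ∈ ball a (r + r) := HC5_sub hz hy
    have h4 := HC5_sub (r := r) h1
    have h5 : r + r + r = 3 * r := by ring
    rwa [h5] at h4
  have hyw : ∀ y : Ec, y + w ∈ ball y r := by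
    intro y
    rw [mem_ball, dist_eq_norm, add_sub_cancel_left]
    exact hw
  have h3 : ∀ y ∈ ball z r, DifferentiableAt ℂ g y ∧ DifferentiableAt ℂ g (y + w) := by
    intro y hy
    have h4 := h2 y hy
    constructor
    · exact (hg y (h4 (mem_ball_self hr))).differentiableAt
        (isOpen_ball.mem_nhds (h4 (mem_ball_self hr)))
    · exact (hg _ (h4 (hyw y))).differentiableAt (isOpen_ball.mem_nhds (h4 (hyw y)))
  have h12 : ∀ y ∈ ball z r, HasFDerivAt (fun y => g (y + w)) (fderiv ℂ g (y + w)) y := by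
    intro y hy
    have h13 := (h3 y hy).2.hasFDerivAt.comp y ((hasFDerivAt_id y).add_const w)
    rw [ContinuousLinearMap.comp_id] at h13
    exact h13
  have h6 : DifferentiableOn ℂ (fun y => g (y + w) - g y) (ball z r) := by
    intro y hy
    exact ((h12 y hy).sub (h3 y hy).1.hasFDerivAt).differentiableAt.differentiableWithinAt
  have h9 : ∀ y ∈ ball z r, ‖g (y + w) - g y‖ ≤ 3 * B / r * ‖w‖ := by
    intro y hy
    have h4 := h2 y hy
    have h5 := hol_lip hr (hg.mono h4) (fun u hu => hb u (h4 hu)) (hyw y)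
    rwa [add_sub_cancel_left] at h5
  have h10 := hol_fd hr h6 h9
  have h11 : fderiv ℂ (fun y => g (y + w) - g y) z = fderiv ℂ g (z + w) - fderiv ℂ g z :=
    ((h12 z (mem_ball_self hr)).sub (h3 z (mem_ball_self hr)).1.hasFDerivAt).fderiv
  rw [h11] at h10
  exact h10

/-- the difference quotients -/
theorem HC5_quot {g : Ec → Fc} {a : Ec} {r B : ℝ} (hr : 0 < r) (hB : 0 ≤ B)
    (hg : DifferentiableOn ℂ g (ball a (3 * r))) (hb : ∀ z ∈ ball a (3 * r), ‖g z‖ ≤ B)
    {z v : Ec} (hz : z ∈ ball a r) {t : ℂ} (ht : t ≠ 0) (htv : ‖t‖ * ‖v‖ < r) :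
    ‖t⁻¹ • (g (z + t • v) - g z) - fderiv ℂ g z v‖ ≤ 3 * B / r / r * ‖v‖ ^ 2 * ‖t‖ := by
  have hsv : ∀ s ∈ closedBall (0 : ℂ) ‖t‖, ‖s • v‖ ≤ ‖t‖ * ‖v‖ := by
    intro s hs
    have hs' : ‖s‖ ≤ ‖t‖ := by simpa using hs
    rw [norm_smul]
    exact mul_le_mul_of_nonneg_right hs' (norm_nonneg _)
  have h1 : ∀ s ∈ closedBall (0 : ℂ) ‖t‖,
      HasDerivWithinAt (fun s : ℂ => g (z + s • v) - s • fderiv ℂ g z v)
      (fderiv ℂ g (z + s • v) v - fderiv ℂ g z v) (closedBall (0 : ℂ) ‖t‖) s := by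
    intro s hs
    have hmem : z + s • v ∈ ball a (3 * r) := by
      have h2 := HC5_ball hz ((hsv s hs).trans_lt htv)
      refine ball_subset_ball ?_ h2
      linarith
    have hd : DifferentiableAt ℂ g (z + s • v) :=
      (hg _ hmem).differentiableAt (isOpen_ball.mem_nhds hmem)
    have h2 : HasDerivAt (fun s : ℂ => z + s • v) v s := by
      have h3 := ((hasDerivAt_id s).smul_const v).const_add z
      simpa using h3
    have h3 := hd.hasFDerivAt.comp_hasDerivAt s h2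
    have h4 : HasDerivAt (fun s : ℂ => s • fderiv ℂ g z v) (fderiv ℂ g z v) s := by
      simpa using (hasDerivAt_id s).smul_const (fderiv ℂ g z v)
    exact (h3.sub h4).hasDerivWithinAt
  have h5 : ∀ s ∈ closedBall (0 : ℂ) ‖t‖, ‖fderiv ℂ g (z + s • v) v - fderiv ℂ g z v‖ ≤
      3 * B / r / r * ‖v‖ ^ 2 * ‖t‖ := by
    intro s hs
    have h6 := HC5_lip hr hg hb hz ((hsv s hs).trans_lt htv)
    have h7 : fderiv ℂ g (z + s • v) v - fderiv ℂ g z v =
        (fderiv ℂ g (z + s • v) - fderiv ℂ g z) v := rfl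
    rw [h7]
    calc ‖(fderiv ℂ g (z + s • v) - fderiv ℂ g z) v‖ ≤
        ‖fderiv ℂ g (z + s • v) - fderiv ℂ g z‖ * ‖v‖ := ContinuousLinearMap.le_opNorm _ _
      _ ≤ (3 * B / r * (‖t‖ * ‖v‖) / r) * ‖v‖ := by
          apply mul_le_mul_of_nonneg_right _ (norm_nonneg _)
          refine h6.trans ?_
          apply div_le_div_of_nonneg_right _ hr.le
          exact mul_le_mul_of_nonneg_left (hsv s hs) (by positivity)
      _ = 3 * B / r / r * ‖v‖ ^ 2 * ‖t‖ := by ring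
  have h0mem : (0 : ℂ) ∈ closedBall (0 : ℂ) ‖t‖ := by simp
  have htmem : t ∈ closedBall (0 : ℂ) ‖t‖ := by simp
  have h7 := (convex_closedBall (0 : ℂ) ‖t‖).norm_image_sub_le_of_norm_hasDerivWithin_le
    h1 h5 h0mem htmem
  have h9 : (g (z + t • v) - t • fderiv ℂ g z v) - (g (z + (0 : ℂ) • v) - (0 : ℂ) • fderiv ℂ g z v) =
      g (z + t • v) - g z - t • fderiv ℂ g z v := by
    rw [zero_smul, zero_smul, add_zero]
    abel
  have h7' : ‖g (z + t • v) - g z - t • fderiv ℂ g z v‖ ≤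
      3 * B / r / r * ‖v‖ ^ 2 * ‖t‖ * ‖t - 0‖ := by
    rw [← h9]
    exact h7
  have h8 : t⁻¹ • (g (z + t • v) - g z) - fderiv ℂ g z v =
      t⁻¹ • (g (z + t • v) - g z - t • fderiv ℂ g z v) := by
    rw [smul_sub t⁻¹ (g (z + t • v) - g z), smul_smul, inv_mul_cancel₀ ht, one_smul]
  have ht' : 0 < ‖t‖ := norm_pos_iff.2 ht
  rw [h8, norm_smul, norm_inv]
  rw [sub_zero] at h7'
  calc ‖t‖⁻¹ * ‖g (z + t • v) - g z - t • fderiv ℂ g z v‖ ≤
      ‖t‖⁻¹ * (3 * B / r / r * ‖v‖ ^ 2 * ‖t‖ * ‖t‖) :=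
        mul_le_mul_of_nonneg_left h7' (by positivity)
    _ = 3 * B / r / r * ‖v‖ ^ 2 * ‖t‖ := by
        field_simp

/-- The directional derivative of a holomorphic map of several variables is holomorphic. -/
theorem hol_dir [FiniteDimensional ℂ Ec] [CompleteSpace Fc] {g : Ec → Fc} {U : Set Ec}
    (hU : IsOpen U) (hg : DifferentiableOn ℂ g U) (v : Ec) :
    DifferentiableOn ℂ (fun z => fderiv ℂ g z v) U := by
  intro a ha
  apply DifferentiableAt.differentiableWithinAt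
  -- a ball where `g` is bounded
  obtain ⟨R, hR, hRU⟩ := Metric.isOpen_iff.1 hU a ha
  have hcont : ContinuousAt g a := (hg.differentiableAt (hU.mem_nhds ha)).continuousAt
  obtain ⟨R', hR', hRb⟩ := Metric.continuousAt_iff.1 hcont 1 one_pos
  obtain ⟨r, hr⟩ : ∃ r : ℝ, r = min R R' / 3 := ⟨_, rfl⟩
  have hmin : 0 < min R R' := lt_min hR hR'
  have hr0 : 0 < r := by rw [hr]; positivity
  have h3r : 3 * r = min R R' := by rw [hr]; ring
  have hg' : DifferentiableOn ℂ g (ball a (3 * r)) := by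
    refine hg.mono (subset_trans (ball_subset_ball ?_) hRU)
    rw [h3r]
    exact min_le_left _ _
  obtain ⟨B, hB⟩ : ∃ B : ℝ, B = ‖g a‖ + 1 := ⟨_, rfl⟩
  have hB0 : 0 ≤ B := by rw [hB]; positivity
  have hb : ∀ z ∈ ball a (3 * r), ‖g z‖ ≤ B := by
    intro z hz
    have h1 : dist z a < R' := lt_of_lt_of_le (mem_ball.1 hz) (by rw [h3r]; exact min_le_right _ _)
    have h2 := hRb h1
    rw [dist_eq_norm] at h2
    have h3 := norm_add_le (g z - g a) (g a)
    rw [sub_add_cancel] at h3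
    rw [hB]
    linarith
  -- the steps
  obtain ⟨N, hN⟩ := exists_nat_gt (‖v‖ / r)
  obtain ⟨t, ht⟩ : ∃ t : ℕ → ℂ, t = fun n => (((n + N + 1 : ℕ) : ℝ) : ℂ)⁻¹ := ⟨_, rfl⟩
  have htn : ∀ n, ‖t n‖ = 1 / (((n + N + 1 : ℕ) : ℝ)) := by
    intro n
    rw [ht]
    show ‖(((n + N + 1 : ℕ) : ℝ) : ℂ)⁻¹‖ = _
    rw [norm_inv, Complex.norm_real, Real.norm_of_nonneg (by positivity), one_div]
  have ht0 : ∀ n, t n ≠ 0 := by
    intro n h
    have h1 := htn n
    rw [h, norm_zero] at h1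
    have : 0 < 1 / (((n + N + 1 : ℕ) : ℝ)) := by positivity
    linarith
  have htv : ∀ n, ‖t n‖ * ‖v‖ < r := by
    intro n
    rw [htn, one_div, inv_mul_lt_iff₀ (by positivity)]
    rw [div_lt_iff₀ hr0] at hN
    refine hN.trans_le (mul_le_mul_of_nonneg_right ?_ hr0.le)
    push_cast
    have : (0:ℝ) ≤ n := Nat.cast_nonneg n
    linarith
  have htlim : Tendsto (fun n => ‖t n‖) atTop (𝓝 0) := by
    have h1 : (fun n => ‖t n‖) = fun n : ℕ => (1:ℝ) / (((n + N : ℕ) : ℝ) + 1) := by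
      funext n
      rw [htn]
      push_cast
      ring
    rw [h1]
    exact (tendsto_one_div_add_atTop_nhds_zero_nat (𝕜 := ℝ)).comp (tendsto_add_atTop_nat N)
  obtain ⟨K, hK⟩ : ∃ K : ℝ, K = 3 * B / r / r * ‖v‖ ^ 2 := ⟨_, rfl⟩
  have hK0 : 0 ≤ K := by rw [hK]; positivity
  obtain ⟨D, hD⟩ : ∃ D : ℕ → Ec → Fc, D = fun n z => (t n)⁻¹ • (g (z + t n • v) - g z) := ⟨_, rfl⟩
  have hDq : ∀ n, ∀ z ∈ ball a r, ‖D n z - fderiv ℂ g z v‖ ≤ K * ‖t n‖ := by
    intro n z hz
    rw [hD, hK]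
    exact HC5_quot hr0 hB0 hg' hb hz (ht0 n) (htv n)
  have hDd : ∀ n, ∀ z ∈ ball a r, DifferentiableAt ℂ (D n) z := by
    intro n z hz
    have hz3 : z ∈ ball a (3 * r) := ball_subset_ball (by linarith) hz
    have hzt : z + t n • v ∈ ball a (3 * r) := by
      have h2 : ‖t n • v‖ < r := by rw [norm_smul]; exact htv n
      refine ball_subset_ball ?_ (HC5_ball hz h2)
      linarith
    have h1 : DifferentiableAt ℂ g z := (hg' z hz3).differentiableAt (isOpen_ball.mem_nhds hz3)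
    have h2 : DifferentiableAt ℂ g (z + t n • v) :=
      (hg' _ hzt).differentiableAt (isOpen_ball.mem_nhds hzt)
    have h3 : DifferentiableAt ℂ (fun z => g (z + t n • v)) z :=
      (h2.hasFDerivAt.comp z ((hasFDerivAt_id z).add_const (t n • v))).differentiableAt
    rw [hD]
    exact (h3.sub h1).const_smul _
  -- the derivatives are uniformly Cauchy
  have hr2 : 0 < r / 2 := by positivity
  have hcauchy : ∀ m n, ∀ z ∈ ball a (r / 2), ‖fderiv ℂ (D m) z - fderiv ℂ (D n) z‖ ≤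
      K * (‖t m‖ + ‖t n‖) / (r / 2) := by
    intro m n z hz
    have hsub : ball z (r / 2) ⊆ ball a r := by
      have h1 := HC5_sub (r := r / 2) hz
      rwa [add_halves] at h1
    have h1 : DifferentiableOn ℂ (fun y => D m y - D n y) (ball z (r / 2)) := fun y hy =>
      ((hDd m y (hsub hy)).sub (hDd n y (hsub hy))).differentiableWithinAt
    have h2 : ∀ y ∈ ball z (r / 2), ‖D m y - D n y‖ ≤ K * (‖t m‖ + ‖t n‖) := by
      intro y hy
      have h3 := hDq m y (hsub hy)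
      have h4 := hDq n y (hsub hy)
      have h5 := norm_sub_le (D m y - fderiv ℂ g y v) (D n y - fderiv ℂ g y v)
      rw [sub_sub_sub_cancel_right] at h5
      linarith
    have h6 := hol_fd hr2 h1 h2
    have hza : z ∈ ball a r := hsub (mem_ball_self hr2)
    have h7 : fderiv ℂ (fun y => D m y - D n y) z = fderiv ℂ (D m) z - fderiv ℂ (D n) z :=
      ((hDd m z hza).hasFDerivAt.sub (hDd n z hza).hasFDerivAt).fderiv
    rwa [h7] at h6
  have hUC : UniformCauchySeqOn (fun n z => fderiv ℂ (D n) z) atTop (ball a (r / 2)) := by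
    rw [Metric.uniformCauchySeqOn_iff]
    intro ε hε
    have h1 : Tendsto (fun n => K * (‖t n‖ + ‖t n‖) / (r / 2)) atTop (𝓝 0) := by
      have h2 := (((htlim.add htlim).const_mul K).div_const (r / 2))
      simpa using h2
    have hlim : Tendsto (fun n => K * ‖t n‖ / (r / 2)) atTop (𝓝 0) := by
      have h2 := ((htlim.const_mul K).div_const (r / 2))
      simpa using h2
    obtain ⟨M, hM⟩ := Filter.eventually_atTop.1
      (hlim.eventually (gt_mem_nhds (show (0:ℝ) < ε / 2 by positivity)))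
    refine ⟨M, fun m hm n hn z hz => ?_⟩
    rw [dist_eq_norm]
    have h3 := hcauchy m n z hz
    have h4 := hM m hm
    have h5 := hM n hn
    have h6 : K * (‖t m‖ + ‖t n‖) / (r / 2) = K * ‖t m‖ / (r / 2) + K * ‖t n‖ / (r / 2) := by ring
    linarith
  have hlimex : ∀ z : Ec, ∃ L : Ec →L[ℂ] Fc, z ∈ ball a (r / 2) →
      Tendsto (fun n => fderiv ℂ (D n) z) atTop (𝓝 L) := by
    intro z
    by_cases hz : z ∈ ball a (r / 2)
    · obtain ⟨L, hL⟩ := cauchySeq_tendsto_of_complete (hUC.cauchySeq hz)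
      exact ⟨L, fun _ => hL⟩
    · exact ⟨0, fun h => absurd h hz⟩
  choose L hL using hlimex
  have hTU : TendstoUniformlyOn (fun n z => fderiv ℂ (D n) z) L atTop (ball a (r / 2)) :=
    hUC.tendstoUniformlyOn_of_tendsto fun z hz => hL z hz
  have hsub2 : ball a (r / 2) ⊆ ball a r := ball_subset_ball (by linarith)
  have hfin := hasFDerivAt_of_tendstoUniformlyOn (f := D) (g := fun z => fderiv ℂ g z v)
    isOpen_ball hTU (fun n z hz => (hDd n z (hsub2 hz)).hasFDerivAt)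
    (fun z hz => by
      rw [tendsto_iff_norm_sub_tendsto_zero]
      have h1 : Tendsto (fun n => K * ‖t n‖) atTop (𝓝 0) := by simpa using htlim.const_mul K
      exact squeeze_zero (fun n => norm_nonneg _) (fun n => hDq n z (hsub2 hz)) h1)
    (x := a) (mem_ball_self hr2)
  exact hfin.differentiableAt

end H36
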