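import Pool.Agent.LibBE36.HC3

open Set Filter Topology Metric
open scoped ContDiff

namespace H36

variable {E F G Ec Fc Gc : Type} [NormedAddCommGroup E] [NormedSpace ℝ E] [NormedAddCommGroup F]
  [NormedSpace ℝ F] [NormedAddCommGroup G] [NormedSpace ℝ G] [NormedAddCommGroup Ec]
  [NormedSpace ℂ Ec] [NormedAddCommGroup Fc] [NormedSpace ℂ Fc] [NormedAddCommGroup Gc]
  [NormedSpace ℂ Gc] [Cxf E Ec] [Cxf F Fc] [Cxf G Gc]

theorem hol_lim [CompleteSpace Fc] {g : ℕ → Ec → Fc} {h : Ec → Fc} {a : Ec} {r : ℝ}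
    (hg : ∀ n, DifferentiableOn ℂ (g n) (ball a r))
    (hu : TendstoUniformlyOn g h atTop (ball a r)) : DifferentiableOn ℂ h (ball a r) := by
  intro z0 hz0
  rw [mem_ball] at hz0
  set s : ℝ := (r - dist z0 a) / 2 with hs
  have hs0 : 0 < s := by
    rw [hs]
    linarith
  have hsub : ∀ z ∈ ball z0 s, ball z s ⊆ ball a r := by
    intro z hz w hw
    rw [mem_ball] at hz hw ⊢
    calc dist w a ≤ dist w z + (dist z z0 + dist z0 a) :=
          (dist_triangle w z a).trans (add_le_add_right (dist_triangle z z0 a) _)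
      _ < s + (s + dist z0 a) := by linarith
      _ = r := by
          rw [hs]
          ring
  have hsub0 : ball z0 s ⊆ ball a r := hsub z0 (mem_ball_self hs0)
  have hderiv : ∀ n, ∀ z ∈ ball z0 s, HasFDerivAt (g n) (fderiv ℂ (g n) z) z := by
    intro n z hz
    exact ((hg n).differentiableAt (isOpen_ball.mem_nhds (hsub0 hz))).hasFDerivAt
  have huc : UniformCauchySeqOn (fun n z => fderiv ℂ (g n) z) atTop (ball z0 s) := by
    rw [Metric.uniformCauchySeqOn_iff]
    intro ε hε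
    have h1 := (Metric.uniformCauchySeqOn_iff.1 hu.uniformCauchySeqOn) (ε * s / 2) (by positivity)
    obtain ⟨M, hM⟩ := h1
    refine ⟨M, fun m hm n hn z hz => ?_⟩
    have h2 : DifferentiableOn ℂ (fun w => g m w - g n w) (ball z s) :=
      ((hg m).mono (hsub z hz)).sub ((hg n).mono (hsub z hz))
    have h3 := hol_fd (Ec := Ec) (Fc := Fc) (B := ε * s / 2) hs0 h2 (fun w hw => by
      have h4 := hM m hm n hn w (hsub z hz hw)
      rw [dist_eq_norm] at h4
      exact h4.le)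
    have h5 : fderiv ℂ (fun w => g m w - g n w) z = fderiv ℂ (g m) z - fderiv ℂ (g n) z :=
      ((hderiv m z hz).sub (hderiv n z hz)).fderiv
    rw [h5] at h3
    rw [dist_eq_norm]
    calc ‖fderiv ℂ (g m) z - fderiv ℂ (g n) z‖ ≤ ε * s / 2 / s := h3
      _ = ε / 2 := by
          field_simp
      _ < ε := by linarith
  have hlim : ∀ z ∈ ball z0 s, ∃ L : Ec →L[ℂ] Fc, Tendsto (fun n => fderiv ℂ (g n) z) atTop (𝓝 L) :=
    fun z hz => cauchySeq_tendsto_of_complete (huc.cauchySeq hz)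
  choose! L hL using hlim
  have hunif : TendstoUniformlyOn (fun n z => fderiv ℂ (g n) z) L atTop (ball z0 s) :=
    huc.tendstoUniformlyOn_of_tendsto hL
  have hfin : HasFDerivAt h (L z0) z0 :=
    hasFDerivAt_of_tendstoUniformlyOn isOpen_ball hunif hderiv
      (fun z hz => hu.tendsto_at (hsub0 hz)) (mem_ball_self hs0)
  exact hfin.differentiableAt.differentiableWithinAt

/-- A contraction depending holomorphically on a parameter. -/
theorem hol_fix [CompleteSpace Fc] {N : Ec → Fc → Fc} {a : Ec} {b : Fc} {r ρ : ℝ} (hρ : 0 < ρ)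
    (hN : DifferentiableOn ℂ (fun p : Ec × Fc => N p.1 p.2) (ball a r ×ˢ ball b ρ))
    (hc : ∀ z ∈ ball a r, ∀ v ∈ ball b ρ, ∀ w ∈ ball b ρ, ‖N z v - N z w‖ ≤ 1 / 2 * ‖v - w‖)
    (h0 : ∀ z ∈ ball a r, ‖N z b - b‖ ≤ ρ / 4) :
    ∃ g : Ec → Fc, DifferentiableOn ℂ g (ball a r) ∧
      (∀ z ∈ ball a r, ‖g z - b‖ ≤ ρ / 2 ∧ N z (g z) = g z) ∧
      ∀ z ∈ ball a r, ∀ v ∈ ball b ρ, N z v = v → v = g z := by
  let v : ℕ → Ec → Fc := fun n => Nat.rec (fun _ => b) (fun _ f z => N z (f z)) n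
  have v0 : ∀ z, v 0 z = b := fun z => rfl
  have vs : ∀ n z, v (n + 1) z = N z (v n z) := fun n z => rfl
  have hbb : b ∈ ball b ρ := mem_ball_self hρ
  have hv : ∀ z ∈ ball a r, ∀ n, ‖v n z - b‖ ≤ ρ / 2 := by
    intro z hz n
    induction n with
    | zero =>
      rw [v0, sub_self, norm_zero]
      positivity
    | succ n ih =>
      have hmem : v n z ∈ ball b ρ := by
        rw [mem_ball, dist_eq_norm]
        linarith
      rw [vs]
      calc ‖N z (v n z) - b‖ = ‖(N z (v n z) - N z b) + (N z b - b)‖ := by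
            congr 1
            abel
        _ ≤ ‖N z (v n z) - N z b‖ + ‖N z b - b‖ := norm_add_le _ _
        _ ≤ 1 / 2 * ‖v n z - b‖ + ρ / 4 := add_le_add (hc z hz _ hmem _ hbb) (h0 z hz)
        _ ≤ 1 / 2 * (ρ / 2) + ρ / 4 := by linarith
        _ = ρ / 2 := by ring
  have hvm : ∀ z ∈ ball a r, ∀ n, v n z ∈ ball b ρ := by
    intro z hz n
    rw [mem_ball, dist_eq_norm]
    have := hv z hz n
    linarith
  have hstep : ∀ z ∈ ball a r, ∀ n, dist (v n z) (v (n + 1) z) ≤ ρ / 4 * (1 / 2) ^ n := by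
    intro z hz n
    induction n with
    | zero =>
      rw [vs, v0, dist_comm, dist_eq_norm, pow_zero, mul_one]
      exact h0 z hz
    | succ n ih =>
      rw [vs (n + 1) z, dist_eq_norm]
      have h1 : ‖v (n + 1) z - N z (v (n + 1) z)‖ = ‖N z (v n z) - N z (v (n + 1) z)‖ := by
        rw [← vs n z]
      rw [h1]
      calc ‖N z (v n z) - N z (v (n + 1) z)‖ ≤ 1 / 2 * ‖v n z - v (n + 1) z‖ :=
            hc z hz _ (hvm z hz n) _ (hvm z hz (n + 1))
        _ ≤ 1 / 2 * (ρ / 4 * (1 / 2) ^ n) := by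
            rw [← dist_eq_norm]
            linarith
        _ = ρ / 4 * (1 / 2) ^ (n + 1) := by ring
  have hdiff : ∀ n, DifferentiableOn ℂ (v n) (ball a r) := by
    intro n
    induction n with
    | zero => exact differentiableOn_const b
    | succ n ih =>
      have h1 : DifferentiableOn ℂ (fun z => (z, v n z)) (ball a r) :=
        differentiableOn_id.prodMk ih
      exact hN.comp h1 (fun z hz => ⟨hz, hvm z hz n⟩)
  have hlim : ∀ z ∈ ball a r, ∃ l : Fc, Tendsto (fun n => v n z) atTop (𝓝 l) := fun z hz =>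
    cauchySeq_tendsto_of_complete (cauchySeq_of_le_geometric (1 / 2) (ρ / 4) (by norm_num) (hstep z hz))
  choose! g hg using hlim
  have hbd : ∀ z ∈ ball a r, ∀ n, dist (v n z) (g z) ≤ ρ / 4 * (1 / 2) ^ n / (1 - 1 / 2) :=
    fun z hz n => dist_le_of_le_geometric_of_tendsto (1 / 2) (ρ / 4) (by norm_num) (hstep z hz) (hg z hz) n
  have hunif : TendstoUniformlyOn v g atTop (ball a r) := by
    rw [Metric.tendstoUniformlyOn_iff]
    intro ε hε
    have h1 : Tendsto (fun n : ℕ => ρ / 4 * (1 / 2 : ℝ) ^ n / (1 - 1 / 2)) atTop (𝓝 (ρ / 4 * 0 / (1 - 1 / 2))) :=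
      ((tendsto_pow_atTop_nhds_zero_of_lt_one (by norm_num) (by norm_num)).const_mul _).div_const _
    rw [mul_zero, zero_div] at h1
    filter_upwards [h1.eventually (gt_mem_nhds hε)] with n hn z hz
    rw [dist_comm]
    exact (hbd z hz n).trans_lt hn
  have hgb : ∀ z ∈ ball a r, ‖g z - b‖ ≤ ρ / 2 := by
    intro z hz
    have h1 : Tendsto (fun n => ‖v n z - b‖) atTop (𝓝 ‖g z - b‖) := ((hg z hz).sub_const b).norm
    exact le_of_tendsto' h1 (fun n => hv z hz n)
  have hgm : ∀ z ∈ ball a r, g z ∈ ball b ρ := by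
    intro z hz
    rw [mem_ball, dist_eq_norm]
    have := hgb z hz
    linarith
  have hfix : ∀ z ∈ ball a r, N z (g z) = g z := by
    intro z hz
    have h1 : Tendsto (fun n => v (n + 1) z) atTop (𝓝 (g z)) := (tendsto_add_atTop_iff_nat 1).2 (hg z hz)
    have h2 : Tendsto (fun n => v (n + 1) z) atTop (𝓝 (N z (g z))) := by
      rw [tendsto_iff_norm_sub_tendsto_zero]
      have h3 : Tendsto (fun n => 1 / 2 * ‖v n z - g z‖) atTop (𝓝 (1 / 2 * 0)) :=
        (tendsto_iff_norm_sub_tendsto_zero.1 (hg z hz)).const_mul _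
      rw [mul_zero] at h3
      refine squeeze_zero (fun n => norm_nonneg _) (fun n => ?_) h3
      rw [vs]
      exact hc z hz _ (hvm z hz n) _ (hgm z hz)
    exact tendsto_nhds_unique h2 h1
  refine ⟨g, hol_lim hdiff hunif, fun z hz => ⟨hgb z hz, hfix z hz⟩, fun z hz w hw hNw => ?_⟩
  have h1 := hc z hz w hw (g z) (hgm z hz)
  rw [hNw, hfix z hz] at h1
  have h2 : ‖w - g z‖ = 0 := by
    have := norm_nonneg (w - g z)
    linarith
  exact sub_eq_zero.1 (norm_eq_zero.1 h2)

end H36
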