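import Pool.Agent.LibBE36.HC7
import Pool.Agent.LibBE36.HC5b

open Set Filter Topology Metric
open scoped ContDiff

namespace H36

variable {E F G Ec Fc Gc : Type} [NormedAddCommGroup E] [NormedSpace ℝ E] [NormedAddCommGroup F]
  [NormedSpace ℝ F] [NormedAddCommGroup G] [NormedSpace ℝ G] [NormedAddCommGroup Ec]
  [NormedSpace ℂ Ec] [NormedAddCommGroup Fc] [NormedSpace ℂ Fc] [NormedAddCommGroup Gc]
  [NormedSpace ℂ Gc] [Cxf E Ec] [Cxf F Fc] [Cxf G Gc]

theorem HC8_centre {Φ : E × F → F} {g : Ec × Fc → Fc} {x : E} {u : F} {r C : ℝ} (hr : 0 < r)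
    (hs : DifferentiableAt ℝ Φ (x, u)) (hg : Ext Φ (ball (j (x, u)) r) C g) (v : F) :
    fderiv ℂ g (j x, j u) (0, j v) = j (fderiv ℝ Φ (x, u) (0, v)) := by
  have h1 : HasDerivAt (fun s : ℝ => ((x, u + s • v) : E × F)) (0, v) 0 := by
    have h := (hasDerivAt_const (0 : ℝ) x).prodMk
      (((hasDerivAt_id (0 : ℝ)).smul_const v).const_add u)
    simpa using h
  have h2 : HasDerivAt (fun s : ℝ => Φ (x, u + s • v)) (fderiv ℝ Φ (x, u) (0, v)) 0 :=
    hs.hasFDerivAt.comp_hasDerivAt_of_eq (0 : ℝ) h1 (by simp)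
  have h3 := j_deriv (Fc := Fc) h2
  have hmem : ((j x, j u) : Ec × Fc) ∈ ball (j (x, u) : Ec × Fc) r := mem_ball_self hr
  have h4 : HasDerivAt (fun s : ℂ => g (j x, j u + s • j v)) (fderiv ℂ g (j x, j u) (0, j v)) 0 := by
    have h := ((hg.diff _ hmem).differentiableAt (isOpen_ball.mem_nhds hmem)).hasFDerivAt
    have h5 : HasDerivAt (fun s : ℂ => ((j x, j u + s • j v) : Ec × Fc)) (0, j v) 0 := by
      have h := (hasDerivAt_const (0 : ℂ) (j x : Ec)).prodMk
        (((hasDerivAt_id (0 : ℂ)).smul_const (j v : Fc)).const_add (j u))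
      simpa using h
    exact h.comp_hasDerivAt_of_eq (0 : ℂ) h5 (by simp)
  have h6 : HasDerivAt (fun s : ℝ => g (j x, j u + (s : ℂ) • j v))
      (fderiv ℂ g (j x, j u) (0, j v)) 0 := by
    have h := HasDerivAt.scomp_of_eq (0 : ℝ) h4 (Complex.ofRealCLM.hasDerivAt (x := 0)) (by simp)
    simp only [Complex.ofRealCLM_apply, Complex.ofReal_one, one_smul] at h
    exact h
  have h7 : (fun s : ℝ => g (j x, j u + (s : ℂ) • j v)) =ᶠ[𝓝 0]
      (fun s : ℝ => (j (Φ (x, u + s • v)) : Fc)) := by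
    have hcont : ContinuousAt (fun s : ℝ => (j ((x, u + s • v) : E × F) : Ec × Fc)) 0 :=
      ContinuousAt.comp (g := fun p : E × F => (j p : Ec × Fc)) (j_cont.continuousAt) h1.continuousAt
    have hev : ∀ᶠ s in 𝓝 (0 : ℝ), (j ((x, u + s • v) : E × F) : Ec × Fc) ∈
        ball (j (x, u) : Ec × Fc) r := by
      refine hcont.eventually_mem (isOpen_ball.mem_nhds ?_)
      simp only [zero_smul, add_zero]
      exact mem_ball_self hr
    filter_upwards [hev] with s hs'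
    have h8 := hg.ext _ hs'
    rw [← h8]
    congr 1
    refine Prod.ext rfl ?_
    change (j u + (s : ℂ) • j v : Fc) = j (u + s • v)
    rw [Cxf.j_add, Cxf.j_smul]
  exact h6.unique (h3.congr_of_eventuallyEq h7)

theorem HC8_lipD [FiniteDimensional ℂ Ec] [CompleteSpace Fc] {g : Ec → Fc} {a : Ec} {B : ℝ}
    (hB : 0 < B) (hg : DifferentiableOn ℂ g (ball a (1 / B))) (hb : ∀ z ∈ ball a (1 / B), ‖g z‖ ≤ B)
    {z : Ec} (hz : z ∈ ball a (1 / (2 * B))) :
    ‖fderiv ℂ g z - fderiv ℂ g a‖ ≤ 12 * B ^ 3 * ‖z - a‖ := by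
  have h2B : 0 < 1 / (2 * B) := by positivity
  have hhalf : 1 / (2 * B) + 1 / (2 * B) = 1 / B := by
    field_simp
    norm_num
  have hsub : ball a (1 / (2 * B)) ⊆ ball a (1 / B) := ball_subset_ball (by linarith)
  have hfd : ∀ p ∈ ball a (1 / (2 * B)), ‖fderiv ℂ g p‖ ≤ 2 * B ^ 2 := by
    intro p hp
    have hs' : ball p (1 / (2 * B)) ⊆ ball a (1 / B) := by
      apply ball_subset_ball'
      rw [mem_ball] at hp
      linarith
    have h := hol_fd h2B (hg.mono hs') (fun z hz => hb z (hs' hz))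
    refine h.trans (le_of_eq ?_)
    field_simp
  refine ContinuousLinearMap.opNorm_le_bound _ (by positivity) fun v => ?_
  have hd := (hol_dir isOpen_ball hg v).mono hsub
  have hbd : ∀ p ∈ ball a (1 / (2 * B)), ‖fderiv ℂ g p v‖ ≤ 2 * B ^ 2 * ‖v‖ := fun p hp =>
    ((fderiv ℂ g p).le_opNorm v).trans (mul_le_mul_of_nonneg_right (hfd p hp) (norm_nonneg v))
  have h := hol_lip h2B hd hbd hz
  rw [sub_apply]
  refine h.trans (le_of_eq ?_)
  field_simp
  ring

/-- The implicit function theorem with explicit constants. -/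
theorem Hol_imp [FiniteDimensional ℝ F] [FiniteDimensional ℂ Ec] [FiniteDimensional ℂ Fc]
    {Φ : E × F → F} {w : E → F} {x : E} {B : ℝ} (hB : 2 ≤ B) (hΦ : Hol Φ (x, w x) B)
    (hs : Differentiable ℝ Φ) (hw : Continuous w) (h0 : ∀ y, Φ (y, w y) = 0)
    (hL : ∀ v : F, ‖v‖ ≤ B * ‖fderiv ℝ Φ (x, w x) (0, v)‖) (hb : ‖w x‖ ≤ B) :
    Hol w x (B ^ 20) := by
  have hcF : CompleteSpace Fc := FiniteDimensional.complete ℂ Fc
  obtain ⟨g, hg⟩ := hΦ
  have hB0 : 0 < B := by linarith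
  have hB1 : 1 ≤ B := by linarith
  have h1B : 0 < 1 / B := by positivity
  -- the derivative in the second variable and its inverse
  let L : F →ₗ[ℝ] F := ((fderiv ℝ Φ (x, w x)).comp (ContinuousLinearMap.inr ℝ E F)).toLinearMap
  have hLv : ∀ v, L v = fderiv ℝ Φ (x, w x) (0, v) := fun v => rfl
  have hinj : Function.Injective L := by
    rw [injective_iff_map_eq_zero]
    intro v hv
    have h := hL v
    rw [← hLv, hv, norm_zero, mul_zero] at h
    exact norm_le_zero_iff.mp h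
  let e : F ≃ₗ[ℝ] F := LinearEquiv.ofInjectiveEndo L hinj
  have he : ∀ v, e v = L v := fun v => rfl
  have hTb : ∀ v, ‖e.symm v‖ ≤ B * ‖v‖ := by
    intro v
    have h := hL (e.symm v)
    rw [← hLv, ← he, LinearEquiv.apply_symm_apply] at h
    exact h
  let T : F →L[ℝ] F := LinearMap.mkContinuous (e.symm : F →ₗ[ℝ] F) B hTb
  have hT : ∀ v, T (L v) = v := fun v => by
    change e.symm (L v) = v
    rw [← he, LinearEquiv.symm_apply_apply]
  have hTn : ‖T‖ ≤ B := LinearMap.mkContinuous_norm_le _ hB0.le _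
  obtain ⟨Tc, hTc1, hTc2, hTc3⟩ := cx_clm (Ec := Fc) (Fc := Fc) T
  have hTcn : ‖Tc‖ ≤ 2 * B := hTc3.trans (by linarith)
  -- the centre
  have hcent : ((j x, j (w x)) : Ec × Fc) ∈ ball (j (x, w x) : Ec × Fc) (1 / B) := mem_ball_self h1B
  have hTL : ∀ v : Fc, Tc (fderiv ℂ g (j x, j (w x)) (0, v)) = v := by
    intro v
    have hv := Cxf.split (E := F) v
    have h1 := HC8_centre h1B (hs (x, w x)) hg (Cxf.re v)
    have h2 := HC8_centre h1B (hs (x, w x)) hg (Cxf.im v)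
    have h3 : ((0, v) : Ec × Fc) =
        (0, j (Cxf.re v : F)) + Complex.I • (0, j (Cxf.im v : F)) := by
      rw [Prod.smul_mk, Prod.mk_add_mk, smul_zero, add_zero, hv]
    rw [h3, map_add, map_smul, h1, h2, map_add, map_smul, hTc2, hTc2, ← hLv, ← hLv, hT, hT]
    exact hv
  -- the constants
  have hB6 : (64 : ℝ) ≤ B ^ 6 := by
    have h := pow_le_pow_left₀ (by norm_num : (0 : ℝ) ≤ 2) hB 6
    linarith
  have hB7 : (128 : ℝ) ≤ B ^ 7 := by
    have h := pow_le_pow_left₀ (by norm_num : (0 : ℝ) ≤ 2) hB 7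
    linarith
  have hB9 : (512 : ℝ) ≤ B ^ 9 := by
    have h := pow_le_pow_left₀ (by norm_num : (0 : ℝ) ≤ 2) hB 9
    linarith
  have hr0 : 0 < 1 / B ^ 20 := by positivity
  have hρ0 : 0 < 1 / B ^ 10 := by positivity
  have hrρ : 1 / B ^ 20 ≤ 1 / B ^ 10 :=
    one_div_le_one_div_of_le (by positivity) (pow_le_pow_right₀ hB1 (by norm_num))
  have hρB : 1 / B ^ 10 ≤ 1 / (2 * B) := by
    refine one_div_le_one_div_of_le (by positivity) ?_
    calc 2 * B ≤ 512 * B := by linarith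
      _ ≤ B ^ 9 * B := mul_le_mul_of_nonneg_right hB9 hB0.le
      _ = B ^ 10 := by ring
  have h2BB : 1 / (2 * B) ≤ 1 / B := one_div_le_one_div_of_le hB0 (by linarith)
  have hρ4 : 24 * B ^ 4 * (1 / B ^ 10) ≤ 1 / 2 := by
    rw [mul_one_div, div_le_iff₀ (by positivity)]
    calc 24 * B ^ 4 ≤ 1 / 2 * (64 * B ^ 4) := by nlinarith [pow_pos hB0 4]
      _ ≤ 1 / 2 * (B ^ 6 * B ^ 4) := by
          refine mul_le_mul_of_nonneg_left ?_ (by norm_num)
          exact mul_le_mul_of_nonneg_right hB6 (by positivity)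
      _ = 1 / 2 * B ^ 10 := by ring
  have hr4 : 6 * B ^ 3 * (1 / B ^ 20) ≤ 1 / B ^ 10 / 4 := by
    rw [mul_one_div, div_le_iff₀ (by positivity)]
    calc 6 * B ^ 3 ≤ 1 / 4 * (128 * B ^ 3) := by nlinarith [pow_pos hB0 3]
      _ ≤ 1 / 4 * (B ^ 7 * B ^ 3) := by
          refine mul_le_mul_of_nonneg_left ?_ (by norm_num)
          exact mul_le_mul_of_nonneg_right hB7 (by positivity)
      _ = 1 / B ^ 10 / 4 * B ^ 20 := by
          field_simp
  have hmem : ∀ z ∈ ball (j x : Ec) (1 / B ^ 20), ∀ v ∈ ball (j (w x) : Fc) (1 / B ^ 10),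
      ((z, v) : Ec × Fc) ∈ ball ((j x, j (w x)) : Ec × Fc) (1 / B ^ 10) := by
    intro z hz v hv
    rw [mem_ball, Prod.dist_eq, max_lt_iff]
    exact ⟨(mem_ball.mp hz).trans_le hrρ, mem_ball.mp hv⟩
  have hmem2 : ∀ z ∈ ball (j x : Ec) (1 / B ^ 20), ∀ v ∈ ball (j (w x) : Fc) (1 / B ^ 10),
      ((z, v) : Ec × Fc) ∈ ball ((j x, j (w x)) : Ec × Fc) (1 / (2 * B)) := fun z hz v hv =>
    ball_subset_ball hρB (hmem z hz v hv)
  have hmem3 : ∀ z ∈ ball (j x : Ec) (1 / B ^ 20), ∀ v ∈ ball (j (w x) : Fc) (1 / B ^ 10),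
      ((z, v) : Ec × Fc) ∈ ball (j (x, w x) : Ec × Fc) (1 / B) := fun z hz v hv =>
    ball_subset_ball h2BB (hmem2 z hz v hv)
  have hdiff : ∀ z ∈ ball (j x : Ec) (1 / B ^ 20), ∀ v ∈ ball (j (w x) : Fc) (1 / B ^ 10),
      HasFDerivAt g (fderiv ℂ g (z, v)) (z, v) := fun z hz v hv =>
    ((hg.diff _ (hmem3 z hz v hv)).differentiableAt
      (isOpen_ball.mem_nhds (hmem3 z hz v hv))).hasFDerivAt
  have hg0 : g (j x, j (w x)) = 0 := by
    have h := hg.ext (x, w x) hcent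
    rw [h0, j_zero] at h
    exact h
  obtain ⟨G, hG1, hG2, hG3⟩ := hol_fix (N := fun (z : Ec) (v : Fc) => v - Tc (g (z, v)))
    (a := (j x : Ec)) (b := (j (w x) : Fc)) (r := 1 / B ^ 20) (ρ := 1 / B ^ 10) hρ0
    (by
      refine differentiableOn_snd.sub (Tc.differentiable.comp_differentiableOn (hg.diff.mono ?_))
      rintro ⟨z, v⟩ ⟨hz, hv⟩
      exact hmem3 z hz v hv)
    (by
      intro z hz v hv v' hv'
      have hder : ∀ u ∈ ball (j (w x) : Fc) (1 / B ^ 10), HasFDerivWithinAt (fun u => g (z, u))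
          ((fderiv ℂ g (z, u)).comp (ContinuousLinearMap.inr ℂ Ec Fc))
          (ball (j (w x) : Fc) (1 / B ^ 10)) u := fun u hu =>
        ((hdiff z hz u hu).comp u (hasFDerivAt_prodMk_right z u)).hasFDerivWithinAt
      have hbound : ∀ u ∈ ball (j (w x) : Fc) (1 / B ^ 10),
          ‖(fderiv ℂ g (z, u)).comp (ContinuousLinearMap.inr ℂ Ec Fc) -
            (fderiv ℂ g (j x, j (w x))).comp (ContinuousLinearMap.inr ℂ Ec Fc)‖ ≤
          12 * B ^ 3 * (1 / B ^ 10) := by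
        intro u hu
        have h1 := HC8_lipD hB0 hg.diff hg.bound (hmem2 z hz u hu)
        have h2 : ‖((z, u) : Ec × Fc) - (j (x, w x) : Ec × Fc)‖ ≤ 1 / B ^ 10 := by
          have h3 := hmem z hz u hu
          rw [mem_ball, dist_eq_norm] at h3
          exact h3.le
        have h4 : ‖fderiv ℂ g (z, u) - fderiv ℂ g (j x, j (w x))‖ ≤ 12 * B ^ 3 * (1 / B ^ 10) :=
          h1.trans (mul_le_mul_of_nonneg_left h2 (by positivity))
        refine ContinuousLinearMap.opNorm_le_bound _ (by positivity) fun q => ?_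
        have h5 : ((fderiv ℂ g (z, u)).comp (ContinuousLinearMap.inr ℂ Ec Fc) -
            (fderiv ℂ g (j x, j (w x))).comp (ContinuousLinearMap.inr ℂ Ec Fc)) q =
            (fderiv ℂ g (z, u) - fderiv ℂ g (j x, j (w x))) (0, q) := rfl
        rw [h5]
        have h6 : ‖((0, q) : Ec × Fc)‖ = ‖q‖ := by
          rw [Prod.norm_mk, norm_zero]
          exact max_eq_right (norm_nonneg q)
        have h7 := (fderiv ℂ g (z, u) - fderiv ℂ g (j x, j (w x))).le_opNorm (0, q)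
        rw [h6] at h7
        exact h7.trans (mul_le_mul_of_nonneg_right h4 (norm_nonneg q))
      have hmv := (convex_ball (j (w x) : Fc) (1 / B ^ 10)).norm_image_sub_le_of_norm_hasFDerivWithin_le'
        hder hbound hv' hv
      have hid : (v - Tc (g (z, v))) - (v' - Tc (g (z, v'))) =
          -Tc (g (z, v) - g (z, v') - ((fderiv ℂ g (j x, j (w x))).comp
            (ContinuousLinearMap.inr ℂ Ec Fc)) (v - v')) := by
        have h8 : Tc (((fderiv ℂ g (j x, j (w x))).comp (ContinuousLinearMap.inr ℂ Ec Fc)) (v - v')) =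
            v - v' := hTL (v - v')
        rw [map_sub, h8, map_sub]
        abel
      calc ‖(v - Tc (g (z, v))) - (v' - Tc (g (z, v')))‖
          = ‖Tc (g (z, v) - g (z, v') - ((fderiv ℂ g (j x, j (w x))).comp
            (ContinuousLinearMap.inr ℂ Ec Fc)) (v - v'))‖ := by rw [hid, norm_neg]
        _ ≤ ‖Tc‖ * ‖g (z, v) - g (z, v') - ((fderiv ℂ g (j x, j (w x))).comp
            (ContinuousLinearMap.inr ℂ Ec Fc)) (v - v')‖ := Tc.le_opNorm _
        _ ≤ (2 * B) * (12 * B ^ 3 * (1 / B ^ 10) * ‖v - v'‖) :=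
            mul_le_mul hTcn hmv (norm_nonneg _) (by positivity)
        _ = 24 * B ^ 4 * (1 / B ^ 10) * ‖v - v'‖ := by ring
        _ ≤ 1 / 2 * ‖v - v'‖ := mul_le_mul_of_nonneg_right hρ4 (norm_nonneg _))
    (by
      intro z hz
      have hzb := hmem3 z hz _ (mem_ball_self hρ0)
      have h1 := hol_lip h1B hg.diff hg.bound hzb
      have h2 : ‖((z, j (w x)) : Ec × Fc) - (j (x, w x) : Ec × Fc)‖ ≤ 1 / B ^ 20 := by
        have h3 : ((z, j (w x)) : Ec × Fc) - (j (x, w x) : Ec × Fc) = (z - j x, 0) := by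
          change ((z, j (w x)) : Ec × Fc) - (j x, j (w x)) = _
          rw [Prod.mk_sub_mk, sub_self]
        rw [h3, Prod.norm_mk, norm_zero]
        have h4 := mem_ball.mp hz
        rw [dist_eq_norm] at h4
        exact max_le h4.le hr0.le
      have h5 : g (j (x, w x) : Ec × Fc) = 0 := hg0
      rw [h5, sub_zero] at h1
      have h6 : ‖g (z, j (w x))‖ ≤ 3 * B ^ 2 * (1 / B ^ 20) := by
        refine h1.trans ?_
        have h7 : 3 * B / (1 / B) = 3 * B ^ 2 := by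
          field_simp
        rw [h7]
        exact mul_le_mul_of_nonneg_left h2 (by positivity)
      calc ‖(j (w x) - Tc (g (z, j (w x)))) - j (w x)‖ = ‖Tc (g (z, j (w x)))‖ := by
            rw [sub_sub_cancel_left, norm_neg]
        _ ≤ ‖Tc‖ * ‖g (z, j (w x))‖ := Tc.le_opNorm _
        _ ≤ (2 * B) * (3 * B ^ 2 * (1 / B ^ 20)) := mul_le_mul hTcn h6 (norm_nonneg _) (by positivity)
        _ = 6 * B ^ 3 * (1 / B ^ 20) := by ring
        _ ≤ 1 / B ^ 10 / 4 := hr4)
  -- real points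
  have hreal : ∀ y : E, (j y : Ec) ∈ ball (j x : Ec) (1 / B ^ 20) → ‖w y - w x‖ < 1 / B ^ 10 →
      G (j y) = j (w y) := by
    intro y hy hwy
    have h1 : (j (w y) : Fc) ∈ ball (j (w x) : Fc) (1 / B ^ 10) := by
      rw [mem_ball, dist_eq_norm, ← j_sub, Cxf.j_norm]
      exact hwy
    have h2 : g (j y, j (w y)) = 0 := by
      have h := hg.ext (y, w y) (hmem3 _ hy _ h1)
      rw [h0, j_zero] at h
      exact h
    have h3 := hG3 _ hy _ h1 (by
      change j (w y) - Tc (g (j y, j (w y))) = j (w y)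
      rw [h2, map_zero, sub_zero])
    exact h3.symm
  have hhalf : ∀ y : E, (j y : Ec) ∈ ball (j x : Ec) (1 / B ^ 20) → ‖w y - w x‖ < 1 / B ^ 10 →
      ‖w y - w x‖ ≤ 1 / B ^ 10 / 2 := by
    intro y hy hwy
    have h1 := (hG2 _ hy).1
    rw [hreal y hy hwy, ← j_sub, Cxf.j_norm] at h1
    exact h1
  have hclose : ∀ y : E, (j y : Ec) ∈ ball (j x : Ec) (1 / B ^ 20) → ‖w y - w x‖ < 1 / B ^ 10 := by
    intro y hy
    by_contra hcon
    rw [not_lt] at hcon
    have hcont : ContinuousOn (fun t : ℝ => ‖w (x + t • (y - x)) - w x‖) (Icc 0 1) := by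
      refine Continuous.continuousOn ?_
      fun_prop
    have hivt := intermediate_value_Icc (zero_le_one' ℝ) hcont
    have hin : 3 / 4 * (1 / B ^ 10) ∈ Icc ((fun t : ℝ => ‖w (x + t • (y - x)) - w x‖) 0)
        ((fun t : ℝ => ‖w (x + t • (y - x)) - w x‖) 1) := by
      constructor
      · simp only [zero_smul, add_zero, sub_self, norm_zero]
        positivity
      · simp only [one_smul, add_sub_cancel]
        refine le_trans ?_ hcon
        linarith
    obtain ⟨t, ht, hteq⟩ := hivt hin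
    have hteq' : ‖w (x + t • (y - x)) - w x‖ = 3 / 4 * (1 / B ^ 10) := hteq
    have hy' : (j (x + t • (y - x)) : Ec) ∈ ball (j x : Ec) (1 / B ^ 20) := by
      rw [mem_ball, dist_eq_norm, ← j_sub, Cxf.j_norm] at hy ⊢
      rw [add_sub_cancel_left, norm_smul, Real.norm_of_nonneg ht.1]
      calc t * ‖y - x‖ ≤ 1 * ‖y - x‖ := mul_le_mul_of_nonneg_right ht.2 (norm_nonneg _)
        _ = ‖y - x‖ := one_mul _
        _ < 1 / B ^ 20 := hy
    have h1 := hhalf _ hy' (by rw [hteq']; linarith)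
    rw [hteq'] at h1
    linarith
  refine ⟨G, hG1, fun z hz => ?_, fun y hy => hreal y hy (hclose y hy)⟩
  have h1 := (hG2 z hz).1
  have h2 : ‖G z‖ ≤ ‖G z - j (w x)‖ + ‖(j (w x) : Fc)‖ := by
    have h := norm_add_le (G z - j (w x)) (j (w x))
    rwa [sub_add_cancel] at h
  rw [Cxf.j_norm] at h2
  have h3 : 1 / B ^ 10 ≤ 1 := by
    rw [div_le_one (by positivity)]
    exact one_le_pow₀ hB1
  have h4 : B + 1 ≤ B ^ 20 := by
    calc B + 1 ≤ 512 * B := by linarith
      _ ≤ B ^ 9 * B := mul_le_mul_of_nonneg_right hB9 hB0.le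
      _ = B ^ 10 := by ring
      _ ≤ B ^ 20 := pow_le_pow_right₀ hB1 (by norm_num)
  linarith

end H36
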