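import Pool.Agent.LibBE36.HC7
import Pool.Agent.LibBE36.HC6b

open Set Filter Topology Metric
open scoped ContDiff

namespace H36

variable {E F G Ec Fc Gc : Type} [NormedAddCommGroup E] [NormedSpace ℝ E] [NormedAddCommGroup F]
  [NormedSpace ℝ F] [NormedAddCommGroup G] [NormedSpace ℝ G] [NormedAddCommGroup Ec]
  [NormedSpace ℂ Ec] [NormedAddCommGroup Fc] [NormedSpace ℂ Fc] [NormedAddCommGroup Gc]
  [NormedSpace ℂ Gc] [Cxf E Ec] [Cxf F Fc] [Cxf G Gc]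

private theorem HC9_exp {g : ℝ → Ec} {L A t : ℝ} (ht : 0 ≤ t)
    (hg : ∀ s ∈ Icc (0 : ℝ) t, ‖g s‖ ≤ L * (A * Real.exp (L * s))) :
    ‖∫ s in (0 : ℝ)..t, g s‖ ≤ A * Real.exp (L * t) - A := by
  have h1 : ∀ s : ℝ, HasDerivAt (fun s : ℝ => A * Real.exp (L * s))
      (L * (A * Real.exp (L * s))) s := by
    intro s
    have h : HasDerivAt (fun s : ℝ => A * Real.exp (L * s)) (A * (Real.exp (L * s) * (L * 1))) s :=
      (((hasDerivAt_id s).const_mul L).exp).const_mul A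
    exact h.congr_deriv (by ring)
  have hc : Continuous (fun s : ℝ => L * (A * Real.exp (L * s))) := by fun_prop
  have h2 : ∫ s in (0 : ℝ)..t, L * (A * Real.exp (L * s)) =
      A * Real.exp (L * t) - A * Real.exp (L * 0) :=
    intervalIntegral.integral_eq_sub_of_hasDerivAt (fun s _ => h1 s)
      (hc.intervalIntegrable 0 t)
  have h3 : ‖∫ s in (0 : ℝ)..t, g s‖ ≤ ∫ s in (0 : ℝ)..t, L * (A * Real.exp (L * s)) := by
    refine intervalIntegral.norm_integral_le_of_norm_le ht ?_ (hc.intervalIntegrable 0 t)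
    exact Filter.Eventually.of_forall fun s hs => hg s ⟨hs.1.le, hs.2⟩
  rw [h2, mul_zero, Real.exp_zero, mul_one] at h3
  exact h3

private noncomputable def HC9_it (X : Ec → Ec) (c : ℝ → Ec) : ℕ → ℝ → Ec → Ec
  | 0 => fun t _ => c t
  | n + 1 => fun t z => z + ∫ s in (0 : ℝ)..t, X (HC9_it X c n s z)

private structure HC9_S (X : Ec → Ec) (c : ℝ → Ec) (ρ Λ : ℝ) : Prop where
  hρ : 0 < ρ
  hΛ : 0 < Λ
  hc : ∀ t ∈ Icc (0 : ℝ) 1, HasDerivAt c (X (c t)) t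
  hX : ∀ t ∈ Icc (0 : ℝ) 1, DifferentiableOn ℂ X (ball (c t) ρ)
  hl : ∀ t ∈ Icc (0 : ℝ) 1, ∀ z ∈ ball (c t) ρ, ∀ w ∈ ball (c t) ρ, ‖X z - X w‖ ≤ Λ * ‖z - w‖

private structure HC9_G (X : Ec → Ec) (c : ℝ → Ec) (ρ Λ : ℝ) (v : ℝ → Ec → Ec) : Prop where
  cont : ∀ z ∈ ball (c 0) (ρ * Real.exp (-Λ)), ContinuousOn (fun t => v t z) (Icc (0 : ℝ) 1)
  bd : ∀ z ∈ ball (c 0) (ρ * Real.exp (-Λ)), ∀ t ∈ Icc (0 : ℝ) 1,
    ‖v t z - c t‖ ≤ ‖z - c 0‖ * Real.exp (Λ * t)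
  lip : ∀ z ∈ ball (c 0) (ρ * Real.exp (-Λ)), ∀ w ∈ ball (c 0) (ρ * Real.exp (-Λ)),
    ∀ t ∈ Icc (0 : ℝ) 1, ‖v t z - v t w‖ ≤ ‖z - w‖ * Real.exp (Λ * t)
  diff : ∀ t ∈ Icc (0 : ℝ) 1, DifferentiableOn ℂ (v t) (ball (c 0) (ρ * Real.exp (-Λ)))

private theorem HC9_lt {c : ℝ → Ec} {ρ Λ : ℝ} (hΛ : 0 < Λ) {z : Ec}
    (hz : z ∈ ball (c 0) (ρ * Real.exp (-Λ))) {t : ℝ} (ht : t ∈ Icc (0 : ℝ) 1) :
    ‖z - c 0‖ * Real.exp (Λ * t) < ρ := by
  rw [mem_ball, dist_eq_norm] at hz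
  have h1 : ‖z - c 0‖ * Real.exp (Λ * t) ≤ ‖z - c 0‖ * Real.exp Λ := by
    refine mul_le_mul_of_nonneg_left (Real.exp_le_exp.2 ?_) (norm_nonneg _)
    nlinarith [ht.2]
  have h2 : ‖z - c 0‖ * Real.exp Λ < ρ * Real.exp (-Λ) * Real.exp Λ :=
    mul_lt_mul_of_pos_right hz (Real.exp_pos _)
  rw [mul_assoc, ← Real.exp_add, neg_add_cancel, Real.exp_zero, mul_one] at h2
  exact h1.trans_lt h2

private theorem HC9_Xc {X : Ec → Ec} {c : ℝ → Ec} {ρ Λ : ℝ} (S : HC9_S X c ρ Λ) {v : ℝ → Ec}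
    (hv : ContinuousOn v (Icc (0 : ℝ) 1)) (hb : ∀ t ∈ Icc (0 : ℝ) 1, v t ∈ ball (c t) ρ) :
    ContinuousOn (fun t => X (v t)) (Icc (0 : ℝ) 1) := by
  intro t ht
  have h1 : ContinuousAt X (v t) :=
    ((S.hX t ht).differentiableAt (isOpen_ball.mem_nhds (hb t ht))).continuousAt
  exact ContinuousAt.comp_continuousWithinAt (f := v) (g := X) h1 (hv t ht)

private theorem HC9_cc {X : Ec → Ec} {c : ℝ → Ec} {ρ Λ : ℝ} (S : HC9_S X c ρ Λ) :
    ContinuousOn c (Icc (0 : ℝ) 1) :=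
  fun t ht => (S.hc t ht).continuousAt.continuousWithinAt

private theorem HC9_int [CompleteSpace Ec] {X : Ec → Ec} {c : ℝ → Ec} {ρ Λ : ℝ}
    (S : HC9_S X c ρ Λ) {t : ℝ} (ht : t ∈ Icc (0 : ℝ) 1) :
    ∫ s in (0 : ℝ)..t, X (c s) = c t - c 0 := by
  have h1 : ContinuousOn (fun s => X (c s)) (Icc (0 : ℝ) 1) :=
    HC9_Xc S (HC9_cc S) fun s _ => mem_ball_self S.hρ
  have h2 : Icc (0 : ℝ) t ⊆ Icc (0 : ℝ) 1 := Icc_subset_Icc_right ht.2
  refine intervalIntegral.integral_eq_sub_of_hasDerivAt (fun s hs => S.hc s ?_) ?_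
  · rw [uIcc_of_le ht.1] at hs
    exact h2 hs
  · refine ContinuousOn.intervalIntegrable ?_
    rw [uIcc_of_le ht.1]
    exact h1.mono h2

private theorem HC9_ii {f : ℝ → Ec} (hf : ContinuousOn f (Icc (0 : ℝ) 1)) {t : ℝ}
    (ht : t ∈ Icc (0 : ℝ) 1) : IntervalIntegrable f MeasureTheory.volume 0 t := by
  refine ContinuousOn.intervalIntegrable ?_
  rw [uIcc_of_le ht.1]
  exact hf.mono (Icc_subset_Icc_right ht.2)

private theorem HC9_step [FiniteDimensional ℂ Ec] [CompleteSpace Ec] {X : Ec → Ec} {c : ℝ → Ec}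
    {ρ Λ : ℝ} (S : HC9_S X c ρ Λ) {v : ℝ → Ec → Ec} (G : HC9_G X c ρ Λ v) :
    HC9_G X c ρ Λ (fun t z => z + ∫ s in (0 : ℝ)..t, X (v s z)) := by
  have hmem : ∀ z ∈ ball (c 0) (ρ * Real.exp (-Λ)), ∀ t ∈ Icc (0 : ℝ) 1, v t z ∈ ball (c t) ρ := by
    intro z hz t ht
    rw [mem_ball, dist_eq_norm]
    exact (G.bd z hz t ht).trans_lt (HC9_lt S.hΛ hz ht)
  have hXc : ∀ z ∈ ball (c 0) (ρ * Real.exp (-Λ)),
      ContinuousOn (fun t => X (v t z)) (Icc (0 : ℝ) 1) := fun z hz =>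
    HC9_Xc S (G.cont z hz) (hmem z hz)
  have hcc : ContinuousOn (fun s => X (c s)) (Icc (0 : ℝ) 1) :=
    HC9_Xc S (HC9_cc S) fun s _ => mem_ball_self S.hρ
  constructor
  · intro z hz
    refine continuousOn_const.add ?_
    have h := intervalIntegral.continuousOn_primitive_interval (f := fun s => X (v s z))
      (a := (0 : ℝ)) (b := 1) (μ := MeasureTheory.volume) ?_
    · rwa [uIcc_of_le (zero_le_one' ℝ)] at h
    · rw [uIcc_of_le (zero_le_one' ℝ)]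
      exact (hXc z hz).integrableOn_Icc
  · intro z hz t ht
    have h1 : (z + ∫ s in (0 : ℝ)..t, X (v s z)) - c t =
        (z - c 0) + ∫ s in (0 : ℝ)..t, (X (v s z) - X (c s)) := by
      rw [intervalIntegral.integral_sub (HC9_ii (hXc z hz) ht) (HC9_ii hcc ht), HC9_int S ht]
      abel
    have h2 : ‖∫ s in (0 : ℝ)..t, (X (v s z) - X (c s))‖ ≤
        ‖z - c 0‖ * Real.exp (Λ * t) - ‖z - c 0‖ := by
      refine HC9_exp ht.1 fun s hs => ?_
      have hs' : s ∈ Icc (0 : ℝ) 1 := ⟨hs.1, hs.2.trans ht.2⟩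
      exact (S.hl s hs' _ (hmem z hz s hs') _ (mem_ball_self S.hρ)).trans
        (mul_le_mul_of_nonneg_left (G.bd z hz s hs') S.hΛ.le)
    show ‖(z + ∫ s in (0 : ℝ)..t, X (v s z)) - c t‖ ≤ _
    rw [h1]
    refine (norm_add_le _ _).trans ?_
    linarith
  · intro z hz w hw t ht
    have h1 : (z + ∫ s in (0 : ℝ)..t, X (v s z)) - (w + ∫ s in (0 : ℝ)..t, X (v s w)) =
        (z - w) + ∫ s in (0 : ℝ)..t, (X (v s z) - X (v s w)) := by
      rw [intervalIntegral.integral_sub (HC9_ii (hXc z hz) ht) (HC9_ii (hXc w hw) ht)]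
      abel
    have h2 : ‖∫ s in (0 : ℝ)..t, (X (v s z) - X (v s w))‖ ≤
        ‖z - w‖ * Real.exp (Λ * t) - ‖z - w‖ := by
      refine HC9_exp ht.1 fun s hs => ?_
      have hs' : s ∈ Icc (0 : ℝ) 1 := ⟨hs.1, hs.2.trans ht.2⟩
      exact (S.hl s hs' _ (hmem z hz s hs') _ (hmem w hw s hs')).trans
        (mul_le_mul_of_nonneg_left (G.lip z hz w hw s hs') S.hΛ.le)
    show ‖(z + ∫ s in (0 : ℝ)..t, X (v s z)) - (w + ∫ s in (0 : ℝ)..t, X (v s w))‖ ≤ _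
    rw [h1]
    refine (norm_add_le _ _).trans ?_
    linarith
  · intro t ht
    refine differentiableOn_id.add ?_
    refine hol_int0 (h := fun s z => X (v s z)) isOpen_ball (fun s hs => ?_) ?_ ht
    · exact (S.hX s hs).comp (G.diff s hs) fun z hz => hmem z hz s hs
    · have hj : ContinuousOn (fun p : ℝ × Ec => v p.1 p.2)
          (Icc (0 : ℝ) 1 ×ˢ ball (c 0) (ρ * Real.exp (-Λ))) := by
        refine continuousOn_prod_of_continuousOn_lipschitzOnWith' _ (Real.toNNReal (Real.exp Λ))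
          (fun s hs => ?_) (fun z hz => G.cont z hz)
        refine LipschitzOnWith.of_dist_le_mul fun z hz w hw => ?_
        rw [dist_eq_norm, dist_eq_norm, Real.coe_toNNReal _ (Real.exp_pos _).le, mul_comm]
        refine (G.lip z hz w hw s hs).trans ?_
        refine mul_le_mul_of_nonneg_left (Real.exp_le_exp.2 ?_) (norm_nonneg _)
        nlinarith [hs.2, S.hΛ]
      rintro ⟨s, z⟩ ⟨hs, hz⟩
      have h1 : ContinuousAt X (v s z) :=
        ((S.hX s hs).differentiableAt (isOpen_ball.mem_nhds (hmem z hz s hs))).continuousAt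
      exact ContinuousAt.comp_continuousWithinAt (f := fun p : ℝ × Ec => v p.1 p.2) (g := X)
        (x := (s, z)) h1 (hj (s, z) ⟨hs, hz⟩)

private theorem HC9_all [FiniteDimensional ℂ Ec] [CompleteSpace Ec] {X : Ec → Ec} {c : ℝ → Ec}
    {ρ Λ : ℝ} (S : HC9_S X c ρ Λ) : ∀ n : ℕ, HC9_G X c ρ Λ (HC9_it X c n)
  | 0 => by
    constructor
    · intro z _
      exact HC9_cc S
    · intro z _ t _
      show ‖c t - c t‖ ≤ _
      rw [sub_self, norm_zero]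
      positivity
    · intro z _ w _ t _
      show ‖c t - c t‖ ≤ _
      rw [sub_self, norm_zero]
      positivity
    · intro t _
      exact differentiableOn_const _
  | n + 1 => HC9_step S (HC9_all S n)

private theorem HC9_mem [FiniteDimensional ℂ Ec] [CompleteSpace Ec] {X : Ec → Ec} {c : ℝ → Ec}
    {ρ Λ : ℝ} (S : HC9_S X c ρ Λ) (n : ℕ) {z : Ec} (hz : z ∈ ball (c 0) (ρ * Real.exp (-Λ)))
    {t : ℝ} (ht : t ∈ Icc (0 : ℝ) 1) : HC9_it X c n t z ∈ ball (c t) ρ := by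
  rw [mem_ball, dist_eq_norm]
  exact ((HC9_all S n).bd z hz t ht).trans_lt (HC9_lt S.hΛ hz ht)

private theorem HC9_diff [FiniteDimensional ℂ Ec] [CompleteSpace Ec] {X : Ec → Ec} {c : ℝ → Ec}
    {ρ Λ : ℝ} (S : HC9_S X c ρ Λ) {z : Ec} (hz : z ∈ ball (c 0) (ρ * Real.exp (-Λ))) :
    ∀ n : ℕ, ∀ t ∈ Icc (0 : ℝ) 1, ‖HC9_it X c (n + 1) t z - HC9_it X c n t z‖ ≤
      ρ * (1 / 2) ^ n * Real.exp (2 * Λ * t)
  | 0 => by
    intro t ht
    have h1 := ((HC9_all S 1).bd z hz t ht).trans_lt (HC9_lt S.hΛ hz ht)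
    have h2 : (1 : ℝ) ≤ Real.exp (2 * Λ * t) := Real.one_le_exp (by
      have := S.hΛ
      have := ht.1
      positivity)
    show ‖HC9_it X c 1 t z - c t‖ ≤ _
    rw [pow_zero, mul_one]
    nlinarith [S.hρ]
  | n + 1 => by
    intro t ht
    have hi := HC9_diff S hz n
    have hXc : ∀ m : ℕ, ContinuousOn (fun t => X (HC9_it X c m t z)) (Icc (0 : ℝ) 1) := fun m =>
      HC9_Xc S ((HC9_all S m).cont z hz) fun t ht => HC9_mem S m hz ht
    have h1 : HC9_it X c (n + 1 + 1) t z - HC9_it X c (n + 1) t z =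
        ∫ s in (0 : ℝ)..t, (X (HC9_it X c (n + 1) s z) - X (HC9_it X c n s z)) := by
      rw [intervalIntegral.integral_sub (HC9_ii (hXc _) ht) (HC9_ii (hXc _) ht)]
      show (z + ∫ s in (0 : ℝ)..t, X (HC9_it X c (n + 1) s z)) -
        (z + ∫ s in (0 : ℝ)..t, X (HC9_it X c n s z)) = _
      abel
    rw [h1]
    have h2 : ‖∫ s in (0 : ℝ)..t, (X (HC9_it X c (n + 1) s z) - X (HC9_it X c n s z))‖ ≤
        (ρ * (1 / 2) ^ (n + 1)) * Real.exp (2 * Λ * t) - ρ * (1 / 2) ^ (n + 1) := by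
      refine HC9_exp ht.1 fun s hs => ?_
      have hs' : s ∈ Icc (0 : ℝ) 1 := ⟨hs.1, hs.2.trans ht.2⟩
      refine (S.hl s hs' _ (HC9_mem S _ hz hs') _ (HC9_mem S _ hz hs')).trans ?_
      refine (mul_le_mul_of_nonneg_left (hi s hs') S.hΛ.le).trans (le_of_eq ?_)
      rw [pow_succ]
      ring
    have h3 : 0 < ρ * (1 / 2) ^ (n + 1) := by
      have := S.hρ
      positivity
    linarith

private theorem HC9_lim [FiniteDimensional ℂ Ec] [CompleteSpace Ec] {X : Ec → Ec} {c : ℝ → Ec}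
    {ρ Λ : ℝ} (S : HC9_S X c ρ Λ) : ∃ ψ : ℝ → Ec → Ec,
      ∀ z ∈ ball (c 0) (ρ * Real.exp (-Λ)), ∀ t ∈ Icc (0 : ℝ) 1,
        Tendsto (fun n => HC9_it X c n t z) atTop (𝓝 (ψ t z)) ∧
        ∀ n, dist (HC9_it X c n t z) (ψ t z) ≤ 2 * (ρ * Real.exp (2 * Λ)) * (1 / 2) ^ n := by
  refine ⟨fun t z => limUnder atTop (fun n => HC9_it X c n t z), fun z hz t ht => ?_⟩
  have h1 : ∀ n, dist (HC9_it X c n t z) (HC9_it X c (n + 1) t z) ≤
      (ρ * Real.exp (2 * Λ)) * (1 / 2) ^ n := by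
    intro n
    rw [dist_comm, dist_eq_norm]
    refine (HC9_diff S hz n t ht).trans ?_
    rw [mul_right_comm]
    refine mul_le_mul_of_nonneg_right ?_ (by positivity)
    refine mul_le_mul_of_nonneg_left (Real.exp_le_exp.2 ?_) S.hρ.le
    nlinarith [ht.2, S.hΛ]
  have h2 : CauchySeq (fun n => HC9_it X c n t z) :=
    cauchySeq_of_le_geometric (1 / 2) _ (by norm_num) h1
  have h3 := h2.tendsto_limUnder
  refine ⟨h3, fun n => ?_⟩
  refine (dist_le_of_le_geometric_of_tendsto (1 / 2) _ (by norm_num) h1 h3 n).trans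
    (le_of_eq ?_)
  ring

private theorem HC9_tz (K : ℝ) : Tendsto (fun n : ℕ => K * (1 / 2 : ℝ) ^ n) atTop (𝓝 0) := by
  have h := (tendsto_pow_atTop_nhds_zero_of_lt_one (r := (1 / 2 : ℝ)) (by norm_num)
    (by norm_num)).const_mul K
  rwa [mul_zero] at h

private theorem HC9_unif {α : Type} {Z : Type} [NormedAddCommGroup Z] {F : ℕ → α → Z} {f : α → Z}
    {s : Set α} {K : ℝ} (h : ∀ x ∈ s, ∀ n, dist (F n x) (f x) ≤ K * (1 / 2) ^ n) :
    TendstoUniformlyOn F f atTop s := by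
  rw [Metric.tendstoUniformlyOn_iff]
  intro ε hε
  filter_upwards [(HC9_tz K).eventually_lt_const hε] with n hn x hx
  rw [dist_comm]
  exact (h x hx n).trans_lt hn

/-- Holomorphic flows near an orbit. -/
theorem hol_flow [FiniteDimensional ℂ Ec] {X : Ec → Ec} {c : ℝ → Ec} {ρ Λ : ℝ} (hρ : 0 < ρ)
    (hΛ : 0 < Λ) (hc : ∀ t ∈ Icc (0 : ℝ) 1, HasDerivAt c (X (c t)) t)
    (hX : ∀ t ∈ Icc (0 : ℝ) 1, DifferentiableOn ℂ X (ball (c t) ρ))
    (hl : ∀ t ∈ Icc (0 : ℝ) 1, ∀ z ∈ ball (c t) ρ, ∀ w ∈ ball (c t) ρ,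
      ‖X z - X w‖ ≤ Λ * ‖z - w‖) :
    ∃ ψ : ℝ → Ec → Ec,
      (∀ t ∈ Icc (0 : ℝ) 1, DifferentiableOn ℂ (ψ t) (ball (c 0) (ρ * Real.exp (-Λ)))) ∧
      ∀ z ∈ ball (c 0) (ρ * Real.exp (-Λ)), ψ 0 z = z ∧
        ContinuousOn (fun t => ψ t z) (Icc (0 : ℝ) 1) ∧
        (∀ t ∈ Ioo (0 : ℝ) 1, HasDerivAt (fun t => ψ t z) (X (ψ t z)) t) ∧
        ∀ t ∈ Icc (0 : ℝ) 1, ‖ψ t z - c t‖ ≤ ‖z - c 0‖ * Real.exp (Λ * t) := by
  have hcs : CompleteSpace Ec := FiniteDimensional.complete ℂ Ec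
  have S : HC9_S X c ρ Λ := ⟨hρ, hΛ, hc, hX, hl⟩
  obtain ⟨ψ, hψ⟩ := HC9_lim S
  have hbd : ∀ z ∈ ball (c 0) (ρ * Real.exp (-Λ)), ∀ t ∈ Icc (0 : ℝ) 1,
      ‖ψ t z - c t‖ ≤ ‖z - c 0‖ * Real.exp (Λ * t) := by
    intro z hz t ht
    have h1 := (((hψ z hz t ht).1).sub_const (c t)).norm
    exact le_of_tendsto h1 (Eventually.of_forall fun n => (HC9_all S n).bd z hz t ht)
  have hmem : ∀ z ∈ ball (c 0) (ρ * Real.exp (-Λ)), ∀ t ∈ Icc (0 : ℝ) 1,
      ψ t z ∈ ball (c t) ρ := by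
    intro z hz t ht
    rw [mem_ball, dist_eq_norm]
    exact (hbd z hz t ht).trans_lt (HC9_lt hΛ hz ht)
  have hcont : ∀ z ∈ ball (c 0) (ρ * Real.exp (-Λ)),
      ContinuousOn (fun t => ψ t z) (Icc (0 : ℝ) 1) := by
    intro z hz
    have h1 : TendstoUniformlyOn (fun n t => HC9_it X c n t z) (fun t => ψ t z) atTop
        (Icc (0 : ℝ) 1) := HC9_unif fun t ht => (hψ z hz t ht).2
    exact h1.continuousOn (Frequently.of_forall fun n => (HC9_all S n).cont z hz)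
  have hXc : ∀ z ∈ ball (c 0) (ρ * Real.exp (-Λ)),
      ContinuousOn (fun t => X (ψ t z)) (Icc (0 : ℝ) 1) := fun z hz =>
    HC9_Xc S (hcont z hz) (hmem z hz)
  have hXn : ∀ n, ∀ z ∈ ball (c 0) (ρ * Real.exp (-Λ)),
      ContinuousOn (fun t => X (HC9_it X c n t z)) (Icc (0 : ℝ) 1) := fun n z hz =>
    HC9_Xc S ((HC9_all S n).cont z hz) fun t ht => HC9_mem S n hz ht
  have heq : ∀ z ∈ ball (c 0) (ρ * Real.exp (-Λ)), ∀ t ∈ Icc (0 : ℝ) 1,
      ψ t z = z + ∫ s in (0 : ℝ)..t, X (ψ s z) := by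
    intro z hz t ht
    have h1 : Tendsto (fun n => HC9_it X c (n + 1) t z) atTop (𝓝 (ψ t z)) :=
      (hψ z hz t ht).1.comp (tendsto_add_atTop_nat 1)
    refine tendsto_nhds_unique h1 ?_
    show Tendsto (fun n => z + ∫ s in (0 : ℝ)..t, X (HC9_it X c n s z)) atTop _
    refine tendsto_const_nhds.add ?_
    rw [tendsto_iff_norm_sub_tendsto_zero]
    have h2 := HC9_tz (Λ * (2 * (ρ * Real.exp (2 * Λ))) * t)
    refine squeeze_zero (fun n => norm_nonneg _) (fun n => ?_) h2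
    rw [← intervalIntegral.integral_sub (HC9_ii (hXn n z hz) ht) (HC9_ii (hXc z hz) ht)]
    refine (intervalIntegral.norm_integral_le_of_norm_le_const
      (C := Λ * (2 * (ρ * Real.exp (2 * Λ)) * (1 / 2) ^ n)) fun s hs => ?_).trans (le_of_eq ?_)
    · rw [uIoc_of_le ht.1] at hs
      have hs' : s ∈ Icc (0 : ℝ) 1 := ⟨hs.1.le, hs.2.trans ht.2⟩
      refine (S.hl s hs' _ (HC9_mem S n hz hs') _ (hmem z hz s hs')).trans
        (mul_le_mul_of_nonneg_left ?_ hΛ.le)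
      rw [← dist_eq_norm]
      exact (hψ z hz s hs').2 n
    · rw [sub_zero, abs_of_nonneg ht.1]
      ring
  refine ⟨ψ, fun t ht => ?_, fun z hz => ⟨?_, hcont z hz, fun t ht => ?_, hbd z hz⟩⟩
  · exact hol_lim (g := fun n => HC9_it X c n t) (fun n => (HC9_all S n).diff t ht)
      (HC9_unif fun z hz => (hψ z hz t ht).2)
  · rw [heq z hz 0 ⟨le_refl _, zero_le_one⟩, intervalIntegral.integral_same, add_zero]
  · have ht' : t ∈ Icc (0 : ℝ) 1 := Ioo_subset_Icc_self ht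
    have hn : Ioo (0 : ℝ) 1 ∈ 𝓝 t := isOpen_Ioo.mem_nhds ht
    have h1 : HasDerivAt (fun t => ∫ s in (0 : ℝ)..t, X (ψ s z)) (X (ψ t z)) t := by
      refine intervalIntegral.integral_hasDerivAt_right (HC9_ii (hXc z hz) ht') ?_ ?_
      · exact ContinuousOn.stronglyMeasurableAtFilter isOpen_Ioo
          ((hXc z hz).mono Ioo_subset_Icc_self) t ht
      · exact ((hXc z hz) t ht').continuousAt (Icc_mem_nhds ht.1 ht.2)
    have h2 : HasDerivAt (fun t => z + ∫ s in (0 : ℝ)..t, X (ψ s z)) (X (ψ t z)) t :=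
      h1.const_add z
    refine h2.congr_of_eventuallyEq ?_
    filter_upwards [hn] with s hs
    exact heq z hz s (Ioo_subset_Icc_self hs)

end H36
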