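import Pool.Agent.LibBE36.G09
import Pool.Agent.LibBR70.H1n

/-! Row BE36 N1 (real geometry; cites `LibBE88/G1`, `V2`, `V8`; `LibBR70/H1g`, `H1n`): the differential of the point of
ratio `r` is a contraction. STRONG, 75 min.
Plan. Let `M` be one of the metrics (`HM Γ M`). (1) `N1_qf`: for `eu u = 1`, `t > 0`: by `mE_gauss` (`u` is an eigenvector of the
symmetric matrix `mE M (x, t • u)` with the eigenvalue `1`) and `mE_dt` (determinant `(JB t / t)²`):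
`qf (mE M (x, t • u)) (α • u + β • rot u) = α² + (JB t / t)² β²`. (2) `JB_ratio`: `JB (r t) ≤ r * JB t` for `0 ≤ r ≤ 1`, `0 ≤ t`: `JB` is
convex on `[0, ∞)` (`JB_ode`: `JB'' = -curv * JB ≥ 0`, `JB ≥ 0` by `JB_ge`) and `JB 0 = 0` (`J_zero`); e.g. `ConvexOn` from
`convexOn_of_deriv2_nonneg`. (3) `Gx_ray`: for `V = t • u`, `W = α • u + β • rot u`:
`qf (Gx M x (r • V)) (r • W) = r² α² + (JB (r t) / t)² β² ≤ r² (α² + (JB t / t)² β²)`; `V = 0`: `mE_zero`; `r = 0`: trivial.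
(4) the second variable: `y ↦ gp r (x, y) = Ex M x (r • Vx M x y)`; with `W = fderiv (Vx M x) y w`, `qf (M y) w = qf (Gx M x V) W`
(`V8_qf`-type identity: `w = fderiv (Ex M x) V W`), so `qf (M (gp r)) (D gp r w) = qf (Gx M x (r • V)) (r • W) ≤ r² qf (M y) w`.
(5) the first variable: `gp r (x, y) = gp (1 - r) (y, x)` (the geodesic backwards: `Vx_along` with `σ = 1`, `Ex_add`; or
uniqueness `Ex_Vx`: `gp r (x, y) = Ex M y ((1 - r) • Vx M y x)`), then (4) with `1 - r`. (6) `g • y` and `η⁻¹ • ..`: isometries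
(`hm.inv`), chain rule. The differential in the direction `(0, v, w)` is the sum of the two partial ones, and
`√(qf c (v + w)) ≤ √(qf c v) + √(qf c w)` for a positive form (`qf c = eu (ifr c ·) ^ 2`: `qf_eq_bf`, `bf_eq_ip`). -/

open MeasureTheory Set Filter Topology
open scoped ContDiff

namespace BE36

open BGS BR BE

variable {Γ : Type} [Group Γ] [MulAction Γ Pl] {D : Set Pl} {ι : Type} {m : Pl → Co} {a b : ℝ}
  {s : ι → ℝ × Pl → ℝ}

private theorem N1_lin (A : Pl →L[ℝ] Pl) (v : Pl) : A v = v.1 • A (1, 0) + v.2 • A (0, 1) := by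
  rw [← map_smul, ← map_smul, ← map_add]
  congr 1
  ext <;> simp

private theorem N1_qf (M : Pl → Co) (x z v : Pl) :
    qf (M (Ex M x z)) (fderiv ℝ (Ex M x) z v) = qf (Gx M x z) v := by
  rw [N1_lin (fderiv ℝ (Ex M x) z) v]
  simp only [Gx, mE, qf, bf, Prod.fst_add, Prod.snd_add, Prod.smul_fst, Prod.smul_snd,
    smul_eq_mul]
  ring

private theorem N1_qf_smul (c : Co) (r : ℝ) (v : Pl) : qf c (r • v) = r ^ 2 * qf c v := by
  simp only [qf, Prod.smul_fst, Prod.smul_snd, smul_eq_mul]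
  ring

theorem JB_ratio (hX : Surface Γ D) {M : Pl → Co} (hM : HM Γ M) {x u : Pl} (hu : eu u = 1)
    {r t : ℝ} (hr : 0 ≤ r) (hr1 : r ≤ 1) (ht : 0 ≤ t) : JB M x u (r * t) ≤ r * JB M x u t := by
  have hd := fun t => JB_ode hX hM (x := x) hu t
  have hconv : ConvexOn ℝ (Ici (0 : ℝ)) (JB M x u) := by
    refine MonotoneOn.convexOn_of_deriv (convex_Ici 0)
      (fun t _ => (hd t).1.continuousAt.continuousWithinAt)
      (fun t _ => (hd t).1.differentiableAt.differentiableWithinAt) ?_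
    rw [interior_Ici]
    refine monotoneOn_of_deriv_nonneg (convex_Ioi 0)
      (fun t _ => (hd t).2.continuousAt.continuousWithinAt)
      (fun t _ => (hd t).2.differentiableAt.differentiableWithinAt) fun t ht => ?_
    rw [interior_Ioi] at ht
    have ht' : (0 : ℝ) < t := ht
    rw [(hd t).2.deriv]
    have h1 := (JB_ge hX hM (x := x) hu ht'.le).1
    have h2 := hM.neg (gfl M t (x, u)).1
    have h3 : 0 ≤ -curv M (gfl M t (x, u)).1 := by linarith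
    exact mul_nonneg h3 (by linarith)
  have h0 : (0 : ℝ) ∈ Ici (0 : ℝ) := by simp
  have h := hconv.2 (show t ∈ Ici (0 : ℝ) from ht) h0 hr (sub_nonneg.2 hr1) (by ring)
  simp only [smul_eq_mul, mul_zero, add_zero, (J_zero hX hM (x := x) hu).2.2.1] at h
  exact h

theorem Gx_ray (hX : Surface Γ D) {M : Pl → Co} (hM : HM Γ M) (x V W : Pl) {r : ℝ}
    (hr : 0 ≤ r) (hr1 : r ≤ 1) :
    qf (Gx M x (r • V)) (r • W) ≤ r ^ 2 * qf (Gx M x V) W := by
  rw [N1_qf_smul]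
  rcases eq_or_lt_of_le hr with h0 | h0
  · rw [← h0]
    simp
  refine mul_le_mul_of_nonneg_left ?_ (sq_nonneg r)
  by_cases hV : V = 0
  · rw [hV, smul_zero]
  obtain ⟨t, u, ht, hu, rfl⟩ := H1h_polar hV
  rw [smul_smul, ← N1_qf, ← N1_qf, Ex_gauss hX hM hu (mul_pos h0 ht).ne', Ex_gauss hX hM hu ht.ne']
  have h1 := JB_ratio hX hM (x := x) hu hr hr1 ht.le
  have h2 := (JB_ge hX hM (x := x) hu (mul_pos h0 ht).le).1
  have h3 : JB M x u (r * t) / (r * t) ≤ JB M x u t / t := by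
    rw [div_le_div_iff₀ (mul_pos h0 ht) ht]
    nlinarith
  have h4 : 0 ≤ JB M x u (r * t) / (r * t) :=
    div_nonneg ((mul_pos h0 ht).le.trans h2) (mul_pos h0 ht).le
  have h5 : (JB M x u (r * t) / (r * t)) ^ 2 ≤ (JB M x u t / t) ^ 2 := pow_le_pow_left₀ h4 h3 2
  have h6 := mul_le_mul_of_nonneg_right h5 (sq_nonneg (wd u W))
  linarith

theorem gp_rev (h : CF Γ D m a b s) (i : ι) (p : ℝ) (x y : Pl) (r : ℝ) :
    gp m (s i) r (p, x, y) = gp m (s i) (1 - r) (p, y, x) := by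
  have hm := hm_mm h i p
  show Ex (mm m (s i) p) x (r • Vx (mm m (s i) p) x y) =
    Ex (mm m (s i) p) y ((1 - r) • Vx (mm m (s i) p) y x)
  have h1 := Ex_Vx h.hX hm x y
  have h2 := Vx_rev h.hX hm x (Vx (mm m (s i) p) x y)
  rw [h1] at h2
  have h3 := Ex_add h.hX hm 1 (r - 1) x (Vx (mm m (s i) p) x y)
  rw [add_sub_cancel, one_smul, h1] at h3
  rw [h3, h2, smul_neg, ← neg_smul, neg_sub]

private theorem N1_d1 {f : Pl → Pl} (hf : ContDiff ℝ ∞ f) (z : Pl) :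
    HasFDerivAt f (fderiv ℝ f z) z :=
  (hf.differentiable (by simp) z).hasFDerivAt

/-- The contraction in the second variable. -/
private theorem N1_core (hX : Surface Γ D) {M : Pl → Co} (hM : HM Γ M) (x : Pl) {r : ℝ}
    (hr : 0 ≤ r) (hr1 : r ≤ 1) (η g : Γ) (y w : Pl) :
    √(qf (M (η • Ex M x (r • Vx M x (g • y))))
      (fderiv ℝ (fun y : Pl => η • Ex M x (r • Vx M x (g • y))) y w)) ≤ r * √(qf (M y) w) := by
  have hE : ContDiff ℝ ∞ (Ex M x) := (Ex_smooth hX hM).comp (contDiff_const.prodMk contDiff_id)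
  have hV : ContDiff ℝ ∞ (Vx M x) := (Vx_smooth hX hM).comp (contDiff_const.prodMk contDiff_id)
  obtain ⟨V, hVd⟩ : ∃ V : Pl, V = Vx M x (g • y) := ⟨_, rfl⟩
  obtain ⟨w₁, hw₁⟩ : ∃ w₁ : Pl, w₁ = fderiv ℝ (fun y : Pl => g • y) y w := ⟨_, rfl⟩
  obtain ⟨W, hW⟩ : ∃ W : Pl, W = fderiv ℝ (Vx M x) (g • y) w₁ := ⟨_, rfl⟩
  -- the derivative
  have h1 := (N1_d1 hV (g • y)).comp y (N1_d1 (hX.smooth g) y)
  have h2 := h1.const_smul r
  have h3 := (N1_d1 hE (r • Vx M x (g • y))).comp y h2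
  have h4 := (N1_d1 (hX.smooth η) (Ex M x (r • Vx M x (g • y)))).comp y h3
  have h5 : fderiv ℝ (fun y : Pl => η • Ex M x (r • Vx M x (g • y))) y w =
      fderiv ℝ (fun z : Pl => η • z) (Ex M x (r • V)) (fderiv ℝ (Ex M x) (r • V) (r • W)) := by
    have h6 := h4.fderiv
    have h7 : ((fun z : Pl => η • z) ∘ (Ex M x) ∘ (r • ((Vx M x) ∘ fun y : Pl => g • y))) =
        fun y : Pl => η • Ex M x (r • Vx M x (g • y)) := rfl
    rw [h7] at h6
    rw [h6, hW, hw₁, hVd]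
    rfl
  -- the inverse
  have h8 : fderiv ℝ (Ex M x) V W = w₁ := by
    have h9 := (N1_d1 hE (Vx M x (g • y))).comp (g • y) (N1_d1 hV (g • y))
    have h10 : (Ex M x) ∘ (Vx M x) = id := by
      funext z
      exact Ex_Vx hX hM x z
    rw [h10] at h9
    have h11 := h9.unique (hasFDerivAt_id (𝕜 := ℝ) (g • y))
    have h12 := congrArg (fun L : Pl →L[ℝ] Pl => L w₁) h11
    rw [hW, hVd]
    exact h12
  have h13 : qf (M (η • Ex M x (r • Vx M x (g • y))))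
      (fderiv ℝ (fun y : Pl => η • Ex M x (r • Vx M x (g • y))) y w) ≤ r ^ 2 * qf (M y) w := by
    rw [h5, ← hVd, hM.inv, N1_qf]
    refine (Gx_ray hX hM x V W hr hr1).trans (le_of_eq ?_)
    rw [← N1_qf, h8, hVd, Ex_Vx hX hM, hw₁, hM.inv]
  calc _ ≤ √(r ^ 2 * qf (M y) w) := Real.sqrt_le_sqrt h13
    _ = r * √(qf (M y) w) := by rw [Real.sqrt_mul (sq_nonneg r), Real.sqrt_sq hr]

/-- The differential of the point of ratio `r`, in coordinates near the fundamental domain. -/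
noncomputable def dgp (h : CF Γ D m a b s) (q : Ix ι ℝ Γ D × Icc (0 : ℝ) 1) :
    ℝ × Pl × Pl →L[ℝ] Pl :=
  fderiv ℝ (fun e : ℝ × Pl × Pl =>
    (gη h.hX m s q)⁻¹ • gp m (s q.1.i) q.2 (e.1, e.2.1, q.1.g • e.2.2)) q.1.b

theorem gp_contr (h : CF Γ D m a b s) (q : Ix ι ℝ Γ D × Icc (0 : ℝ) 1) (v w : Pl) :
    √(qf (mm m (s q.1.i) q.1.p (qr h q).y) (dgp h q (0, v, 0))) ≤
        (1 - q.2) * √(qf (mm m (s q.1.i) q.1.p q.1.x) v) ∧
      √(qf (mm m (s q.1.i) q.1.p (qr h q).y) (dgp h q (0, 0, w))) ≤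
        q.2 * √(qf (mm m (s q.1.i) q.1.p q.1.y) w) := by
  have hm := hm_mm h q.1.i q.1.p
  have hr := q.2.2.1
  have hr1 := q.2.2.2
  obtain ⟨F, hF⟩ : ∃ F : ℝ × Pl × Pl → Pl, F = fun e : ℝ × Pl × Pl =>
    (gη h.hX m s q)⁻¹ • gp m (s q.1.i) q.2 (e.1, e.2.1, q.1.g • e.2.2) := ⟨_, rfl⟩
  have hFs : ContDiff ℝ ∞ F := by
    have h1 : ContDiff ℝ ∞ (fun e : ℝ × Pl × Pl =>
        (((q.2 : ℝ), (e.1, e.2.1, q.1.g • e.2.2)) : ℝ × ℝ × Pl × Pl)) :=
      contDiff_const.prodMk (contDiff_fst.prodMk (contDiff_snd.fst.prodMk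
        ((h.hX.smooth q.1.g).comp contDiff_snd.snd)))
    have h2 := ContDiff.comp (g := fun q' : ℝ × ℝ × Pl × Pl => gp m (s q.1.i) q'.1 q'.2)
      (f := fun e : ℝ × Pl × Pl =>
        (((q.2 : ℝ), (e.1, e.2.1, q.1.g • e.2.2)) : ℝ × ℝ × Pl × Pl)) (gp_smooth h q.1.i) h1
    simp only [Function.comp_def] at h2
    have h3 := ContDiff.comp (g := fun z : Pl => (gη h.hX m s q)⁻¹ • z)
      (f := fun e : ℝ × Pl × Pl => gp m (s q.1.i) q.2 (e.1, e.2.1, q.1.g • e.2.2))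
      (h.hX.smooth (gη h.hX m s q)⁻¹) h2
    simp only [Function.comp_def] at h3
    rw [hF]
    exact h3
  have hFd : HasFDerivAt F (dgp h q) (q.1.p, q.1.x, q.1.y) := by
    have h1 := (hFs.differentiable (by simp) (q.1.p, q.1.x, q.1.y)).hasFDerivAt
    have h2 : fderiv ℝ F (q.1.p, q.1.x, q.1.y) = dgp h q := by
      rw [hF]
      rfl
    rwa [h2] at h1
  constructor
  · have h1 : HasFDerivAt (fun x : Pl => ((q.1.p, x, q.1.y) : ℝ × Pl × Pl))
        ((0 : Pl →L[ℝ] ℝ).prod ((ContinuousLinearMap.id ℝ Pl).prod (0 : Pl →L[ℝ] Pl))) q.1.x :=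
      (hasFDerivAt_const _ _).prodMk ((hasFDerivAt_id _).prodMk (hasFDerivAt_const _ _))
    have h2 := (hFd.comp q.1.x h1).fderiv
    have h3 : (F ∘ fun x : Pl => ((q.1.p, x, q.1.y) : ℝ × Pl × Pl)) = fun x : Pl =>
        (gη h.hX m s q)⁻¹ • Ex (mm m (s q.1.i) q.1.p) (q.1.g • q.1.y)
          ((1 - (q.2 : ℝ)) • Vx (mm m (s q.1.i) q.1.p) (q.1.g • q.1.y) ((1 : Γ) • x)) := by
      funext x
      show F (q.1.p, x, q.1.y) = _
      rw [hF, one_smul]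
      show (gη h.hX m s q)⁻¹ • gp m (s q.1.i) q.2 (q.1.p, x, q.1.g • q.1.y) = _
      rw [gp_rev h]
      rfl
    rw [h3] at h2
    have h4 : dgp h q (0, v, 0) = fderiv ℝ (fun x : Pl =>
        (gη h.hX m s q)⁻¹ • Ex (mm m (s q.1.i) q.1.p) (q.1.g • q.1.y)
          ((1 - (q.2 : ℝ)) • Vx (mm m (s q.1.i) q.1.p) (q.1.g • q.1.y) ((1 : Γ) • x))) q.1.x v := by
      rw [h2]
      rfl
    have h5 : (qr h q).y = (gη h.hX m s q)⁻¹ • Ex (mm m (s q.1.i) q.1.p) (q.1.g • q.1.y)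
          ((1 - (q.2 : ℝ)) • Vx (mm m (s q.1.i) q.1.p) (q.1.g • q.1.y) ((1 : Γ) • q.1.x)) := by
      rw [← congrFun h3 q.1.x, hF]
      rfl
    rw [h4, h5]
    exact N1_core h.hX hm (q.1.g • q.1.y) (sub_nonneg.2 hr1) (by linarith) _ 1 q.1.x v
  · have h1 : HasFDerivAt (fun y : Pl => ((q.1.p, q.1.x, y) : ℝ × Pl × Pl))
        ((0 : Pl →L[ℝ] ℝ).prod ((0 : Pl →L[ℝ] Pl).prod (ContinuousLinearMap.id ℝ Pl))) q.1.y :=
      (hasFDerivAt_const _ _).prodMk ((hasFDerivAt_const _ _).prodMk (hasFDerivAt_id _))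
    have h2 := (hFd.comp q.1.y h1).fderiv
    have h3 : (F ∘ fun y : Pl => ((q.1.p, q.1.x, y) : ℝ × Pl × Pl)) = fun y : Pl =>
        (gη h.hX m s q)⁻¹ • Ex (mm m (s q.1.i) q.1.p) q.1.x
          ((q.2 : ℝ) • Vx (mm m (s q.1.i) q.1.p) q.1.x (q.1.g • y)) := by
      funext y
      show F (q.1.p, q.1.x, y) = _
      rw [hF]
      rfl
    rw [h3] at h2
    have h4 : dgp h q (0, 0, w) = fderiv ℝ (fun y : Pl =>
        (gη h.hX m s q)⁻¹ • Ex (mm m (s q.1.i) q.1.p) q.1.x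
          ((q.2 : ℝ) • Vx (mm m (s q.1.i) q.1.p) q.1.x (q.1.g • y))) q.1.y w := by
      rw [h2]
      rfl
    have h5 : (qr h q).y = (gη h.hX m s q)⁻¹ • Ex (mm m (s q.1.i) q.1.p) q.1.x
          ((q.2 : ℝ) • Vx (mm m (s q.1.i) q.1.p) q.1.x (q.1.g • q.1.y)) := rfl
    rw [h4, h5]
    exact N1_core h.hX hm q.1.x hr hr1 _ q.1.g q.1.y w

end BE36
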