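import Pool.Agent.LibBE36.Defs

/-! Row BE36 N2 (cites K01; `LibBE88/G5`): the norms `cn` and the domains `Om`. MEDIUM, 50 min.
Plan. For a positive form `c` (`0 < c.1`, `0 < dt c`) `cn c` is a norm on `ℂ × ℂ`: `qf c v = eu (ifr c v) ^ 2` (`qf_eq_bf`,
`bf_eq_ip`) is a positive quadratic form, so `√(qf c v + qf c v')` is a Euclidean norm of the pair `(v, v')` (Minkowski:
`cn_add`: Cauchy–Schwarz for the bilinear form; or write `qf c v = (E v.1 + F v.2)² / E + dt v.2² / E` and use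
`Real.sqrt_sum_sq`-type Minkowski for `4` real numbers, e.g. the triangle inequality of `EuclideanSpace ℝ (Fin 4)`). `cn_cl`:
`re (cl A w) = A (re w)`, `im (cl A w) = A (im w)` (`cl_re`), `qf c' (A v) ≤ k² qf c v`. `cn_coord`: `G5_coord` (`eu (ifr ..) ≤ C ‖v‖`,
`‖v‖ ≤ C eu (ifr ..)`), `‖re w‖, ‖im w‖ ≤ ‖w‖ ≤ ‖re w‖ + ‖im w‖`. `Om_open`: `cn c` is continuous. `Om_add`: triangle
inequality. -/

open MeasureTheory Set Filter Topology
open scoped ContDiff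

namespace BE36

open BGS BR BE

variable {Γ : Type} [Group Γ] [MulAction Γ Pl] {D : Set Pl} {ι : Type} {m : Pl → Co} {a b : ℝ}
  {s : ι → ℝ × Pl → ℝ}

private theorem cn_def (c : Co) (w : ℂ × ℂ) :
    cn c w = √(qf c (w.1.re, w.2.re) + qf c (w.1.im, w.2.im)) := rfl

theorem cn_nonneg (c : Co) (w : ℂ × ℂ) : 0 ≤ cn c w := Real.sqrt_nonneg _

theorem cn_cont (c : Co) : Continuous (cn c) := by
  have h : cn c = fun w : ℂ × ℂ => √(qf c (w.1.re, w.2.re) + qf c (w.1.im, w.2.im)) := by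
    funext w
    exact cn_def c w
  rw [h]
  unfold qf
  have h1 : Continuous fun w : ℂ × ℂ => w.1.re := Complex.continuous_re.comp continuous_fst
  have h2 : Continuous fun w : ℂ × ℂ => w.2.re := Complex.continuous_re.comp continuous_snd
  have h3 : Continuous fun w : ℂ × ℂ => w.1.im := Complex.continuous_im.comp continuous_fst
  have h4 : Continuous fun w : ℂ × ℂ => w.2.im := Complex.continuous_im.comp continuous_snd
  fun_prop

private theorem qf_ifr {c : Co} (h1 : 0 < c.1) (h2 : 0 < dt c) (v : Pl) :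
    qf c v = (ifr c v).1 ^ 2 + (ifr c v).2 ^ 2 := by
  rw [qf_eq_bf, bf_eq_ip h1 h2]
  unfold ip
  ring

private theorem ifr_add (c : Co) (v w : Pl) : ifr c (v + w) = ifr c v + ifr c w := by
  unfold ifr bf
  ext
  · simp only [Prod.fst_add, Prod.snd_add]
    ring
  · simp only [Prod.fst_add, Prod.snd_add]
    ring

/-- the vector -/
private noncomputable def VV (c : Co) (w : ℂ × ℂ) : EuclideanSpace ℝ (Fin 4) :=
  !₂[(ifr c (w.1.re, w.2.re)).1, (ifr c (w.1.re, w.2.re)).2, (ifr c (w.1.im, w.2.im)).1,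
    (ifr c (w.1.im, w.2.im)).2]

private theorem VV_norm {c : Co} (h1 : 0 < c.1) (h2 : 0 < dt c) (w : ℂ × ℂ) :
    ‖VV c w‖ = cn c w := by
  rw [cn_def, EuclideanSpace.norm_eq]
  congr 1
  rw [qf_ifr h1 h2, qf_ifr h1 h2]
  simp [VV, Fin.sum_univ_four]
  ring

private theorem VV_add (c : Co) (z w : ℂ × ℂ) : VV c (z + w) = VV c z + VV c w := by
  have e1 : (((z + w).1.re, (z + w).2.re) : Pl) = (z.1.re, z.2.re) + (w.1.re, w.2.re) := rfl
  have e2 : (((z + w).1.im, (z + w).2.im) : Pl) = (z.1.im, z.2.im) + (w.1.im, w.2.im) := rfl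
  unfold VV
  rw [e1, e2, ifr_add, ifr_add]
  ext i
  fin_cases i <;> simp

theorem cn_add {c : Co} (h1 : 0 < c.1) (h2 : 0 < dt c) (z w : ℂ × ℂ) :
    cn c (z + w) ≤ cn c z + cn c w := by
  rw [← VV_norm h1 h2, ← VV_norm h1 h2, ← VV_norm h1 h2, VV_add]
  exact norm_add_le _ _

theorem cn_cl {c c' : Co} (h1 : 0 < c.1) (h2 : 0 < dt c) (h1' : 0 < c'.1) (h2' : 0 < dt c')
    (A : Pl →L[ℝ] Pl) {k : ℝ} (hk : 0 ≤ k) (h : ∀ v, √(qf c' (A v)) ≤ k * √(qf c v))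
    (w : ℂ × ℂ) : cn c' ((cl A : ℂ × ℂ →L[ℂ] ℂ × ℂ) w) ≤ k * cn c w := by
  have hq : ∀ v, 0 ≤ qf c v := fun v => by
    rw [qf_ifr h1 h2]
    positivity
  have hq' : ∀ v, 0 ≤ qf c' v := fun v => by
    rw [qf_ifr h1' h2']
    positivity
  have h3 : ∀ v, qf c' (A v) ≤ k ^ 2 * qf c v := by
    intro v
    have h4 := pow_le_pow_left₀ (Real.sqrt_nonneg _) (h v) 2
    rwa [mul_pow, Real.sq_sqrt (hq' _), Real.sq_sqrt (hq _)] at h4
  unfold cn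
  rw [(cl_re A w).1, (cl_re A w).2]
  rw [show k * √(qf c (CX.re w : Pl) + qf c (CX.im w : Pl)) =
    √(k ^ 2 * (qf c (CX.re w : Pl) + qf c (CX.im w : Pl))) by
      rw [Real.sqrt_mul (by positivity), Real.sqrt_sq hk]]
  apply Real.sqrt_le_sqrt
  rw [mul_add]
  exact add_le_add (h3 _) (h3 _)

theorem cn_coord (h : CF Γ D m a b s) : ∃ C : ℝ, 1 ≤ C ∧ ∀ (i : ι) (p : ℝ), ‖p‖ ≤ 1 →
    ∀ z ∈ closure D, ∀ w : ℂ × ℂ, cn (mm m (s i) p z) w ≤ C * ‖w‖ ∧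
      ‖w‖ ≤ C * cn (mm m (s i) p z) w := by
  obtain ⟨C, hC1, hC⟩ := G5_coord h
  refine ⟨2 * C, by linarith, fun i p hp z hz w => ?_⟩
  have hpos := (hm_mm h i p).pos z
  have hr := hC i p hp z hz (CX.re w)
  have hi := hC i p hp z hz (CX.im w)
  have hqr : qf (mm m (s i) p z) (CX.re w : Pl) = eu (ifr (mm m (s i) p z) (CX.re w)) ^ 2 := by
    rw [qf_ifr hpos.1 hpos.2, G5_sq]
  have hqi : qf (mm m (s i) p z) (CX.im w : Pl) = eu (ifr (mm m (s i) p z) (CX.im w)) ^ 2 := by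
    rw [qf_ifr hpos.1 hpos.2, G5_sq]
  have h0r := G5_eu_nonneg (ifr (mm m (s i) p z) (CX.re w))
  have h0i := G5_eu_nonneg (ifr (mm m (s i) p z) (CX.im w))
  have hnr : ‖(CX.re w : Pl)‖ ≤ ‖w‖ := CX.norm_re w
  have hni : ‖(CX.im w : Pl)‖ ≤ ‖w‖ := CX.norm_im w
  have hn0 : 0 ≤ ‖w‖ := norm_nonneg w
  unfold cn
  rw [hqr, hqi]
  constructor
  · apply Real.sqrt_le_iff.2
    refine ⟨by positivity, ?_⟩
    have e1 : eu (ifr (mm m (s i) p z) (CX.re w)) ≤ C * ‖w‖ :=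
      hr.1.trans (mul_le_mul_of_nonneg_left hnr (by linarith))
    have e2 : eu (ifr (mm m (s i) p z) (CX.im w)) ≤ C * ‖w‖ :=
      hi.1.trans (mul_le_mul_of_nonneg_left hni (by linarith))
    have e3 := pow_le_pow_left₀ h0r e1 2
    have e4 := pow_le_pow_left₀ h0i e2 2
    have e5 : (2 * C * ‖w‖) ^ 2 = 4 * (C * ‖w‖) ^ 2 := by ring
    have e6 : 0 ≤ (C * ‖w‖) ^ 2 := sq_nonneg _
    linarith
  · have e1 : eu (ifr (mm m (s i) p z) (CX.re w)) ≤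
        √(eu (ifr (mm m (s i) p z) (CX.re w)) ^ 2 + eu (ifr (mm m (s i) p z) (CX.im w)) ^ 2) := by
      apply Real.le_sqrt_of_sq_le
      have := sq_nonneg (eu (ifr (mm m (s i) p z) (CX.im w)))
      linarith
    have e2 : eu (ifr (mm m (s i) p z) (CX.im w)) ≤
        √(eu (ifr (mm m (s i) p z) (CX.re w)) ^ 2 + eu (ifr (mm m (s i) p z) (CX.im w)) ^ 2) := by
      apply Real.le_sqrt_of_sq_le
      have := sq_nonneg (eu (ifr (mm m (s i) p z) (CX.re w)))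
      linarith
    have e3 : ‖w‖ ≤ ‖(CX.re w : Pl)‖ + ‖(CX.im w : Pl)‖ := norm_le_re_im w
    have e4 := mul_le_mul_of_nonneg_left e1 (by linarith : (0 : ℝ) ≤ C)
    have e5 := mul_le_mul_of_nonneg_left e2 (by linarith : (0 : ℝ) ≤ C)
    linarith [hr.2, hi.2]

theorem Om_open (h : CF Γ D m a b s) (q : Ix ι ℝ Γ D) (κ' κ : ℝ) : IsOpen (Om m s q κ' κ) := by
  unfold Om
  have h1 : Continuous fun z : ℂ × (ℂ × ℂ) × (ℂ × ℂ) => ‖z.1 - (q.p : ℂ)‖ :=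
    (continuous_fst.sub continuous_const).norm
  have h2 : Continuous fun z : ℂ × (ℂ × ℂ) × (ℂ × ℂ) =>
      cn (mm m (s q.i) q.p q.x) (z.2.1 - CX.of q.x) :=
    (cn_cont _).comp ((continuous_fst.comp continuous_snd).sub continuous_const)
  have h3 : Continuous fun z : ℂ × (ℂ × ℂ) × (ℂ × ℂ) =>
      cn (mm m (s q.i) q.p q.y) (z.2.2 - CX.of q.y) :=
    (cn_cont _).comp ((continuous_snd.comp continuous_snd).sub continuous_const)
  exact (isOpen_lt h1 continuous_const).inter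
    ((isOpen_lt h2 continuous_const).inter (isOpen_lt h3 continuous_const))

theorem Om_mono (q : Ix ι ℝ Γ D) {κ' κ κ1' κ1 : ℝ} (h' : κ' ≤ κ1') (h1 : κ ≤ κ1) :
    Om m s q κ' κ ⊆ Om m s q κ1' κ1 := fun _ hz =>
  ⟨hz.1.trans_le h', hz.2.1.trans_le h1, hz.2.2.trans_le h1⟩

/-- Comparison with balls. -/
theorem Om_cmp (h : CF Γ D m a b s) : ∃ C : ℝ, 1 ≤ C ∧ ∀ (q : Ix ι ℝ Γ D) (κ' κ ρ : ℝ),
    (∀ z ∈ Om m s q κ' κ, Metric.ball z (ρ / C) ⊆ Om m s q (κ' + ρ) (κ + ρ)) ∧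
    (ρ / C ≤ κ' → ρ ≤ κ → Metric.ball (CX.of q.b) (ρ / C) ⊆ Om m s q κ' κ) ∧
    (κ' ≤ ρ → κ ≤ ρ → Om m s q κ' κ ⊆ Metric.ball (CX.of q.b) (C * ρ)) := by
  obtain ⟨C, hC1, hC⟩ := cn_coord h
  have hC0 : 0 < C := by linarith
  refine ⟨C, hC1, fun q κ' κ ρ => ⟨?_, ?_, ?_⟩⟩
  · rintro z ⟨hz1, hz2, hz3⟩ w hw
    rw [mem_ball_iff_norm] at hw
    have hposx := (hm_mm h q.i q.p).pos q.x
    have hposy := (hm_mm h q.i q.p).pos q.y
    have hρ : 0 < ρ := by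
      have := (norm_nonneg _).trans_lt hw
      rwa [lt_div_iff₀ hC0, zero_mul] at this
    have hρC : ρ / C ≤ ρ := div_le_self hρ.le hC1
    have n1 : ‖w.1 - z.1‖ ≤ ‖w - z‖ := norm_fst_le (w - z)
    have n2 : ‖(w - z).2‖ ≤ ‖w - z‖ := norm_snd_le (w - z)
    have n3 : ‖w.2.1 - z.2.1‖ ≤ ‖w - z‖ := (norm_fst_le (w - z).2).trans n2
    have n4 : ‖w.2.2 - z.2.2‖ ≤ ‖w - z‖ := (norm_snd_le (w - z).2).trans n2
    have hcl : C * ‖w - z‖ < ρ := by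
      rwa [lt_div_iff₀ hC0, mul_comm] at hw
    refine ⟨?_, ?_, ?_⟩
    · calc ‖w.1 - (q.p : ℂ)‖ = ‖(w.1 - z.1) + (z.1 - (q.p : ℂ))‖ := by congr 1; ring
        _ ≤ ‖w.1 - z.1‖ + ‖z.1 - (q.p : ℂ)‖ := norm_add_le _ _
        _ < κ' + ρ := by linarith
    · have e1 : w.2.1 - CX.of q.x = (w.2.1 - z.2.1) + (z.2.1 - CX.of q.x) := by abel
      have e2 := cn_add hposx.1 hposx.2 (w.2.1 - z.2.1) (z.2.1 - CX.of q.x)
      rw [← e1] at e2
      have e3 := (hC q.i q.p q.hp q.x q.hx (w.2.1 - z.2.1)).1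
      have e4 := mul_le_mul_of_nonneg_left n3 hC0.le
      linarith
    · have e1 : w.2.2 - CX.of q.y = (w.2.2 - z.2.2) + (z.2.2 - CX.of q.y) := by abel
      have e2 := cn_add hposy.1 hposy.2 (w.2.2 - z.2.2) (z.2.2 - CX.of q.y)
      rw [← e1] at e2
      have e3 := (hC q.i q.p q.hp q.y q.hy (w.2.2 - z.2.2)).1
      have e4 := mul_le_mul_of_nonneg_left n4 hC0.le
      linarith
  · intro h1 h2 w hw
    rw [mem_ball_iff_norm] at hw
    have n1 : ‖w.1 - (q.p : ℂ)‖ ≤ ‖w - CX.of q.b‖ := norm_fst_le (w - CX.of q.b)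
    have n2 : ‖(w - CX.of q.b).2‖ ≤ ‖w - CX.of q.b‖ := norm_snd_le (w - CX.of q.b)
    have n3 : ‖w.2.1 - CX.of q.x‖ ≤ ‖w - CX.of q.b‖ := (norm_fst_le (w - CX.of q.b).2).trans n2
    have n4 : ‖w.2.2 - CX.of q.y‖ ≤ ‖w - CX.of q.b‖ := (norm_snd_le (w - CX.of q.b).2).trans n2
    have hcl : C * ‖w - CX.of q.b‖ < ρ := by
      rwa [lt_div_iff₀ hC0, mul_comm] at hw
    refine ⟨by linarith, ?_, ?_⟩
    · have e3 := (hC q.i q.p q.hp q.x q.hx (w.2.1 - CX.of q.x)).1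
      have e4 := mul_le_mul_of_nonneg_left n3 hC0.le
      linarith
    · have e3 := (hC q.i q.p q.hp q.y q.hy (w.2.2 - CX.of q.y)).1
      have e4 := mul_le_mul_of_nonneg_left n4 hC0.le
      linarith
  · rintro h1 h2 w ⟨hz1, hz2, hz3⟩
    rw [mem_ball_iff_norm]
    have hρ : 0 < ρ := (norm_nonneg _).trans_lt (hz1.trans_le h1)
    have hρC : ρ ≤ C * ρ := by nlinarith
    have e1 := (hC q.i q.p q.hp q.x q.hx (w.2.1 - CX.of q.x)).2
    have e2 := (hC q.i q.p q.hp q.y q.hy (w.2.2 - CX.of q.y)).2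
    have e3 : C * cn (mm m (s q.i) q.p q.x) (w.2.1 - CX.of q.x) < C * ρ :=
      mul_lt_mul_of_pos_left (hz2.trans_le h2) hC0
    have e4 : C * cn (mm m (s q.i) q.p q.y) (w.2.2 - CX.of q.y) < C * ρ :=
      mul_lt_mul_of_pos_left (hz3.trans_le h2) hC0
    have n0 : w - CX.of q.b = (w.1 - (q.p : ℂ), (w.2.1 - CX.of q.x, w.2.2 - CX.of q.y)) := rfl
    rw [n0, Prod.norm_def, Prod.norm_def]
    exact max_lt (by linarith) (max_lt (by linarith) (by linarith))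

end BE36
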