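import Pool.Agent.LibBE36.N1
import Pool.Agent.LibBE36.N2
import Pool.Agent.LibBE36K.K03

/-! Row BE36 N3 (cites G08, G09, K03, N1, N2): the map `(r, e) ↦ (e.1, e.2.1, gp r)` and the nested domains. STRONG, 75 min.
Plan. `HB_gp` (row G08) gives an extension `γ~` of `F (r, e) = η⁻¹ • gp r (e.1, e.2.1, g • e.2.2)` to the ball of radius `H⁻¹` around
`(r0, q.b)`, bounded by `H = hc A1 (lh q)`; put `g z = (z.2.1, z.2.2.1, γ~ z)`. Let `z = (r, e)`, `|r - r0| < δ`,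
`e ∈ Om m s q κ' κ`, `h = z - of (r0, q.b)`: `‖h‖ ≤ C κ ≤ C / hc A (lh q) ≤ (2 H)⁻¹` if `A` is large (`Om_cmp` with `ρ = κ`, `κ', δ ≤ κ`),
so the product domain is contained in the ball where `γ~` lives. By `ho_second`
`γ~ z = of (qr).y + D h + R`, `‖R‖ ≤ 4 H³ ‖h‖²`, `D = cl (fderiv ℝ F (r0, q.b))` (`ho_real`); `D h = D (h_r, h_p, 0, 0) + D (0, 0, h_x, 0) +
D (0, 0, 0, h_y)`: the first term has norm `≤ H² (δ + κ')` (`ho_fd`), the second and the third are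
`cl (dgp h q (0, ·, 0)) h_x`, `cl (dgp h q (0, 0, ·)) h_y` (chain rule for `e ↦ F (r0, e)`), of `cn`-norm at `(qr).y` at most
`(1 - r0) cn h_x + r0 cn h_y < κ` (`gp_contr`, `cn_cl`). With `cn ≤ C ‖·‖` (`cn_coord`) for the rest:
`cn (γ~ z - of (qr).y) < κ + C (H² (δ + κ') + 4 H³ ‖h‖²) ≤ κ + hc A (lh q) (κ' + δ + κ²)` if `κ' ≤ κ ≤ 1`, `δ ≤ κ` (then
`‖h‖² ≤ C² κ²`). The first two components of `g z` are those of `e`, and `qr` has the same `p` and `x`. -/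

open MeasureTheory Set Filter Topology
open scoped ContDiff

namespace BE36

open BGS BR BE

variable {Γ : Type} [Group Γ] [MulAction Γ Pl] {D : Set Pl} {ι : Type} {m : Pl → Co} {a b : ℝ}
  {s : ι → ℝ × Pl → ℝ} {lQ : ι → ℝ}

/-- The inclusions of the two variables. -/
private noncomputable def N3_ix : Pl →L[ℝ] ℝ × (ℝ × Pl × Pl) :=
  (0 : Pl →L[ℝ] ℝ).prod ((0 : Pl →L[ℝ] ℝ).prod
    ((ContinuousLinearMap.id ℝ Pl).prod (0 : Pl →L[ℝ] Pl)))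

private noncomputable def N3_iy : Pl →L[ℝ] ℝ × (ℝ × Pl × Pl) :=
  (0 : Pl →L[ℝ] ℝ).prod ((0 : Pl →L[ℝ] ℝ).prod
    ((0 : Pl →L[ℝ] Pl).prod (ContinuousLinearMap.id ℝ Pl)))

private theorem N3_cx (L : ℝ × (ℝ × Pl × Pl) →L[ℝ] Pl) (z : ℂ × ℂ) :
    (cl L : ℂ × (ℂ × (ℂ × ℂ) × (ℂ × ℂ)) →L[ℂ] ℂ × ℂ) (0, (0, z, 0)) =
      (cl (L.comp N3_ix) : ℂ × ℂ →L[ℂ] ℂ × ℂ) z := by
  rw [cl_apply, cl_apply]
  rfl

private theorem N3_cy (L : ℝ × (ℝ × Pl × Pl) →L[ℝ] Pl) (z : ℂ × ℂ) :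
    (cl L : ℂ × (ℂ × (ℂ × ℂ) × (ℂ × ℂ)) →L[ℂ] ℂ × ℂ) (0, (0, 0, z)) =
      (cl (L.comp N3_iy) : ℂ × ℂ →L[ℂ] ℂ × ℂ) z := by
  rw [cl_apply, cl_apply]
  rfl

private theorem N3_split (L : ℝ × (ℝ × Pl × Pl) →L[ℝ] Pl) (z : ℂ × (ℂ × (ℂ × ℂ) × (ℂ × ℂ))) :
    (cl L : ℂ × (ℂ × (ℂ × ℂ) × (ℂ × ℂ)) →L[ℂ] ℂ × ℂ) z =
      (cl L : ℂ × (ℂ × (ℂ × ℂ) × (ℂ × ℂ)) →L[ℂ] ℂ × ℂ) (z.1, (z.2.1, 0, 0)) +
        ((cl (L.comp N3_ix) : ℂ × ℂ →L[ℂ] ℂ × ℂ) z.2.2.1 +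
          (cl (L.comp N3_iy) : ℂ × ℂ →L[ℂ] ℂ × ℂ) z.2.2.2) := by
  rw [← N3_cx, ← N3_cy, ← map_add, ← map_add]
  congr 1
  ext <;> simp

private theorem N3_norm {x y : ℂ} {κ' δ : ℝ} (h1 : ‖x‖ < δ) (h2 : ‖y‖ < κ') :
    ‖((x, (y, 0, 0)) : ℂ × (ℂ × (ℂ × ℂ) × (ℂ × ℂ)))‖ ≤ κ' + δ := by
  have h3 := norm_nonneg x
  have h4 := norm_nonneg y
  rw [Prod.norm_def, Prod.norm_def]
  refine max_le (by show ‖x‖ ≤ _; linarith) (max_le (by show ‖y‖ ≤ _; linarith) ?_)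
  show ‖(0 : (ℂ × ℂ) × (ℂ × ℂ))‖ ≤ _
  rw [norm_zero]
  linarith

/-- The bound for the linear part and a remainder. -/
private theorem N3_bound {c c1 c2 : Co} (hc : 0 < c.1 ∧ 0 < dt c) (hc1 : 0 < c1.1 ∧ 0 < dt c1)
    (hc2 : 0 < c2.1 ∧ 0 < dt c2) {C r κ' κ δ B B' : ℝ} (hC : ∀ w : ℂ × ℂ, cn c w ≤ C * ‖w‖)
    (hC0 : 0 ≤ C) (hr : 0 ≤ r) (hr1 : r ≤ 1) (L : ℝ × (ℝ × Pl × Pl) →L[ℝ] Pl)
    (hx : ∀ v, √(qf c (L.comp N3_ix v)) ≤ (1 - r) * √(qf c1 v))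
    (hy : ∀ v, √(qf c (L.comp N3_iy v)) ≤ r * √(qf c2 v))
    (hB : ‖(cl L : ℂ × (ℂ × (ℂ × ℂ) × (ℂ × ℂ)) →L[ℂ] ℂ × ℂ)‖ ≤ B)
    {z : ℂ × (ℂ × (ℂ × ℂ) × (ℂ × ℂ))} (h1 : ‖z.1‖ < δ) (h2 : ‖z.2.1‖ < κ')
    (h3 : cn c1 z.2.2.1 < κ) (h4 : cn c2 z.2.2.2 < κ) {R : ℂ × ℂ} (hR : ‖R‖ ≤ B') :
    cn c ((cl L : ℂ × (ℂ × (ℂ × ℂ) × (ℂ × ℂ)) →L[ℂ] ℂ × ℂ) z + R) <
      κ + C * (B * (κ' + δ) + B') := by
  have hB0 : 0 ≤ B := (norm_nonneg _).trans hB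
  rw [N3_split]
  have a1 := cn_add hc.1 hc.2 ((cl L : ℂ × (ℂ × (ℂ × ℂ) × (ℂ × ℂ)) →L[ℂ] ℂ × ℂ)
    (z.1, (z.2.1, 0, 0)) + ((cl (L.comp N3_ix) : ℂ × ℂ →L[ℂ] ℂ × ℂ) z.2.2.1 +
          (cl (L.comp N3_iy) : ℂ × ℂ →L[ℂ] ℂ × ℂ) z.2.2.2)) R
  have a2 := cn_add hc.1 hc.2 ((cl L : ℂ × (ℂ × (ℂ × ℂ) × (ℂ × ℂ)) →L[ℂ] ℂ × ℂ)
    (z.1, (z.2.1, 0, 0))) ((cl (L.comp N3_ix) : ℂ × ℂ →L[ℂ] ℂ × ℂ) z.2.2.1 +
          (cl (L.comp N3_iy) : ℂ × ℂ →L[ℂ] ℂ × ℂ) z.2.2.2)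
  have a3 := cn_add hc.1 hc.2 ((cl (L.comp N3_ix) : ℂ × ℂ →L[ℂ] ℂ × ℂ) z.2.2.1)
    ((cl (L.comp N3_iy) : ℂ × ℂ →L[ℂ] ℂ × ℂ) z.2.2.2)
  have a4 := cn_cl hc1.1 hc1.2 hc.1 hc.2 (L.comp N3_ix) (sub_nonneg.2 hr1) hx z.2.2.1
  have a5 := cn_cl hc2.1 hc2.2 hc.1 hc.2 (L.comp N3_iy) hr hy z.2.2.2
  have a6 : cn c ((cl L : ℂ × (ℂ × (ℂ × ℂ) × (ℂ × ℂ)) →L[ℂ] ℂ × ℂ) (z.1, (z.2.1, 0, 0))) ≤
      C * (B * (κ' + δ)) := by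
    refine (hC _).trans (mul_le_mul_of_nonneg_left ?_ hC0)
    refine (ContinuousLinearMap.le_opNorm _ _).trans ?_
    exact mul_le_mul hB (N3_norm h1 h2) (norm_nonneg _) hB0
  have a7 : cn c R ≤ C * B' := (hC _).trans (mul_le_mul_of_nonneg_left hR hC0)
  have a8 : (1 - r) * cn c1 z.2.2.1 + r * cn c2 z.2.2.2 < κ := by
    obtain ⟨μ, hμ⟩ : ∃ μ : ℝ, μ = max (cn c1 z.2.2.1) (cn c2 z.2.2.2) := ⟨_, rfl⟩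
    have b1 : cn c1 z.2.2.1 ≤ μ := hμ ▸ le_max_left _ _
    have b2 : cn c2 z.2.2.2 ≤ μ := hμ ▸ le_max_right _ _
    have b3 : μ < κ := hμ ▸ max_lt h3 h4
    have b4 := mul_le_mul_of_nonneg_left b1 (sub_nonneg.2 hr1)
    have b5 := mul_le_mul_of_nonneg_left b2 hr
    linarith
  rw [mul_add]
  linarith

theorem gp_map (h : CH Γ D m a b s lQ) : ∃ A : ℝ, 1 ≤ A ∧
    ∀ (q : Ix ι ℝ Γ D × Icc (0 : ℝ) 1) (κ' κ δ : ℝ), 0 < κ' → κ' ≤ κ → 0 < δ → δ ≤ κ →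
      hc A (lh m s lQ q.1) * κ ≤ 1 →
      ∃ g : ℂ × (ℂ × (ℂ × ℂ) × (ℂ × ℂ)) → ℂ × (ℂ × ℂ) × (ℂ × ℂ),
        DifferentiableOn ℂ g (Metric.ball ((q.2 : ℝ) : ℂ) δ ×ˢ Om m s q.1 κ' κ) ∧
        (∀ (r : ℝ) (e : ℝ × Pl × Pl),
          (CX.of (r, e) : ℂ × (ℂ × (ℂ × ℂ) × (ℂ × ℂ))) ∈
            Metric.ball ((q.2 : ℝ) : ℂ) δ ×ˢ Om m s q.1 κ' κ →
          g (CX.of (r, e)) = CX.of (e.1, e.2.1,
            (gη h.cf.hX m s q)⁻¹ • gp m (s q.1.i) r (e.1, e.2.1, q.1.g • e.2.2))) ∧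
        ∀ z ∈ Metric.ball ((q.2 : ℝ) : ℂ) δ ×ˢ Om m s q.1 κ' κ,
          g z ∈ Om m s (qr h.cf q) κ' (κ + hc A (lh m s lQ q.1) * (κ' + δ + κ ^ 2)) := by
  obtain ⟨A1, hA1, hF⟩ := HB_gp h
  obtain ⟨C, hC, hcn⟩ := cn_coord h.cf
  obtain ⟨C', hC', hcmp⟩ := Om_cmp h.cf
  have hC0 : 0 ≤ C := by linarith
  have hC0' : 0 ≤ C' := by linarith
  obtain ⟨A, hA, -, hA2⟩ := hc_pow hA1 (c := 4 * (C * C' ^ 2)) (by positivity) 3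
  refine ⟨A, hA, fun q κ' κ δ hκ'0 hκ' hδ0 hδ hAκ => ?_⟩
  have hℓ : 0 ≤ lh m s lQ q.1 := add_nonneg (h.nonneg _) (ll_nonneg m s q.1)
  have hκ0 : 0 < κ := hκ'0.trans_le hκ'
  obtain ⟨H, hH⟩ : ∃ H : ℝ, H = hc A1 (lh m s lQ q.1) := ⟨_, rfl⟩
  obtain ⟨HA, hHA⟩ : ∃ HA : ℝ, HA = hc A (lh m s lQ q.1) := ⟨_, rfl⟩
  have hH1 : 1 ≤ H := by
    rw [hH]
    exact hc_one hA1 hℓ
  have hH0 : 0 < H := by linarith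
  have hHH : 4 * (C * C' ^ 2) * H ^ 3 ≤ HA := by
    rw [hH, hHA]
    exact hA2 _ hℓ
  have hFq := hF q
  rw [← hH] at hFq
  rw [← hHA] at hAκ ⊢
  obtain ⟨γ, hγd, hγb, hγr⟩ := hFq
  -- sizes
  have hCC : 1 ≤ C * C' ^ 2 := one_le_mul_of_one_le_of_one_le hC (one_le_pow₀ hC')
  have hCC' : C' ≤ C * C' ^ 2 := by nlinarith
  have hH3 : H ≤ H ^ 3 := by nlinarith [pow_pos hH0 2]
  have hH23 : H ^ 2 ≤ H ^ 3 := by nlinarith [pow_pos hH0 2]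
  have hs1 : 2 * C' * H ≤ HA := by
    have h1 : C' * H ≤ C * C' ^ 2 * H ^ 3 := mul_le_mul hCC' hH3 hH0.le (by positivity)
    nlinarith [mul_nonneg hC0' hH0.le]
  have hs2 : C' * κ ≤ H⁻¹ / 2 := by
    have h1 : 2 * C' * H * κ ≤ 1 := (mul_le_mul_of_nonneg_right hs1 hκ0.le).trans hAκ
    have h2 : C' * κ * (2 * H) ≤ 1 := by linarith
    have h3 : H⁻¹ / 2 = 1 / (2 * H) := by
      field_simp
    rw [h3, le_div_iff₀ (by positivity)]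
    exact h2
  have hsub : ∀ z ∈ Metric.ball ((q.2 : ℝ) : ℂ) δ ×ˢ Om m s q.1 κ' κ,
      ‖z - (CX.of ((q.2 : ℝ), q.1.b) : ℂ × (ℂ × (ℂ × ℂ) × (ℂ × ℂ)))‖ < C' * κ := by
    rintro z ⟨hz1, hz2⟩
    have h1 := (hcmp q.1 κ' κ κ).2.2 hκ' le_rfl hz2
    rw [Metric.mem_ball, dist_eq_norm] at h1 hz1
    rw [Prod.norm_def]
    refine max_lt ?_ h1
    show ‖z.1 - ((q.2 : ℝ) : ℂ)‖ < _
    nlinarith
  have hball : ∀ z ∈ Metric.ball ((q.2 : ℝ) : ℂ) δ ×ˢ Om m s q.1 κ' κ,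
      z ∈ Metric.ball (CX.of ((q.2 : ℝ), q.1.b) : ℂ × (ℂ × (ℂ × ℂ) × (ℂ × ℂ))) H⁻¹ := by
    intro z hz
    rw [Metric.mem_ball, dist_eq_norm]
    have h1 := hsub z hz
    have h2 : 0 < H⁻¹ := inv_pos.2 hH0
    linarith
  have hctr : (CX.of ((q.2 : ℝ), q.1.b) : ℂ × (ℂ × (ℂ × ℂ) × (ℂ × ℂ))) ∈
      Metric.ball (CX.of ((q.2 : ℝ), q.1.b) : ℂ × (ℂ × (ℂ × ℂ) × (ℂ × ℂ))) H⁻¹ :=
    Metric.mem_ball_self (inv_pos.2 hH0)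
  -- the real function
  obtain ⟨F, hFdef⟩ : ∃ F : ℝ × (ℝ × Pl × Pl) → Pl, F = fun e : ℝ × (ℝ × Pl × Pl) =>
    (gη h.cf.hX m s q)⁻¹ • gp m (s q.1.i) e.1 (e.2.1, e.2.2.1, q.1.g • e.2.2.2) := ⟨_, rfl⟩
  have hγr' : ∀ y : ℝ × (ℝ × Pl × Pl), (CX.of y : ℂ × (ℂ × (ℂ × ℂ) × (ℂ × ℂ))) ∈
      Metric.ball (CX.of ((q.2 : ℝ), q.1.b) : ℂ × (ℂ × (ℂ × ℂ) × (ℂ × ℂ))) H⁻¹ →
      γ (CX.of y) = CX.of (F y) := by
    intro y hy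
    rw [hFdef]
    exact hγr y hy
  obtain ⟨hd1, hd2⟩ := ho_real Metric.isOpen_ball hγd hγr' hctr
  have hcl : fderiv ℂ γ (CX.of ((q.2 : ℝ), q.1.b)) = cl (fderiv ℝ F ((q.2 : ℝ), q.1.b)) :=
    ContinuousLinearMap.ext hd2
  have hdgp : ∀ v : ℝ × Pl × Pl, fderiv ℝ F ((q.2 : ℝ), q.1.b) (0, v) = dgp h.cf q v := by
    intro v
    have h1 := (hd1.hasFDerivAt.comp q.1.b (hasFDerivAt_prodMk_right (𝕜 := ℝ) (q.2 : ℝ) q.1.b)).fderiv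
    have h2 : (F ∘ fun e : ℝ × Pl × Pl => ((q.2 : ℝ), e)) = fun e : ℝ × Pl × Pl =>
        (gη h.cf.hX m s q)⁻¹ • gp m (s q.1.i) q.2 (e.1, e.2.1, q.1.g • e.2.2) := by
      rw [hFdef]
      rfl
    rw [h2] at h1
    unfold dgp
    rw [h1]
    rfl
  have hcon := gp_contr h.cf q
  have hM := hm_mm h.cf q.1.i q.1.p
  have hfd := ho_fd (inv_pos.2 hH0) hγd hγb
  rw [hcl, div_inv_eq_mul] at hfd
  refine ⟨fun z => (z.2.1, z.2.2.1, γ z), ?_, ?_, ?_⟩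
  · have h1 : DifferentiableOn ℂ γ (Metric.ball ((q.2 : ℝ) : ℂ) δ ×ˢ Om m s q.1 κ' κ) :=
      hγd.mono hball
    have h2 : DifferentiableOn ℂ (fun z : ℂ × (ℂ × (ℂ × ℂ) × (ℂ × ℂ)) => z.2.1)
        (Metric.ball ((q.2 : ℝ) : ℂ) δ ×ˢ Om m s q.1 κ' κ) :=
      (differentiable_fst.comp differentiable_snd).differentiableOn
    have h3 : DifferentiableOn ℂ (fun z : ℂ × (ℂ × (ℂ × ℂ) × (ℂ × ℂ)) => z.2.2.1)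
        (Metric.ball ((q.2 : ℝ) : ℂ) δ ×ˢ Om m s q.1 κ' κ) :=
      (differentiable_fst.comp (differentiable_snd.comp differentiable_snd)).differentiableOn
    exact h2.prodMk (h3.prodMk h1)
  · intro r e hre
    have h1 := hγr' (r, e) (hball _ hre)
    show ((CX.of e.1, CX.of e.2.1, γ (CX.of (r, e))) : ℂ × (ℂ × ℂ) × (ℂ × ℂ)) = _
    rw [h1, hFdef]
    rfl
  · intro z hz
    have hzs := hsub z hz
    have h1 := ho_second (inv_pos.2 hH0) hγd hγb (hzs.le.trans hs2)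
    rw [add_sub_cancel, hcl, hγr' _ hctr] at h1
    have h2 : 4 * H / H⁻¹ ^ 2 * ‖z - (CX.of ((q.2 : ℝ), q.1.b) :
        ℂ × (ℂ × (ℂ × ℂ) × (ℂ × ℂ)))‖ ^ 2 ≤ 4 * H ^ 3 * (C' * κ) ^ 2 := by
      have h3 : 4 * H / H⁻¹ ^ 2 = 4 * H ^ 3 := by
        field_simp
      rw [h3]
      exact mul_le_mul_of_nonneg_left (pow_le_pow_left₀ (norm_nonneg _) hzs.le 2) (by positivity)
    have hqr : F ((q.2 : ℝ), q.1.b) = (qr h.cf q).y := by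
      rw [hFdef]
      rfl
    rw [hqr] at h1
    obtain ⟨hz1, hz2, hz3, hz4⟩ := hz
    rw [Metric.mem_ball, dist_eq_norm] at hz1
    have hpos : 0 < HA * (κ' + δ + κ ^ 2) := by
      have : 0 < HA := lt_of_lt_of_le (by positivity) hHH
      positivity
    refine ⟨hz2, ?_, ?_⟩
    · show cn (mm m (s q.1.i) q.1.p q.1.x) (z.2.2.1 - CX.of q.1.x) < _
      linarith
    · show cn (mm m (s q.1.i) q.1.p (qr h.cf q).y) (γ z - CX.of (qr h.cf q).y) < _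
      have h4 := N3_bound (hM.pos (qr h.cf q).y) (hM.pos q.1.x) (hM.pos q.1.y)
        (κ' := κ') (κ := κ) (δ := δ)
        (fun w => (hcn q.1.i q.1.p q.1.hp (qr h.cf q).y (qr h.cf q).hy w).1) hC0 q.2.2.1 q.2.2.2
        (fderiv ℝ F ((q.2 : ℝ), q.1.b))
        (fun v => by
          have h5 : (fderiv ℝ F ((q.2 : ℝ), q.1.b)).comp N3_ix v = dgp h.cf q (0, v, 0) :=
            hdgp (0, v, 0)
          rw [h5]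
          exact (hcon v 0).1)
        (fun v => by
          have h5 : (fderiv ℝ F ((q.2 : ℝ), q.1.b)).comp N3_iy v = dgp h.cf q (0, 0, v) :=
            hdgp (0, 0, v)
          rw [h5]
          exact (hcon 0 v).2)
        hfd
        (z := z - (CX.of ((q.2 : ℝ), q.1.b) : ℂ × (ℂ × (ℂ × ℂ) × (ℂ × ℂ)))) hz1 hz2 hz3 hz4
        (h1.trans h2)
      have h6 : (cl (fderiv ℝ F ((q.2 : ℝ), q.1.b)) :
          ℂ × (ℂ × (ℂ × ℂ) × (ℂ × ℂ)) →L[ℂ] ℂ × ℂ)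
            (z - (CX.of ((q.2 : ℝ), q.1.b) : ℂ × (ℂ × (ℂ × ℂ) × (ℂ × ℂ)))) +
          (γ z - CX.of (qr h.cf q).y - (cl (fderiv ℝ F ((q.2 : ℝ), q.1.b)) :
          ℂ × (ℂ × (ℂ × ℂ) × (ℂ × ℂ)) →L[ℂ] ℂ × ℂ)
            (z - (CX.of ((q.2 : ℝ), q.1.b) : ℂ × (ℂ × (ℂ × ℂ) × (ℂ × ℂ))))) =
          γ z - CX.of (qr h.cf q).y := by abel
      rw [h6] at h4
      refine h4.trans_le ?_
      have h7 : C * (H * H) ≤ HA := by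
        have h8 : C ≤ C * C' ^ 2 := by nlinarith [one_le_pow₀ (n := 2) hC']
        have h9 : C * (H * H) ≤ C * C' ^ 2 * H ^ 3 := by
          rw [← sq]
          exact mul_le_mul h8 hH23 (by positivity) (by positivity)
        nlinarith [mul_pos (lt_of_lt_of_le one_pos hCC) (pow_pos hH0 3)]
      have h10 : C * (H * H * (κ' + δ)) ≤ HA * (κ' + δ) := by
        have := mul_le_mul_of_nonneg_right h7 (by linarith : 0 ≤ κ' + δ)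
        linarith
      have h11 : C * (4 * H ^ 3 * (C' * κ) ^ 2) ≤ HA * κ ^ 2 := by
        have := mul_le_mul_of_nonneg_right hHH (sq_nonneg κ)
        calc C * (4 * H ^ 3 * (C' * κ) ^ 2) = 4 * (C * C' ^ 2) * H ^ 3 * κ ^ 2 := by ring
          _ ≤ _ := this
      rw [mul_add C, mul_add HA]
      linarith

end BE36
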