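import Pool.Agent.LibBE36.G13
import Pool.Agent.LibBE36.N2
import Pool.Agent.LibBE36K.K03

/-! Row BE36 N4 (cites G13, K02, K03, N2): `TT` on the nested domains. MEDIUM, 50 min.
Plan. Let `C` be the constant of `Om_cmp`, `u e = Q (e.1, e.2.1, q.g • e.2.2)`, `v1 = (0, 0, (1, 0))`, `v2 = (0, 0, (0, 1))` (norm `1`). By
`Om_cmp` a ball of radius `ρ' / (2 C)` around a point of `Om q (κ' + ρ'/2) (κ + ρ'/2)` is contained in `Om q (κ' + ρ') (κ + ρ')`, so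
(`HO_fderiv`, row K03) `d1 u`, `d2 u` are in `HO (Om q (κ' + ρ'/2) (κ + ρ'/2)) (2 C B / ρ')`, and the second derivatives are in
`HO (Om q κ' κ) (4 C² B / ρ'²)`. The six coefficients of `TT_form` extend to `ball (of q.b) (hc A0 (lh q))⁻¹` with the bound
`hc A0 (lh q)`, and this ball contains `Om q κ' κ` if `C κ < (hc A0 (lh q))⁻¹`. The extension of the sum is the sum of the products
(`TT_form`), of norm `≤ hc A0 (lh q) * (B + 2 * (2 C B / ρ') + 3 * (4 C² B / ρ'²)) ≤ hc A (lh q) * B / ρ'²` as `ρ' ≤ 1`. -/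

open MeasureTheory Set Filter Topology
open scoped ContDiff

namespace BE36

open BGS BR BE

variable {Γ : Type} [Group Γ] [MulAction Γ Pl] {D : Set Pl} {ι : Type} {m : Pl → Co} {a b : ℝ}
  {s : ι → ℝ × Pl → ℝ} {lQ : ι → ℝ}

theorem N4_add {E EC : Type} [NormedAddCommGroup E] [NormedSpace ℝ E] [NormedAddCommGroup EC]
    [NormedSpace ℂ EC] [CX E EC] {Ω : Set EC} {B B' : ℝ} {f f' : E → ℝ} (h : HO Ω B f)
    (h' : HO Ω B' f') : HO Ω (B + B') (fun y => f y + f' y) := by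
  obtain ⟨g, hg, hb, he⟩ := h
  obtain ⟨g', hg', hb', he'⟩ := h'
  refine ⟨fun z => g z + g' z, hg.add hg', fun z hz => ?_, fun y hy => ?_⟩
  · exact (norm_add_le _ _).trans (add_le_add (hb z hz) (hb' z hz))
  · show g (CX.of y) + g' (CX.of y) = CX.of (f y + f' y)
    rw [he y hy, he' y hy, CX.of_add]

theorem N4_mul {E EC : Type} [NormedAddCommGroup E] [NormedSpace ℝ E] [NormedAddCommGroup EC]
    [NormedSpace ℂ EC] [CX E EC] {Ω : Set EC} {B B' : ℝ} {f f' : E → ℝ} (h : HO Ω B f)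
    (h' : HO Ω B' f') : HO Ω (B * B') (fun y => f y * f' y) := by
  obtain ⟨g, hg, hb, he⟩ := h
  obtain ⟨g', hg', hb', he'⟩ := h'
  refine ⟨fun z => g z * g' z, hg.mul hg', fun z hz => ?_, fun y hy => ?_⟩
  · rw [norm_mul]
    exact mul_le_mul (hb z hz) (hb' z hz) (norm_nonneg _) ((norm_nonneg _).trans (hb z hz))
  · show g (CX.of y) * g' (CX.of y) = ((f y * f' y : ℝ) : ℂ)
    rw [he y hy, he' y hy]
    show ((f y : ℝ) : ℂ) * ((f' y : ℝ) : ℂ) = _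
    push_cast
    rfl

theorem N4_norm1 : ‖((0 : ℝ), ((0 : ℝ), (0 : ℝ)), ((1 : ℝ), (0 : ℝ)))‖ = 1 := by
  simp [Prod.norm_def]

theorem N4_norm2 : ‖((0 : ℝ), ((0 : ℝ), (0 : ℝ)), ((0 : ℝ), (1 : ℝ)))‖ = 1 := by
  simp [Prod.norm_def]

theorem N4_num {C ρ B H H' : ℝ} (hC : 1 ≤ C) (hρ : 0 < ρ) (hρ1 : ρ ≤ 1) (hB : 0 ≤ B)
    (hH : 0 ≤ H) (hH' : (1 + 4 * C + 12 * C ^ 2) * H ^ 1 ≤ H') :
    H * B + H * (B / (ρ / 2 / C) * 1) + H * (B / (ρ / 2 / C) * 1) +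
      H * (B / (ρ / 2 / C) * 1 / (ρ / 2 / C) * 1) + H * (B / (ρ / 2 / C) * 1 / (ρ / 2 / C) * 1) +
      H * (B / (ρ / 2 / C) * 1 / (ρ / 2 / C) * 1) ≤ H' * B / ρ ^ 2 := by
  have hC0 : 0 < C := by linarith
  have e1 : B / (ρ / 2 / C) = 2 * C * B / ρ := by field_simp
  have e2 : 2 * C * B / ρ / (ρ / 2 / C) = 4 * C ^ 2 * B / ρ ^ 2 := by field_simp; ring
  simp only [mul_one, e1, e2]
  have i1 : B ≤ B / ρ ^ 2 := by
    rw [le_div_iff₀ (by positivity)]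
    have : ρ ^ 2 ≤ 1 := by nlinarith
    nlinarith
  have i2 : 2 * C * B / ρ ≤ 2 * C * (B / ρ ^ 2) := by
    rw [div_le_iff₀ hρ]
    have : 2 * C * (B / ρ ^ 2) * ρ = 2 * C * B / ρ := by field_simp
    rw [this, le_div_iff₀ hρ]
    have : 0 ≤ 2 * C * B := by positivity
    nlinarith
  have e3 : 4 * C ^ 2 * B / ρ ^ 2 = 4 * C ^ 2 * (B / ρ ^ 2) := by ring
  have e4 : H' * B / ρ ^ 2 = H' * (B / ρ ^ 2) := by ring
  rw [e3, e4]
  have hX : 0 ≤ B / ρ ^ 2 := by positivity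
  set X := B / ρ ^ 2 with hXd
  have h1 : H * B ≤ H * X := mul_le_mul_of_nonneg_left i1 hH
  have h2 : H * (2 * C * B / ρ) ≤ H * (2 * C * X) := mul_le_mul_of_nonneg_left i2 hH
  have h3 : (1 + 4 * C + 12 * C ^ 2) * H ^ 1 * X ≤ H' * X := mul_le_mul_of_nonneg_right hH' hX
  nlinarith [h1, h2, h3]

theorem TT_step (h : CH Γ D m a b s lQ) : ∃ A : ℝ, 1 ≤ A ∧ ∀ (q : Ix ι ℝ Γ D)
    (Q : ℝ × Pl × Pl → ℝ), ContDiff ℝ ∞ Q → ∀ κ' κ ρ B : ℝ, 0 < κ' → κ' ≤ κ → 0 < ρ →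
      ρ ≤ 1 → 0 ≤ B → hc A (lh m s lQ q) * κ ≤ 1 →
      HO (Om m s q (κ' + ρ) (κ + ρ)) B (fun e : ℝ × Pl × Pl => Q (e.1, e.2.1, q.g • e.2.2)) →
      HO (Om m s q κ' κ) (hc A (lh m s lQ q) * B / ρ ^ 2)
        (fun e : ℝ × Pl × Pl => TT m (s q.i) Q (e.1, e.2.1, q.g • e.2.2)) := by
  obtain ⟨C, hC, hcmp⟩ := Om_cmp h.cf
  obtain ⟨c, hcB, hform⟩ := TT_form h
  choose A0 hA0 hHE using hcB
  set A1 : ℝ := 1 + ∑ k, A0 k with hA1
  have hA0s : ∀ k, A0 k ≤ A1 := fun k => by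
    have h1 : A0 k ≤ ∑ k, A0 k :=
      Finset.single_le_sum (f := A0) (fun i _ => zero_le_one.trans (hA0 i)) (Finset.mem_univ k)
    linarith
  have hA11 : 1 ≤ A1 := (hA0 0).trans (hA0s 0)
  obtain ⟨A, hA, hAA, hpow⟩ := hc_pow (A := A1) (c := 1 + 4 * C + 12 * C ^ 2) hA11
    (by positivity) 1
  refine ⟨A, hA, ?_⟩
  intro q Q hQ κ' κ ρ B hκ' hκ hρ hρ1 hB hAκ hu
  have hlh : 0 ≤ lh m s lQ q := lh_nonneg h q
  have hC0 : 0 < C := by linarith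
  have hHpos : 0 < hc A1 (lh m s lQ q) := hc_pos hA11
  have hpw := hpow _ hlh
  set H := hc A1 (lh m s lQ q) with hH
  set H' := hc A (lh m s lQ q) with hH'
  have hκ0 : 0 < κ := hκ'.trans_le hκ
  have hsub : Om m s q κ' κ ⊆ Metric.ball (CX.of q.b) H⁻¹ := by
    refine ((hcmp q κ' κ κ).2.2 hκ le_rfl).trans (Metric.ball_subset_ball ?_)
    rw [← one_div, le_div_iff₀ hHpos]
    have h1 : C * H ≤ H' := by
      refine le_trans ?_ hpw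
      rw [pow_one]
      refine mul_le_mul_of_nonneg_right ?_ hHpos.le
      nlinarith
    calc C * κ * H = C * H * κ := by ring
      _ ≤ H' * κ := mul_le_mul_of_nonneg_right h1 hκ0.le
      _ ≤ 1 := hAκ
  have hball : ∀ κ1' κ1 : ℝ, ∀ z ∈ Om m s q κ1' κ1,
      Metric.ball z (ρ / 2 / C) ⊆ Om m s q (κ1' + ρ / 2) (κ1 + ρ / 2) := fun κ1' κ1 z hz =>
    (hcmp q κ1' κ1 (ρ / 2)).1 z hz
  have hr : 0 < ρ / 2 / C := by positivity
  have hball1 : ∀ z ∈ Om m s q (κ' + ρ / 2) (κ + ρ / 2),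
      Metric.ball z (ρ / 2 / C) ⊆ Om m s q (κ' + ρ) (κ + ρ) := by
    have := hball (κ' + ρ / 2) (κ + ρ / 2)
    rwa [add_assoc, add_assoc, add_halves] at this
  have hball2 := hball κ' κ
  -- the first derivatives
  have hd1 : HO (Om m s q (κ' + ρ / 2) (κ + ρ / 2)) (B / (ρ / 2 / C) * 1)
      (d1 (fun e : ℝ × Pl × Pl => Q (e.1, e.2.1, q.g • e.2.2))) := by
    have := HO_fderiv (Om_open h.cf q _ _) hr hball1 hu
      ((0 : ℝ), ((0 : ℝ), (0 : ℝ)), ((1 : ℝ), (0 : ℝ)))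
    rw [N4_norm1] at this
    exact this
  have hd2 : HO (Om m s q (κ' + ρ / 2) (κ + ρ / 2)) (B / (ρ / 2 / C) * 1)
      (d2 (fun e : ℝ × Pl × Pl => Q (e.1, e.2.1, q.g • e.2.2))) := by
    have := HO_fderiv (Om_open h.cf q _ _) hr hball1 hu
      ((0 : ℝ), ((0 : ℝ), (0 : ℝ)), ((0 : ℝ), (1 : ℝ)))
    rw [N4_norm2] at this
    exact this
  -- the second derivatives
  have h11 : ∀ (f : ℝ × Pl × Pl → ℝ), HO (Om m s q (κ' + ρ / 2) (κ + ρ / 2))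
      (B / (ρ / 2 / C) * 1) f → HO (Om m s q κ' κ) (B / (ρ / 2 / C) * 1 / (ρ / 2 / C) * 1)
      (d1 f) := fun f hf => by
    have := HO_fderiv (Om_open h.cf q _ _) hr hball2 hf
      ((0 : ℝ), ((0 : ℝ), (0 : ℝ)), ((1 : ℝ), (0 : ℝ)))
    rw [N4_norm1] at this
    exact this
  have h22 : ∀ (f : ℝ × Pl × Pl → ℝ), HO (Om m s q (κ' + ρ / 2) (κ + ρ / 2))
      (B / (ρ / 2 / C) * 1) f → HO (Om m s q κ' κ) (B / (ρ / 2 / C) * 1 / (ρ / 2 / C) * 1)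
      (d2 f) := fun f hf => by
    have := HO_fderiv (Om_open h.cf q _ _) hr hball2 hf
      ((0 : ℝ), ((0 : ℝ), (0 : ℝ)), ((0 : ℝ), (1 : ℝ)))
    rw [N4_norm2] at this
    exact this
  -- restriction to the small domain
  have hm0 : Om m s q κ' κ ⊆ Om m s q (κ' + ρ) (κ + ρ) := Om_mono q (by linarith) (by linarith)
  have hm1 : Om m s q κ' κ ⊆ Om m s q (κ' + ρ / 2) (κ + ρ / 2) :=
    Om_mono q (by linarith) (by linarith)
  have hu' := HO_mono hu hm0 le_rfl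
  have hd1' := HO_mono hd1 hm1 le_rfl
  have hd2' := HO_mono hd2 hm1 le_rfl
  -- the coefficients
  have hcf : ∀ k, HO (Om m s q κ' κ) H (c k q) := fun k => by
    have hk : hc (A0 k) (lh m s lQ q) ≤ H := hc_mono (hA0 k) (hA0s k) hlh
    refine HO_mono (hHE k q) (hsub.trans (Metric.ball_subset_ball ?_)) hk
    exact inv_anti₀ (hc_pos (hA0 k)) hk
  have key := N4_add (N4_add (N4_add (N4_add (N4_add (N4_mul (hcf 0) hu')
    (N4_mul (hcf 1) hd1')) (N4_mul (hcf 2) hd2')) (N4_mul (hcf 3) (h11 _ hd1)))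
    (N4_mul (hcf 4) (h11 _ hd2))) (N4_mul (hcf 5) (h22 _ hd2))
  refine HO_congr (HO_mono key subset_rfl (N4_num hC hρ hρ1 hB hHpos.le hpw)) (fun e _ => ?_)
  exact (hform Q hQ q e).symm

end BE36
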