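import Pool.Agent.LibBE36.N3
import Pool.Agent.LibBE36.N4
import Pool.Agent.LibBE36K.K09

/-! Row BE36 N5 (cites G09, K09, N3, N4; `uu_succ` of `LibBE88/V10`): one step of the recursion. STRONG, 75 min.
Plan. `A` is larger than the constants of `gp_map`, `TT_step`. Let `lh q ≤ λ`, `H = hc A λ`. By `uu_succ`
`uu (j+1) (p, x, g • y) = 1/4 * ∫ r in 0..1, r ^ j * TT (uu j) (p, x, gp r (p, x, g • y))`. `HO_int` (row K09) with
`Ω = Om q κ' κ` (open) and `f (r, e) = 1/4 * (r ^ j * TT (uu j) (e.1, e.2.1, gp r (e.1, e.2.1, g • e.2.2)))`, radius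
`δ = min (ρ / (2 H)) (1 / (2 * (j + 1)))` (so `δ ≤ ρ ≤ κ`): for `r0 ∈ [0, 1]` put `q' = qr (q, r0)`, `lh q' ≤ lh q ≤ λ` (`qr_lh`). By hypothesis
`uu j` at `q'` is in `HO (Om q' (κ' + ρ') (κ + 2 ρ)) B`, which contains `Om q' (κ' + ρ') ((κ + ρ) + ρ')` as `ρ' ≤ ρ`; `TT_step` (with
`κ + ρ` in place of `κ`; `uu_slice`-type smoothness: `uu m (s i) j` is smooth, `(Adm_uu ..)`/`Adm_smooth`) gives an extension `T~` of
`e' ↦ TT (uu j) (e'.1, e'.2.1, η • e'.2.2)` to `Om q' κ' (κ + ρ)` with bound `H B / ρ'²`. The map `g` of `gp_map` sends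
`ball r0 δ ×ˢ Om q κ' κ` into `Om q' κ' (κ + H (κ' + δ + κ²)) ⊆ Om q' κ' (κ + ρ)` (`H (κ' + κ²) ≤ ρ / 2`, `H δ ≤ ρ / 2`). The extension of
`f` is `(r, e) ↦ 1/4 * (r ^ j * T~ (g (r, e)))`, `|r| ^ j ≤ (1 + δ) ^ j ≤ 2`; at real points `η • η⁻¹ • gp = gp`. Bound
`1/4 * 2 * H B / ρ'² ≤ H B / ρ'²`. -/

open MeasureTheory Set Filter Topology
open scoped ContDiff

namespace BE36

open BGS BR BE

variable {Γ : Type} [Group Γ] [MulAction Γ Pl] {D : Set Pl} {ι : Type} {m : Pl → Co} {a b : ℝ}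
  {s : ι → ℝ × Pl → ℝ} {lQ : ι → ℝ}

theorem uu_smooth (h : CF Γ D m a b s) (i : ι) (j : ℕ) : ContDiff ℝ ∞ (uu m (s i) j) := by
  obtain ⟨γ, hγ, -⟩ := h.hX.orbit (0 : Pl)
  exact Adm_smooth h.hX ⟨_, hγ⟩ (Adm_uu h j) i

private theorem N5_lh (h : CH Γ D m a b s lQ) (q : Ix ι ℝ Γ D) : 0 ≤ lh m s lQ q := by
  have h1 := (d_N h.cf q).1
  have h2 := h.nonneg q.i
  unfold lh ll
  have h3 : 0 ≤ Real.log (2 + q.d m s) := Real.log_nonneg (by linarith)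
  linarith

private theorem N5_hc {A A' t t' : ℝ} (hA : 1 ≤ A) (h : A ≤ A') (ht : 0 ≤ t) (htt : t ≤ t') :
    hc A t ≤ hc A' t' := by
  unfold hc
  have h1 : A * t ≤ A' * t' := mul_le_mul h htt ht (by linarith)
  exact mul_le_mul h (Real.exp_le_exp.2 h1) (Real.exp_pos _).le (by linarith)

private theorem N5_pow (j : ℕ) {x : ℝ} (hx : 0 ≤ x) (hx1 : x ≤ 1 + 1 / (2 * ((j : ℝ) + 1))) :
    x ^ j ≤ 4 := by
  have h1 : x ≤ Real.exp (1 / (2 * ((j : ℝ) + 1))) := by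
    have := Real.add_one_le_exp (1 / (2 * ((j : ℝ) + 1)))
    linarith
  calc x ^ j ≤ (Real.exp (1 / (2 * ((j : ℝ) + 1)))) ^ j := pow_le_pow_left₀ hx h1 j
    _ = Real.exp (j * (1 / (2 * ((j : ℝ) + 1)))) := by rw [← Real.exp_nat_mul]
    _ ≤ Real.exp 1 := by
        apply Real.exp_le_exp.2
        have h0 : (0 : ℝ) ≤ j := Nat.cast_nonneg j
        rw [mul_one_div, div_le_one (by positivity)]
        linarith
    _ ≤ 4 := by
        have := Real.exp_one_lt_d9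
        linarith

theorem uu_step (h : CH Γ D m a b s lQ) : ∃ A : ℝ, 1 ≤ A ∧ ∀ (lam : ℝ) (j : ℕ)
    (κ' κ ρ' ρ B : ℝ), 0 ≤ lam → 0 < κ' → κ' ≤ κ → 0 < ρ' → ρ' ≤ ρ → ρ ≤ κ → 0 ≤ B →
      hc A lam * (2 * κ) ≤ 1 → hc A lam * (κ' + κ ^ 2) ≤ ρ / 2 →
      (∀ q : Ix ι ℝ Γ D, lh m s lQ q ≤ lam → HO (Om m s q (κ' + ρ') (κ + 2 * ρ)) B
        (fun e : ℝ × Pl × Pl => uu m (s q.i) j (e.1, e.2.1, q.g • e.2.2))) →
      ∀ q : Ix ι ℝ Γ D, lh m s lQ q ≤ lam → HO (Om m s q κ' κ) (hc A lam * B / ρ' ^ 2)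
        (fun e : ℝ × Pl × Pl => uu m (s q.i) (j + 1) (e.1, e.2.1, q.g • e.2.2)) := by
  obtain ⟨A1, hA1, hgp⟩ := gp_map h
  obtain ⟨A2, hA2, hTT⟩ := TT_step h
  refine ⟨max A1 A2, le_max_of_le_left hA1, ?_⟩
  intro lam j κ' κ ρ' ρ B h0 hκ' hκκ hρ' hρρ hρκ hB hH hH2 hu q hq
  set A := max A1 A2 with hA
  have hAA1 : A1 ≤ A := le_max_left _ _
  have hAA2 : A2 ≤ A := le_max_right _ _
  set H := hc A lam with hHdef
  have hH1 : 1 ≤ H := hc_one (le_max_of_le_left hA1) h0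
  have hH0 : 0 < H := lt_of_lt_of_le one_pos hH1
  have hρ : 0 < ρ := lt_of_lt_of_le hρ' hρρ
  have hκ : 0 < κ := lt_of_lt_of_le hκ' hκκ
  have hκ2 : 2 * κ ≤ 1 := by
    have : 1 * (2 * κ) ≤ H * (2 * κ) := mul_le_mul_of_nonneg_right hH1 (by linarith)
    linarith
  have hj0 : (0 : ℝ) ≤ (j : ℝ) := Nat.cast_nonneg j
  set δ := min (ρ / (2 * H)) (1 / (2 * ((j : ℝ) + 1))) with hδ
  have hδ0 : 0 < δ := lt_min (by positivity) (by positivity)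
  have hδH : H * δ ≤ ρ / 2 := by
    have h1 : δ ≤ ρ / (2 * H) := min_le_left _ _
    calc H * δ ≤ H * (ρ / (2 * H)) := mul_le_mul_of_nonneg_left h1 hH0.le
      _ = ρ / 2 := by field_simp
  have hδκ : δ ≤ κ := by
    have h1 : 1 * δ ≤ H * δ := mul_le_mul_of_nonneg_right hH1 hδ0.le
    linarith
  have hlh := N5_lh h q
  have hb0 : 0 ≤ H * B / ρ' ^ 2 := by positivity
  have key : HO (Om m s q κ' κ) (H * B / ρ' ^ 2) (fun y : ℝ × Pl × Pl => ∫ r in (0 : ℝ)..1,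
      (fun z : ℝ × (ℝ × Pl × Pl) => (1 / 4 : ℝ) * (z.1 ^ j *
        TT m (s q.i) (uu m (s q.i) j) (z.2.1, z.2.2.1,
          gp m (s q.i) z.1 (z.2.1, z.2.2.1, q.g • z.2.2.2)))) (r, y)) := by
    refine HO_int (E := ℝ × Pl × Pl) (F := ℝ) (EC := ℂ × (ℂ × ℂ) × (ℂ × ℂ)) (FC := ℂ)
      (Om_open h.cf q κ' κ) hδ0 (f := fun z : ℝ × (ℝ × Pl × Pl) => (1 / 4 : ℝ) * (z.1 ^ j *
        TT m (s q.i) (uu m (s q.i) j) (z.2.1, z.2.2.1,
          gp m (s q.i) z.1 (z.2.1, z.2.2.1, q.g • z.2.2.2)))) ?_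
    intro r0 hr0
    set q1 : Ix ι ℝ Γ D × Icc (0 : ℝ) 1 := (q, ⟨r0, hr0⟩) with hq1
    have hlq : lh m s lQ (qr h.cf q1) ≤ lam := (qr_lh h q1).trans hq
    have hl0 := N5_lh h (qr h.cf q1)
    -- the extension of `TT`
    have hu1 := hu (qr h.cf q1) hlq
    have hu2 : HO (Om m s (qr h.cf q1) (κ' + ρ') (κ + ρ + ρ')) B
        (fun e : ℝ × Pl × Pl => uu m (s q.i) j (e.1, e.2.1, (qr h.cf q1).g • e.2.2)) :=
      HO_mono hu1 (Om_mono _ le_rfl (by linarith)) le_rfl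
    have hc2 : hc A2 (lh m s lQ (qr h.cf q1)) ≤ H := N5_hc hA2 hAA2 hl0 hlq
    have hc1 : hc A1 (lh m s lQ q) ≤ H := N5_hc hA1 hAA1 hlh hq
    obtain ⟨T, hT1, hT2, hT3⟩ := hTT (qr h.cf q1) (uu m (s q.i) j) (uu_smooth h.cf q.i j) κ' (κ + ρ)
      ρ' B hκ' (by linarith) hρ' (by linarith) hB (by
        calc hc A2 (lh m s lQ (qr h.cf q1)) * (κ + ρ) ≤ H * (2 * κ) :=
              mul_le_mul hc2 (by linarith) (by linarith) hH0.le
          _ ≤ 1 := hH) hu2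
    obtain ⟨g, hg1, hg2, hg3⟩ := hgp q1 κ' κ δ hκ' hκκ hδ0 hδκ (by
        calc hc A1 (lh m s lQ q) * κ ≤ H * (2 * κ) :=
              mul_le_mul hc1 (by linarith) (by linarith) hH0.le
          _ ≤ 1 := hH)
    have hsub : Om m s (qr h.cf q1) κ' (κ + hc A1 (lh m s lQ q1.1) * (κ' + δ + κ ^ 2)) ⊆
        Om m s (qr h.cf q1) κ' (κ + ρ) := by
      refine Om_mono _ le_rfl ?_
      have h1 : hc A1 (lh m s lQ q1.1) * (κ' + δ + κ ^ 2) ≤ H * (κ' + δ + κ ^ 2) :=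
        mul_le_mul_of_nonneg_right hc1 (by positivity)
      have h2 : H * (κ' + δ + κ ^ 2) = H * (κ' + κ ^ 2) + H * δ := by ring
      linarith
    have hmaps : ∀ z ∈ Metric.ball (r0 : ℂ) δ ×ˢ Om m s q κ' κ,
        g z ∈ Om m s (qr h.cf q1) κ' (κ + ρ) := fun z hz => hsub (hg3 z hz)
    refine ⟨fun z => (1 / 4 : ℂ) * (z.1 ^ j * T (g z)), ?_, ?_, ?_⟩
    · have h1 : DifferentiableOn ℂ (fun z : ℂ × (ℂ × (ℂ × ℂ) × (ℂ × ℂ)) => T (g z))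
          (Metric.ball (r0 : ℂ) δ ×ˢ Om m s q κ' κ) := hT1.comp hg1 hmaps
      have h2 : DifferentiableOn ℂ (fun z : ℂ × (ℂ × (ℂ × ℂ) × (ℂ × ℂ)) => z.1 ^ j)
          (Metric.ball (r0 : ℂ) δ ×ˢ Om m s q κ' κ) :=
        (differentiable_fst.pow j).differentiableOn
      exact (h2.mul h1).const_mul _
    · intro z hz
      have h1 := hT2 (g z) (hmaps z hz)
      have h2 : ‖z.1‖ ≤ 1 + 1 / (2 * ((j : ℝ) + 1)) := by
        have h3 : dist z.1 (r0 : ℂ) < δ := hz.1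
        rw [dist_eq_norm] at h3
        have h4 : ‖(r0 : ℂ)‖ ≤ 1 := by
          rw [Complex.norm_real, Real.norm_of_nonneg hr0.1]
          exact hr0.2
        have h5 : ‖z.1‖ ≤ ‖z.1 - (r0 : ℂ)‖ + ‖(r0 : ℂ)‖ := by
          have := norm_add_le (z.1 - (r0 : ℂ)) (r0 : ℂ)
          rwa [sub_add_cancel] at this
        have h6 : δ ≤ 1 / (2 * ((j : ℝ) + 1)) := min_le_right _ _
        linarith
      have h3 : ‖z.1‖ ^ j ≤ 4 := N5_pow j (norm_nonneg _) h2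
      have h4 : ‖T (g z)‖ ≤ H * B / ρ' ^ 2 := by
        refine h1.trans ?_
        gcongr
      rw [norm_mul, norm_mul, norm_pow]
      have h5 : ‖(1 / 4 : ℂ)‖ = 1 / 4 := by norm_num
      rw [h5]
      have h6 : ‖z.1‖ ^ j * ‖T (g z)‖ ≤ 4 * (H * B / ρ' ^ 2) :=
        mul_le_mul h3 h4 (norm_nonneg _) (by norm_num)
      linarith
    · rintro ⟨r, e⟩ hz
      have h1 := hg2 r e hz
      have h2 := hmaps _ hz
      rw [h1] at h2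
      have h3 := hT3 _ h2
      change (1 / 4 : ℂ) * (((r : ℝ) : ℂ) ^ j * T (g (CX.of (r, e)))) = _
      rw [h1, h3]
      change (1 / 4 : ℂ) * (((r : ℝ) : ℂ) ^ j *
        ((TT m (s q.i) (uu m (s q.i) j) (e.1, e.2.1, gη h.cf.hX m s q1 •
          (gη h.cf.hX m s q1)⁻¹ • gp m (s q.i) r (e.1, e.2.1, q.g • e.2.2)) : ℝ) : ℂ)) =
        (((1 / 4 : ℝ) * (r ^ j * TT m (s q.i) (uu m (s q.i) j) (e.1, e.2.1,
          gp m (s q.i) r (e.1, e.2.1, q.g • e.2.2))) : ℝ) : ℂ)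
      rw [smul_inv_smul]
      push_cast
      ring
  refine HO_congr key ?_
  intro y _
  rw [uu_succ h.cf q.i j, ← intervalIntegral.integral_const_mul]

end BE36
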